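import Pool.Agent.Lib.MP_31386d_pr_POTTS.Defs

/-!
# Averaging over translations of a lattice path

Module L5 of project POTTS (pure analysis).
-/

set_option autoImplicit false

namespace Pool.Agent.Lib.MP_31386d_pr_POTTS

open Finset
open Pool.Agent.Lib.MP_31386d_pr

variable {d : ℕ}

/-- The translate of a point of the half cube by a short vector is in the cube. -/
theorem average_mem {N n : ℕ} (hn : 2 * n ≤ N) {v p : Pt d} (hv : v ∈ cube d (N / 2))
    (hp : ∀ j, |p j| ≤ n) : v + p ∈ cube d N := by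
  rw [mem_cube] at hv ⊢
  intro i
  have h1 := hv i
  have h2 := abs_le.mp (hp i)
  rw [Pi.add_apply]
  have h3 : ((N / 2 : ℕ) : ℤ) + n ≤ N := by
    have : N / 2 + n ≤ N := by omega
    exact_mod_cast this
  constructor <;> linarith [h1.1, h1.2, h2.1, h2.2]

/-- One step. -/
theorem average_step {N n : ℕ} (hn : 2 * n ≤ N) (H : Pt d → Pt d → ℝ) (L : Ed d → ℝ) {κ S : ℝ}
    (hκ : 0 ≤ κ) (hL : ∀ e ∈ EI (cube d N), 0 ≤ L e) (hS : ∑ e ∈ EI (cube d N), L e ≤ S)
    (hstep : ∀ v ∈ cube d N, ∀ e ∈ EI (cube d N), |H v e.1 - H v (tgt e)| ≤ κ * Real.sqrt (L e))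
    (p : Pt d) (i : Fin d) (hp : ∀ j, |p j| ≤ n)
    (hp' : ∀ j, |(p + Pi.single i 1 : Pt d) j| ≤ n) :
    ∑ v ∈ cube d (N / 2), |H v (v + p) - H v (v + (p + Pi.single i 1))| ≤
      κ * Real.sqrt ((cube d (N / 2)).card * S) := by
  classical
  have hmem : ∀ v ∈ cube d (N / 2), ((v + p, i) : Ed d) ∈ EI (cube d N) := by
    intro v hv
    rw [mem_EI]
    refine ⟨average_mem hn hv hp, ?_⟩
    have : tgt ((v + p, i) : Ed d) = v + (p + Pi.single i 1) := by
      unfold tgt
      rw [add_assoc]
    rw [this]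
    exact average_mem hn hv hp'
  have hV : ∀ v ∈ cube d (N / 2), v ∈ cube d N := by
    intro v hv
    have := average_mem hn hv (p := 0) (fun j => by simp)
    rwa [add_zero] at this
  have h1 : ∑ v ∈ cube d (N / 2), |H v (v + p) - H v (v + (p + Pi.single i 1))| ≤
      ∑ v ∈ cube d (N / 2), κ * Real.sqrt (L (v + p, i)) := by
    refine sum_le_sum fun v hv => ?_
    have h := hstep v (hV v hv) _ (hmem v hv)
    have e : tgt ((v + p, i) : Ed d) = v + (p + Pi.single i 1) := by
      unfold tgt
      rw [add_assoc]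
    rw [e] at h
    exact h
  refine h1.trans ?_
  rw [← mul_sum]
  refine mul_le_mul_of_nonneg_left ?_ hκ
  apply Real.le_sqrt_of_sq_le
  refine (sq_sum_le_card_mul_sum_sq).trans ?_
  refine mul_le_mul_of_nonneg_left ?_ (Nat.cast_nonneg _)
  have h2 : ∑ v ∈ cube d (N / 2), Real.sqrt (L (v + p, i)) ^ 2 =
      ∑ v ∈ cube d (N / 2), L (v + p, i) :=
    sum_congr rfl fun v hv => Real.sq_sqrt (hL _ (hmem v hv))
  rw [h2]
  have hinj : Set.InjOn (fun v : Pt d => ((v + p, i) : Ed d)) (cube d (N / 2)) := by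
    intro a _ b _ hab
    have h := congrArg Prod.fst hab
    exact add_right_cancel h
  have h3 : ∑ v ∈ cube d (N / 2), L (v + p, i) =
      ∑ e ∈ (cube d (N / 2)).image (fun v : Pt d => ((v + p, i) : Ed d)), L e :=
    (sum_image hinj).symm
  rw [h3]
  refine le_trans (sum_le_sum_of_subset_of_nonneg ?_ fun e he _ => hL e he) hS
  intro e he
  obtain ⟨v, hv, rfl⟩ := mem_image.mp he
  exact hmem v hv

theorem average_natAbs (p p' : Pt d) (i : Fin d) (h : ∀ j, j ≠ i → p' j = p j)
    (hi : (p i).natAbs = (p' i).natAbs + 1) :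
    ∑ j, (p j).natAbs = ∑ j, (p' j).natAbs + 1 := by
  rw [← add_sum_erase univ (fun j => (p j).natAbs) (mem_univ i),
    ← add_sum_erase univ (fun j => (p' j).natAbs) (mem_univ i)]
  have h2 : ∑ j ∈ univ.erase i, (p j).natAbs = ∑ j ∈ univ.erase i, (p' j).natAbs :=
    sum_congr rfl fun j hj => by rw [h j (ne_of_mem_erase hj)]
  rw [h2, hi]
  ring

/-- Several steps. -/
theorem average_path {N n : ℕ} (hn : 2 * n ≤ N) (H : Pt d → Pt d → ℝ) (L : Ed d → ℝ) {κ S : ℝ}
    (hκ : 0 ≤ κ) (hL : ∀ e ∈ EI (cube d N), 0 ≤ L e) (hS : ∑ e ∈ EI (cube d N), L e ≤ S)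
    (hstep : ∀ v ∈ cube d N, ∀ e ∈ EI (cube d N), |H v e.1 - H v (tgt e)| ≤ κ * Real.sqrt (L e))
    (m : ℕ) : ∀ p : Pt d, (∀ j, |p j| ≤ n) → ∑ j, (p j).natAbs = m →
    ∑ v ∈ cube d (N / 2), |H v v - H v (v + p)| ≤
      m * (κ * Real.sqrt ((cube d (N / 2)).card * S)) := by
  induction m with
  | zero =>
      intro p hp hm
      have h0 : p = 0 := by
        funext j
        have := (sum_eq_zero_iff.mp hm) j (mem_univ j)
        exact Int.natAbs_eq_zero.mp this
      subst h0
      simp
  | succ m ih =>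
      intro p hp hm
      have hex : ∃ i, p i ≠ 0 := by
        by_contra hne
        push Not at hne
        have : ∑ j, (p j).natAbs = 0 := sum_eq_zero fun j _ => by rw [hne j]; rfl
        omega
      obtain ⟨i, hi⟩ := hex
      have key : ∃ p' : Pt d, (∀ j, |p' j| ≤ n) ∧ ∑ j, (p' j).natAbs = m ∧
          (p = p' + Pi.single i 1 ∨ p' = p + Pi.single i 1) := by
        rcases lt_or_gt_of_ne hi with hneg | hpos
        · refine ⟨p + Pi.single i 1, ?_, ?_, Or.inr rfl⟩
          · intro j
            by_cases hj : j = i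
            · subst hj
              rw [Pi.add_apply, Pi.single_eq_same, abs_le]
              have := abs_le.mp (hp j)
              constructor <;> linarith [this.1, this.2]
            · rw [Pi.add_apply, Pi.single_eq_of_ne hj, add_zero]
              exact hp j
          · have h1 := average_natAbs p (p + Pi.single i 1) i
              (fun j hj => by rw [Pi.add_apply, Pi.single_eq_of_ne hj, add_zero])
              (by rw [Pi.add_apply, Pi.single_eq_same]; omega)
            omega
        · refine ⟨p - Pi.single i 1, ?_, ?_, Or.inl (by rw [sub_add_cancel])⟩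
          · intro j
            by_cases hj : j = i
            · subst hj
              rw [Pi.sub_apply, Pi.single_eq_same, abs_le]
              have := abs_le.mp (hp j)
              constructor <;> linarith [this.1, this.2]
            · rw [Pi.sub_apply, Pi.single_eq_of_ne hj, sub_zero]
              exact hp j
          · have h1 := average_natAbs p (p - Pi.single i 1) i
              (fun j hj => by rw [Pi.sub_apply, Pi.single_eq_of_ne hj, sub_zero])
              (by rw [Pi.sub_apply, Pi.single_eq_same]; omega)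
            omega
      obtain ⟨p', hp', hm', hpp⟩ := key
      have h1 := ih p' hp' hm'
      have h2 : ∑ v ∈ cube d (N / 2), |H v (v + p') - H v (v + p)| ≤
          κ * Real.sqrt ((cube d (N / 2)).card * S) := by
        rcases hpp with h | h
        · subst h
          exact average_step hn H L hκ hL hS hstep p' i hp' hp
        · subst h
          have h3 := average_step hn H L hκ hL hS hstep p i hp hp'
          refine le_trans (le_of_eq ?_) h3
          exact sum_congr rfl fun v _ => abs_sub_comm _ _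
      have h3 : ∑ v ∈ cube d (N / 2), |H v v - H v (v + p)| ≤
          ∑ v ∈ cube d (N / 2), (|H v v - H v (v + p')| + |H v (v + p') - H v (v + p)|) :=
        sum_le_sum fun v _ => abs_sub_le _ _ _
      rw [sum_add_distrib] at h3
      push_cast
      linarith

/-- `H v y` varies along an edge `e` by at most `κ √(L e)`, and `H v v = 1`. Then for some `v` in
the half cube `H v (v + x)` is close to one. -/
theorem average {N n : ℕ} (hn : 2 * n ≤ N) (H : Pt d → Pt d → ℝ) (L : Ed d → ℝ) {κ S : ℝ}
    (hκ : 0 ≤ κ) (hL : ∀ e ∈ EI (cube d N), 0 ≤ L e) (hS : ∑ e ∈ EI (cube d N), L e ≤ S)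
    (hH : ∀ v ∈ cube d N, H v v = 1)
    (hstep : ∀ v ∈ cube d N, ∀ e ∈ EI (cube d N), |H v e.1 - H v (tgt e)| ≤ κ * Real.sqrt (L e))
    (x : Pt d) (hx : ∀ i, |x i| ≤ n) :
    ∃ v ∈ cube d (N / 2), 1 - H v (v + x) ≤ κ * d * n * Real.sqrt (S / (N : ℝ) ^ d) := by
  classical
  have hV : ∀ v ∈ cube d (N / 2), v ∈ cube d N := by
    intro v hv
    have := average_mem hn hv (p := 0) (fun j => by simp)
    rwa [add_zero] at this
  have h0mem : (0 : Pt d) ∈ cube d (N / 2) := by
    rw [mem_cube]
    intro i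
    have h : (0 : ℤ) ≤ ((N / 2 : ℕ) : ℤ) := Int.natCast_nonneg _
    rw [Pi.zero_apply]
    constructor <;> linarith
  have hS0 : 0 ≤ S := le_trans (sum_nonneg hL) hS
  rcases Nat.eq_zero_or_pos N with hN | hN
  · -- trivial case
    have hn0 : n = 0 := by omega
    have hx0 : x = 0 := by
      funext i
      have := hx i
      rw [hn0] at this
      have h : |x i| ≤ 0 := by exact_mod_cast this
      exact abs_eq_zero.mp (le_antisymm h (abs_nonneg _))
    refine ⟨0, h0mem, ?_⟩
    rw [hx0, add_zero, hH 0 (hV 0 h0mem), sub_self]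
    positivity
  set V0 := cube d (N / 2) with hV0
  have hcard : V0.card = (2 * (N / 2) + 1) ^ d := by
    rw [hV0]
    simp only [cube, Fintype.card_piFinset, Int.card_Icc, prod_const, card_univ,
      Fintype.card_fin]
    congr 1
    omega
  have hcardN : (N : ℝ) ^ d ≤ V0.card := by
    rw [hcard]
    push_cast
    apply pow_le_pow_left₀ (Nat.cast_nonneg N)
    have : N ≤ 2 * (N / 2) + 1 := by omega
    exact_mod_cast this
  have hNd : (0 : ℝ) < (N : ℝ) ^ d := by positivity
  have hc0 : (0 : ℝ) < V0.card := lt_of_lt_of_le hNd hcardN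
  -- the sum over the half cube
  have hsum := average_path hn H L hκ hL hS hstep (∑ j, (x j).natAbs) x hx rfl
  have hm : ((∑ j, (x j).natAbs : ℕ) : ℝ) ≤ d * n := by
    have h1 : ∑ j, (x j).natAbs ≤ ∑ _j : Fin d, n := by
      refine sum_le_sum fun j _ => ?_
      have h := hx j
      rw [Int.abs_eq_natAbs] at h
      exact_mod_cast h
    rw [sum_const, card_univ, Fintype.card_fin, smul_eq_mul] at h1
    exact_mod_cast h1
  have hlow : ∑ v ∈ V0, (1 - H v (v + x)) ≤ (d * n) * (κ * Real.sqrt (V0.card * S)) := by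
    have h1 : ∑ v ∈ V0, (1 - H v (v + x)) ≤ ∑ v ∈ V0, |H v v - H v (v + x)| := by
      refine sum_le_sum fun v hv => ?_
      rw [hH v (hV v hv)]
      exact le_abs_self _
    refine h1.trans (hsum.trans ?_)
    exact mul_le_mul_of_nonneg_right hm (by positivity)
  have hsq : Real.sqrt (V0.card * S) ≤ V0.card * Real.sqrt (S / (N : ℝ) ^ d) := by
    have h1 : Real.sqrt (V0.card * S) = V0.card * Real.sqrt (S / V0.card) := by
      rw [show (V0.card : ℝ) * S = (V0.card : ℝ) ^ 2 * (S / V0.card) by
        field_simp]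
      rw [Real.sqrt_mul (by positivity), Real.sqrt_sq hc0.le]
    rw [h1]
    refine mul_le_mul_of_nonneg_left ?_ hc0.le
    apply Real.sqrt_le_sqrt
    exact div_le_div_of_nonneg_left hS0 hNd hcardN
  by_contra hno
  push Not at hno
  have hlt : ∑ _v ∈ V0, κ * d * n * Real.sqrt (S / (N : ℝ) ^ d) < ∑ v ∈ V0, (1 - H v (v + x)) :=
    sum_lt_sum_of_nonempty ⟨0, h0mem⟩ hno
  rw [sum_const, nsmul_eq_mul] at hlt
  have h5 : (d * n) * (κ * Real.sqrt (V0.card * S)) ≤
      V0.card * (κ * d * n * Real.sqrt (S / (N : ℝ) ^ d)) := by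
    have h6 : (d * n : ℝ) * κ * Real.sqrt (V0.card * S) ≤
        (d * n : ℝ) * κ * (V0.card * Real.sqrt (S / (N : ℝ) ^ d)) :=
      mul_le_mul_of_nonneg_left hsq (by positivity)
    linarith
  linarith

end Pool.Agent.Lib.MP_31386d_pr_POTTS
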