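import Pool.Agent.Lib.MP_31386d_pr_POTTS.Poincare

/-!
# Averages over nested boxes

Module E2 of project POTTS (pure analysis on the lattice).
-/

set_option autoImplicit false

namespace Pool.Agent.Lib.MP_31386d_pr_POTTS

open Finset
open Pool.Agent.Lib.MP_31386d_pr

variable {d : ℕ}

private lemma avgStep_double (h : Pt d → ℝ) (Q' Q : Finset (Pt d)) :
    ∑ x ∈ Q', ∑ y ∈ Q, (h x - h y) =
      (Q.card : ℝ) * ∑ x ∈ Q', h x - (Q'.card : ℝ) * ∑ y ∈ Q, h y := by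
  simp only [sum_sub_distrib, sum_const, nsmul_eq_mul, mul_sum]

private lemma avgStep_cs (h : Pt d → ℝ) (Q' Q : Finset (Pt d)) :
    (∑ x ∈ Q', ∑ y ∈ Q, (h x - h y)) ^ 2 ≤
      ((Q'.card : ℝ) * (Q.card : ℝ)) * ∑ x ∈ Q', ∑ y ∈ Q, (h x - h y) ^ 2 := by
  have h1 := sq_sum_le_card_mul_sum_sq (s := Q' ×ˢ Q) (f := fun p : Pt d × Pt d => h p.1 - h p.2)
  rw [sum_product, sum_product, card_product] at h1
  push_cast at h1
  exact h1

/-- Averages over a box of side `2 l` and over a sub-box of side `l`. -/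
theorem avg_step (hd : 2 ≤ d) (h : Pt d → ℝ) {c c' : Pt d} {l : ℕ} (hl : 1 ≤ l)
    (hc : bx c' l ⊆ bx c (2 * l)) :
    (avg h c' l - avg h c (2 * l)) ^ 2 * ((2 * l : ℕ) : ℝ) ^ (d - 2) ≤
      2 ^ d * d * En h (bx c (2 * l)) := by
  have hlR : (0 : ℝ) < (l : ℝ) := by exact_mod_cast hl
  have hl2 : (0 : ℝ) < ((2 * l : ℕ) : ℝ) := by
    push_cast
    linarith
  have hcard' : ((bx c' l).card : ℝ) = (l : ℝ) ^ d := by
    rw [card_bx]
    push_cast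
    ring
  have hcard : ((bx c (2 * l)).card : ℝ) = ((2 * l : ℕ) : ℝ) ^ d := by
    rw [card_bx]
    push_cast
    ring
  have ha : (0 : ℝ) < (l : ℝ) ^ d := pow_pos hlR d
  have hA : (0 : ℝ) < ((2 * l : ℕ) : ℝ) ^ d := pow_pos hl2 d
  have hD : (l : ℝ) ^ d * ((2 * l : ℕ) : ℝ) ^ d * (avg h c' l - avg h c (2 * l)) =
      ∑ x ∈ bx c' l, ∑ y ∈ bx c (2 * l), (h x - h y) := by
    rw [avgStep_double, hcard, hcard']
    unfold avg
    field_simp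
  have hcs := avgStep_cs h (bx c' l) (bx c (2 * l))
  rw [← hD, hcard, hcard'] at hcs
  have hsub : ∑ x ∈ bx c' l, ∑ y ∈ bx c (2 * l), (h x - h y) ^ 2 ≤
      ∑ x ∈ bx c (2 * l), ∑ y ∈ bx c (2 * l), (h x - h y) ^ 2 :=
    sum_le_sum_of_subset_of_nonneg hc fun _ _ _ => sum_nonneg fun _ _ => sq_nonneg _
  have hp := poincare h c (2 * l)
  have hS := hsub.trans hp
  set a : ℝ := (l : ℝ) ^ d with hadef
  set A : ℝ := ((2 * l : ℕ) : ℝ) ^ d with hAdef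
  set D : ℝ := avg h c' l - avg h c (2 * l) with hDdef
  set E : ℝ := En h (bx c (2 * l)) with hEdef
  have h1 : (a * A) * ((a * A) * D ^ 2) ≤ (a * A) * (d * ((2 * l : ℕ) : ℝ) ^ (d + 2) * E) := by
    calc (a * A) * ((a * A) * D ^ 2) = (a * A * D) ^ 2 := by ring
      _ ≤ (a * A) * ∑ x ∈ bx c' l, ∑ y ∈ bx c (2 * l), (h x - h y) ^ 2 := hcs
      _ ≤ (a * A) * (d * ((2 * l : ℕ) : ℝ) ^ (d + 2) * E) :=
        mul_le_mul_of_nonneg_left hS (mul_pos ha hA).le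
  have h2 : (a * A) * D ^ 2 ≤ d * ((2 * l : ℕ) : ℝ) ^ (d + 2) * E :=
    le_of_mul_le_mul_left h1 (mul_pos ha hA)
  have hpow : ((2 * l : ℕ) : ℝ) ^ (d + 2) * ((2 * l : ℕ) : ℝ) ^ (d - 2) = A * A := by
    rw [hAdef, ← pow_add, ← pow_add]
    congr 1
    omega
  have hAa : A = 2 ^ d * a := by
    rw [hAdef, hadef]
    push_cast
    rw [mul_pow]
  have h3 : (a * A) * (D ^ 2 * ((2 * l : ℕ) : ℝ) ^ (d - 2)) ≤ (a * A) * (2 ^ d * d * E) := by
    calc (a * A) * (D ^ 2 * ((2 * l : ℕ) : ℝ) ^ (d - 2))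
        = ((a * A) * D ^ 2) * ((2 * l : ℕ) : ℝ) ^ (d - 2) := by ring
      _ ≤ (d * ((2 * l : ℕ) : ℝ) ^ (d + 2) * E) * ((2 * l : ℕ) : ℝ) ^ (d - 2) :=
        mul_le_mul_of_nonneg_right h2 (pow_pos hl2 _).le
      _ = (((2 * l : ℕ) : ℝ) ^ (d + 2) * ((2 * l : ℕ) : ℝ) ^ (d - 2)) * (d * E) := by ring
      _ = (A * A) * (d * E) := by rw [hpow]
      _ = (a * A) * (2 ^ d * d * E) := by
        nth_rewrite 1 [hAa]
        ring
  exact le_of_mul_le_mul_left h3 (mul_pos ha hA)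

end Pool.Agent.Lib.MP_31386d_pr_POTTS
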