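import Pool.Agent.Lib.MP_31386d_pr_POTTS.Telescope

/-!
# Dyadic chains of boxes

Module E4 of project POTTS (pure analysis on the lattice).
-/

set_option autoImplicit false

namespace Pool.Agent.Lib.MP_31386d_pr_POTTS

open Finset
open Pool.Agent.Lib.MP_31386d_pr

variable {d : ℕ}

private theorem Chains_ediv_bounds (k : ℤ) (m : ℕ) :
    2 ^ m * (k / 2 ^ m) ≤ k ∧ k < 2 ^ m * (k / 2 ^ m) + 2 ^ m := by
  have hp : (0 : ℤ) < 2 ^ m := by positivity
  have h1 := Int.emod_add_mul_ediv k (2 ^ m)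
  have h2 := Int.emod_nonneg k hp.ne'
  have h3 := Int.emod_lt_of_pos k hp
  constructor <;> linarith

private theorem Chains_half (k : ℤ) (m : ℕ) :
    2 * (k / 2 ^ (m + 1)) ≤ k / 2 ^ m ∧ k / 2 ^ m ≤ 2 * (k / 2 ^ (m + 1)) + 1 := by
  have hp : (0 : ℤ) < 2 ^ m := by positivity
  obtain ⟨h1, h2⟩ := Chains_ediv_bounds k m
  obtain ⟨h3, h4⟩ := Chains_ediv_bounds k (m + 1)
  rw [pow_succ] at h3 h4 ⊢
  generalize k / 2 ^ m = a at *
  generalize k / (2 ^ m * 2) = b at *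
  generalize (2 : ℤ) ^ m = P at *
  constructor
  · by_contra hlt
    push Not at hlt
    have : P * (a + 1) ≤ P * (2 * b) := mul_le_mul_of_nonneg_left (by linarith) hp.le
    nlinarith
  · by_contra hlt
    push Not at hlt
    have : P * (2 * b + 2) ≤ P * a := mul_le_mul_of_nonneg_left (by linarith) hp.le
    nlinarith

private theorem Chains_incl (s m : ℕ) (k : Pt d) :
    bx (fun t => ((s * 2 ^ m : ℕ) : ℤ) * (k t / 2 ^ m)) (s * 2 ^ m) ⊆
      bx (fun t => ((s * 2 ^ (m + 1) : ℕ) : ℤ) * (k t / 2 ^ (m + 1))) (s * 2 ^ (m + 1)) := by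
  intro x hx
  rw [mem_bx] at hx ⊢
  intro t
  have hx1 := (hx t).1
  have hx2 := (hx t).2
  obtain ⟨h1, h2⟩ := Chains_half (k t) m
  have hP : (0 : ℤ) ≤ ((s * 2 ^ m : ℕ) : ℤ) := Int.natCast_nonneg _
  have e : ((s * 2 ^ (m + 1) : ℕ) : ℤ) = 2 * ((s * 2 ^ m : ℕ) : ℤ) := by
    push_cast
    ring
  rw [e]
  generalize ((s * 2 ^ m : ℕ) : ℤ) = P at *
  generalize k t / 2 ^ m = a at *
  generalize k t / 2 ^ (m + 1) = b at *
  have h3 := mul_le_mul_of_nonneg_left h1 hP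
  have h4 := mul_le_mul_of_nonneg_left h2 hP
  constructor
  · show 2 * P * b ≤ x t
    linarith
  · show x t < 2 * P * b + 2 * P
    linarith

private theorem Chains_ediv_eq {k i : ℤ} {l : ℕ} (h1 : 2 ^ l * i ≤ k) (h2 : k < 2 ^ l * i + 2 ^ l) :
    k / 2 ^ l = i := by
  have hp : (0 : ℤ) < 2 ^ l := by positivity
  obtain ⟨h3, h4⟩ := Chains_ediv_bounds k l
  generalize k / 2 ^ l = a at *
  generalize (2 : ℤ) ^ l = P at *
  rcases lt_trichotomy a i with h | h | h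
  · exfalso
    have : P * (a + 1) ≤ P * i := mul_le_mul_of_nonneg_left (by linarith) hp.le
    linarith
  · exact h
  · exfalso
    have : P * (i + 1) ≤ P * a := mul_le_mul_of_nonneg_left (by linarith) hp.le
    linarith

/-- Dyadic chain from a seed to its block: `k` is the index of the seed, `i` that of the block. -/
theorem chain_block (hd : 3 ≤ d) (h : Pt d → ℝ) {r : ℕ} (hr : 1 ≤ r) (l : ℕ) {k i : Pt d}
    (hk : k ∈ bx (fun t => 2 ^ l * i t) (2 ^ l)) :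
    (avg h (fun t => (r : ℤ) * k t) r - avg h (fun t => ((r * 2 ^ l : ℕ) : ℤ) * i t) (r * 2 ^ l)) ^ 2 *
      (r : ℝ) ^ (d - 2) ≤
      9 * (2 ^ d * d) * En h (bx (fun t => ((r * 2 ^ l : ℕ) : ℤ) * i t) (r * 2 ^ l)) := by
  have key := telescope hd h hr (fun m t => ((r * 2 ^ m : ℕ) : ℤ) * (k t / 2 ^ m)) l
    (fun m _ => Chains_incl r m k)
  have e0 : (fun t => ((r * 2 ^ 0 : ℕ) : ℤ) * (k t / 2 ^ 0)) = fun t => (r : ℤ) * k t := by
    funext t
    simp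
  have el : (fun t => ((r * 2 ^ l : ℕ) : ℤ) * (k t / 2 ^ l)) =
      fun t => ((r * 2 ^ l : ℕ) : ℤ) * i t := by
    funext t
    rw [mem_bx] at hk
    have hk1 := (hk t).1
    have hk2 := (hk t).2
    push_cast at hk2
    rw [Chains_ediv_eq hk1 hk2]
  simp only [e0, el] at key
  exact key

/-- Chain from a `ρ`-block to the fine cube `n j + [0, 2 n)^d`, `n = ρ 2 ^ k₀`. -/
theorem chain_fine (hd : 3 ≤ d) (h : Pt d → ℝ) {ρ : ℕ} (hρ : 1 ≤ ρ) (k₀ : ℕ) {i j : Pt d}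
    (hi : i ∈ blocks k₀ j) :
    (avg h (fun t => (ρ : ℤ) * i t) ρ -
      avg h (fun t => ((ρ * 2 ^ k₀ : ℕ) : ℤ) * j t) (2 * (ρ * 2 ^ k₀))) ^ 2 * (ρ : ℝ) ^ (d - 2) ≤
      9 * (2 ^ d * d) * En h (bx (fun t => ((ρ * 2 ^ k₀ : ℕ) : ℤ) * j t) (2 * (ρ * 2 ^ k₀))) := by
  have hb : ∀ t, i t / 2 ^ k₀ = j t ∨ i t / 2 ^ k₀ = j t + 1 := by
    intro t
    unfold blocks at hi
    rw [mem_bx] at hi
    have h1 := (hi t).1
    have h2 := (hi t).2
    push_cast at h2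
    rw [pow_succ] at h2
    rcases lt_or_ge (i t) (2 ^ k₀ * j t + 2 ^ k₀) with h3 | h3
    · exact Or.inl (Chains_ediv_eq h1 h3)
    · refine Or.inr (Chains_ediv_eq ?_ ?_)
      · linarith
      · linarith
  have key := telescope hd h hρ (fun m => if m ≤ k₀ then
      (fun t => ((ρ * 2 ^ m : ℕ) : ℤ) * (i t / 2 ^ m)) else
      (fun t => ((ρ * 2 ^ k₀ : ℕ) : ℤ) * j t)) (k₀ + 1) (by
    intro m hm
    have hm' : m ≤ k₀ := Nat.lt_succ_iff.1 hm
    show bx (if m ≤ k₀ then (fun t => ((ρ * 2 ^ m : ℕ) : ℤ) * (i t / 2 ^ m)) else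
      (fun t => ((ρ * 2 ^ k₀ : ℕ) : ℤ) * j t)) (ρ * 2 ^ m) ⊆
      bx (if m + 1 ≤ k₀ then (fun t => ((ρ * 2 ^ (m + 1) : ℕ) : ℤ) * (i t / 2 ^ (m + 1))) else
      (fun t => ((ρ * 2 ^ k₀ : ℕ) : ℤ) * j t)) (ρ * 2 ^ (m + 1))
    rw [if_pos hm']
    rcases Nat.lt_or_ge m k₀ with h1 | h1
    · rw [if_pos (show m + 1 ≤ k₀ from h1)]
      exact Chains_incl ρ m i
    · have hmk : m = k₀ := le_antisymm hm' h1
      subst hmk
      rw [if_neg (by omega)]
      intro x hx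
      rw [mem_bx] at hx ⊢
      intro t
      have hx1 := (hx t).1
      have hx2 := (hx t).2
      have hP : (0 : ℤ) ≤ ((ρ * 2 ^ m : ℕ) : ℤ) := Int.natCast_nonneg _
      have e : ((ρ * 2 ^ (m + 1) : ℕ) : ℤ) = 2 * ((ρ * 2 ^ m : ℕ) : ℤ) := by
        push_cast
        ring
      rw [e]
      have hbt := hb t
      generalize ((ρ * 2 ^ m : ℕ) : ℤ) = P at *
      rcases hbt with h2 | h2
      · rw [h2] at hx1 hx2
        constructor
        · exact hx1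
        · show x t < P * j t + 2 * P
          linarith
      · rw [h2] at hx1 hx2
        constructor
        · show P * j t ≤ x t
          linarith
        · show x t < P * j t + 2 * P
          linarith)
  have e0 : (fun t => ((ρ * 2 ^ 0 : ℕ) : ℤ) * (i t / 2 ^ 0)) = fun t => (ρ : ℤ) * i t := by
    funext t
    simp
  have es : ρ * 2 ^ (k₀ + 1) = 2 * (ρ * 2 ^ k₀) := by ring
  simp only [e0, es, Nat.zero_le, if_true, if_neg (show ¬ (k₀ + 1 ≤ k₀) by omega)] at key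
  exact key

end Pool.Agent.Lib.MP_31386d_pr_POTTS
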