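import Pool.Agent.Lib.MP_31386d_pr_POTTS.Defs

/-!
# Clusters of abstract graphs: counting lemmas

Module A1 of project POTTS.
-/

set_option autoImplicit false

namespace Pool.Agent.Lib.MP_31386d_pr_POTTS

open Finset

section relations

variable {W : Type}

/-- Functions constant along `R` are functions on the quotient. -/
theorem card_const_fun [Finite W] (R : W → W → Prop) (α : Type) [Finite α] :
    Nat.card {s : W → α // ∀ x y, R x y → s x = s y} = Nat.card α ^ Nat.card (Quot R) := by
  let e : {s : W → α // ∀ x y, R x y → s x = s y} ≃ (Quot R → α) :=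
    { toFun := fun s => Quot.lift s.1 s.2
      invFun := fun f => ⟨fun x => f (Quot.mk R x), fun x y h => congrArg f (Quot.sound h)⟩
      left_inv := fun s => rfl
      right_inv := fun f => by
        funext q
        induction q using Quot.ind
        rfl }
  have hfin : Finite (Quot R) := Finite.of_surjective (Quot.mk R) Quot.exists_rep
  rw [Nat.card_congr e, Nat.card_fun]

theorem eqvGen_add (R : W → W → Prop) (a b x y : W) :
    Relation.EqvGen (fun x y => R x y ∨ (x = a ∧ y = b)) x y ↔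
      Relation.EqvGen R x y ∨ (Relation.EqvGen R x a ∧ Relation.EqvGen R b y) ∨
        (Relation.EqvGen R x b ∧ Relation.EqvGen R a y) := by
  have hmono : ∀ x y, Relation.EqvGen R x y →
      Relation.EqvGen (fun x y => R x y ∨ (x = a ∧ y = b)) x y := by
    intro x y h
    induction h with
    | rel x y h => exact Relation.EqvGen.rel _ _ (Or.inl h)
    | refl x => exact Relation.EqvGen.refl _
    | symm x y _ ih => exact Relation.EqvGen.symm _ _ ih
    | trans x y z _ _ ih1 ih2 => exact Relation.EqvGen.trans _ _ _ ih1 ih2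
  have hab : Relation.EqvGen (fun x y => R x y ∨ (x = a ∧ y = b)) a b :=
    Relation.EqvGen.rel _ _ (Or.inr ⟨rfl, rfl⟩)
  constructor
  · intro h
    induction h with
    | rel x y h =>
      rcases h with h | ⟨rfl, rfl⟩
      · exact Or.inl (Relation.EqvGen.rel _ _ h)
      · exact Or.inr (Or.inl ⟨Relation.EqvGen.refl _, Relation.EqvGen.refl _⟩)
    | refl x => exact Or.inl (Relation.EqvGen.refl _)
    | symm x y _ ih =>
      rcases ih with h | ⟨h1, h2⟩ | ⟨h1, h2⟩
      · exact Or.inl (h.symm _ _)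
      · exact Or.inr (Or.inr ⟨h2.symm _ _, h1.symm _ _⟩)
      · exact Or.inr (Or.inl ⟨h2.symm _ _, h1.symm _ _⟩)
    | trans x y z _ _ ih1 ih2 =>
      rcases ih1 with h | ⟨h1, h2⟩ | ⟨h1, h2⟩
      · rcases ih2 with g | ⟨g1, g2⟩ | ⟨g1, g2⟩
        · exact Or.inl (h.trans _ _ _ g)
        · exact Or.inr (Or.inl ⟨h.trans _ _ _ g1, g2⟩)
        · exact Or.inr (Or.inr ⟨h.trans _ _ _ g1, g2⟩)
      · rcases ih2 with g | ⟨g1, g2⟩ | ⟨g1, g2⟩
        · exact Or.inr (Or.inl ⟨h1, h2.trans _ _ _ g⟩)
        · exact Or.inr (Or.inl ⟨h1, g2⟩)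
        · exact Or.inl (h1.trans _ _ _ g2)
      · rcases ih2 with g | ⟨g1, g2⟩ | ⟨g1, g2⟩
        · exact Or.inr (Or.inr ⟨h1, h2.trans _ _ _ g⟩)
        · exact Or.inl (h1.trans _ _ _ g2)
        · exact Or.inr (Or.inr ⟨h1, g2⟩)
  · rintro (h | ⟨h1, h2⟩ | ⟨h1, h2⟩)
    · exact hmono _ _ h
    · exact ((hmono _ _ h1).trans _ _ _ hab).trans _ _ _ (hmono _ _ h2)
    · exact ((hmono _ _ h1).trans _ _ _ (hab.symm _ _)).trans _ _ _ (hmono _ _ h2)

private theorem quo_card_congr {W : Type} {R R' : W → W → Prop}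
    (h : ∀ x y, Relation.EqvGen R x y ↔ Relation.EqvGen R' x y) :
    Nat.card (Quot R) = Nat.card (Quot R') := by
  refine Nat.card_congr
    { toFun := Quot.lift (Quot.mk R') fun x y hxy =>
        Quot.eqvGen_sound ((h x y).1 (Relation.EqvGen.rel _ _ hxy))
      invFun := Quot.lift (Quot.mk R) fun x y hxy =>
        Quot.eqvGen_sound ((h x y).2 (Relation.EqvGen.rel _ _ hxy))
      left_inv := fun q => by
        induction q using Quot.ind
        rfl
      right_inv := fun q => by
        induction q using Quot.ind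
        rfl }

/-- Adding a pair inside a class does not change the number of classes. -/
theorem card_quot_add_of (R : W → W → Prop) (a b : W) (h : Relation.EqvGen R a b) :
    Nat.card (Quot (fun x y => R x y ∨ (x = a ∧ y = b))) = Nat.card (Quot R) := by
  refine quo_card_congr fun x y => ?_
  rw [eqvGen_add]
  constructor
  · rintro (h1 | ⟨h1, h2⟩ | ⟨h1, h2⟩)
    · exact h1
    · exact (h1.trans _ _ _ h).trans _ _ _ h2
    · exact (h1.trans _ _ _ (h.symm _ _)).trans _ _ _ h2
  · exact Or.inl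

/-- Adding a pair between two classes reduces the number of classes by one. -/
theorem card_quot_add_not [Finite W] (R : W → W → Prop) (a b : W)
    (h : ¬ Relation.EqvGen R a b) :
    Nat.card (Quot (fun x y => R x y ∨ (x = a ∧ y = b))) + 1 = Nat.card (Quot R) := by
  classical
  let χ : W → ZMod 2 := fun x => if Relation.EqvGen R x a then 1 else 0
  have hχa : χ a = 1 := if_pos (Relation.EqvGen.refl _)
  have hχb : χ b = 0 := if_neg fun h1 => h (h1.symm _ _)
  have hχR : ∀ x y, R x y → χ x = χ y := by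
    intro x y hxy
    have h1 : Relation.EqvGen R x a ↔ Relation.EqvGen R y a :=
      ⟨fun h2 => ((Relation.EqvGen.rel _ _ hxy).symm _ _).trans _ _ _ h2,
        fun h2 => (Relation.EqvGen.rel _ _ hxy).trans _ _ _ h2⟩
    simp only [χ, h1]
  have c1 : ∀ u v : ZMod 2, u + (u + v) * 1 = v + (u + v) * 0 := by decide
  have c2 : ∀ s u v t : ZMod 2, s + (u + v) * t + (u + v) * t = s := by decide
  have c3 : ∀ s t u : ZMod 2, s + u * t + u * t = s := by decide
  have c4 : ∀ s u : ZMod 2, s + u * 1 + (s + u * 0) = u := by decide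
  let e : {s : W → ZMod 2 // ∀ x y, R x y → s x = s y} ≃
      {s : W → ZMod 2 // ∀ x y, (R x y ∨ (x = a ∧ y = b)) → s x = s y} × ZMod 2 :=
    { toFun := fun s => (⟨fun x => s.1 x + (s.1 a + s.1 b) * χ x, by
          rintro x y (hxy | ⟨rfl, rfl⟩)
          · show s.1 x + (s.1 a + s.1 b) * χ x = s.1 y + (s.1 a + s.1 b) * χ y
            rw [s.2 x y hxy, hχR x y hxy]
          · show s.1 x + (s.1 x + s.1 y) * χ x = s.1 y + (s.1 x + s.1 y) * χ y
            rw [hχa, hχb]
            exact c1 _ _⟩, s.1 a + s.1 b)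
      invFun := fun p => ⟨fun x => p.1.1 x + p.2 * χ x, fun x y hxy => by
        show p.1.1 x + p.2 * χ x = p.1.1 y + p.2 * χ y
        rw [p.1.2 x y (Or.inl hxy), hχR x y hxy]⟩
      left_inv := fun s => by
        apply Subtype.ext
        funext x
        exact c2 _ _ _ _
      right_inv := fun p => by
        have h1 : p.1.1 a = p.1.1 b := p.1.2 a b (Or.inr ⟨rfl, rfl⟩)
        have h2 : p.1.1 a + p.2 * χ a + (p.1.1 b + p.2 * χ b) = p.2 := by
          rw [hχa, hχb, h1]
          exact c4 _ _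
        refine Prod.ext ?_ h2
        apply Subtype.ext
        funext x
        show p.1.1 x + p.2 * χ x + (p.1.1 a + p.2 * χ a + (p.1.1 b + p.2 * χ b)) * χ x = p.1.1 x
        rw [h2]
        exact c3 _ _ _ }
  have h1 := Nat.card_congr e
  rw [Nat.card_prod, card_const_fun, card_const_fun, Nat.card_zmod, ← pow_succ] at h1
  exact (Nat.pow_right_injective (le_refl 2) h1).symm

end relations

section graph

variable {W ι : Type} {en : ι → W × W} {B B' : W → W → Prop} {ω ω' : Finset ι} {x y z : W}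

theorem cn_iff_mk : Cn en B ω x y ↔ Quot.mk (Rel en B ω) x = Quot.mk (Rel en B ω) y :=
  ⟨Quot.eqvGen_sound, Quot.eqvGen_exact⟩

theorem Cn.refl (x : W) : Cn en B ω x x := Relation.EqvGen.refl x

theorem Cn.symm (h : Cn en B ω x y) : Cn en B ω y x := Relation.EqvGen.symm _ _ h

theorem Cn.trans (h : Cn en B ω x y) (h' : Cn en B ω y z) : Cn en B ω x z :=
  Relation.EqvGen.trans _ _ _ h h'

private theorem quo_rel_mono (hB : ∀ x y, B x y → B' x y) (hω : ω ⊆ ω') (x y : W)
    (h : Rel en B ω x y) : Rel en B' ω' x y := by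
  rcases h with h | ⟨e, he, h⟩
  · exact Or.inl (hB _ _ h)
  · exact Or.inr ⟨e, hω he, h⟩

theorem Cn.mono (hB : ∀ x y, B x y → B' x y) (hω : ω ⊆ ω') (h : Cn en B ω x y) :
    Cn en B' ω' x y := by
  unfold Cn at h ⊢
  induction h with
  | rel x y h => exact Relation.EqvGen.rel _ _ (quo_rel_mono hB hω x y h)
  | refl x => exact Relation.EqvGen.refl _
  | symm x y _ ih => exact Relation.EqvGen.symm _ _ ih
  | trans x y z _ _ ih1 ih2 => exact Relation.EqvGen.trans _ _ _ ih1 ih2

theorem Cn.of_base (h : B x y) : Cn en B ω x y := Relation.EqvGen.rel _ _ (Or.inl h)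

theorem Cn.of_mem {e : ι} (h : e ∈ ω) : Cn en B ω (en e).1 (en e).2 :=
  Relation.EqvGen.rel _ _ (Or.inr ⟨e, h, rfl⟩)

/-- Functions constant along the base and the open edges are constant on clusters. -/
theorem Cn.const {α : Type*} (h : Cn en B ω x y) {g : W → α} (hB : ∀ x y, B x y → g x = g y)
    (hω : ∀ e ∈ ω, g (en e).1 = g (en e).2) : g x = g y := by
  unfold Cn at h
  induction h with
  | rel x y h =>
    rcases h with h | ⟨e, he, h⟩
    · exact hB _ _ h
    · have h1 := hω e he
      rw [h] at h1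
      exact h1
  | refl x => rfl
  | symm x y _ ih => exact ih.symm
  | trans x y z _ _ ih1 ih2 => exact ih1.trans ih2

private theorem quo_rel_insert [DecidableEq ι] (e : ι) : Rel en B (insert e ω) =
    fun x y => Rel en B ω x y ∨ (x = (en e).1 ∧ y = (en e).2) := by
  funext x y
  apply propext
  unfold Rel
  constructor
  · rintro (h | ⟨e', he', h⟩)
    · exact Or.inl (Or.inl h)
    · rcases Finset.mem_insert.1 he' with rfl | he'
      · right
        rw [h]
        exact ⟨rfl, rfl⟩
      · exact Or.inl (Or.inr ⟨e', he', h⟩)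
  · rintro ((h | ⟨e', he', h⟩) | ⟨rfl, rfl⟩)
    · exact Or.inl h
    · exact Or.inr ⟨e', Finset.mem_insert_of_mem he', h⟩
    · exact Or.inr ⟨e, Finset.mem_insert_self _ _, rfl⟩

private theorem quo_rel_mrg (t b : W) : Rel en (Mrg B t b) ω =
    fun x y => Rel en B ω x y ∨ (x = t ∧ y = b) := by
  funext x y
  apply propext
  unfold Rel Mrg
  exact or_right_comm

theorem cn_insert [DecidableEq ι] (e : ι) : Cn en B (insert e ω) x y ↔
    Cn en B ω x y ∨ (Cn en B ω x (en e).1 ∧ Cn en B ω (en e).2 y) ∨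
      (Cn en B ω x (en e).2 ∧ Cn en B ω (en e).1 y) := by
  unfold Cn
  rw [quo_rel_insert, eqvGen_add]

theorem cc_insert_of [DecidableEq ι] {e : ι} (h : Cn en B ω (en e).1 (en e).2) :
    cc en B (insert e ω) = cc en B ω := by
  unfold cc
  rw [quo_rel_insert]
  exact card_quot_add_of _ _ _ h

theorem cc_insert_not [Finite W] [DecidableEq ι] {e : ι} (h : ¬ Cn en B ω (en e).1 (en e).2) :
    cc en B (insert e ω) + 1 = cc en B ω := by
  unfold cc
  rw [quo_rel_insert]
  exact card_quot_add_not _ _ _ h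

theorem cn_mrg (t b : W) : Cn en (Mrg B t b) ω x y ↔
    Cn en B ω x y ∨ (Cn en B ω x t ∧ Cn en B ω b y) ∨ (Cn en B ω x b ∧ Cn en B ω t y) := by
  unfold Cn
  rw [quo_rel_mrg, eqvGen_add]

theorem cc_mrg_of {t b : W} (h : Cn en B ω t b) : cc en (Mrg B t b) ω = cc en B ω := by
  unfold cc
  rw [quo_rel_mrg]
  exact card_quot_add_of _ _ _ h

theorem cc_mrg_not [Finite W] {t b : W} (h : ¬ Cn en B ω t b) :
    cc en (Mrg B t b) ω + 1 = cc en B ω := by
  unfold cc
  rw [quo_rel_mrg]
  exact card_quot_add_not _ _ _ h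

theorem cc_mono [Finite W] (hB : ∀ x y, B x y → B' x y) (hω : ω ⊆ ω') :
    cc en B' ω' ≤ cc en B ω := by
  have hfin : Finite (Quot (Rel en B ω)) := Finite.of_surjective (Quot.mk _) Quot.exists_rep
  refine Nat.card_le_card_of_surjective (Quot.lift (Quot.mk (Rel en B' ω')) fun x y h =>
    Quot.sound (quo_rel_mono hB hω x y h)) ?_
  intro q
  induction q using Quot.ind with
  | mk x => exact ⟨Quot.mk _ x, rfl⟩

/-- The number of clusters depends only on the equivalence relation. -/
theorem cc_congr {en' : ι → W × W} (h : ∀ x y, Cn en B ω x y ↔ Cn en' B' ω' x y) :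
    cc en B ω = cc en' B' ω' :=
  quo_card_congr h

end graph

end Pool.Agent.Lib.MP_31386d_pr_POTTS
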