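import Pool.Agent.Lib.MP_31386d_pr_POTTS.GinSum
import Pool.Agent.Lib.MP_31386d_pr_POTTS.Quo

/-!
# Orthogonality of characters on the classes of a relation

Module A6 of project POTTS.
-/

set_option autoImplicit false

namespace Pool.Agent.Lib.MP_31386d_pr_POTTS

open Finset

variable {q : ℕ} [NeZero q] {W : Type} [Fintype W] [DecidableEq W]

private theorem CharSum_ind_true {P : Prop} (h : P) : ind P = 1 := by
  classical
  simp [ind, h]

private theorem CharSum_ind_false {P : Prop} (h : ¬ P) : ind P = 0 := by
  classical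
  simp [ind, h]

private theorem CharSum_ind_congr {P P' : Prop} (h : P ↔ P') : ind P = ind P' := by
  rw [propext h]

omit [Fintype W] [DecidableEq W] in
private theorem CharSum_cs_re (z : ZMod q) : cs z = (ZMod.stdAddChar z : ℂ).re := by
  rw [ZMod.stdAddChar_apply, ZMod.toCircle_apply, cs]
  have h : (2 * (Real.pi : ℂ) * Complex.I * (z.val : ℂ) / (q : ℂ)) =
      ((2 * Real.pi * z.val / q : ℝ) : ℂ) * Complex.I := by
    push_cast
    ring
  rw [h, Complex.exp_ofReal_mul_I_re]

private theorem CharSum_sum_cs (hq : 2 ≤ q) : ∑ z : ZMod q, cs z = 0 := by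
  have hne : (1 : ZMod q) ≠ 0 := by
    haveI : Fact (1 < q) := ⟨hq⟩
    exact one_ne_zero
  have h1 := ZMod.isPrimitive_stdAddChar q hne
  have h2 : (ZMod.stdAddChar : AddChar (ZMod q) ℂ) ≠ 1 := by
    intro h
    apply h1
    rw [AddChar.mulShift_one, h]
  have h3 := AddChar.sum_eq_zero_of_ne_one h2
  have h4 : ∑ z : ZMod q, cs z = (∑ z : ZMod q, (ZMod.stdAddChar z : ℂ)).re := by
    rw [Complex.re_sum]
    exact Finset.sum_congr rfl fun z _ => CharSum_cs_re z
  rw [h4, h3, Complex.zero_re]

private theorem CharSum_const {R : W → W → Prop} {s : W → ZMod q}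
    (hs : ∀ a b, R a b → s a = s b) {x y : W} (h : Relation.EqvGen R x y) : s x = s y := by
  induction h with
  | rel a b h => exact hs a b h
  | refl a => rfl
  | symm a b _ ih => exact ih.symm
  | trans a b c _ _ ih1 ih2 => exact ih1.trans ih2

/-- Orthogonality of characters on the classes of `R`. -/
theorem char_sum (hq : 2 ≤ q) (R : W → W → Prop) (x y : W) :
    ∑ s : W → ZMod q, ind (∀ a b, R a b → s a = s b) * cs (s x - s y) =
      (q : ℝ) ^ Nat.card (Quot R) * ind (Relation.EqvGen R x y) := by
  classical
  by_cases h : Relation.EqvGen R x y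
  · rw [CharSum_ind_true h, mul_one]
    have h1 : ∀ s : W → ZMod q, ind (∀ a b, R a b → s a = s b) * cs (s x - s y) =
        if (∀ a b, R a b → s a = s b) then (1 : ℝ) else 0 := by
      intro s
      by_cases hs : ∀ a b, R a b → s a = s b
      · rw [CharSum_ind_true hs, if_pos hs, CharSum_const hs h, sub_self, cs_zero, one_mul]
      · rw [CharSum_ind_false hs, if_neg hs, zero_mul]
    rw [Finset.sum_congr rfl fun s _ => h1 s, Finset.sum_boole]
    have h2 := card_const_fun R (ZMod q)
    rw [Nat.card_zmod, Nat.card_eq_fintype_card, Fintype.card_subtype] at h2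
    rw [h2]
    push_cast
    rfl
  · rw [CharSum_ind_false h, mul_zero]
    set c : W → ZMod q := fun z => if Relation.EqvGen R x z then 1 else 0 with hc
    have hcR : ∀ a b, R a b → c a = c b := by
      intro a b hab
      have h1 : Relation.EqvGen R x a ↔ Relation.EqvGen R x b :=
        ⟨fun h => h.trans _ _ _ (Relation.EqvGen.rel _ _ hab),
          fun h => h.trans _ _ _ (Relation.EqvGen.symm _ _ (Relation.EqvGen.rel _ _ hab))⟩
      simp only [hc, h1]
    have hcx : c x = 1 := by
      simp only [hc]
      rw [if_pos (Relation.EqvGen.refl x)]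
    have hcy : c y = 0 := by
      simp only [hc]
      rw [if_neg h]
    set S := ∑ s : W → ZMod q, ind (∀ a b, R a b → s a = s b) * cs (s x - s y) with hS
    have hshift : ∀ m : ZMod q, S =
        ∑ s : W → ZMod q, ind (∀ a b, R a b → s a = s b) * cs (s x - s y + m) := by
      intro m
      rw [hS, ← Equiv.sum_comp (Equiv.addRight (fun z => m * c z))]
      refine Finset.sum_congr rfl fun s _ => ?_
      have e1 : ind (∀ a b, R a b → (Equiv.addRight (fun z => m * c z)) s a =
          (Equiv.addRight (fun z => m * c z)) s b) = ind (∀ a b, R a b → s a = s b) := by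
        refine CharSum_ind_congr ⟨fun hh a b hab => ?_, fun hh a b hab => ?_⟩
        · have := hh a b hab
          simp only [Equiv.coe_addRight, Pi.add_apply, hcR a b hab] at this
          exact add_right_cancel this
        · simp only [Equiv.coe_addRight, Pi.add_apply, hcR a b hab, hh a b hab]
      have e2 : (Equiv.addRight (fun z => m * c z)) s x - (Equiv.addRight (fun z => m * c z)) s y
          = s x - s y + m := by
        simp only [Equiv.coe_addRight, Pi.add_apply, hcx, hcy]
        ring
      rw [e1, e2]
    have h3 : (q : ℝ) * S = 0 := by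
      have h4 : ∑ _m : ZMod q, S = (q : ℝ) * S := by
        rw [Finset.sum_const, Finset.card_univ, ZMod.card, nsmul_eq_mul]
      rw [← h4, Finset.sum_congr rfl fun m _ => hshift m, Finset.sum_comm]
      refine Finset.sum_eq_zero fun s _ => ?_
      rw [← Finset.mul_sum]
      have h5 : ∑ m : ZMod q, cs (s x - s y + m) = ∑ z : ZMod q, cs z :=
        Equiv.sum_comp (Equiv.addLeft (s x - s y)) cs
      rw [h5, CharSum_sum_cs hq, mul_zero]
    rcases mul_eq_zero.mp h3 with h4 | h4
    · exact absurd (Nat.cast_eq_zero.mp h4) (by omega)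
    · exact h4

end Pool.Agent.Lib.MP_31386d_pr_POTTS
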