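import Mathlib

/-!
# Splitting an equivalence relation without giant class

Module E6 of project POTTS (pure combinatorics).
-/

set_option autoImplicit false

namespace Pool.Agent.Lib.MP_31386d_pr_POTTS

open Finset

open Classical in
/-- If every class misses at least the fraction `1/N` of `S`, then `S` is the union of two unions
of classes both containing at least the fraction `1/N` of `S`. -/
theorem exists_split {α : Type*} (S : Finset α) (r : α → α → Prop) (hr : Equivalence r) {N : ℕ}
    (hN : 4 ≤ N) (h : ∀ x ∈ S, S.card ≤ N * (S.filter (fun y => ¬ r x y)).card) :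
    ∃ I ⊆ S, S.card ≤ N * I.card ∧ S.card ≤ N * (S \ I).card ∧
      ∀ x ∈ I, ∀ y ∈ S \ I, ¬ r x y := by
  rcases S.eq_empty_or_nonempty with hS | hS
  · subst hS
    exact ⟨∅, by simp, by simp, by simp, by simp⟩
  let F : Finset (Finset α) := S.powerset.filter fun I =>
    (∀ x ∈ I, ∀ y ∈ S, r x y → y ∈ I) ∧ S.card ≤ N * I.card
  have hSF : S ∈ F := by
    simp only [F, mem_filter, mem_powerset]
    refine ⟨Subset.refl _, fun x _ y hy _ => hy, ?_⟩
    nlinarith [Nat.zero_le S.card]
  obtain ⟨I, hI, hmin⟩ := exists_min_image F card ⟨S, hSF⟩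
  have hI' := hI
  simp only [F, mem_filter, mem_powerset] at hI
  obtain ⟨hIS, hsat, hbig⟩ := hI
  refine ⟨I, hIS, hbig, ?_, ?_⟩
  swap
  · intro x hx y hy hxy
    rw [mem_sdiff] at hy
    exact hy.2 (hsat x hx y hy.1 hxy)
  by_contra hcon
  push Not at hcon
  have hSpos : 0 < S.card := card_pos.2 hS
  have hcard : (S \ I).card + I.card = S.card := card_sdiff_add_card_eq_card hIS
  -- every class of an element of `I` is large
  have hcl : ∀ x ∈ I, S.filter (r x) ⊆ I ∧ S.filter (r x) ≠ I ∧
      S.card < 2 * (S.filter (r x)).card := by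
    intro x hx
    have hsub : S.filter (r x) ⊆ I := by
      intro y hy
      rw [mem_filter] at hy
      exact hsat x hx y hy.1 hy.2
    have hxc : x ∈ S.filter (r x) := by
      rw [mem_filter]
      exact ⟨hIS hx, hr.refl x⟩
    have hne : S.filter (r x) ≠ I := by
      intro heq
      have h1 := h x (hIS hx)
      have h2 : S.filter (fun y => ¬ r x y) = S \ I := by
        rw [← heq, filter_not]
      rw [h2] at h1
      omega
    have hlt : N * (I \ S.filter (r x)).card < S.card := by
      by_contra hge
      push Not at hge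
      have hmem : I \ S.filter (r x) ∈ F := by
        simp only [F, mem_filter, mem_powerset]
        refine ⟨(sdiff_subset).trans hIS, ?_, hge⟩
        intro u hu v hv huv
        rw [mem_sdiff] at hu ⊢
        refine ⟨hsat u hu.1 v hv huv, fun hvx => hu.2 ?_⟩
        rw [mem_filter] at hvx ⊢
        exact ⟨hIS hu.1, hr.trans hvx.2 (hr.symm huv)⟩
      have h1 := hmin _ hmem
      have h2 : (I \ S.filter (r x)).card < I.card :=
        card_lt_card (sdiff_ssubset hsub ⟨x, hxc⟩)
      omega
    have hc2 : (I \ S.filter (r x)).card + (S.filter (r x)).card = I.card :=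
      card_sdiff_add_card_eq_card hsub
    refine ⟨hsub, hne, ?_⟩
    have e1 : N * (S \ I).card + N * I.card = N * S.card := by rw [← mul_add, hcard]
    have e2 : N * (I \ S.filter (r x)).card + N * (S.filter (r x)).card = N * I.card := by
      rw [← mul_add, hc2]
    by_contra hle
    push Not at hle
    have e3 : N * (2 * (S.filter (r x)).card) ≤ N * S.card := Nat.mul_le_mul_left N hle
    have e4 : 4 * S.card ≤ N * S.card := Nat.mul_le_mul_right _ hN
    nlinarith
  have hIne : I.Nonempty := by
    rw [← card_pos]
    rcases Nat.eq_zero_or_pos I.card with h0 | h0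
    · rw [h0] at hbig
      omega
    · exact h0
  obtain ⟨x, hx⟩ := hIne
  obtain ⟨hx1, hx2, hx3⟩ := hcl x hx
  obtain ⟨x', hx'I, hx'n⟩ : ∃ x' ∈ I, x' ∉ S.filter (r x) := by
    by_contra hno
    push Not at hno
    exact hx2 (Subset.antisymm hx1 hno)
  obtain ⟨hy1, hy2, hy3⟩ := hcl x' hx'I
  have hdis : Disjoint (S.filter (r x)) (S.filter (r x')) := by
    rw [Finset.disjoint_left]
    intro z hz hz'
    rw [mem_filter] at hz hz'
    exact hx'n (by rw [mem_filter]; exact ⟨hIS hx'I, hr.trans hz.2 (hr.symm hz'.2)⟩)
  have hle : (S.filter (r x)).card + (S.filter (r x')).card ≤ S.card := by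
    rw [← card_union_of_disjoint hdis]
    exact card_le_card (union_subset (filter_subset _ _) (filter_subset _ _))
  omega

end Pool.Agent.Lib.MP_31386d_pr_POTTS
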