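import Pool.Agent.Lib.MP_31386d_pr_POTTS.Chains

/-!
# Lower bound for the energy of a function separating two families of seeds

Module E5 of project POTTS (pure analysis on the lattice).
-/

set_option autoImplicit false

namespace Pool.Agent.Lib.MP_31386d_pr_POTTS

open Finset
open Pool.Agent.Lib.MP_31386d_pr

variable {d : ℕ}

private theorem Energy_avg (h : Pt d → ℝ) (c : Pt d) {r : ℕ} (hr : 1 ≤ r) {v : ℝ}
    (hv : ∀ x ∈ bx c r, h x = v) : avg h c r = v := by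
  have h1 : (0 : ℝ) < (r : ℝ) ^ d := by
    have : (0 : ℝ) < r := by exact_mod_cast hr
    positivity
  unfold avg
  rw [Finset.sum_congr rfl hv, Finset.sum_const, card_bx, nsmul_eq_mul]
  push_cast
  field_simp

private theorem Energy_disj {ρ : ℕ} {i i' : Pt d} (hne : i ≠ i') :
    Disjoint (bx (fun t => (ρ : ℤ) * i t) ρ) (bx (fun t => (ρ : ℤ) * i' t) ρ) := by
  rw [Finset.disjoint_left]
  intro x hx hx'
  rw [mem_bx] at hx hx'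
  refine hne (funext fun t => ?_)
  obtain ⟨a1, a2⟩ := hx t
  obtain ⟨b1, b2⟩ := hx' t
  have c1 : (ρ : ℤ) * i t < ρ * (i' t + 1) := by linarith
  have c2 : (ρ : ℤ) * i' t < ρ * (i t + 1) := by linarith
  have hρ : (0 : ℤ) ≤ ρ := Int.natCast_nonneg ρ
  have d1 : i t < i' t + 1 := lt_of_mul_lt_mul_left c1 hρ
  have d2 : i' t < i t + 1 := lt_of_mul_lt_mul_left c2 hρ
  omega

private theorem Energy_sub {ρ k₀ : ℕ} {i j : Pt d} (hi : i ∈ blocks k₀ j) :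
    bx (fun t => (ρ : ℤ) * i t) ρ ⊆
      bx (fun t => ((ρ * 2 ^ k₀ : ℕ) : ℤ) * j t) (2 * (ρ * 2 ^ k₀)) := by
  intro x hx
  rw [mem_bx] at hx ⊢
  unfold blocks at hi
  rw [mem_bx] at hi
  intro t
  obtain ⟨a1, a2⟩ := hx t
  obtain ⟨b1, b2⟩ := hi t
  have hρ : (0 : ℤ) ≤ ρ := Int.natCast_nonneg ρ
  have b3 : i t + 1 ≤ 2 ^ k₀ * j t + 2 ^ (k₀ + 1) := by
    have : ((2 ^ (k₀ + 1) : ℕ) : ℤ) = 2 ^ (k₀ + 1) := by push_cast; ring
    rw [this] at b2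
    omega
  have e1 := mul_le_mul_of_nonneg_left b1 hρ
  have e2 := mul_le_mul_of_nonneg_left b3 hρ
  push_cast
  constructor
  · calc ((ρ : ℤ) * 2 ^ k₀) * j t = ρ * (2 ^ k₀ * j t) := by ring
      _ ≤ ρ * i t := e1
      _ ≤ x t := a1
  · calc x t < ρ * i t + ρ := a2
      _ = ρ * (i t + 1) := by ring
      _ ≤ ρ * (2 ^ k₀ * j t + 2 ^ (k₀ + 1)) := e2
      _ = (ρ : ℤ) * 2 ^ k₀ * j t + 2 * (ρ * 2 ^ k₀) := by ring

private theorem Energy_one (hd : 3 ≤ d) (h : Pt d → ℝ) {r : ℕ} (hr : 1 ≤ r) (l k₀ : ℕ) (j : Pt d)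
    {J : Finset (Pt d)} (hJ : J ⊆ blocks k₀ j) (κ : Pt d → Pt d)
    (hκ : ∀ i ∈ blocks k₀ j, κ i ∈ bx (fun t => 2 ^ l * i t) (2 ^ l)) {v : ℝ}
    (hv : ∀ i ∈ J, ∀ x ∈ bx (fun t => (r : ℤ) * κ i t) r, h x = v)
    (hQ : 1 / 2 ≤ |v - avg h (fun t => ((r * 2 ^ l * 2 ^ k₀ : ℕ) : ℤ) * j t)
      (2 * (r * 2 ^ l * 2 ^ k₀))|) {M : ℝ} (hM : M ≤ J.card) :
    min (((r * 2 ^ l : ℕ) : ℝ) ^ (d - 2) / (576 * (2 ^ d * d))) (M * (r : ℝ) ^ (d - 2) / (64 * (2 ^ d * d))) ≤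
      En h (bx (fun t => ((r * 2 ^ l * 2 ^ k₀ : ℕ) : ℤ) * j t) (2 * (r * 2 ^ l * 2 ^ k₀))) := by
  by_contra hlt
  rw [not_le, lt_min_iff] at hlt
  obtain ⟨l1, l2⟩ := hlt
  have hρ : 1 ≤ r * 2 ^ l := Nat.one_le_iff_ne_zero.2 (by positivity)
  have hC : (0 : ℝ) < 2 ^ d * d := by
    have : (0 : ℝ) < d := by
      have : 0 < d := by omega
      exact_mod_cast this
    positivity
  set C : ℝ := 2 ^ d * d with hCdef
  set Q := bx (fun t => ((r * 2 ^ l * 2 ^ k₀ : ℕ) : ℤ) * j t) (2 * (r * 2 ^ l * 2 ^ k₀)) with hQdef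
  set aQ := avg h (fun t => ((r * 2 ^ l * 2 ^ k₀ : ℕ) : ℤ) * j t) (2 * (r * 2 ^ l * 2 ^ k₀))
    with haQ
  have hρ0 : (0 : ℝ) < ((r * 2 ^ l : ℕ) : ℝ) ^ (d - 2) := by
    have : (0 : ℝ) < ((r * 2 ^ l : ℕ) : ℝ) := by exact_mod_cast hρ
    positivity
  have hr0 : (0 : ℝ) < (r : ℝ) ^ (d - 2) := by
    have : (0 : ℝ) < (r : ℝ) := by exact_mod_cast hr
    positivity
  have key : ∀ i ∈ J, (r : ℝ) ^ (d - 2) / (64 * C) ≤
      En h (bx (fun t => ((r * 2 ^ l : ℕ) : ℤ) * i t) (r * 2 ^ l)) := by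
    intro i hi
    have hib := hJ hi
    have c1 := chain_block hd h hr l (hκ i hib)
    have c2 := chain_fine hd h hρ k₀ hib
    rw [Energy_avg h _ hr (hv i hi)] at c1
    set ai := avg h (fun t => ((r * 2 ^ l : ℕ) : ℤ) * i t) (r * 2 ^ l) with hai
    have e1 : (ai - aQ) ^ 2 < 1 / 64 := by
      have h5 : (ai - aQ) ^ 2 * ((r * 2 ^ l : ℕ) : ℝ) ^ (d - 2) <
          1 / 64 * ((r * 2 ^ l : ℕ) : ℝ) ^ (d - 2) := by
        refine lt_of_le_of_lt c2 ?_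
        have h6 : 9 * C * En h Q < 9 * C * (((r * 2 ^ l : ℕ) : ℝ) ^ (d - 2) / (576 * C)) :=
          mul_lt_mul_of_pos_left l1 (by positivity)
        refine lt_of_lt_of_le h6 (le_of_eq ?_)
        field_simp
        norm_num
      exact lt_of_mul_lt_mul_right h5 hρ0.le
    have e2 : |ai - aQ| < 1 / 8 := by
      have : (ai - aQ) ^ 2 < (1 / 8) ^ 2 := by rw [show ((1 : ℝ) / 8) ^ 2 = 1 / 64 by norm_num]; exact e1
      exact abs_lt_of_sq_lt_sq this (by norm_num)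
    have e3 : 3 / 8 ≤ |v - ai| := by
      have h7 : |v - aQ| ≤ |v - ai| + |ai - aQ| := abs_sub_le v ai aQ
      linarith
    have e4 : 9 / 64 ≤ (v - ai) ^ 2 := by
      rw [← sq_abs]
      nlinarith [abs_nonneg (v - ai)]
    have e5 : 9 / 64 * (r : ℝ) ^ (d - 2) ≤
        9 * C * En h (bx (fun t => ((r * 2 ^ l : ℕ) : ℤ) * i t) (r * 2 ^ l)) :=
      (mul_le_mul_of_nonneg_right e4 hr0.le).trans c1
    rw [div_le_iff₀ (by positivity)]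
    linarith
  have hsum : ∑ i ∈ J, En h (bx (fun t => ((r * 2 ^ l : ℕ) : ℤ) * i t) (r * 2 ^ l)) ≤ En h Q :=
    En_sum_le h J (fun i => bx (fun t => ((r * 2 ^ l : ℕ) : ℤ) * i t) (r * 2 ^ l))
      (fun i hi => Energy_sub (hJ hi)) (fun i _ i' _ hne => Energy_disj hne)
  have hlow : (J.card : ℝ) * ((r : ℝ) ^ (d - 2) / (64 * C)) ≤
      ∑ i ∈ J, En h (bx (fun t => ((r * 2 ^ l : ℕ) : ℤ) * i t) (r * 2 ^ l)) := by
    rw [← nsmul_eq_mul]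
    exact Finset.card_nsmul_le_sum J _ _ key
  have hM' : M * (r : ℝ) ^ (d - 2) / (64 * C) ≤ (J.card : ℝ) * ((r : ℝ) ^ (d - 2) / (64 * C)) := by
    rw [mul_div_assoc]
    exact mul_le_mul_of_nonneg_right hM (by positivity)
  linarith

/-- Energy of a function equal to `1` on the seeds of `I` and to `0` on the other seeds. -/
theorem energy (hd : 3 ≤ d) (h : Pt d → ℝ) {r : ℕ} (hr : 1 ≤ r) (l k₀ : ℕ) (j : Pt d)
    {I : Finset (Pt d)} (hI : I ⊆ blocks k₀ j) (κ : Pt d → Pt d)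
    (hκ : ∀ i ∈ blocks k₀ j, κ i ∈ bx (fun t => 2 ^ l * i t) (2 ^ l))
    (h1 : ∀ i ∈ I, ∀ x ∈ bx (fun t => (r : ℤ) * κ i t) r, h x = 1)
    (h0 : ∀ i ∈ blocks k₀ j \ I, ∀ x ∈ bx (fun t => (r : ℤ) * κ i t) r, h x = 0) {M : ℝ}
    (hM1 : M ≤ I.card) (hM2 : M ≤ (blocks k₀ j \ I).card) :
    min (((r * 2 ^ l : ℕ) : ℝ) ^ (d - 2) / (576 * (2 ^ d * d))) (M * (r : ℝ) ^ (d - 2) / (64 * (2 ^ d * d))) ≤
      En h (bx (fun t => ((r * 2 ^ l * 2 ^ k₀ : ℕ) : ℤ) * j t) (2 * (r * 2 ^ l * 2 ^ k₀))) := by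
  by_cases hQ : avg h (fun t => ((r * 2 ^ l * 2 ^ k₀ : ℕ) : ℤ) * j t)
      (2 * (r * 2 ^ l * 2 ^ k₀)) ≤ 1 / 2
  · refine Energy_one hd h hr l k₀ j hI κ hκ h1 ?_ hM1
    rw [le_abs]
    left
    linarith
  · refine Energy_one hd h hr l k₀ j Finset.sdiff_subset κ hκ h0 ?_ hM2
    rw [le_abs]
    right
    push Not at hQ
    linarith

end Pool.Agent.Lib.MP_31386d_pr_POTTS
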