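import Pool.Agent.Lib.MP_31386d_pr_POTTS.Poincare

/-!
# Elementary facts on blocks and seeds

Module G1 of project POTTS.
-/

set_option autoImplicit false

namespace Pool.Agent.Lib.MP_31386d_pr_POTTS

open Finset
open Pool.Agent.Lib.MP_31386d_pr

variable {d : ℕ}

theorem card_blocks (k₀ : ℕ) (j : Pt d) : (blocks k₀ j).card = (2 ^ (k₀ + 1)) ^ d := by
  unfold blocks
  exact card_bx _ _

private theorem SeedFacts_pick_mem {S : Finset (Pt d)} (h : S.Nonempty) : pick S ∈ S := by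
  unfold pick
  rw [dif_pos h]
  exact h.choose_spec

/-- Properties of the chosen seed. -/
theorem sd_spec {r l : ℕ} {b : Finset (Ed d)} {i : Pt d} (h : (seeds r l b i).Nonempty) :
    pick (seeds r l b i) ∈ bx (fun t => 2 ^ l * i t) (2 ^ l) ∧
      EI (bx (fun t => (r : ℤ) * pick (seeds r l b i) t) r) ⊆ b := by
  classical
  have h1 := SeedFacts_pick_mem h
  have h2 : ∀ k, k ∈ seeds r l b i ↔ k ∈ bx (fun t => 2 ^ l * i t) (2 ^ l) ∧
      EI (bx (fun t => (r : ℤ) * k t) r) ⊆ b := by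
    intro k
    unfold seeds
    rw [Finset.mem_filter]
  exact (h2 _).1 h1

/-- The chosen seed is inside the fine cube. -/
theorem sd_mem {r l k₀ : ℕ} (hr : 1 ≤ r) {b : Finset (Ed d)} {i j : Pt d}
    (h : (seeds r l b i).Nonempty) (hi : i ∈ blocks k₀ j) :
    sd r l b i ∈ bx (fun t => ((r * 2 ^ l * 2 ^ k₀ : ℕ) : ℤ) * j t) (2 * (r * 2 ^ l * 2 ^ k₀)) := by
  obtain ⟨h1, -⟩ := sd_spec h
  rw [mem_bx] at h1 ⊢
  unfold blocks at hi
  rw [mem_bx] at hi
  intro t
  obtain ⟨h2, h3⟩ := h1 t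
  obtain ⟨h4, h5⟩ := hi t
  have hr' : (1 : ℤ) ≤ r := by exact_mod_cast hr
  have hL : (0 : ℤ) < 2 ^ l := by positivity
  have hK : (0 : ℤ) < 2 ^ k₀ := by positivity
  have hd : sd r l b i t = (r : ℤ) * pick (seeds r l b i) t := rfl
  rw [hd]
  generalize pick (seeds r l b i) t = k at *
  push_cast at h2 h3 h4 h5 ⊢
  rw [pow_succ] at h5
  generalize (2 : ℤ) ^ l = A at *
  generalize (2 : ℤ) ^ k₀ = B at *
  have hr0 : (0 : ℤ) < r := by omega
  constructor
  · have e1 : A * (B * j t) ≤ A * i t := mul_le_mul_of_nonneg_left h4 hL.le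
    have e2 : (r : ℤ) * (A * (B * j t)) ≤ r * k :=
      mul_le_mul_of_nonneg_left (e1.trans h2) hr0.le
    calc (r : ℤ) * A * B * j t = r * (A * (B * j t)) := by ring
      _ ≤ r * k := e2
  · have e1 : A * (i t + 1) ≤ A * (B * j t + B * 2) :=
      mul_le_mul_of_nonneg_left (by omega) hL.le
    have e2 : k < A * (B * j t + B * 2) := by
      calc k < A * i t + A := h3
        _ = A * (i t + 1) := by ring
        _ ≤ _ := e1
    have e3 : (r : ℤ) * k < r * (A * (B * j t + B * 2)) := mul_lt_mul_of_pos_left e2 hr0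
    calc (r : ℤ) * k < r * (A * (B * j t + B * 2)) := e3
      _ = (r : ℤ) * A * B * j t + 2 * (r * A * B) := by ring

end Pool.Agent.Lib.MP_31386d_pr_POTTS
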