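import Pool.Agent.Lib.MP_31386d_pr_POTTS.SplitLat
import Pool.Agent.Lib.MP_31386d_pr_POTTS.Energy
import Pool.Agent.Lib.MP_31386d_pr_POTTS.Comb
import Pool.Agent.Lib.MP_31386d_pr_POTTS.SeedFacts

/-!
# Existence of a giant in a fine cube, given the marks

Module G2 of project POTTS.
-/

set_option autoImplicit false

namespace Pool.Agent.Lib.MP_31386d_pr_POTTS

open Finset
open Pool.Agent.Lib.MP_31386d_pr

variable {d : ℕ} {q : ℝ}

/-- Exponent in the bound for the absence of a giant. -/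
noncomputable def expo (d r l k₀ : ℕ) : ℝ :=
  min (((r * 2 ^ l : ℕ) : ℝ) ^ (d - 2) / (576 * (2 ^ d * d)))
    ((((2 ^ (k₀ + 1)) ^ d : ℕ) : ℝ) / 2 ^ (d + 1) * (r : ℝ) ^ (d - 2) / (64 * (2 ^ d * d)))

private theorem expo_nonneg (d r l k₀ : ℕ) : 0 ≤ expo d r l k₀ := by
  unfold expo
  refine le_min ?_ ?_
  · positivity
  · positivity

/-- A box is connected by its edges. -/
private theorem conn_bx {c x y : Pt d} {l : ℕ} (hx : x ∈ bx c l) (hy : y ∈ bx c l) :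
    Conn (EI (bx c l)) x y := by
  refine Slab.conn_Icc (a := c) (b := fun i => c i + (l : ℤ) - 1) ?_ hx hy
  intro z
  rw [mem_bx, Grid.mem_Icc']
  refine forall_congr' fun i => ?_
  constructor
  · intro h
    exact ⟨h.1, by have := h.2; omega⟩
  · intro h
    exact ⟨h.1, by have := h.2; omega⟩

/-- The points of a chosen seed are connected to its corner by marked edges. -/
private theorem conn_seed {r l : ℕ} (hr : 1 ≤ r) {b : Finset (Ed d)} {i x : Pt d}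
    (h : (seeds r l b i).Nonempty)
    (hx : x ∈ bx (fun t => (r : ℤ) * pick (seeds r l b i) t) r) :
    Conn b (sd r l b i) x := by
  have h1 : sd r l b i ∈ bx (fun t => (r : ℤ) * pick (seeds r l b i) t) r := by
    rw [mem_bx]
    intro t
    unfold sd
    constructor
    · exact le_rfl
    · have : (1 : ℤ) ≤ (r : ℤ) := by exact_mod_cast hr
      linarith
  exact (conn_bx h1 hx).mono (sd_spec h).2

open Classical in
/-- The bound for one splitting of the set of seeds. -/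
private theorem split_one (hd : 3 ≤ d) {C : ℝ} (hq : 1 ≤ q) (hC : 0 < C) (hQ : Q2 q C)
    (V : Finset (Pt d)) {b : Finset (Ed d)} (hb : b ⊆ EI V) {u₀ u₁ : ℝ} (hu₀ : 0 < u₀)
    (hu : u₀ ≤ u₁) {c₁ : ℝ} (hc₁ : 0 < c₁) {r l k₀ : ℕ} (hr : 1 ≤ r) (j : Pt d)
    (hV : bx (fun t => ((r * 2 ^ l * 2 ^ k₀ : ℕ) : ℤ) * j t) (2 * (r * 2 ^ l * 2 ^ k₀)) ⊆ V)
    (hc : ∀ x ∈ bx (fun t => ((r * 2 ^ l * 2 ^ k₀ : ℕ) : ℤ) * j t) (2 * (r * 2 ^ l * 2 ^ k₀)),
      ∀ y ∈ bx (fun t => ((r * 2 ^ l * 2 ^ k₀ : ℕ) : ℤ) * j t) (2 * (r * 2 ^ l * 2 ^ k₀)),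
      c₁ ≤ Pb u₀ q V (EI V) (fun ω => Conn ω x y))
    (hfull : FullF r l k₀ j b) {I : Finset (Pt d)} (hI : I ⊆ blocks k₀ j)
    (h1 : (2 ^ (k₀ + 1)) ^ d ≤ 2 ^ (d + 1) * I.card)
    (h2 : (2 ^ (k₀ + 1)) ^ d ≤ 2 ^ (d + 1) * (blocks k₀ j \ I).card) :
    PbB u₁ q V (EI V) b (fun ω => ∀ v ∈ I.image (sd r l b),
      ∀ w ∈ (blocks k₀ j \ I).image (sd r l b), ¬ Conn ω v w) ≤
      q ^ ((2 ^ (k₀ + 1)) ^ d + 1) *
        Real.exp (-((u₁ - u₀) * (q ^ 2 * c₁ ^ 4 / (C * (1 + u₁))) * expo d r l k₀)) := by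
  have hMpos : 0 < (2 ^ (k₀ + 1)) ^ d := by positivity
  have hp : 0 < 2 ^ (d + 1) := by positivity
  have hIne : I.Nonempty := by
    rw [← card_pos]
    by_contra h0
    have h0' : I.card = 0 := by omega
    rw [h0', mul_zero] at h1
    omega
  have hJne : (blocks k₀ j \ I).Nonempty := by
    rw [← card_pos]
    by_contra h0
    have h0' : (blocks k₀ j \ I).card = 0 := by omega
    rw [h0', mul_zero] at h2
    omega
  have hsub : ∀ K : Finset (Pt d), K ⊆ blocks k₀ j → K.image (sd r l b) ⊆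
      bx (fun t => ((r * 2 ^ l * 2 ^ k₀ : ℕ) : ℤ) * j t) (2 * (r * 2 ^ l * 2 ^ k₀)) := by
    intro K hK x hx
    rw [mem_image] at hx
    obtain ⟨i, hi, rfl⟩ := hx
    exact sd_mem hr (hfull i (hK hi)) (hK hi)
  have hS := split_lat hq hC hQ V hb hV hu₀ hu hc₁ hc (hsub I hI)
    (hsub (blocks k₀ j \ I) sdiff_subset) (hIne.image _) (hJne.image _)
    (expo_nonneg d r l k₀) ?_
  · refine hS.trans (mul_le_mul_of_nonneg_right ?_ (Real.exp_nonneg _))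
    refine pow_le_pow_right₀ hq ?_
    have e1 : (I.image (sd r l b)).card ≤ I.card := card_image_le
    have e2 : ((blocks k₀ j \ I).image (sd r l b)).card ≤ (blocks k₀ j \ I).card := card_image_le
    have e3 : (blocks k₀ j \ I).card + I.card = (blocks k₀ j).card :=
      card_sdiff_add_card_eq_card hI
    rw [card_blocks] at e3
    omega
  · intro h hh1 hh0
    have hcast : ∀ K : Finset (Pt d), (2 ^ (k₀ + 1)) ^ d ≤ 2 ^ (d + 1) * K.card →
        (((2 ^ (k₀ + 1)) ^ d : ℕ) : ℝ) / 2 ^ (d + 1) ≤ (K.card : ℝ) := by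
      intro K hK
      rw [div_le_iff₀ (by positivity), mul_comm]
      exact_mod_cast hK
    have hE := energy hd h hr l k₀ j hI (fun i => pick (seeds r l b i))
      (fun i hi => (sd_spec (hfull i hi)).1) (fun i hi x hx => ?_) (fun i hi x hx => ?_)
      (hcast I h1) (hcast _ h2)
    · exact hE
    · exact hh1 x ⟨sd r l b i, mem_image_of_mem _ hi, conn_seed hr (hfull i (hI hi)) hx⟩
    · exact hh0 x ⟨sd r l b i, mem_image_of_mem _ hi,
        conn_seed hr (hfull i (mem_sdiff.1 hi).1) hx⟩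

theorem fine_bad (hd : 3 ≤ d) {C : ℝ} (hq : 1 ≤ q) (hC : 0 < C) (hQ : Q2 q C)
    (V : Finset (Pt d)) {b : Finset (Ed d)} (hb : b ⊆ EI V) {u₀ u₁ : ℝ} (hu₀ : 0 < u₀)
    (hu : u₀ ≤ u₁) {c₁ : ℝ} (hc₁ : 0 < c₁) {r l k₀ : ℕ} (hr : 1 ≤ r) (j : Pt d)
    (hV : bx (fun t => ((r * 2 ^ l * 2 ^ k₀ : ℕ) : ℤ) * j t) (2 * (r * 2 ^ l * 2 ^ k₀)) ⊆ V)
    (hc : ∀ x ∈ bx (fun t => ((r * 2 ^ l * 2 ^ k₀ : ℕ) : ℤ) * j t) (2 * (r * 2 ^ l * 2 ^ k₀)),
      ∀ y ∈ bx (fun t => ((r * 2 ^ l * 2 ^ k₀ : ℕ) : ℤ) * j t) (2 * (r * 2 ^ l * 2 ^ k₀)),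
      c₁ ≤ Pb u₀ q V (EI V) (fun ω => Conn ω x y))
    (hfull : FullF r l k₀ j b) :
    PbB u₁ q V (EI V) b (fun ω => ¬ ∃ x, Big r l k₀ j b ω x) ≤
      2 ^ ((2 ^ (k₀ + 1)) ^ d) * q ^ ((2 ^ (k₀ + 1)) ^ d + 1) *
        Real.exp (-((u₁ - u₀) * (q ^ 2 * c₁ ^ 4 / (C * (1 + u₁))) * expo d r l k₀)) := by
  classical
  have hu1 : 0 < u₁ := lt_of_lt_of_le hu₀ hu
  have hU := PbB_union hu1 hq (V := V) (E := EI V) (b := b)
    ((blocks k₀ j).powerset.filter (fun I => (2 ^ (k₀ + 1)) ^ d ≤ 2 ^ (d + 1) * I.card ∧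
      (2 ^ (k₀ + 1)) ^ d ≤ 2 ^ (d + 1) * (blocks k₀ j \ I).card))
    (fun ω => ¬ ∃ x, Big r l k₀ j b ω x)
    (fun I ω => ∀ v ∈ I.image (sd r l b),
      ∀ w ∈ (blocks k₀ j \ I).image (sd r l b), ¬ Conn ω v w) ?_
  · refine hU.trans ?_
    have hsum : ∑ I ∈ (blocks k₀ j).powerset.filter
        (fun I => (2 ^ (k₀ + 1)) ^ d ≤ 2 ^ (d + 1) * I.card ∧
          (2 ^ (k₀ + 1)) ^ d ≤ 2 ^ (d + 1) * (blocks k₀ j \ I).card),
        PbB u₁ q V (EI V) b (fun ω => ∀ v ∈ I.image (sd r l b),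
          ∀ w ∈ (blocks k₀ j \ I).image (sd r l b), ¬ Conn ω v w) ≤
        ∑ I ∈ (blocks k₀ j).powerset.filter
        (fun I => (2 ^ (k₀ + 1)) ^ d ≤ 2 ^ (d + 1) * I.card ∧
          (2 ^ (k₀ + 1)) ^ d ≤ 2 ^ (d + 1) * (blocks k₀ j \ I).card),
        q ^ ((2 ^ (k₀ + 1)) ^ d + 1) *
        Real.exp (-((u₁ - u₀) * (q ^ 2 * c₁ ^ 4 / (C * (1 + u₁))) * expo d r l k₀)) := by
      apply sum_le_sum
      intro I hI
      rw [mem_filter, mem_powerset] at hI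
      exact split_one hd hq hC hQ V hb hu₀ hu hc₁ hr j hV hc hfull hI.1 hI.2.1 hI.2.2
    refine hsum.trans ?_
    rw [sum_const, nsmul_eq_mul]
    have h3 : ((((blocks k₀ j).powerset.filter
          (fun I => (2 ^ (k₀ + 1)) ^ d ≤ 2 ^ (d + 1) * I.card ∧
          (2 ^ (k₀ + 1)) ^ d ≤ 2 ^ (d + 1) * (blocks k₀ j \ I).card)).card : ℕ) : ℝ) ≤
          2 ^ ((2 ^ (k₀ + 1)) ^ d) := by
      have h3' : ((blocks k₀ j).powerset.filter
          (fun I => (2 ^ (k₀ + 1)) ^ d ≤ 2 ^ (d + 1) * I.card ∧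
          (2 ^ (k₀ + 1)) ^ d ≤ 2 ^ (d + 1) * (blocks k₀ j \ I).card)).card ≤
          2 ^ ((2 ^ (k₀ + 1)) ^ d) := by
        refine (card_filter_le _ _).trans ?_
        rw [card_powerset, card_blocks]
      exact_mod_cast h3'
    have hq0 : 0 ≤ q := by linarith
    have hX : 0 ≤ q ^ ((2 ^ (k₀ + 1)) ^ d + 1) *
        Real.exp (-((u₁ - u₀) * (q ^ 2 * c₁ ^ 4 / (C * (1 + u₁))) * expo d r l k₀)) :=
      mul_nonneg (pow_nonneg hq0 _) (Real.exp_nonneg _)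
    refine (mul_le_mul_of_nonneg_right h3 hX).trans (le_of_eq ?_)
    ring
  · intro ω _ _ hno
    obtain ⟨I, hIS, hI1, hI2, hI3⟩ := exists_split (blocks k₀ j)
      (fun i i' => Conn ω (sd r l b i) (sd r l b i'))
      ⟨fun i => Conn.refl _ _, fun h => h.symm, fun h h' => h.trans h'⟩
      (N := 2 ^ (d + 1)) (by
        have : 2 ^ 2 ≤ 2 ^ (d + 1) := Nat.pow_le_pow_right (by norm_num) (by omega)
        simpa using this) (fun i hi => by
          by_contra hcon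
          apply hno
          refine ⟨sd r l b i, ?_⟩
          unfold Big
          push Not at hcon
          exact hcon)
    rw [card_blocks] at hI1 hI2
    have hsd : ∀ x, x ∈ blocks k₀ j \ I ↔
        x ∈ @sdiff _ (@Finset.instSDiff _ (fun a b => Classical.propDecidable (a = b)))
          (blocks k₀ j) I := by
      intro x
      exact mem_sdiff.trans
        (@Finset.mem_sdiff _ (fun a b => Classical.propDecidable (a = b)) _ _ _).symm
    refine ⟨I, mem_filter.2 ⟨mem_powerset.2 hIS, ?_, ?_⟩, ?_⟩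
    · exact hI1
    · rw [Finset.ext hsd]
      exact hI2
    · intro v hv w hw
      rw [mem_image] at hv hw
      obtain ⟨i, hi, rfl⟩ := hv
      obtain ⟨i', hi', rfl⟩ := hw
      exact hI3 i hi i' ((hsd i').1 hi')

end Pool.Agent.Lib.MP_31386d_pr_POTTS
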