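import Pool.Agent.Lib.MP_31386d_pr_POTTS.JointA

/-!
# Joint law of the marks and of the configuration: separated regions

Module G5 of project POTTS.
-/

set_option autoImplicit false

namespace Pool.Agent.Lib.MP_31386d_pr_POTTS

open Finset
open Pool.Agent.Lib.MP_31386d_pr

variable {d : ℕ} {o u q : ℝ}

private theorem Joint_ind_and (P Q : Prop) : ind (P ∧ Q) = ind P * ind Q := by
  by_cases h : P
  · by_cases h' : Q
    · rw [ind_of h, ind_of h', ind_of (And.intro h h'), one_mul]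
    · rw [ind_not h', ind_not (fun hh : P ∧ Q => h' hh.2), mul_zero]
  · rw [ind_not h, ind_not (fun hh : P ∧ Q => h hh.1), zero_mul]

private theorem Joint_loc {W : Finset (Pt d)} {P : Finset (Ed d) → Finset (Ed d) → Prop}
    (hPl : ∀ b ω, P (b ∩ EI W) (ω ∩ EI W) ↔ P b ω) (b ω : Finset (Ed d)) :
    P b (ω ∩ EI W) ↔ P b ω := by
  rw [← hPl b (ω ∩ EI W), Finset.inter_assoc, Finset.inter_self, hPl b ω]

private theorem Joint_exB {W : Finset (Pt d)} {P : Finset (Ed d) → Finset (Ed d) → Prop}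
    (hPl : ∀ b ω, P (b ∩ EI W) (ω ∩ EI W) ↔ P b ω) (b : Finset (Ed d)) :
    ExB u q W (EI W) (b ∩ EI W) (fun ω => ind (P b ω)) =
      ExB u q W (EI W) (b ∩ EI W) (fun ω => ind (P (b ∩ EI W) ω)) := by
  refine ExB_congr fun ω _ hω => ?_
  have h1 : P (b ∩ EI W) ω ↔ P b ω := by
    have h2 := hPl b ω
    rwa [Finset.inter_eq_left.mpr hω] at h2
  rw [propext h1]

/-- Events depending on disjoint regions. -/
theorem JP_split (ho : 0 < o) (hu : 0 < u) (hq : 1 ≤ q) {V W : Finset (Pt d)} (hW : W ⊆ V)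
    {P Q : Finset (Ed d) → Finset (Ed d) → Prop}
    (hP : ∀ b s t, s ⊆ t → P b t → P b s) (hQ : ∀ b s t, s ⊆ t → Q b t → Q b s)
    (hPl : ∀ b ω, P (b ∩ EI W) (ω ∩ EI W) ↔ P b ω)
    (hQl : ∀ b ω, Q (b ∩ EI (V \ W)) (ω ∩ EI (V \ W)) ↔ Q b ω) :
    JP o u q V (fun b ω => P b ω ∧ Q b ω) ≤ JP o u q W P * JP o u q (V \ W) Q := by
  unfold JP JE
  have h1 := Ex_one_split ho hW
    (fun b' => ExB u q W (EI W) b' (fun ω => ind (P b' ω)))
    (fun b' => ExB u q (V \ W) (EI (V \ W)) b' (fun ω => ind (Q b' ω)))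
  rw [← h1]
  refine Ex_mono ho le_rfl fun b hb => ?_
  have h2 : ExB u q V (EI V) b (fun ω => ind (P b ω ∧ Q b ω)) =
      ExB u q V (EI V) b (fun ω => ind (P b ω) * ind (Q b ω)) :=
    ExB_congr fun ω _ _ => Joint_ind_and _ _
  rw [h2]
  have h3 := ExB_split hu hq hW hb (f := fun ω => ind (P b ω)) (g := fun ω => ind (Q b ω))
    (fun ω => ind_nonneg _) (fun ω => ind_nonneg _)
    (fun s t hst => ind_mono (hP b s t hst)) (fun s t hst => ind_mono (hQ b s t hst))
    (fun ω => by rw [propext (Joint_loc hPl b ω)])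
    (fun ω => by rw [propext (Joint_loc hQl b ω)])
  rw [Joint_exB hPl b, Joint_exB hQl b] at h3
  exact h3

theorem joint_prod (ho : 0 < o) (hu : 0 < u) (hq : 1 ≤ q) {ι : Type*} [DecidableEq ι]
    (R : ι → Finset (Pt d)) (P : ι → Finset (Ed d) → Finset (Ed d) → Prop) {ε : ℝ}
    (S : Finset ι) (hdec : ∀ k ∈ S, ∀ b s t, s ⊆ t → P k b t → P k b s)
    (hloc : ∀ k ∈ S, ∀ b ω, P k (b ∩ EI (R k)) (ω ∩ EI (R k)) ↔ P k b ω)
    (hε : ∀ k ∈ S, JP o u q (R k) (P k) ≤ ε)
    (hdis : ∀ j ∈ S, ∀ k ∈ S, j ≠ k → Disjoint (R j) (R k)) :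
    ∀ V : Finset (Pt d), (∀ k ∈ S, R k ⊆ V) →
      JP o u q V (fun b ω => ∀ k ∈ S, P k b ω) ≤ ε ^ S.card := by
  revert hdec hloc hε hdis
  induction S using Finset.induction_on with
  | empty =>
    intro _ _ _ _ V _
    rw [Finset.card_empty, pow_zero]
    exact JP_le_one ho hu hq V _
  | insert k S hk ih =>
    intro hdec hloc hε hdis V hV
    have hmem : ∀ j ∈ S, j ∈ insert k S := fun j hj => Finset.mem_insert_of_mem hj
    have hkm : k ∈ insert k S := Finset.mem_insert_self k S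
    have hsub : ∀ j ∈ S, R j ⊆ V \ R k := by
      intro j hj x hx
      rw [Finset.mem_sdiff]
      refine ⟨hV j (hmem j hj) hx, fun hx' => ?_⟩
      have hjk : j ≠ k := fun h => hk (h ▸ hj)
      exact Finset.disjoint_left.mp (hdis j (hmem j hj) k hkm hjk) hx hx'
    have h1 : (fun b ω => ∀ j ∈ insert k S, P j b ω) =
        (fun b ω => P k b ω ∧ (∀ j ∈ S, P j b ω)) := by
      funext b ω
      exact propext (Finset.forall_mem_insert k S fun j => P j b ω)
    rw [h1]
    have h2 := JP_split (o := o) (u := u) (q := q) ho hu hq (hV k hkm) (P := P k)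
      (Q := fun b ω => ∀ j ∈ S, P j b ω) (hdec k hkm)
      (fun b s t hst h j hj => hdec j (hmem j hj) b s t hst (h j hj))
      (hloc k hkm)
      (by
        intro b ω
        have h3 : ∀ j ∈ S, (P j (b ∩ EI (V \ R k)) (ω ∩ EI (V \ R k)) ↔ P j b ω) := by
          intro j hj
          have h4 : EI (V \ R k) ∩ EI (R j) = EI (R j) :=
            Finset.inter_eq_right.mpr (EI_mono (hsub j hj))
          have h5 := hloc j (hmem j hj) (b ∩ EI (V \ R k)) (ω ∩ EI (V \ R k))
          rw [Finset.inter_assoc, Finset.inter_assoc, h4, hloc j (hmem j hj) b ω] at h5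
          exact h5.symm
        exact forall₂_congr h3)
    refine h2.trans ?_
    have h6 := ih (fun j hj => hdec j (hmem j hj)) (fun j hj => hloc j (hmem j hj))
      (fun j hj => hε j (hmem j hj))
      (fun i hi j hj hij => hdis i (hmem i hi) j (hmem j hj) hij) (V \ R k) hsub
    have h7 : 0 ≤ ε := (JP_nonneg ho hu hq (R k) (P k)).trans (hε k hkm)
    rw [Finset.card_insert_of_notMem hk, pow_succ, mul_comm (ε ^ S.card)]
    exact mul_le_mul (hε k hkm) h6 (JP_nonneg ho hu hq _ _) h7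

end Pool.Agent.Lib.MP_31386d_pr_POTTS
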