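import Pool.Agent.Lib.MP_31386d_pr_POTTS.SeedFacts

/-!
# Probability that a block has no seed

Module G3 of project POTTS.
-/

set_option autoImplicit false

namespace Pool.Agent.Lib.MP_31386d_pr_POTTS

open Finset
open Pool.Agent.Lib.MP_31386d_pr

variable {d : ℕ}

/-- One cube. -/
theorem Missing_one {o : ℝ} (ho : 0 < o) (c : Pt d) (r : ℕ) :
    Pb o 1 (bx c r) (EI (bx c r)) (fun b => ¬ EI (bx c r) ⊆ b) ≤
      1 - (o / (o + 1)) ^ (EI (Box d r)).card := by
  have h1 := Pb_subset_ge (u := o) (q := 1) (V := bx c r) (E := EI (bx c r)) ho le_rfl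
    (Subset.refl (EI (bx c r)))
  have h2 : (EI (bx c r)).card = (EI (Box d r)).card := by
    unfold bx
    rw [EI_shV, card_shE]
  rw [h2] at h1
  rw [Pb_not ho le_rfl]
  linarith

/-- Several disjoint cubes. -/
theorem Missing_all {o : ℝ} (ho : 0 < o) (r : ℕ) (S : Finset (Pt d)) (t : Pt d → Pt d) :
    ∀ V : Finset (Pt d), (∀ k ∈ S, bx (t k) r ⊆ V) →
      (∀ j ∈ S, ∀ k ∈ S, j ≠ k → Disjoint (bx (t j) r) (bx (t k) r)) →
      Pb o 1 V (EI V) (fun b => ∀ k ∈ S, ¬ EI (bx (t k) r) ⊆ b) ≤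
        (1 - (o / (o + 1)) ^ (EI (Box d r)).card) ^ S.card := by
  have hp0 : 0 ≤ o / (o + 1) := by positivity
  have hp1 : o / (o + 1) ≤ 1 := by
    rw [div_le_one (by linarith)]
    linarith
  have hε0 : 0 ≤ 1 - (o / (o + 1)) ^ (EI (Box d r)).card := by
    have := pow_le_one₀ (n := (EI (Box d r)).card) hp0 hp1
    linarith
  induction S using Finset.induction_on with
  | empty =>
    intro V _ _
    rw [card_empty, pow_zero]
    exact Pb_le_one ho le_rfl _
  | insert j S hj ih =>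
    intro V hV hdis
    rw [card_insert_of_notMem hj, pow_succ']
    have h1 : ∀ k ∈ S, bx (t k) r ⊆ V \ bx (t j) r := by
      intro k hk x hx
      rw [mem_sdiff]
      refine ⟨hV k (mem_insert_of_mem hk) hx, fun hx' => ?_⟩
      have := hdis j (mem_insert_self _ _) k (mem_insert_of_mem hk) (fun h => hj (h ▸ hk))
      exact Finset.disjoint_left.1 this hx' hx
    have h2 := ih _ h1 (fun a ha b hb => hdis a (mem_insert_of_mem ha) b (mem_insert_of_mem hb))
    have h3 := Slab.Pb_split (u := o) (q := 1) ho le_rfl (hV j (mem_insert_self _ _))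
      (P := fun b => ¬ EI (bx (t j) r) ⊆ b) (Q := fun b => ∀ k ∈ S, ¬ EI (bx (t k) r) ⊆ b)
      (fun s t' hst h h' => h (h'.trans hst))
      (fun s t' hst h k hk h' => h k hk (h'.trans hst))
      (fun ω => not_congr ⟨fun h => h.trans inter_subset_left,
        fun h => subset_inter h (Subset.refl _)⟩)
      (fun ω => ⟨fun h k hk h' => h k hk (subset_inter h' (EI_mono (h1 k hk))),
        fun h k hk h' => h k hk (h'.trans inter_subset_left)⟩)
    have h4 : (fun b => ∀ k ∈ insert j S, ¬ EI (bx (t k) r) ⊆ b) =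
        fun b : Finset (Ed d) => ¬ EI (bx (t j) r) ⊆ b ∧ ∀ k ∈ S, ¬ EI (bx (t k) r) ⊆ b := by
      funext b
      simp only [forall_mem_insert]
    rw [h4]
    refine h3.trans ?_
    exact mul_le_mul (Missing_one ho (t j) r) h2 (Pb_nonneg ho le_rfl _) hε0

theorem missing {o : ℝ} (ho : 0 < o) {r l : ℕ} (hr : 1 ≤ r) {V : Finset (Pt d)} {i : Pt d}
    (hV : bx (fun t => ((r * 2 ^ l : ℕ) : ℤ) * i t) (r * 2 ^ l) ⊆ V) :
    Pb o 1 V (EI V) (fun b => ¬ (seeds r l b i).Nonempty) ≤
      (1 - (o / (o + 1)) ^ (EI (Box d r)).card) ^ ((2 ^ l) ^ d) := by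
  have hr' : (1 : ℤ) ≤ r := by exact_mod_cast hr
  have h1 := Missing_all ho r (bx (fun t => 2 ^ l * i t) (2 ^ l))
    (fun k t => (r : ℤ) * k t) V ?_ ?_
  · rw [card_bx] at h1
    refine le_trans (Pb_mono ho le_rfl ?_) h1
    intro b _ hb k hk h'
    apply hb
    refine ⟨k, ?_⟩
    unfold seeds
    rw [mem_filter]
    exact ⟨hk, h'⟩
  · intro k hk x hx
    apply hV
    rw [mem_bx] at hk hx ⊢
    intro t
    have h2 := hk t
    have h3 := hx t
    push_cast at h2 h3 ⊢
    constructor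
    · have : (r : ℤ) * (2 ^ l * i t) ≤ r * k t := mul_le_mul_of_nonneg_left h2.1 (by omega)
      nlinarith
    · have : (r : ℤ) * (k t + 1) ≤ r * (2 ^ l * i t + 2 ^ l) :=
        mul_le_mul_of_nonneg_left (by linarith [h2.2]) (by omega)
      nlinarith
  · intro j _ k _ hjk
    rw [Finset.disjoint_left]
    intro x hx hx'
    apply hjk
    rw [mem_bx] at hx hx'
    funext t
    have h2 := hx t
    have h3 := hx' t
    have h4 : (r : ℤ) * j t < r * (k t + 1) := by linarith [h2.1, h3.2]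
    have h5 : (r : ℤ) * k t < r * (j t + 1) := by linarith [h3.1, h2.2]
    have h6 := lt_of_mul_lt_mul_left h4 (by omega)
    have h7 := lt_of_mul_lt_mul_left h5 (by omega)
    omega

end Pool.Agent.Lib.MP_31386d_pr_POTTS
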