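import Pool.Agent.Lib.MP_31386d_pr_POTTS.Defs

/-!
# Connection probabilities of the free measure: monotonicity and translations

Module L6 of project POTTS.
-/

set_option autoImplicit false

namespace Pool.Agent.Lib.MP_31386d_pr_POTTS

open Finset
open Pool.Agent.Lib.MP_31386d_pr

variable {d : ℕ} {q : ℝ}

/-- The free connection probability increases with the domain. -/
theorem Pb_conn_mono {u : ℝ} (hu : 0 < u) (hq : 1 ≤ q) {V V' : Finset (Pt d)} (hV : V ⊆ V')
    (x y : Pt d) : Pb u q V (EI V) (fun ω => Conn ω x y) ≤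
      Pb u q V' (EI V') (fun ω => Conn ω x y) := by
  classical
  have e1 : Pb u q (V ∪ (V' \ V)) (EI V) (fun ω => Conn ω x y) =
      Pb u q V (EI V) (fun ω => Conn ω x y) := by
    unfold Pb
    apply Ex_isol hu hq disjoint_sdiff
    intro e he
    rw [mem_EI] at he
    simp only [mem_sdiff]
    tauto
  rw [union_sdiff_of_subset hV] at e1
  rw [← e1]
  exact Slab.Pb_mono_E hu hq (EI_mono hV) (fun s t hst h => h.mono hst)

/-- The free connection probability increases with the parameter. -/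
theorem Pb_conn_mono_u {u u' : ℝ} (hu : 0 < u) (huu : u ≤ u') (hq : 1 ≤ q) (V : Finset (Pt d))
    (x y : Pt d) : Pb u q V (EI V) (fun ω => Conn ω x y) ≤
      Pb u' q V (EI V) (fun ω => Conn ω x y) := by
  classical
  unfold Pb
  refine Ex_dom_u hu huu hq (fun ω => by split_ifs <;> norm_num) (fun s t hst => ?_)
  split_ifs with h1 h2
  · exact le_rfl
  · exact absurd (h1.mono hst) h2
  · norm_num
  · exact le_rfl

/-- Translation invariance. -/
theorem Pb_conn_shV {u : ℝ} (t : Pt d) (V : Finset (Pt d)) (x y : Pt d) :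
    Pb u q (shV t V) (EI (shV t V)) (fun ω => Conn ω (x + t) (y + t)) =
      Pb u q V (EI V) (fun ω => Conn ω x y) := by
  classical
  unfold Pb
  rw [EI_shV, Ex_shV]
  apply Ex_congr
  intro ω _
  by_cases h : Conn ω x y
  · rw [if_pos h, if_pos (conn_shE.mpr h)]
  · rw [if_neg h, if_neg (fun h' => h (conn_shE.mp h'))]

/-- Connectivity in a cube gives connectivity in any set containing the translated cube. -/
theorem r_one_set {u : ℝ} (hu : 0 < u) (hq : 1 ≤ q) {c₁ : ℝ} {K : ℕ} {n : ℕ}
    (h : ∀ x : Pt d, (∀ i, |x i| ≤ n) →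
      c₁ ≤ Pb u q (cube d (K * n ^ 2)) (EI (cube d (K * n ^ 2))) (fun ω => Conn ω 0 x))
    {V : Finset (Pt d)} {x y : Pt d} (hV : shV x (cube d (K * n ^ 2)) ⊆ V)
    (hxy : ∀ i, |y i - x i| ≤ n) : c₁ ≤ Pb u q V (EI V) (fun ω => Conn ω x y) := by
  have h1 := h (y - x) (fun i => by simpa using hxy i)
  have h2 := Pb_conn_shV (q := q) (u := u) x (cube d (K * n ^ 2)) 0 (y - x)
  rw [zero_add, sub_add_cancel] at h2
  rw [← h2] at h1
  exact h1.trans (Pb_conn_mono hu hq hV x y)

end Pool.Agent.Lib.MP_31386d_pr_POTTS
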