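import Pool.Agent.Lib.MP_31386d_pr_POTTS.Dom

/-!
# Conditioned measures on the lattice

Module L8 of project POTTS.
-/

set_option autoImplicit false

namespace Pool.Agent.Lib.MP_31386d_pr_POTTS

open Finset
open Pool.Agent.Lib.MP_31386d_pr

variable {d : ℕ} {u q : ℝ} {V : Finset (Pt d)} {E b : Finset (Ed d)}

theorem ZB_pos (hu : 0 < u) (hq : 1 ≤ q) (hb : b ⊆ E) : 0 < Zs u q V E (fun ω => ind (b ⊆ ω)) := by
  unfold Zs
  refine Finset.sum_pos' (fun ω _ => mul_nonneg (wt_pos hu hq V ω).le (ind_nonneg _))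
    ⟨E, Finset.mem_powerset.mpr (subset_refl E), ?_⟩
  show 0 < wt u q V E * ind (b ⊆ E)
  rw [ind_of hb, mul_one]
  exact wt_pos hu hq V E

private theorem Cond_den_nonneg (hu : 0 < u) (hq : 1 ≤ q) :
    0 ≤ Zs u q V E (fun ω => ind (b ⊆ ω)) :=
  Zs_nonneg hu hq V E (fun _ _ => ind_nonneg _)

theorem ExB_mono (hu : 0 < u) (hq : 1 ≤ q) {f g : Finset (Ed d) → ℝ}
    (h : ∀ ω, b ⊆ ω → ω ⊆ E → f ω ≤ g ω) : ExB u q V E b f ≤ ExB u q V E b g := by
  unfold ExB
  refine div_le_div_of_nonneg_right (Zs_mono hu hq V E (fun ω hω => ?_)) (Cond_den_nonneg hu hq)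
  by_cases hb : b ⊆ ω
  · rw [ind_of hb, one_mul, one_mul]
    exact h ω hb hω
  · rw [ind_not hb, zero_mul, zero_mul]

theorem ExB_congr {f g : Finset (Ed d) → ℝ}
    (h : ∀ ω, b ⊆ ω → ω ⊆ E → f ω = g ω) : ExB u q V E b f = ExB u q V E b g := by
  unfold ExB
  congr 1
  refine Zs_congr V E (fun ω hω => ?_)
  by_cases hb : b ⊆ ω
  · rw [h ω hb hω]
  · rw [ind_not hb, zero_mul, zero_mul]

theorem ExB_const (hu : 0 < u) (hq : 1 ≤ q) (hb : b ⊆ E) (c : ℝ) :
    ExB u q V E b (fun _ => c) = c := by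
  unfold ExB
  have h1 : Zs u q V E (fun ω => ind (b ⊆ ω) * c) = c * Zs u q V E (fun ω => ind (b ⊆ ω)) := by
    rw [← Zs_const_mul]
    exact Zs_congr V E (fun ω _ => mul_comm _ _)
  rw [h1]
  exact mul_div_cancel_right₀ c (ZB_pos hu hq hb).ne'

theorem ExB_add (f g : Finset (Ed d) → ℝ) :
    ExB u q V E b (fun ω => f ω + g ω) = ExB u q V E b f + ExB u q V E b g := by
  unfold ExB
  rw [← add_div, ← Zs_add]
  congr 1
  exact Zs_congr V E (fun ω _ => mul_add _ _ _)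

theorem ExB_const_mul (c : ℝ) (f : Finset (Ed d) → ℝ) :
    ExB u q V E b (fun ω => c * f ω) = c * ExB u q V E b f := by
  unfold ExB
  rw [← mul_div_assoc, ← Zs_const_mul]
  congr 1
  exact Zs_congr V E (fun ω _ => by ring)

private theorem Cond_zero : ExB u q V E b (fun _ => 0) = 0 := by
  have h := ExB_const_mul (u := u) (q := q) (V := V) (E := E) (b := b) 0 (fun _ => 0)
  simpa using h

theorem PbB_nonneg (hu : 0 < u) (hq : 1 ≤ q) (P : Finset (Ed d) → Prop) :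
    0 ≤ PbB u q V E b P := by
  unfold PbB
  rw [← Cond_zero (u := u) (q := q) (V := V) (E := E) (b := b)]
  exact ExB_mono hu hq (fun ω _ _ => ind_nonneg _)

theorem PbB_le_one (hu : 0 < u) (hq : 1 ≤ q) (P : Finset (Ed d) → Prop) :
    PbB u q V E b P ≤ 1 := by
  unfold PbB ExB
  refine div_le_one_of_le₀ (Zs_mono hu hq V E (fun ω _ => ?_)) (Cond_den_nonneg hu hq)
  exact mul_le_of_le_one_right (ind_nonneg _) (ind_le_one _)

private theorem Cond_sum {ι : Type*} (s : Finset ι) (F : ι → Finset (Ed d) → ℝ) :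
    ExB u q V E b (fun ω => ∑ i ∈ s, F i ω) = ∑ i ∈ s, ExB u q V E b (F i) := by
  classical
  induction s using Finset.induction_on with
  | empty =>
    simp only [Finset.sum_empty]
    exact Cond_zero
  | insert a s ha ih =>
    rw [Finset.sum_insert ha, ← ih, ← ExB_add]
    exact ExB_congr (fun ω _ _ => Finset.sum_insert ha)

/-- Union bound. -/
theorem PbB_union (hu : 0 < u) (hq : 1 ≤ q) {ι : Type*} (s : Finset ι)
    (P : Finset (Ed d) → Prop) (Q : ι → Finset (Ed d) → Prop)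
    (h : ∀ ω, b ⊆ ω → ω ⊆ E → P ω → ∃ i ∈ s, Q i ω) :
    PbB u q V E b P ≤ ∑ i ∈ s, PbB u q V E b (Q i) := by
  unfold PbB
  rw [← Cond_sum s (fun i ω => ind (Q i ω))]
  refine ExB_mono hu hq (fun ω hb hω => ?_)
  by_cases hP : P ω
  · obtain ⟨i, hi, hQ⟩ := h ω hb hω hP
    rw [ind_of hP]
    calc (1 : ℝ) = ind (Q i ω) := (ind_of hQ).symm
      _ ≤ ∑ i ∈ s, ind (Q i ω) :=
        Finset.single_le_sum (f := fun i => ind (Q i ω)) (fun j _ => ind_nonneg _) hi
  · rw [ind_not hP]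
    exact Finset.sum_nonneg (fun j _ => ind_nonneg _)

/-- FKG inequality for the conditioned measure. -/
theorem PbB_fkg (hu : 0 < u) (hq : 1 ≤ q) (hb : b ⊆ E) {P Q : Finset (Ed d) → Prop}
    (hP : ∀ s t, s ⊆ t → P s → P t) (hQ : ∀ s t, s ⊆ t → Q s → Q t) :
    PbB u q V E b P * PbB u q V E b Q ≤ PbB u q V E b (fun ω => P ω ∧ Q ω) := by
  have hpos := ZB_pos (V := V) hu hq hb
  have key : Zs u q V E (fun ω => ind (b ⊆ ω) * ind (P ω)) *
      Zs u q V E (fun ω => ind (b ⊆ ω) * ind (Q ω)) ≤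
      Zs u q V E (fun ω => ind (b ⊆ ω)) *
      Zs u q V E (fun ω => ind (b ⊆ ω) * ind (P ω ∧ Q ω)) := by
    refine four_fun E (fun ω => mul_nonneg (wt_pos hu hq _ _).le
        (mul_nonneg (ind_nonneg _) (ind_nonneg _)))
      (fun ω => mul_nonneg (wt_pos hu hq _ _).le (mul_nonneg (ind_nonneg _) (ind_nonneg _)))
      (fun ω => mul_nonneg (wt_pos hu hq _ _).le (ind_nonneg _))
      (fun ω => mul_nonneg (wt_pos hu hq _ _).le (mul_nonneg (ind_nonneg _) (ind_nonneg _)))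
      (fun s _ t _ => ?_)
    have h1 := wt_mul_le hu hq V V s t
    rw [union_self, inter_self] at h1
    have h2 : ind (b ⊆ s) * ind (P s) * (ind (b ⊆ t) * ind (Q t)) ≤
        ind (b ⊆ s ∩ t) * (ind (b ⊆ s ∪ t) * ind (P (s ∪ t) ∧ Q (s ∪ t))) := by
      by_cases h : b ⊆ s ∧ P s ∧ b ⊆ t ∧ Q t
      · obtain ⟨hs, hPs, ht, hQt⟩ := h
        rw [ind_of hs, ind_of hPs, ind_of ht, ind_of hQt, ind_of (Finset.subset_inter hs ht),
          ind_of (hs.trans subset_union_left),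
          ind_of ⟨hP _ _ subset_union_left hPs, hQ _ _ subset_union_right hQt⟩]
        norm_num
      · have h3 : ind (b ⊆ s) * ind (P s) * (ind (b ⊆ t) * ind (Q t)) = 0 := by
          by_cases hs : b ⊆ s
          · by_cases hPs : P s
            · by_cases ht : b ⊆ t
              · have hQt : ¬ Q t := fun hQt => h ⟨hs, hPs, ht, hQt⟩
                rw [ind_not hQt, mul_zero, mul_zero]
              · rw [ind_not ht, zero_mul, mul_zero]
            · rw [ind_not hPs, mul_zero, zero_mul]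
          · rw [ind_not hs, zero_mul, zero_mul]
        rw [h3]
        exact mul_nonneg (ind_nonneg _) (mul_nonneg (ind_nonneg _) (ind_nonneg _))
    calc wt u q V s * (ind (b ⊆ s) * ind (P s)) * (wt u q V t * (ind (b ⊆ t) * ind (Q t)))
        = (wt u q V s * wt u q V t) *
          (ind (b ⊆ s) * ind (P s) * (ind (b ⊆ t) * ind (Q t))) := by ring
      _ ≤ (wt u q V (s ∩ t) * wt u q V (s ∪ t)) *
          (ind (b ⊆ s ∩ t) * (ind (b ⊆ s ∪ t) * ind (P (s ∪ t) ∧ Q (s ∪ t)))) :=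
          mul_le_mul h1 h2
            (mul_nonneg (mul_nonneg (ind_nonneg _) (ind_nonneg _))
              (mul_nonneg (ind_nonneg _) (ind_nonneg _)))
            (mul_nonneg (wt_pos hu hq _ _).le (wt_pos hu hq _ _).le)
      _ = _ := by ring
  unfold PbB ExB
  rw [div_mul_div_comm, div_le_div_iff₀ (mul_pos hpos hpos) hpos]
  calc Zs u q V E (fun ω => ind (b ⊆ ω) * ind (P ω)) *
        Zs u q V E (fun ω => ind (b ⊆ ω) * ind (Q ω)) * Zs u q V E (fun ω => ind (b ⊆ ω))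
      ≤ (Zs u q V E (fun ω => ind (b ⊆ ω)) *
        Zs u q V E (fun ω => ind (b ⊆ ω) * ind (P ω ∧ Q ω))) *
        Zs u q V E (fun ω => ind (b ⊆ ω)) := mul_le_mul_of_nonneg_right key hpos.le
    _ = _ := by ring

/-- The conditioned measure is larger than the measure. -/
theorem Ex_le_ExB (hu : 0 < u) (hq : 1 ≤ q) (hb : b ⊆ E) {f : Finset (Ed d) → ℝ}
    (hf0 : ∀ ω, 0 ≤ f ω) (hf : ∀ s t, s ⊆ t → f s ≤ f t) :
    Ex u q V E f ≤ ExB u q V E b f := by
  have hpos := ZB_pos (V := V) hu hq hb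
  have h1 := Zs_fkg hu hq V E (f := f) (g := fun ω => ind (b ⊆ ω)) hf0
    (fun ω => ind_nonneg _) hf (fun s t hst => ind_mono (fun h => h.trans hst))
  unfold Ex ExB
  rw [div_le_div_iff₀ (Z_pos hu hq V E) hpos]
  refine h1.trans (le_of_eq ?_)
  rw [mul_comm]
  congr 1
  exact Zs_congr V E (fun ω _ => mul_comm _ _)

theorem Pb_le_PbB (hu : 0 < u) (hq : 1 ≤ q) (hb : b ⊆ E) {P : Finset (Ed d) → Prop}
    (hP : ∀ s t, s ⊆ t → P s → P t) : Pb u q V E P ≤ PbB u q V E b P := by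
  have h1 := Ex_le_ExB (V := V) hu hq hb (f := fun ω => ind (P ω)) (fun ω => ind_nonneg _)
    (fun s t hst => ind_mono (hP s t hst))
  refine le_trans (le_of_eq ?_) h1
  unfold Pb
  refine Ex_congr (fun ω _ => ?_)
  by_cases h : P ω
  · rw [if_pos h, ind_of h]
  · rw [if_neg h, ind_not h]

end Pool.Agent.Lib.MP_31386d_pr_POTTS
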