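import Pool.Agent.Lib.MP_31386d_pr_POTTS.Cond

/-!
# Conditioning as a change of base

Module L11 of project POTTS.
-/

set_option autoImplicit false

namespace Pool.Agent.Lib.MP_31386d_pr_POTTS

open Finset
open Pool.Agent.Lib.MP_31386d_pr

variable {d : ℕ} {u q : ℝ}

/-- Change of variables: conditioning on `b` open is the same as wiring along `b`. -/
theorem cond_base (hu : 0 < u) (V : Finset (Pt d)) {E b : Finset (Ed d)} (hb : b ⊆ E)
    (f : Finset (Ed d) → ℝ) :
    Zs u q V E (fun ω => ind (b ⊆ ω) * f ω) * ((1 + u) / u) ^ b.card =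
      ∑ ω ∈ E.powerset, u ^ ω.card * q ^ kap V (ω ∪ b) * f (ω ∪ b) := by
  have hdisj : Disjoint (E \ b) b := sdiff_disjoint
  have hE : (E \ b) ∪ b = E := sdiff_union_of_subset hb
  have hl : Zs u q V E (fun ω => ind (b ⊆ ω) * f ω) =
      ∑ ω₁ ∈ (E \ b).powerset, u ^ ω₁.card * u ^ b.card * q ^ kap V (ω₁ ∪ b) * f (ω₁ ∪ b) := by
    unfold Zs
    rw [← hE, sum_powerset_union hdisj, hE]
    apply sum_congr rfl
    intro ω₁ h₁
    rw [mem_powerset] at h₁
    rw [sum_eq_single b]
    · beta_reduce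
      rw [ind_of (subset_union_right (s₁ := ω₁) (s₂ := b))]
      unfold wt
      rw [card_union_of_disjoint (disjoint_of_subset_left h₁ hdisj), pow_add]
      ring
    · intro ω₂ h₂ hne
      rw [mem_powerset] at h₂
      have h3 : ¬ b ⊆ ω₁ ∪ ω₂ := by
        intro h4
        apply hne
        apply Subset.antisymm h₂
        intro e he
        rcases mem_union.1 (h4 he) with h5 | h5
        · exact absurd he (fun h6 => disjoint_left.1 hdisj (h₁ h5) h6)
        · exact h5
      beta_reduce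
      rw [ind_not h3, zero_mul, mul_zero]
    · intro h
      exact absurd (mem_powerset.2 (Subset.refl b)) h
  have hr : ∑ ω ∈ E.powerset, u ^ ω.card * q ^ kap V (ω ∪ b) * f (ω ∪ b) =
      ∑ ω₁ ∈ (E \ b).powerset, u ^ ω₁.card * (1 + u) ^ b.card * q ^ kap V (ω₁ ∪ b) *
        f (ω₁ ∪ b) := by
    rw [← hE, sum_powerset_union hdisj, hE]
    apply sum_congr rfl
    intro ω₁ h₁
    rw [mem_powerset] at h₁
    rw [← sum_pow_card b u, mul_sum, sum_mul, sum_mul]
    apply sum_congr rfl
    intro ω₂ h₂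
    rw [mem_powerset] at h₂
    rw [union_assoc, union_eq_right.2 h₂,
      card_union_of_disjoint (disjoint_of_subset_left h₁ (disjoint_of_subset_right h₂ hdisj)),
      pow_add]
  rw [hl, hr, sum_mul]
  apply sum_congr rfl
  intro ω₁ _
  have hu0 : u ^ b.card ≠ 0 := pow_ne_zero _ hu.ne'
  rw [div_pow]
  field_simp

end Pool.Agent.Lib.MP_31386d_pr_POTTS
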