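import Pool.Agent.Lib.MP_31386d_pr_POTTS.Cond

/-!
# Separation of disjoint regions for the conditioned measure

Module L9 of project POTTS.
-/

set_option autoImplicit false

namespace Pool.Agent.Lib.MP_31386d_pr_POTTS

open Finset
open Pool.Agent.Lib.MP_31386d_pr

variable {d : ℕ} {u q : ℝ}

/-- Removing edges increases the conditioned expectation of a decreasing function. -/
private theorem CondSplit_dom (hu : 0 < u) (hq : 1 ≤ q) {V : Finset (Pt d)}
    {E E' b : Finset (Ed d)} (hE : E' ⊆ E) (hb : b ⊆ E) {F : Finset (Ed d) → ℝ}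
    (hF0 : ∀ ω, 0 ≤ F ω) (hF : ∀ s t, s ⊆ t → F t ≤ F s) :
    ExB u q V E b F ≤ ExB u q V E' (b ∩ E') F := by
  classical
  have hZ := ZB_pos (V := V) hu hq hb
  have hZ' := ZB_pos (V := V) hu hq (inter_subset_right : b ∩ E' ⊆ E')
  have ext : ∀ g : Finset (Ed d) → ℝ, Zs u q V E' g =
      ∑ ω ∈ E.powerset, (if ω ⊆ E' then wt u q V ω * g ω else 0) := by
    intro g
    unfold Zs
    rw [← sum_filter]
    apply sum_congr _ (fun _ _ => rfl)
    ext ω
    simp only [mem_powerset, mem_filter]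
    exact ⟨fun h => ⟨h.trans hE, h⟩, fun h => h.2⟩
  have h : Zs u q V E (fun ω => ind (b ⊆ ω) * F ω) * Zs u q V E' (fun ω => ind (b ∩ E' ⊆ ω)) ≤
      Zs u q V E' (fun ω => ind (b ∩ E' ⊆ ω) * F ω) * Zs u q V E (fun ω => ind (b ⊆ ω)) := by
    rw [ext (fun ω => ind (b ∩ E' ⊆ ω)), ext (fun ω => ind (b ∩ E' ⊆ ω) * F ω)]
    refine four_fun E
      (fun ω => mul_nonneg (wt_pos hu hq _ _).le (mul_nonneg (ind_nonneg _) (hF0 ω)))
      (fun ω => ?_) (fun ω => ?_)
      (fun ω => mul_nonneg (wt_pos hu hq _ _).le (ind_nonneg _)) (fun s _ t _ => ?_)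
    · split_ifs
      · exact mul_nonneg (wt_pos hu hq _ _).le (ind_nonneg _)
      · exact le_rfl
    · split_ifs
      · exact mul_nonneg (wt_pos hu hq _ _).le (mul_nonneg (ind_nonneg _) (hF0 ω))
      · exact le_rfl
    · beta_reduce
      have hR : 0 ≤ (if s ∩ t ⊆ E' then wt u q V (s ∩ t) * (ind (b ∩ E' ⊆ s ∩ t) * F (s ∩ t)) else 0)
          * (wt u q V (s ∪ t) * ind (b ⊆ s ∪ t)) := by
        apply mul_nonneg
        · split_ifs
          · exact mul_nonneg (wt_pos hu hq _ _).le (mul_nonneg (ind_nonneg _) (hF0 _))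
          · exact le_rfl
        · exact mul_nonneg (wt_pos hu hq _ _).le (ind_nonneg _)
      by_cases ht : t ⊆ E'
      · by_cases hbs : b ⊆ s
        · by_cases hbt : b ∩ E' ⊆ t
          · have hst : s ∩ t ⊆ E' := inter_subset_right.trans ht
            have hi : b ∩ E' ⊆ s ∩ t := subset_inter (inter_subset_left.trans hbs) hbt
            rw [if_pos ht, if_pos hst, ind_of hbs, ind_of hbt, ind_of hi,
              ind_of (hbs.trans subset_union_left : b ⊆ s ∪ t)]
            have h1 := wt_mul_le hu hq V V s t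
            rw [union_self, inter_self] at h1
            calc wt u q V s * (1 * F s) * (wt u q V t * 1) = (wt u q V s * wt u q V t) * F s := by
                  ring
              _ ≤ (wt u q V (s ∩ t) * wt u q V (s ∪ t)) * F (s ∩ t) :=
                  mul_le_mul h1 (hF _ _ inter_subset_left) (hF0 _)
                    (mul_nonneg (wt_pos hu hq _ _).le (wt_pos hu hq _ _).le)
              _ = _ := by ring
          · rw [if_pos ht, ind_not hbt, mul_zero, mul_zero]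
            exact hR
        · rw [ind_not hbs, zero_mul, mul_zero, zero_mul]
          exact hR
      · rw [if_neg ht, mul_zero]
        exact hR
  unfold ExB
  rw [div_le_div_iff₀ hZ hZ']
  exact h

/-- Product formula for the conditioned sums. -/
private theorem CondSplit_prod {V W : Finset (Pt d)} (hVW : Disjoint V W)
    {E F : Finset (Ed d)} (hE : ∀ e ∈ E, e.1 ∉ W ∧ tgt e ∉ W)
    (hF : ∀ e ∈ F, e.1 ∉ V ∧ tgt e ∉ V) (hEF : Disjoint E F) (b : Finset (Ed d))
    {f g : Finset (Ed d) → ℝ} (hfl : ∀ ω, f (ω ∩ E) = f ω) (hgl : ∀ ω, g (ω ∩ F) = g ω) :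
    Zs u q (V ∪ W) (E ∪ F) (fun ω => ind (b ∩ (E ∪ F) ⊆ ω) * (f ω * g ω)) =
      Zs u q V E (fun ω => ind (b ∩ E ⊆ ω) * f ω) *
        Zs u q W F (fun ω => ind (b ∩ F ⊆ ω) * g ω) := by
  rw [Zs_prod V W hVW hE hF hEF]
  unfold Zs
  rw [sum_mul_sum]
  apply sum_congr rfl
  intro ω₁ hω₁
  apply sum_congr rfl
  intro ω₂ hω₂
  rw [mem_powerset] at hω₁ hω₂
  have e1 : (ω₁ ∪ ω₂) ∩ E = ω₁ := by
    ext e
    rw [mem_inter, mem_union]
    constructor
    · rintro ⟨h | h, h'⟩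
      · exact h
      · exact absurd (hω₂ h) (disjoint_left.1 hEF h')
    · intro h
      exact ⟨Or.inl h, hω₁ h⟩
  have e2 : (ω₁ ∪ ω₂) ∩ F = ω₂ := by
    ext e
    rw [mem_inter, mem_union]
    constructor
    · rintro ⟨h | h, h'⟩
      · exact absurd h' (disjoint_left.1 hEF (hω₁ h))
      · exact h
    · intro h
      exact ⟨Or.inr h, hω₂ h⟩
  have f1 : f (ω₁ ∪ ω₂) = f ω₁ := by rw [← hfl (ω₁ ∪ ω₂), e1]
  have g1 : g (ω₁ ∪ ω₂) = g ω₂ := by rw [← hgl (ω₁ ∪ ω₂), e2]
  have key : ind (b ∩ (E ∪ F) ⊆ ω₁ ∪ ω₂) = ind (b ∩ E ⊆ ω₁) * ind (b ∩ F ⊆ ω₂) := by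
    by_cases h1 : b ∩ E ⊆ ω₁
    · by_cases h2 : b ∩ F ⊆ ω₂
      · have h3 : b ∩ (E ∪ F) ⊆ ω₁ ∪ ω₂ := by
          intro e he
          rw [mem_inter, mem_union] at he
          rw [mem_union]
          rcases he.2 with h | h
          · exact Or.inl (h1 (mem_inter.2 ⟨he.1, h⟩))
          · exact Or.inr (h2 (mem_inter.2 ⟨he.1, h⟩))
        rw [ind_of h1, ind_of h2, ind_of h3, one_mul]
      · have h3 : ¬ b ∩ (E ∪ F) ⊆ ω₁ ∪ ω₂ := by
          intro h
          apply h2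
          intro e he
          rw [mem_inter] at he
          have := h (mem_inter.2 ⟨he.1, mem_union_right _ he.2⟩)
          rw [← e2]
          exact mem_inter.2 ⟨this, he.2⟩
        rw [ind_not h2, ind_not h3, mul_zero]
    · have h3 : ¬ b ∩ (E ∪ F) ⊆ ω₁ ∪ ω₂ := by
        intro h
        apply h1
        intro e he
        rw [mem_inter] at he
        have := h (mem_inter.2 ⟨he.1, mem_union_left _ he.2⟩)
        rw [← e1]
        exact mem_inter.2 ⟨this, he.2⟩
      rw [ind_not h1, ind_not h3, zero_mul]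
  rw [f1, g1, key]
  ring

/-- Decreasing nonnegative functions depending on disjoint regions `W` and `V \ W`. -/
theorem ExB_split (hu : 0 < u) (hq : 1 ≤ q) {V W : Finset (Pt d)} (hW : W ⊆ V)
    {b : Finset (Ed d)} (hb : b ⊆ EI V) {f g : Finset (Ed d) → ℝ}
    (hf0 : ∀ ω, 0 ≤ f ω) (hg0 : ∀ ω, 0 ≤ g ω)
    (hf : ∀ s t, s ⊆ t → f t ≤ f s) (hg : ∀ s t, s ⊆ t → g t ≤ g s)
    (hfl : ∀ ω, f (ω ∩ EI W) = f ω) (hgl : ∀ ω, g (ω ∩ EI (V \ W)) = g ω) :
    ExB u q V (EI V) b (fun ω => f ω * g ω) ≤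
      ExB u q W (EI W) (b ∩ EI W) f *
        ExB u q (V \ W) (EI (V \ W)) (b ∩ EI (V \ W)) g := by
  have hVW : W ∪ (V \ W) = V := union_sdiff_of_subset hW
  have hE : EI W ∪ EI (V \ W) ⊆ EI V := by
    rw [union_subset_iff]
    exact ⟨EI_mono hW, EI_mono sdiff_subset⟩
  have h1 := CondSplit_dom (u := u) (q := q) (V := V) hu hq hE hb (F := fun ω => f ω * g ω)
    (fun ω => mul_nonneg (hf0 ω) (hg0 ω))
    (fun s t hst => mul_le_mul (hf s t hst) (hg s t hst) (hg0 t) (hf0 s))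
  refine h1.trans (le_of_eq ?_)
  have hd : ∀ e ∈ EI W, e.1 ∉ V \ W ∧ tgt e ∉ V \ W := by
    intro e he
    rw [mem_EI] at he
    rw [mem_sdiff, mem_sdiff]
    tauto
  have hd' : ∀ e ∈ EI (V \ W), e.1 ∉ W ∧ tgt e ∉ W := by
    intro e he
    rw [mem_EI, mem_sdiff, mem_sdiff] at he
    tauto
  have h2 := CondSplit_prod (u := u) (q := q) (V := W) (W := V \ W) disjoint_sdiff hd hd'
    (disjoint_EI disjoint_sdiff) b hfl hgl
  have h3 := CondSplit_prod (u := u) (q := q) (V := W) (W := V \ W) disjoint_sdiff hd hd'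
    (disjoint_EI disjoint_sdiff) b (f := fun _ => 1) (g := fun _ => 1)
    (fun _ => rfl) (fun _ => rfl)
  rw [hVW] at h2 h3
  simp only [mul_one] at h3
  unfold ExB
  rw [h2, h3]
  exact mul_div_mul_comm _ _ _ _

end Pool.Agent.Lib.MP_31386d_pr_POTTS
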