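import Pool.Agent.Lib.MP_31386d_pr.Slab

/-!
# Slab percolation for the random-cluster model with integer `q`: definitions

First part: the random-cluster model on an abstract finite graph with vertex type `W`, edge type
`ι` (the edge `e` joins the two components of `en e`) and a relation `B` of wired pairs (the base).
Second part: the lattice (conditioned measures, seeds, blocks).
-/

set_option autoImplicit false

namespace Pool.Agent.Lib.MP_31386d_pr_POTTS

open Finset
open Pool.Agent.Lib.MP_31386d_pr

/-- The indicator of a proposition. -/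
noncomputable def ind (P : Prop) : ℝ := by
  classical
  exact if P then 1 else 0

section graph

variable {W ι : Type}

/-- One step in the abstract graph. -/
def Rel (en : ι → W × W) (B : W → W → Prop) (ω : Finset ι) (x y : W) : Prop :=
  B x y ∨ ∃ e ∈ ω, en e = (x, y)

/-- `x` and `y` are in the same cluster. -/
def Cn (en : ι → W × W) (B : W → W → Prop) (ω : Finset ι) (x y : W) : Prop :=
  Relation.EqvGen (Rel en B ω) x y

/-- Number of clusters. -/
noncomputable def cc (en : ι → W × W) (B : W → W → Prop) (ω : Finset ι) : ℕ :=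
  Nat.card (Quot (Rel en B ω))

/-- Sum of `f` with the random-cluster weights. -/
noncomputable def aZ (u q : ℝ) (en : ι → W × W) (B : W → W → Prop) (E : Finset ι)
    (f : Finset ι → ℝ) : ℝ := ∑ ω ∈ E.powerset, u ^ ω.card * q ^ cc en B ω * f ω

/-- Random-cluster expectation. -/
noncomputable def aEx (u q : ℝ) (en : ι → W × W) (B : W → W → Prop) (E : Finset ι)
    (f : Finset ι → ℝ) : ℝ := aZ u q en B E f / aZ u q en B E (fun _ => 1)

/-- Random-cluster probability of `{x ~ y}`. -/
noncomputable def aC (u q : ℝ) (en : ι → W × W) (B : W → W → Prop) (E : Finset ι)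
    (x y : W) : ℝ := aEx u q en B E (fun ω => ind (Cn en B ω x y))

/-- The base `B` with `t` and `b` identified. -/
def Mrg (B : W → W → Prop) (t b : W) (x y : W) : Prop := B x y ∨ (x = t ∧ y = b)

/-- `x` and `y` are in the clusters of `t` and `b`, one in each. -/
def Opp (en : ι → W × W) (B : W → W → Prop) (t b : W) (ω : Finset ι) (x y : W) : Prop :=
  (Cn en B ω x t ∧ Cn en B ω y b) ∨ (Cn en B ω x b ∧ Cn en B ω y t)

/-- Sum of `f` over the configurations where `t` and `b` are not connected. -/
noncomputable def aZD (u q : ℝ) (en : ι → W × W) (B : W → W → Prop) (E : Finset ι) (t b : W)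
    (f : Finset ι → ℝ) : ℝ := aZ u q en B E (fun ω => ind (¬ Cn en B ω t b) * f ω)

/-- Expectation conditioned on `t` and `b` being not connected. -/
noncomputable def aED (u q : ℝ) (en : ι → W × W) (B : W → W → Prop) (E : Finset ι) (t b : W)
    (f : Finset ι → ℝ) : ℝ := aZD u q en B E t b f / aZD u q en B E t b (fun _ => 1)

/-- Conditional probability of `{x ~ y}`. -/
noncomputable def aCD (u q : ℝ) (en : ι → W × W) (B : W → W → Prop) (E : Finset ι) (t b : W)
    (x y : W) : ℝ := aED u q en B E t b (fun ω => ind (Cn en B ω x y))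

/-- `m x`: probability of `{x ~ t}` when `t` and `b` are identified. -/
noncomputable def mm (u q : ℝ) (en : ι → W × W) (B : W → W → Prop) (E : Finset ι) (t b : W)
    (x : W) : ℝ := aC u q en (Mrg B t b) E x t

/-- `n x = (q - 1) P_D (x ~ t) - P_D (x ~ b)`. -/
noncomputable def nn (u q : ℝ) (en : ι → W × W) (B : W → W → Prop) (E : Finset ι) (t b : W)
    (x : W) : ℝ := (q - 1) * aCD u q en B E t b x t - aCD u q en B E t b x b

/-- `X x y = (1 - 1/q) (P_o (x ~ y) - P_D (x ~ y)) + (1/q) P_D (Opp x y)`. -/
noncomputable def XX (u q : ℝ) (en : ι → W × W) (B : W → W → Prop) (E : Finset ι) (t b : W)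
    (x y : W) : ℝ :=
  (1 - 1 / q) * (aC u q en (Mrg B t b) E x y - aCD u q en B E t b x y) +
    (1 / q) * aED u q en B E t b (fun ω => ind (Opp en B t b ω x y))

/-- First inequality (comparison of two bases). -/
def Q1 (q C : ℝ) : Prop := ∀ (W ι : Type) [Finite W] (en : ι → W × W) (B B' : W → W → Prop)
  (_ : ∀ x y, B x y → B' x y) (E : Finset ι) (u : ℝ) (_ : 0 < u) (t x y : W),
  (aC u q en B' E x t * aC u q en B E y t - aC u q en B' E y t * aC u q en B E x t) ^ 2 ≤
    C * (aC u q en B' E x y - aC u q en B E x y)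

/-- Second inequality (identification against disconnection of `t` and `b`). -/
def Q2 (q C : ℝ) : Prop := ∀ (W ι : Type) [Finite W] (en : ι → W × W) (B : W → W → Prop)
  (E : Finset ι) (u : ℝ) (_ : 0 < u) (t b : W) (_ : ¬ Cn en B ∅ t b) (x y : W),
  (mm u q en B E t b x * nn u q en B E t b y - mm u q en B E t b y * nn u q en B E t b x) ^ 2 ≤
    C * XX u q en B E t b x y

end graph

/-! ### The lattice -/

section lattice

variable {d : ℕ}

/-- Image of a lattice point in the abstract graph: the points outside `V` go to `none`. -/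
noncomputable def pV (V : Finset (Pt d)) (x : Pt d) : Option {x // x ∈ V} := by
  classical
  exact if h : x ∈ V then some ⟨x, h⟩ else none

/-- End points of a lattice edge in the abstract graph. -/
noncomputable def enV (V : Finset (Pt d)) (e : Ed d) : Option {x // x ∈ V} × Option {x // x ∈ V} :=
  (pV V e.1, pV V (tgt e))

/-- Wiring of the points of `V` outside `V'` to `none`. -/
def BW (V V' : Finset (Pt d)) (a b : Option {x // x ∈ V}) : Prop :=
  ∃ x : {x // x ∈ V}, x.1 ∉ V' ∧ a = some x ∧ b = none

/-- The wiring given by the edges of `b`. -/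
def BE (V : Finset (Pt d)) (b : Finset (Ed d)) (x y : Option {x // x ∈ V}) : Prop :=
  ∃ e ∈ b, enV V e = (x, y)

/-- Expectation conditioned on the edges of `b` being open. -/
noncomputable def ExB (u q : ℝ) (V : Finset (Pt d)) (E : Finset (Ed d)) (b : Finset (Ed d))
    (f : Finset (Ed d) → ℝ) : ℝ :=
  Zs u q V E (fun ω => ind (b ⊆ ω) * f ω) / Zs u q V E (fun ω => ind (b ⊆ ω))

/-- Conditional probability. -/
noncomputable def PbB (u q : ℝ) (V : Finset (Pt d)) (E : Finset (Ed d)) (b : Finset (Ed d))
    (P : Finset (Ed d) → Prop) : ℝ := ExB u q V E b (fun ω => ind (P ω))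

/-- Joint expectation: the marks `b` are Bernoulli with odds `o`, then `ω` has the conditional law
given that the marked edges are open. -/
noncomputable def JE (o u q : ℝ) (V : Finset (Pt d)) (F : Finset (Ed d) → Finset (Ed d) → ℝ) : ℝ :=
  Ex o 1 V (EI V) (fun b => ExB u q V (EI V) b (F b))

/-- Joint probability. -/
noncomputable def JP (o u q : ℝ) (V : Finset (Pt d)) (P : Finset (Ed d) → Finset (Ed d) → Prop) :
    ℝ := JE o u q V (fun b ω => ind (P b ω))

/-- The box `c + [0, l)^d`. -/
noncomputable def bx (c : Pt d) (l : ℕ) : Finset (Pt d) := shV c (Box d l)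

/-- Dirichlet energy of `h` in `A`. -/
noncomputable def En (h : Pt d → ℝ) (A : Finset (Pt d)) : ℝ := ∑ e ∈ EI A, (h e.1 - h (tgt e)) ^ 2

/-- Average over a box of side `l`. -/
noncomputable def avg (h : Pt d → ℝ) (c : Pt d) (l : ℕ) : ℝ := (∑ x ∈ bx c l, h x) / (l : ℝ) ^ d

/-- Indices of the `ρ`-blocks of the fine cube `n j + [0, 2 n)^d`, `n = 2 ^ k₀ ρ`. -/
noncomputable def blocks (k₀ : ℕ) (j : Pt d) : Finset (Pt d) := bx (fun i => 2 ^ k₀ * j i) (2 ^ (k₀ + 1))

/-- The seeds of the `ρ`-block `i`, `ρ = r 2 ^ l`: the aligned `r`-cubes inside the block all of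
whose edges are marked. -/
noncomputable def seeds (r l : ℕ) (b : Finset (Ed d)) (i : Pt d) : Finset (Pt d) := by
  classical
  exact (bx (fun t => 2 ^ l * i t) (2 ^ l)).filter (fun k => EI (bx (fun t => (r : ℤ) * k t) r) ⊆ b)

/-- A chosen element of a finite set. -/
noncomputable def pick (S : Finset (Pt d)) : Pt d := by
  classical
  exact if h : S.Nonempty then h.choose else 0

/-- Corner of the chosen seed of block `i`. -/
noncomputable def sd (r l : ℕ) (b : Finset (Ed d)) (i : Pt d) : Pt d :=
  fun t => (r : ℤ) * pick (seeds r l b i) t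

/-- All blocks of the fine cube `j` have seeds. -/
def FullF (r l k₀ : ℕ) (j : Pt d) (b : Finset (Ed d)) : Prop :=
  ∀ i ∈ blocks k₀ j, (seeds r l b i).Nonempty

/-- The cluster of `x` contains almost all chosen seeds of the fine cube `j`. -/
def Big (r l k₀ : ℕ) (j : Pt d) (b ω : Finset (Ed d)) (x : Pt d) : Prop := by
  classical
  exact 2 ^ (d + 1) * ((blocks k₀ j).filter (fun i => ¬ Conn ω x (sd r l b i))).card <
    (blocks k₀ j).card

end lattice

/-! ### Coarse blocks, dimension `D + 1` -/

section coarse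

variable {D : ℕ}

/-- The box `[0, L) × [0, M]^D`. -/
noncomputable def slb (D L M : ℕ) : Finset (Pt (D + 1)) :=
  Fintype.piFinset (fun i : Fin (D + 1) =>
    if i.val = 0 then Finset.Ico (0 : ℤ) L else Finset.Icc (0 : ℤ) M)

/-- Fine cubes of the coarse block `k`. -/
noncomputable def fines (g w : ℕ) (k : Pt D) : Finset (Pt (D + 1)) :=
  Fintype.piFinset (fun i : Fin (D + 1) => Fin.cases (Finset.Icc (g : ℤ) g)
    (fun i => Finset.Icc ((g : ℤ) + w * k i) (g + w * k i + w)) i)

/-- Region of the coarse block `k`. -/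
noncomputable def reg (n g w : ℕ) (k : Pt D) : Finset (Pt (D + 1)) :=
  Fintype.piFinset (fun i : Fin (D + 1) => Fin.cases (Finset.Ico (0 : ℤ) ((2 * g + 2) * n))
    (fun i => Finset.Ico ((n : ℤ) * w * k i) (n * w * k i + (w + 2 + 2 * g) * n)) i)

/-- The coarse block `k` is good. -/
def GoodC (r l k₀ g w : ℕ) (k : Pt D) (b ω : Finset (Ed (D + 1))) : Prop :=
  ∀ j ∈ fines g w k, FullF r l k₀ j b ∧
    ∃ x, Big r l k₀ j b (ω ∩ EI (reg (r * 2 ^ l * 2 ^ k₀) g w k)) x

end coarse

end Pool.Agent.Lib.MP_31386d_pr_POTTS
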