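import Pool.Agent.Lib.MP_31386d_pr_POTTS.EdgeOpen

/-!
# Derivatives of the partition functions

Module A11 of project POTTS.
-/

set_option autoImplicit false

namespace Pool.Agent.Lib.MP_31386d_pr_POTTS

open Finset

private theorem Deriv_card {ι : Type} [DecidableEq ι] {E w : Finset ι} (h : w ⊆ E) :
    ∑ e ∈ E, ind (e ∈ w) = (w.card : ℝ) := by
  have h1 : ∀ e ∈ E, ind (e ∈ w) = if e ∈ w then (1 : ℝ) else 0 := by
    intro e _
    by_cases he : e ∈ w
    · rw [ind_of he, if_pos he]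
    · rw [ind_not he, if_neg he]
  rw [Finset.sum_congr rfl h1, Finset.sum_ite_mem, Finset.inter_eq_right.2 h]
  simp

variable {W ι : Type} [Finite W] {u q : ℝ} {en : ι → W × W} {B : W → W → Prop} {E : Finset ι}

theorem hasDerivAt_aZ (hu : 0 < u) (f : Finset ι → ℝ) :
    HasDerivAt (fun v : ℝ => aZ v q en B E f)
      (1 / u * ∑ e ∈ E, aZ u q en B E (fun ω => ind (e ∈ ω) * f ω)) u := by
  classical
  unfold aZ
  rw [Finset.sum_comm, Finset.mul_sum]
  refine HasDerivAt.fun_sum fun w hw => ?_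
  have h1 := ((hasDerivAt_pow w.card u).mul_const (q ^ cc en B w)).mul_const (f w)
  have h2 : 1 / u * ∑ e ∈ E, u ^ w.card * q ^ cc en B w * (ind (e ∈ w) * f w) =
      (w.card : ℝ) * u ^ (w.card - 1) * q ^ cc en B w * f w := by
    rw [← Finset.mul_sum, ← Finset.sum_mul, Deriv_card (Finset.mem_powerset.1 hw)]
    rcases Nat.eq_zero_or_pos w.card with h | h
    · rw [h]; simp
    · obtain ⟨k, hk⟩ := Nat.exists_eq_succ_of_ne_zero h.ne'
      rw [hk, Nat.succ_eq_add_one, Nat.add_sub_cancel, pow_succ]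
      field_simp
  rw [h2]
  exact h1

private theorem Deriv_quot (hu : 0 < u) (hq : 0 < q) {e : ι} (he : e ∈ E) (B : W → W → Prop) :
    1 / u * (aZ u q en B E (fun ω => ind (e ∈ ω) * 1) / aZ u q en B E (fun _ => 1)) =
      1 / (1 + u) * (1 / q + (1 - 1 / q) * aC u q en B E (en e).1 (en e).2) := by
  have hZ := aZ_pos hu hq en B E
  have h1 : aZ u q en B E (fun ω => ind (e ∈ ω) * 1) = aZ u q en B E (fun ω => ind (e ∈ ω)) :=
    aZ_congr fun ω _ => mul_one _
  have hu' : (1 + u) ≠ 0 := by positivity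
  rw [h1, edge_open hu hq he]
  unfold aC aEx
  field_simp

theorem hasDerivAt_log_aZ (hu : 0 < u) (hq : 0 < q) :
    HasDerivAt (fun v : ℝ => Real.log (aZ v q en B E (fun _ => 1)))
      (1 / (1 + u) * ∑ e ∈ E, (1 / q + (1 - 1 / q) * aC u q en B E (en e).1 (en e).2)) u := by
  have hZ := aZ_pos hu hq en B E
  have h1 := (hasDerivAt_aZ (q := q) (en := en) (B := B) (E := E) hu (fun _ => 1)).log hZ.ne'
  have h2 : 1 / u * (∑ e ∈ E, aZ u q en B E (fun ω => ind (e ∈ ω) * 1)) /
      aZ u q en B E (fun _ => 1) =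
      1 / (1 + u) * ∑ e ∈ E, (1 / q + (1 - 1 / q) * aC u q en B E (en e).1 (en e).2) := by
    rw [Finset.mul_sum, Finset.mul_sum, Finset.sum_div]
    refine Finset.sum_congr rfl fun e he => ?_
    rw [← Deriv_quot hu hq he, mul_div_assoc]
  rw [← h2]
  exact h1

private theorem Deriv_posD (hu : 0 < u) (hq : 0 < q) {t b : W} (htb : ¬ Cn en B ∅ t b) :
    0 < aZD u q en B E t b (fun _ => 1) := by
  unfold aZD aZ
  refine Finset.sum_pos' (fun w _ => ?_) ⟨∅, Finset.empty_mem_powerset E, ?_⟩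
  · have h := ind_nonneg (¬ Cn en B w t b)
    positivity
  · beta_reduce
    rw [ind_of htb]
    positivity

private theorem Deriv_quotD (hu : 0 < u) (hq : 0 < q) {t b : W} (htb : ¬ Cn en B ∅ t b) {e : ι}
    (he : e ∈ E) :
    1 / u * (aZ u q en B E (fun ω => ind (e ∈ ω) * (ind (¬ Cn en B ω t b) * 1)) /
        aZD u q en B E t b (fun _ => 1)) =
      1 / (1 + u) * (1 / q + (1 - 1 / q) * aCD u q en B E t b (en e).1 (en e).2 -
        1 / q * aED u q en B E t b (fun ω => ind (Opp en B t b ω (en e).1 (en e).2))) := by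
  have hZ := Deriv_posD (E := E) hu hq htb
  have h1 : aZ u q en B E (fun ω => ind (e ∈ ω) * (ind (¬ Cn en B ω t b) * 1)) =
      aZD u q en B E t b (fun ω => ind (e ∈ ω)) :=
    aZ_congr fun ω _ => by ring
  have hu' : (1 + u) ≠ 0 := by positivity
  rw [h1, edge_open_D hu hq he]
  unfold aCD aED
  field_simp

/-- Derivative of the ratio `Z_D / Z_o`. -/
theorem hasDerivAt_ratio (hu : 0 < u) (hq : 0 < q) {t b : W} (htb : ¬ Cn en B ∅ t b) :
    HasDerivAt (fun v : ℝ => aZD v q en B E t b (fun _ => 1) / aZ v q en (Mrg B t b) E (fun _ => 1))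
      (-(aZD u q en B E t b (fun _ => 1) / aZ u q en (Mrg B t b) E (fun _ => 1)) *
        (1 / (1 + u) * ∑ e ∈ E, XX u q en B E t b (en e).1 (en e).2)) u := by
  have hN := Deriv_posD (E := E) hu hq htb
  have hM := aZ_pos hu hq en (Mrg B t b) E
  have h1 := hasDerivAt_aZ (q := q) (en := en) (B := B) (E := E) hu
    (fun ω => ind (¬ Cn en B ω t b) * 1)
  have h2 := hasDerivAt_aZ (q := q) (en := en) (B := Mrg B t b) (E := E) hu (fun _ => 1)
  have h3 := h1.div h2 hM.ne'
  set N := aZD u q en B E t b (fun _ => 1) with hNdef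
  set M := aZ u q en (Mrg B t b) E (fun _ => 1) with hMdef
  have h4 : 1 / u * (∑ e ∈ E, aZ u q en B E (fun ω => ind (e ∈ ω) * (ind (¬ Cn en B ω t b) * 1))) =
      N * (1 / (1 + u) * ∑ e ∈ E, (1 / q + (1 - 1 / q) * aCD u q en B E t b (en e).1 (en e).2 -
        1 / q * aED u q en B E t b (fun ω => ind (Opp en B t b ω (en e).1 (en e).2)))) := by
    rw [Finset.mul_sum, Finset.mul_sum, Finset.mul_sum]
    refine Finset.sum_congr rfl fun e he => ?_
    rw [← Deriv_quotD hu hq htb he, ← hNdef]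
    field_simp
  have h5 : 1 / u * (∑ e ∈ E, aZ u q en (Mrg B t b) E (fun ω => ind (e ∈ ω) * 1)) =
      M * (1 / (1 + u) * ∑ e ∈ E, (1 / q + (1 - 1 / q) *
        aC u q en (Mrg B t b) E (en e).1 (en e).2)) := by
    rw [Finset.mul_sum, Finset.mul_sum, Finset.mul_sum]
    refine Finset.sum_congr rfl fun e he => ?_
    rw [← Deriv_quot hu hq he, ← hMdef]
    field_simp
  have h6 : (1 / u * (∑ e ∈ E, aZ u q en B E
        (fun ω => ind (e ∈ ω) * (ind (¬ Cn en B ω t b) * 1))) * M -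
      N * (1 / u * (∑ e ∈ E, aZ u q en (Mrg B t b) E (fun ω => ind (e ∈ ω) * 1)))) / M ^ 2 =
      -(N / M) * (1 / (1 + u) * ∑ e ∈ E, XX u q en B E t b (en e).1 (en e).2) := by
    have h7 : ∑ e ∈ E, XX u q en B E t b (en e).1 (en e).2 =
        (∑ e ∈ E, (1 / q + (1 - 1 / q) * aC u q en (Mrg B t b) E (en e).1 (en e).2)) -
        ∑ e ∈ E, (1 / q + (1 - 1 / q) * aCD u q en B E t b (en e).1 (en e).2 -
        1 / q * aED u q en B E t b (fun ω => ind (Opp en B t b ω (en e).1 (en e).2))) := by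
      rw [← Finset.sum_sub_distrib]
      refine Finset.sum_congr rfl fun e _ => ?_
      unfold XX
      ring
    rw [h4, h5, h7]
    have hu' : (1 + u) ≠ 0 := by positivity
    field_simp
    ring
  rw [← h6]
  exact h3

end Pool.Agent.Lib.MP_31386d_pr_POTTS
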