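import Pool.Agent.Lib.MP_31386d_pr_POTTS.DictCn

/-!
# Dictionary between the lattice model and the abstract model: clusters, probabilities

Module L2 of project POTTS.
-/

set_option autoImplicit false

namespace Pool.Agent.Lib.MP_31386d_pr_POTTS

open Finset
open Pool.Agent.Lib.MP_31386d_pr

variable {d : ℕ} {u q : ℝ} {V V' : Finset (Pt d)} {ω b : Finset (Ed d)} {x y : Pt d}

private theorem dict_pV_mem (x : {x // x ∈ V}) : pV V x.1 = some x := by
  unfold pV
  rw [dif_pos x.2]

private theorem dict_pV_notMem {x : Pt d} (hx : x ∉ V) : pV V x = none := by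
  unfold pV
  rw [dif_neg hx]

/-- the extension of a function on the lattice to the vertices of the abstract graph -/
private def dictExt (V : Finset (Pt d)) (c : ℚ) (f : Pt d → ℚ) : Option {x // x ∈ V} → ℚ :=
  fun o => o.elim c (fun x => f x.1 + c)

private theorem dictExt_pV (hV : V' ⊆ V) {ω : Finset (Ed d)} (c : ℚ) (f : L V' ω) (x : Pt d) :
    dictExt V c f.1 (pV V x) = f.1 x + c := by
  by_cases hx : x ∈ V
  · rw [dict_pV_mem ⟨x, hx⟩]
    rfl
  · rw [dict_pV_notMem hx, f.2.1 x (fun h => hx (hV h))]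
    simp [dictExt]

private theorem dictExt_rel (hV : V' ⊆ V) {ω : Finset (Ed d)} (c : ℚ) (f : L V' ω)
    (a b : Option {x // x ∈ V}) (h : Rel (enV V) (BW V V') ω a b) :
    dictExt V c f.1 a = dictExt V c f.1 b := by
  rcases h with ⟨x, hx, rfl, rfl⟩ | ⟨e, he, h⟩
  · simp [dictExt, f.2.1 x.1 hx]
  · have h1 : pV V e.1 = a := congrArg Prod.fst h
    have h2 : pV V (tgt e) = b := congrArg Prod.snd h
    rw [← h1, ← h2, dictExt_pV hV, dictExt_pV hV, f.2.2 e he]

/-- functions on the set of clusters -/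
private noncomputable def dictEquiv (hV : V' ⊆ V) (ω : Finset (Ed d)) :
    (Quot (Rel (enV V) (BW V V') ω) → ℚ) ≃ₗ[ℚ] ℚ × L V' ω where
  toFun φ := (φ (Quot.mk _ none), ⟨fun x => φ (Quot.mk _ (pV V x)) - φ (Quot.mk _ none), by
    refine ⟨fun x hx => ?_, fun e he => ?_⟩
    · show φ (Quot.mk _ (pV V x)) - φ (Quot.mk _ none) = 0
      by_cases hxV : x ∈ V
      · have h1 : Rel (enV V) (BW V V') ω (pV V x) none :=
          Or.inl ⟨⟨x, hxV⟩, hx, dict_pV_mem ⟨x, hxV⟩, rfl⟩
        rw [Quot.sound h1, sub_self]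
      · rw [dict_pV_notMem hxV, sub_self]
    · have h1 : Rel (enV V) (BW V V') ω (pV V e.1) (pV V (tgt e)) := Or.inr ⟨e, he, rfl⟩
      simp only [Quot.sound h1]⟩)
  map_add' φ ψ := by
    refine Prod.ext rfl (Subtype.ext (funext fun x => ?_))
    simp only [Pi.add_apply, Prod.snd_add, Submodule.coe_add]
    ring
  map_smul' c φ := by
    refine Prod.ext rfl (Subtype.ext (funext fun x => ?_))
    simp only [Pi.smul_apply, Prod.smul_snd, Submodule.coe_smul, smul_eq_mul, RingHom.id_apply]
    ring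
  invFun p := Quot.lift (dictExt V p.1 p.2.1) (dictExt_rel hV p.1 p.2)
  left_inv φ := by
    funext o
    induction o using Quot.ind with
    | mk o =>
      rcases o with _ | x
      · rfl
      · simp only [dictExt, Option.elim_some, dict_pV_mem, sub_add_cancel]
  right_inv p := by
    refine Prod.ext rfl (Subtype.ext (funext fun x => ?_))
    show dictExt V p.1 p.2.1 (pV V x) - p.1 = p.2.1 x
    rw [dictExt_pV hV, add_sub_cancel_right]

/-- Clusters: `V'` is the set of vertices whose clusters are counted, the points of `V` outside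
`V'` are wired to the exterior. -/
theorem dict_cc (hV : V' ⊆ V) (ω : Finset (Ed d)) :
    cc (enV V) (BW V V') ω = kap V' ω + 1 := by
  classical
  have : Fintype (Quot (Rel (enV V) (BW V V') ω)) := Fintype.ofFinite _
  have h1 : Module.finrank ℚ (Quot (Rel (enV V) (BW V V') ω) → ℚ) =
      Fintype.card (Quot (Rel (enV V) (BW V V') ω)) := Module.finrank_fintype_fun_eq_card ℚ
  have h2 := (dictEquiv hV ω).finrank_eq
  rw [Module.finrank_prod, Module.finrank_self] at h2
  unfold cc kap
  rw [Nat.card_eq_fintype_card, ← h1, h2, add_comm]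

theorem dict_aC (hu : 0 < u) (hq : 1 ≤ q) (hV : V' ⊆ V) (E : Finset (Ed d)) (x y : Pt d) :
    aC u q (enV V) (BW V V') E (pV V x) (pV V y) = Pb u q V' E (fun ω => ConnP V' ω x y) := by
  classical
  have hq0 : 0 < q := by linarith
  have h1 : ∀ f : Finset (Ed d) → ℝ, aZ u q (enV V) (BW V V') E f = q * Zs u q V' E f := by
    intro f
    unfold aZ Zs wt
    rw [mul_sum]
    refine sum_congr rfl fun ω _ => ?_
    rw [dict_cc hV, pow_succ]
    ring
  unfold aC aEx Pb Ex
  rw [h1, h1, mul_div_mul_left _ _ hq0.ne', Zs_one]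
  congr 1
  unfold Zs
  refine sum_congr rfl fun ω _ => ?_
  congr 1
  by_cases h : ConnP V' ω x y
  all_goals beta_reduce
  · rw [ind_of ((dict_cn hV ω x y).2 h), if_pos h]
  · rw [ind_not (fun h' => h ((dict_cn hV ω x y).1 h')), if_neg h]

end Pool.Agent.Lib.MP_31386d_pr_POTTS
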