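import Pool.Agent.Lib.MP_31386d_pr_POTTS.Dom

/-!
# Dictionary between the lattice model and the abstract model: connectivity

Module L1 of project POTTS.
-/

set_option autoImplicit false

namespace Pool.Agent.Lib.MP_31386d_pr_POTTS

open Finset
open Pool.Agent.Lib.MP_31386d_pr

variable {d : ℕ} {u q : ℝ} {V V' : Finset (Pt d)} {ω b : Finset (Ed d)} {x y : Pt d}

private theorem DictCn_pV_mem {z : Pt d} (h : z ∈ V) : pV V z = some ⟨z, h⟩ := by
  unfold pV
  rw [dif_pos h]

private theorem DictCn_pV_not {z : Pt d} (h : z ∉ V) : pV V z = none := by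
  unfold pV
  rw [dif_neg h]

theorem not_BW_self (a b : Option {x // x ∈ V}) : ¬ BW V V a b := by
  rintro ⟨x, hx, _, _⟩
  exact hx x.2

/-- Open connections in the lattice are connections in the abstract graph. -/
private theorem DictCn_conn (B : Option {x // x ∈ V} → Option {x // x ∈ V} → Prop)
    (h : Conn ω x y) : Cn (enV V) B ω (pV V x) (pV V y) := by
  induction h with
  | refl => exact Cn.refl _
  | tail _ hbc ih =>
    obtain ⟨e, he, h | h⟩ := hbc
    · have h1 : Cn (enV V) B ω (pV V e.1) (pV V (tgt e)) := Cn.of_mem he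
      rw [h.1, h.2] at h1
      exact ih.trans h1
    · have h1 : Cn (enV V) B ω (pV V e.1) (pV V (tgt e)) := Cn.of_mem he
      rw [h.1, h.2] at h1
      exact ih.trans h1.symm

private theorem DictCn_out (h : Out V' ω x) : Cn (enV V) (BW V V') ω (pV V x) none := by
  obtain ⟨z, hz, h1⟩ := h
  refine (DictCn_conn (BW V V') h1).trans ?_
  by_cases hzV : z ∈ V
  · rw [DictCn_pV_mem hzV]
    exact Cn.of_base ⟨⟨z, hzV⟩, hz, rfl, rfl⟩
  · rw [DictCn_pV_not hzV]
    exact Cn.refl _

private theorem DictCn_connP_iff {z : Pt d} (hz : z ∉ V') : ConnP V' ω x z ↔ Out V' ω x := by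
  constructor
  · intro h
    rcases h.cases with h | h
    · exact ⟨z, hz, h⟩
    · exact h.1
  · intro h
    exact connP_of_out h (out_of_notMem hz)

theorem dict_cn (hV : V' ⊆ V) (ω : Finset (Ed d)) (x y : Pt d) :
    Cn (enV V) (BW V V') ω (pV V x) (pV V y) ↔ ConnP V' ω x y := by
  constructor
  · intro h
    let g : Option {x // x ∈ V} → Prop := fun o => o.elim (Out V' ω x) (fun z => ConnP V' ω x z.1)
    have hg : ∀ z : Pt d, g (pV V z) ↔ ConnP V' ω x z := by
      intro z
      by_cases hz : z ∈ V
      · rw [DictCn_pV_mem hz]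
        exact Iff.rfl
      · rw [DictCn_pV_not hz]
        exact (DictCn_connP_iff (fun h1 => hz (hV h1))).symm
    have hB : ∀ a b, BW V V' a b → g a = g b := by
      rintro a b ⟨w, hw, rfl, rfl⟩
      exact propext (DictCn_connP_iff hw)
    have hE : ∀ e ∈ ω, g (enV V e).1 = g (enV V e).2 := by
      intro e he
      apply propext
      change g (pV V e.1) ↔ g (pV V (tgt e))
      rw [hg, hg]
      have h1 : Adj ω e.1 (tgt e) := ⟨e, he, Or.inl ⟨rfl, rfl⟩⟩
      exact ⟨fun h2 => h2.trans h1.conn.connP, fun h2 => h2.trans h1.symm.conn.connP⟩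
    have h1 : g (pV V x) = g (pV V y) := h.const hB hE
    exact (hg y).1 (h1 ▸ (hg x).2 (ConnP.refl _ _ _))
  · intro h
    rcases h.cases with h | h
    · exact DictCn_conn _ h
    · exact (DictCn_out h.1).trans (DictCn_out h.2).symm

/-- For configurations inside `V` the exterior plays no role. -/
theorem connP_free (hω : ω ⊆ EI V) (hx : x ∈ V) (hy : y ∈ V) : ConnP V ω x y ↔ Conn ω x y := by
  constructor
  · intro h
    rcases h.cases with h | h
    · exact h
    · exfalso
      obtain ⟨z, hz, h1⟩ := h.1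
      apply hz
      clear hz h hy
      induction h1 with
      | refl => exact hx
      | tail _ hbc _ =>
        obtain ⟨e, he, h2⟩ := hbc
        have h3 := mem_EI.1 (hω he)
        rcases h2 with h2 | h2
        · rw [← h2.2]
          exact h3.2
        · rw [← h2.1]
          exact h3.1
  · intro h
    exact h.connP

private theorem DictCn_rel (B : Option {x // x ∈ V} → Option {x // x ∈ V} → Prop)
    (ω b : Finset (Ed d)) :
    Rel (enV V) (fun x y => B x y ∨ BE V b x y) ω = Rel (enV V) B (ω ∪ b) := by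
  funext x y
  apply propext
  unfold Rel BE
  constructor
  · rintro ((h | ⟨e, he, h⟩) | ⟨e, he, h⟩)
    · exact Or.inl h
    · exact Or.inr ⟨e, mem_union_right _ he, h⟩
    · exact Or.inr ⟨e, mem_union_left _ he, h⟩
  · rintro (h | ⟨e, he, h⟩)
    · exact Or.inl (Or.inl h)
    · rcases mem_union.1 he with he | he
      · exact Or.inr ⟨e, he, h⟩
      · exact Or.inl (Or.inr ⟨e, he, h⟩)

/-- Wiring along the edges of `b` is the same as opening them. -/
theorem cn_base (B : Option {x // x ∈ V} → Option {x // x ∈ V} → Prop) (ω b : Finset (Ed d))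
    (x y : Option {x // x ∈ V}) :
    Cn (enV V) (fun x y => B x y ∨ BE V b x y) ω x y ↔ Cn (enV V) B (ω ∪ b) x y := by
  unfold Cn
  rw [DictCn_rel]

theorem cc_base (B : Option {x // x ∈ V} → Option {x // x ∈ V} → Prop) (ω b : Finset (Ed d)) :
    cc (enV V) (fun x y => B x y ∨ BE V b x y) ω = cc (enV V) B (ω ∪ b) := by
  unfold cc
  rw [DictCn_rel]

end Pool.Agent.Lib.MP_31386d_pr_POTTS
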