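import Pool.Agent.Lib.MP_31386d_pr_POTTS.Quo

/-!
# Basic facts on the abstract random-cluster model; comparison of bases

Module A2 of project POTTS.
-/

set_option autoImplicit false

namespace Pool.Agent.Lib.MP_31386d_pr_POTTS

open Finset

theorem ind_nonneg (P : Prop) : 0 ≤ ind P := by
  unfold ind; split_ifs <;> norm_num

theorem ind_le_one (P : Prop) : ind P ≤ 1 := by
  unfold ind; split_ifs <;> norm_num

theorem ind_of {P : Prop} (h : P) : ind P = 1 := by
  unfold ind; rw [if_pos h]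

theorem ind_not {P : Prop} (h : ¬ P) : ind P = 0 := by
  unfold ind; rw [if_neg h]

theorem ind_mono {P Q : Prop} (h : P → Q) : ind P ≤ ind Q := by
  by_cases hP : P
  · rw [ind_of hP, ind_of (h hP)]
  · rw [ind_not hP]; exact ind_nonneg Q

section lin

variable {W ι : Type}

/-- Functions constant along the base and the open edges. -/
private def domL (en : ι → W × W) (B : W → W → Prop) (ω : Finset ι) : Submodule ℚ (W → ℚ) where
  carrier := {g | (∀ x y, B x y → g x = g y) ∧ ∀ e ∈ ω, g (en e).1 = g (en e).2}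
  add_mem' {g h} hg hh := ⟨fun x y hxy => by simp [hg.1 x y hxy, hh.1 x y hxy],
    fun e he => by simp [hg.2 e he, hh.2 e he]⟩
  zero_mem' := ⟨fun _ _ _ => rfl, fun _ _ => rfl⟩
  smul_mem' c g hg := ⟨fun x y hxy => by simp [hg.1 x y hxy], fun e he => by simp [hg.2 e he]⟩

private theorem domL_rel {en : ι → W × W} {B : W → W → Prop} {ω : Finset ι} {g : W → ℚ}
    (hg : g ∈ domL en B ω) (x y : W) (h : Rel en B ω x y) : g x = g y := by
  rcases h with h | ⟨e, he, h⟩
  · exact hg.1 x y h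
  · have h1 := hg.2 e he
    rw [h] at h1
    exact h1

private noncomputable def domEquiv (en : ι → W × W) (B : W → W → Prop) (ω : Finset ι) :
    domL en B ω ≃ₗ[ℚ] (Quot (Rel en B ω) → ℚ) where
  toFun g := Quot.lift g.1 (domL_rel g.2)
  map_add' g h := by
    funext a
    induction a using Quot.ind
    rfl
  map_smul' c g := by
    funext a
    induction a using Quot.ind
    rfl
  invFun f := ⟨fun x => f (Quot.mk _ x), fun x y h => congrArg f (Quot.sound (Or.inl h)),
    fun e he => congrArg f (Quot.sound (Or.inr ⟨e, he, rfl⟩))⟩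
  left_inv g := rfl
  right_inv f := by
    funext a
    induction a using Quot.ind
    rfl

private theorem domL_finrank [Finite W] (en : ι → W × W) (B : W → W → Prop) (ω : Finset ι) :
    Module.finrank ℚ (domL en B ω) = cc en B ω := by
  have hfin : Finite (Quot (Rel en B ω)) := Finite.of_surjective (Quot.mk _) Quot.exists_rep
  have hft : Fintype (Quot (Rel en B ω)) := Fintype.ofFinite _
  rw [LinearEquiv.finrank_eq (domEquiv en B ω), Module.finrank_fintype_fun_eq_card, cc,
    Nat.card_eq_fintype_card]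

open scoped FinsetFamily in
private theorem dom_infs [DecidableEq ι] (E : Finset ι) :
    E.powerset ⊼ E.powerset = E.powerset := by
  ext s
  rw [Finset.mem_infs]
  constructor
  · rintro ⟨a, ha, b, hb, rfl⟩
    rw [mem_powerset] at *
    exact (inter_subset_left).trans ha
  · intro hs
    exact ⟨s, hs, s, hs, inf_idem s⟩

open scoped FinsetFamily in
private theorem dom_sups [DecidableEq ι] (E : Finset ι) :
    E.powerset ⊻ E.powerset = E.powerset := by
  ext s
  rw [Finset.mem_sups]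
  constructor
  · rintro ⟨a, ha, b, hb, rfl⟩
    rw [mem_powerset] at *
    exact union_subset ha hb
  · intro hs
    exact ⟨s, hs, s, hs, sup_idem s⟩

private theorem dom_four [DecidableEq ι] (E : Finset ι) {f₁ f₂ f₃ f₄ : Finset ι → ℝ}
    (h₁ : ∀ ω, 0 ≤ f₁ ω) (h₂ : ∀ ω, 0 ≤ f₂ ω) (h₃ : ∀ ω, 0 ≤ f₃ ω) (h₄ : ∀ ω, 0 ≤ f₄ ω)
    (h : ∀ s, s ⊆ E → ∀ t, t ⊆ E → f₁ s * f₂ t ≤ f₃ (s ∩ t) * f₄ (s ∪ t)) :
    (∑ ω ∈ E.powerset, f₁ ω) * ∑ ω ∈ E.powerset, f₂ ω ≤
      (∑ ω ∈ E.powerset, f₃ ω) * ∑ ω ∈ E.powerset, f₄ ω := by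
  have h5 := Finset.four_functions_theorem E (f₁ := f₁) (f₂ := f₂) (f₃ := f₃) (f₄ := f₄)
    h₁ h₂ h₃ h₄
    (fun s hs t ht => h s hs t ht) (𝒜 := E.powerset) (ℬ := E.powerset) (subset_refl _)
    (subset_refl _)
  rw [dom_infs, dom_sups] at h5
  exact h5

end lin

variable {W ι : Type} {u q : ℝ} {en : ι → W × W} {B B' : W → W → Prop} {E : Finset ι}

/-- The number of clusters through linear algebra. -/
theorem cc_supermod [Finite W] [DecidableEq ι] (hB : ∀ x y, B x y → B' x y) (s t : Finset ι) :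
    cc en B s + cc en B' t ≤ cc en B (s ∩ t) + cc en B' (s ∪ t) := by
  have h1 := Submodule.finrank_sup_add_finrank_inf_eq (domL en B s) (domL en B' t)
  have h2 : Module.finrank ℚ ((domL en B s ⊓ domL en B' t : Submodule ℚ (W → ℚ))) ≤
      cc en B' (s ∪ t) := by
    rw [← domL_finrank]
    apply Submodule.finrank_mono
    rintro g ⟨hg, hg'⟩
    refine ⟨hg'.1, fun e he => ?_⟩
    rcases mem_union.mp he with he | he
    · exact hg.2 e he
    · exact hg'.2 e he
  have h3 : Module.finrank ℚ ((domL en B s ⊔ domL en B' t : Submodule ℚ (W → ℚ))) ≤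
      cc en B (s ∩ t) := by
    rw [← domL_finrank]
    apply Submodule.finrank_mono
    refine sup_le ?_ ?_
    · intro g hg
      exact ⟨hg.1, fun e he => hg.2 e (mem_inter.mp he).1⟩
    · intro g hg
      exact ⟨fun x y hxy => hg.1 x y (hB x y hxy), fun e he => hg.2 e (mem_inter.mp he).2⟩
  rw [domL_finrank, domL_finrank] at h1
  omega

private theorem dom_wt_pos (hu : 0 < u) (hq : 0 < q) (ω : Finset ι) :
    0 < u ^ ω.card * q ^ cc en B ω := by positivity

theorem aZ_pos (hu : 0 < u) (hq : 0 < q) (en : ι → W × W) (B : W → W → Prop) (E : Finset ι) :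
    0 < aZ u q en B E (fun _ => 1) := by
  unfold aZ
  refine Finset.sum_pos (fun ω _ => ?_) ⟨∅, by simp⟩
  have h := dom_wt_pos (en := en) (B := B) hu hq ω
  simpa using h

theorem aZ_mono (hu : 0 < u) (hq : 0 < q) {f g : Finset ι → ℝ} (h : ∀ ω, ω ⊆ E → f ω ≤ g ω) :
    aZ u q en B E f ≤ aZ u q en B E g := by
  unfold aZ
  exact Finset.sum_le_sum fun ω hω =>
    mul_le_mul_of_nonneg_left (h ω (mem_powerset.mp hω)) (dom_wt_pos hu hq ω).le

theorem aZ_congr {f g : Finset ι → ℝ} (h : ∀ ω, ω ⊆ E → f ω = g ω) :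
    aZ u q en B E f = aZ u q en B E g := by
  unfold aZ
  exact Finset.sum_congr rfl fun ω hω => by rw [h ω (mem_powerset.mp hω)]

theorem aEx_mono (hu : 0 < u) (hq : 0 < q) {f g : Finset ι → ℝ} (h : ∀ ω, ω ⊆ E → f ω ≤ g ω) :
    aEx u q en B E f ≤ aEx u q en B E g := by
  unfold aEx
  exact div_le_div_of_nonneg_right (aZ_mono hu hq h) (aZ_pos hu hq en B E).le

/-- A larger base gives a larger measure. -/
theorem aEx_dom [Finite W] (hu : 0 < u) (hq : 1 ≤ q) (hB : ∀ x y, B x y → B' x y)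
    {f : Finset ι → ℝ} (hf0 : ∀ ω, 0 ≤ f ω) (hf : ∀ s t, s ⊆ t → f s ≤ f t) :
    aEx u q en B E f ≤ aEx u q en B' E f := by
  classical
  have hq0 : 0 < q := lt_of_lt_of_le one_pos hq
  have hZ := aZ_pos hu hq0 en B E
  have hZ' := aZ_pos hu hq0 en B' E
  have hw : ∀ (C : W → W → Prop) (ω : Finset ι), 0 < u ^ ω.card * q ^ cc en C ω :=
    fun C ω => dom_wt_pos hu hq0 ω
  have h : aZ u q en B E f * aZ u q en B' E (fun _ => 1) ≤
      aZ u q en B E (fun _ => 1) * aZ u q en B' E f := by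
    unfold aZ
    refine dom_four E (fun ω => mul_nonneg (hw _ ω).le (hf0 ω))
      (fun ω => mul_nonneg (hw _ ω).le zero_le_one) (fun ω => mul_nonneg (hw _ ω).le zero_le_one)
      (fun ω => mul_nonneg (hw _ ω).le (hf0 ω)) (fun s _ t _ => ?_)
    have h1 : u ^ s.card * u ^ t.card = u ^ (s ∩ t).card * u ^ (s ∪ t).card := by
      rw [← pow_add, ← pow_add, add_comm (s ∩ t).card, card_union_add_card_inter]
    have h2 : q ^ cc en B s * q ^ cc en B' t ≤ q ^ cc en B (s ∩ t) * q ^ cc en B' (s ∪ t) := by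
      rw [← pow_add, ← pow_add]
      exact pow_le_pow_right₀ hq (cc_supermod hB s t)
    calc u ^ s.card * q ^ cc en B s * f s * (u ^ t.card * q ^ cc en B' t * 1)
        = (u ^ s.card * u ^ t.card) * (q ^ cc en B s * q ^ cc en B' t) * f s := by ring
      _ ≤ (u ^ s.card * u ^ t.card) * (q ^ cc en B (s ∩ t) * q ^ cc en B' (s ∪ t)) *
          f (s ∪ t) := by
          refine mul_le_mul (mul_le_mul_of_nonneg_left h2 (by positivity))
            (hf _ _ subset_union_left) (hf0 _) (by positivity)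
      _ = _ := by
          rw [h1]
          ring
  unfold aEx
  rw [div_le_div_iff₀ hZ hZ']
  linarith

theorem aC_dom [Finite W] (hu : 0 < u) (hq : 1 ≤ q) (hB : ∀ x y, B x y → B' x y) (x y : W) :
    aC u q en B E x y ≤ aC u q en B' E x y := by
  have hq0 : 0 < q := lt_of_lt_of_le one_pos hq
  unfold aC
  refine le_trans (aEx_mono hu hq0 fun ω _ => ind_mono (Cn.mono hB (subset_refl ω)))
    (aEx_dom hu hq hB (fun ω => ind_nonneg _) fun s t hst =>
      ind_mono (Cn.mono (fun _ _ h => h) hst))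

end Pool.Agent.Lib.MP_31386d_pr_POTTS
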