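import Pool.Agent.Lib.MP_31386d_pr_POTTS.Dom

/-!
# Probability that an edge is open

Module A10 of project POTTS.
-/

set_option autoImplicit false

namespace Pool.Agent.Lib.MP_31386d_pr_POTTS

open Finset

private theorem EdgeOpen_split {W ι : Type} [DecidableEq ι] {u q : ℝ} {en : ι → W × W}
    {B : W → W → Prop} {E : Finset ι} {e : ι} (he : e ∈ E) (f : Finset ι → ℝ) :
    aZ u q en B E f = ∑ w ∈ (E.erase e).powerset, (u ^ w.card * q ^ cc en B w * f w +
      u ^ (w.card + 1) * q ^ cc en B (insert e w) * f (insert e w)) := by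
  unfold aZ
  rw [← Finset.insert_erase he, Finset.sum_powerset_insert (Finset.notMem_erase e E),
    ← Finset.sum_add_distrib, Finset.insert_erase he]
  refine Finset.sum_congr rfl fun w hw => ?_
  have h1 : e ∉ w := fun h => Finset.notMem_erase e E (Finset.mem_powerset.1 hw h)
  rw [Finset.card_insert_of_notMem h1]

private theorem EdgeOpen_opp {W ι : Type} {en : ι → W × W} {B : W → W → Prop} {w : Finset ι}
    {t b x y : W} (hD : ¬ Cn en B w t b) (hA : Cn en B w x y) : ¬ Opp en B t b w x y := by
  rintro (⟨h1, h2⟩ | ⟨h1, h2⟩)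
  · exact hD (h1.symm.trans (hA.trans h2))
  · exact hD (h2.symm.trans (hA.symm.trans h1))

variable {W ι : Type} [Finite W] {u q : ℝ} {en : ι → W × W} {B : W → W → Prop} {E : Finset ι}

theorem edge_open (hu : 0 < u) (hq : 0 < q) {e : ι} (he : e ∈ E) :
    aZ u q en B E (fun ω => ind (e ∈ ω)) = u / (1 + u) * (aZ u q en B E (fun _ => 1) / q +
      (1 - 1 / q) * aZ u q en B E (fun ω => ind (Cn en B ω (en e).1 (en e).2))) := by
  classical
  rw [EdgeOpen_split he, EdgeOpen_split he, EdgeOpen_split he, Finset.sum_div, Finset.mul_sum,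
    ← Finset.sum_add_distrib, Finset.mul_sum]
  refine Finset.sum_congr rfl fun w hw => ?_
  have h1 : e ∉ w := fun h => Finset.notMem_erase e E (Finset.mem_powerset.1 hw h)
  have h2 : Cn en B (insert e w) (en e).1 (en e).2 := Cn.of_mem (Finset.mem_insert_self e w)
  have hq' := hq.ne'
  have hu' : (1 + u) ≠ 0 := by positivity
  rw [ind_not h1, ind_of (Finset.mem_insert_self e w), ind_of h2]
  by_cases hA : Cn en B w (en e).1 (en e).2
  · rw [ind_of hA, cc_insert_of hA]
    field_simp
    ring
  · rw [ind_not hA, ← cc_insert_not hA]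
    field_simp
    ring

theorem edge_open_D (hu : 0 < u) (hq : 0 < q) {e : ι} (he : e ∈ E) (t b : W) :
    aZD u q en B E t b (fun ω => ind (e ∈ ω)) =
      u / (1 + u) * (aZD u q en B E t b (fun _ => 1) / q +
        (1 - 1 / q) * aZD u q en B E t b (fun ω => ind (Cn en B ω (en e).1 (en e).2)) -
        1 / q * aZD u q en B E t b (fun ω => ind (Opp en B t b ω (en e).1 (en e).2))) := by
  classical
  unfold aZD
  rw [EdgeOpen_split he, EdgeOpen_split he, EdgeOpen_split he, EdgeOpen_split he, Finset.sum_div,
    Finset.mul_sum, Finset.mul_sum, ← Finset.sum_add_distrib, ← Finset.sum_sub_distrib,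
    Finset.mul_sum]
  refine Finset.sum_congr rfl fun w hw => ?_
  have h1 : e ∉ w := fun h => Finset.notMem_erase e E (Finset.mem_powerset.1 hw h)
  have h2 : Cn en B (insert e w) (en e).1 (en e).2 := Cn.of_mem (Finset.mem_insert_self e w)
  have hq' := hq.ne'
  have hu' : (1 + u) ≠ 0 := by positivity
  beta_reduce
  rw [ind_not h1, ind_of (Finset.mem_insert_self e w), ind_of h2]
  by_cases hD : Cn en B w t b
  · have hD' : Cn en B (insert e w) t b :=
      hD.mono (fun _ _ h => h) (Finset.subset_insert e w)
    rw [ind_not (not_not.2 hD), ind_not (not_not.2 hD')]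
    ring
  · by_cases hA : Cn en B w (en e).1 (en e).2
    · have hD' : ¬ Cn en B (insert e w) t b := by
        rw [cn_insert]
        rintro (h | ⟨h, h'⟩ | ⟨h, h'⟩)
        · exact hD h
        · exact hD (h.trans (hA.trans h'))
        · exact hD (h.trans (hA.symm.trans h'))
      rw [ind_of hD, ind_of hD', ind_of hA, ind_not (EdgeOpen_opp hD hA),
        ind_not (EdgeOpen_opp hD' h2), cc_insert_of hA]
      field_simp
      ring
    · by_cases hO : Opp en B t b w (en e).1 (en e).2
      · have hD' : Cn en B (insert e w) t b := by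
          rw [cn_insert]
          rcases hO with ⟨h, h'⟩ | ⟨h, h'⟩
          · exact Or.inr (Or.inl ⟨h.symm, h'⟩)
          · exact Or.inr (Or.inr ⟨h'.symm, h⟩)
        rw [ind_of hD, ind_not (not_not.2 hD'), ind_not hA, ind_of hO]
        field_simp
        ring
      · have hD' : ¬ Cn en B (insert e w) t b := by
          rw [cn_insert]
          rintro (h | ⟨h, h'⟩ | ⟨h, h'⟩)
          · exact hD h
          · exact hO (Or.inl ⟨h.symm, h'⟩)
          · exact hO (Or.inr ⟨h', h.symm⟩)
        rw [ind_of hD, ind_of hD', ind_not hA, ind_not hO, ind_not (EdgeOpen_opp hD' h2),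
          ← cc_insert_not hA]
        field_simp
        ring

end Pool.Agent.Lib.MP_31386d_pr_POTTS
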