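import Pool.Agent.Lib.MP_31386d_pr_POTTS.SlabA
import Pool.Agent.Lib.MP_31386d_pr_POTTS.Joint

/-!
# Paths of good coarse blocks have large probability

Module G11 of project POTTS.
-/

set_option autoImplicit false

namespace Pool.Agent.Lib.MP_31386d_pr_POTTS

open Finset
open Pool.Agent.Lib.MP_31386d_pr

variable {D : ℕ} {o u₁ q : ℝ}

/-- Path of good coarse blocks inside the index box `[0, m]^D`. -/
def GPath (r l k₀ g w m : ℕ) (k k' : Pt D) (b ω : Finset (Ed (D + 1))) : Prop :=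
  Relation.ReflTransGen (fun x y => Lat x y ∧
    (GoodC r l k₀ g w x b ω ∧ ∀ i, 0 ≤ x i ∧ x i ≤ m) ∧
    (GoodC r l k₀ g w y b ω ∧ ∀ i, 0 ≤ y i ∧ y i ≤ m)) k k' ∧ GoodC r l k₀ g w k b ω

section pairs

variable {d : ℕ}

/-- The weight of a pair (marks, configuration). -/
private noncomputable def muP (o u q : ℝ) (V : Finset (Pt d)) (b ω : Finset (Ed d)) : ℝ :=
  wt o 1 V b / Z o 1 V (EI V) *
    (wt u q V ω * ind (b ⊆ ω) / Zs u q V (EI V) (fun ω => ind (b ⊆ ω)))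

private theorem muP_nonneg {o u q : ℝ} (ho : 0 < o) (hu : 0 < u) (hq : 1 ≤ q)
    (V : Finset (Pt d)) {b ω : Finset (Ed d)} (hb : b ∈ (EI V).powerset) :
    0 ≤ muP o u q V b ω := by
  unfold muP
  refine mul_nonneg (div_nonneg (wt_pos ho le_rfl _ _).le (Z_pos ho le_rfl _ _).le)
    (div_nonneg (mul_nonneg (wt_pos hu hq _ _).le (ind_nonneg _)) ?_)
  exact (ZB_pos hu hq (mem_powerset.1 hb)).le

private theorem sum_pair_eq (o u q : ℝ) (V : Finset (Pt d))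
    (P : Finset (Ed d) → Finset (Ed d) → Prop)
    (_inst : DecidablePred (fun p : {b // b ∈ (EI V).powerset} × {ω // ω ∈ (EI V).powerset} =>
      P p.1.1 p.2.1)) :
    ∑ p : {b // b ∈ (EI V).powerset} × {ω // ω ∈ (EI V).powerset} with P p.1.1 p.2.1,
      muP o u q V p.1.1 p.2.1 = JP o u q V P := by
  classical
  have h1 : ∀ b : Finset (Ed d), ∑ ω : {ω // ω ∈ (EI V).powerset},
      (muP o u q V b ω.1 * ind (P b ω.1)) =
      wt o 1 V b * ExB u q V (EI V) b (fun ω => ind (P b ω)) / Z o 1 V (EI V) := by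
    intro b
    rw [Finset.sum_coe_sort (EI V).powerset (fun ω => muP o u q V b ω * ind (P b ω))]
    unfold ExB muP
    rw [show Zs u q V (EI V) (fun ω => ind (b ⊆ ω) * ind (P b ω)) =
      ∑ ω ∈ (EI V).powerset, wt u q V ω * (ind (b ⊆ ω) * ind (P b ω)) from rfl]
    generalize Zs u q V (EI V) (fun ω => ind (b ⊆ ω)) = A
    rw [sum_div, mul_sum, sum_div]
    apply sum_congr rfl
    intro ω _
    ring
  rw [Finset.sum_filter, Fintype.sum_prod_type]
  have h2 : JP o u q V P = ∑ b : {b // b ∈ (EI V).powerset},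
      wt o 1 V b.1 * ExB u q V (EI V) b.1 (fun ω => ind (P b.1 ω)) / Z o 1 V (EI V) := by
    rw [Finset.sum_coe_sort (EI V).powerset (fun b => wt o 1 V b *
      ExB u q V (EI V) b (fun ω => ind (P b ω)) / Z o 1 V (EI V)), ← sum_div]
    rfl
  rw [h2]
  apply sum_congr rfl
  intro b _
  rw [← h1 b.1]
  apply sum_congr rfl
  intro ω _
  by_cases h : P b.1 ω.1
  · rw [if_pos h, ind_of h, mul_one]
  · rw [if_neg h, ind_not h, mul_zero]

end pairs

/-- Two coarse blocks are joined by a path of good coarse blocks with probability at least `1/2`. -/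
theorem gpath_ge (hD : 2 ≤ D) (ho : 0 < o) (hu₁ : 0 < u₁) (hq : 1 ≤ q) {r l k₀ g w m : ℕ}
    (hr : 1 ≤ r) (hw : g + 1 ≤ w)
    (hbad : ∀ k : Pt D, JP o u₁ q (reg (r * 2 ^ l * 2 ^ k₀) g w k)
      (fun b ω => ¬ GoodC r l k₀ g w k b ω) ≤ (1 / (2 * 25 ^ D * (2 ^ D + 4))) ^ (3 ^ D))
    {V : Finset (Pt (D + 1))}
    (hV : ∀ k : Pt D, (∀ i, 0 ≤ k i ∧ k i ≤ m) → reg (r * 2 ^ l * 2 ^ k₀) g w k ⊆ V)
    {k k' : Pt D} (hk : ∀ i, 0 ≤ k i ∧ k i ≤ m) (hk' : ∀ i, 0 ≤ k' i ∧ k' i ≤ m) :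
    1 / 2 ≤ JP o u₁ q V (GPath r l k₀ g w m k k') := by
  classical
  set ε₀ : ℝ := 1 / (2 * 25 ^ D * (2 ^ D + 4)) with hε₀
  have h0 : 0 < ε₀ := by positivity
  have hε1 : ε₀ ≤ 1 := by
    rw [hε₀, div_le_one (by positivity)]
    have h1 : (1 : ℝ) ≤ 25 ^ D := one_le_pow₀ (by norm_num)
    have h2 : (0 : ℝ) < 2 ^ D := by positivity
    nlinarith
  have hn : 1 ≤ r * 2 ^ l * 2 ^ k₀ := Nat.succ_le_of_lt (by positivity)
  have h1 := grid_connect_explicit D hD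
    ({b // b ∈ (EI V).powerset} × {ω // ω ∈ (EI V).powerset})
    (fun p => muP o u₁ q V p.1.1 p.2.1)
    (fun p => muP_nonneg ho hu₁ hq V p.1.2)
    (by
      have h := sum_pair_eq o u₁ q V (fun _ _ => True) inferInstance
      rw [Finset.filter_true] at h
      rw [h]
      have h' := JE_one (o := o) (u := u₁) (q := q) ho hu₁ hq V
      rw [← h']
      unfold JP
      congr 1
      funext b ω
      exact ind_of trivial)
    m (fun p x => ¬ GoodC r l k₀ g w x p.1.1 p.2.1)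
    (by
      intro S hS
      rw [sum_pair_eq o u₁ q V (fun b ω => ∀ x ∈ S, ¬ GoodC r l k₀ g w x b ω) _]
      obtain ⟨S', hS', hc, hm⟩ := Slab.exists_class S
      have h4 : JP o u₁ q V (fun b ω => ∀ x ∈ S, ¬ GoodC r l k₀ g w x b ω) ≤
          JP o u₁ q V (fun b ω => ∀ x ∈ S', ¬ GoodC r l k₀ g w x b ω) :=
        JE_mono ho hu₁ hq (fun b ω _ _ => ind_mono (fun h x hx => h x (hS' hx)))
      have h5 := joint_prod (o := o) (u := u₁) (q := q) ho hu₁ hq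
        (fun x : Pt D => reg (r * 2 ^ l * 2 ^ k₀) g w x)
        (fun x b ω => ¬ GoodC r l k₀ g w x b ω) (ε := ε₀ ^ (3 ^ D)) S'
        (fun x _ b s t hst h h' => h (h'.mono hst))
        (fun x _ b ω => not_congr (GoodC.loc hr x b ω))
        (fun x _ => hbad x)
        (fun x hx y hy hxy => reg_disjoint hn hw hxy (hm x hx y hy)) V
        (fun x hx => hV x (hS x (hS' hx)))
      refine (h4.trans h5).trans ?_
      rw [← pow_mul]
      exact pow_le_pow_of_le_one h0.le hε1 hc)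
    k k' hk hk'
  rw [sum_pair_eq o u₁ q V
    (fun b ω => Relation.ReflTransGen (fun x y => Lat x y ∧
        (¬ ¬ GoodC r l k₀ g w x b ω ∧ ∀ i, 0 ≤ x i ∧ x i ≤ (m : ℤ)) ∧
        (¬ ¬ GoodC r l k₀ g w y b ω ∧ ∀ i, 0 ≤ y i ∧ y i ≤ (m : ℤ))) k k' ∧
        ¬ ¬ GoodC r l k₀ g w k b ω) _] at h1
  refine h1.trans (JE_mono ho hu₁ hq (fun b ω _ _ => ind_mono (fun h => ?_)))
  exact ⟨Relation.ReflTransGen.mono (fun x y h => ⟨h.1, ⟨not_not.1 h.2.1.1, h.2.1.2⟩,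
    ⟨not_not.1 h.2.2.1, h.2.2.2⟩⟩) _ _ h.1, not_not.1 h.2⟩

end Pool.Agent.Lib.MP_31386d_pr_POTTS
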