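import Pool.Agent.Lib.MP_31386d_pr_POTTS.GinSum

/-!
# The quadratic inequality of Ginibre type on `(ZMod q)^W`

Module A5 of project POTTS.
-/

set_option autoImplicit false

namespace Pool.Agent.Lib.MP_31386d_pr_POTTS

open Finset

variable {q : ℕ} [NeZero q] {W : Type} [Fintype W] [DecidableEq W]

/-- Half angles. -/
noncomputable def Gin_al (ε : W → Fin 2) (v : W) (x : W → ZMod q) : ℝ :=
  2 * Real.pi / q * ((x v).val + ((ε v : ℕ) : ℝ) / 2)

theorem Gin_minus (ε : W → Fin 2) (x y : W → ZMod q) (X Y : W) :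
    cs ((x - y) X - (x - y) Y) =
      Real.cos ((Gin_al ε X x - Gin_al ε X y) - (Gin_al ε Y x - Gin_al ε Y y)) := by
  have h1 : (x - y) X - (x - y) Y =
      (((((x X).val : ℤ) - ((y X).val : ℤ)) - (((x Y).val : ℤ) - ((y Y).val : ℤ)) : ℤ) :
        ZMod q) := by
    push_cast
    rw [ZMod.natCast_zmod_val, ZMod.natCast_zmod_val, ZMod.natCast_zmod_val,
      ZMod.natCast_zmod_val]
    rfl
  rw [h1, cs_intCast]
  congr 1
  unfold Gin_al
  push_cast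
  ring

theorem Gin_plus (ε : W → Fin 2) (x y : W → ZMod q) (X Y : W) :
    cs ((x + y + fun v => (((ε v : Fin 2) : ℕ) : ZMod q)) X -
        (x + y + fun v => (((ε v : Fin 2) : ℕ) : ZMod q)) Y) =
      Real.cos ((Gin_al ε X x + Gin_al ε X y) - (Gin_al ε Y x + Gin_al ε Y y)) := by
  have h1 : (x + y + fun v => (((ε v : Fin 2) : ℕ) : ZMod q)) X -
        (x + y + fun v => (((ε v : Fin 2) : ℕ) : ZMod q)) Y =
      (((((x X).val : ℤ) + ((y X).val : ℤ) + ((ε X : ℕ) : ℤ)) -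
        (((x Y).val : ℤ) + ((y Y).val : ℤ) + ((ε Y : ℕ) : ℤ)) : ℤ) : ZMod q) := by
    push_cast
    rw [ZMod.natCast_zmod_val, ZMod.natCast_zmod_val, ZMod.natCast_zmod_val,
      ZMod.natCast_zmod_val]
    rfl
  rw [h1, cs_intCast]
  congr 1
  unfold Gin_al
  push_cast
  ring

/-- The pointwise inequality. -/
theorem Gin_trig (l P Q P' Q' : ℝ) :
    (Real.sin (P - Q) + l * Real.sin (P + Q)) * (Real.sin (P' - Q') + l * Real.sin (P' + Q')) ≤
      1 / 2 * (Real.cos ((P - P') - (Q - Q')) - Real.cos ((P + P') - (Q + Q'))) +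
        l * (Real.cos (P - P') * Real.cos (Q + Q') - Real.cos (P + P') * Real.cos (Q - Q')) +
        l ^ 2 := by
  have h1 : Real.sin (P - Q) * Real.sin (P' - Q') =
      1 / 2 * (Real.cos ((P - P') - (Q - Q')) - Real.cos ((P + P') - (Q + Q'))) := by
    simp only [Real.sin_sub, Real.cos_sub, Real.cos_add, Real.sin_add]
    ring
  have h2 : Real.sin (P - Q) * Real.sin (P' + Q') + Real.sin (P + Q) * Real.sin (P' - Q') =
      Real.cos (P - P') * Real.cos (Q + Q') - Real.cos (P + P') * Real.cos (Q - Q') := by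
    simp only [Real.sin_sub, Real.cos_sub, Real.cos_add, Real.sin_add]
    ring
  have h3 : Real.sin (P + Q) * Real.sin (P' + Q') ≤ 1 := by
    have a1 := Real.sin_sq_add_cos_sq (P + Q)
    have a2 := Real.sin_sq_add_cos_sq (P' + Q')
    nlinarith [sq_nonneg (Real.sin (P + Q) - Real.sin (P' + Q')), sq_nonneg (Real.cos (P + Q)),
      sq_nonneg (Real.cos (P' + Q'))]
  have h4 : l ^ 2 * (Real.sin (P + Q) * Real.sin (P' + Q')) ≤ l ^ 2 * 1 :=
    mul_le_mul_of_nonneg_left h3 (sq_nonneg l)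
  calc (Real.sin (P - Q) + l * Real.sin (P + Q)) * (Real.sin (P' - Q') + l * Real.sin (P' + Q'))
      = Real.sin (P - Q) * Real.sin (P' - Q') +
        l * (Real.sin (P - Q) * Real.sin (P' + Q') + Real.sin (P + Q) * Real.sin (P' - Q')) +
        l ^ 2 * (Real.sin (P + Q) * Real.sin (P' + Q')) := by ring
    _ ≤ _ := by
        rw [h1, h2]
        linarith

/-- The kernel. -/
noncomputable def Gin_G (l : ℝ) (X Y T : W) (s s' : W → ZMod q) : ℝ :=
  1 / 2 * (cs (s X - s Y) - cs (s' X - s' Y)) +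
    l * (cs (s X - s T) * cs (s' Y - s' T) - cs (s' X - s' T) * cs (s Y - s T)) + l ^ 2

/-- The test function. -/
noncomputable def Gin_psi (l : ℝ) (ε : W → Fin 2) (X Y T : W) (x : W → ZMod q) : ℝ :=
  Real.sin ((Gin_al ε X x - Gin_al ε T x) - (Gin_al ε Y x - Gin_al ε T x)) +
    l * Real.sin ((Gin_al ε X x - Gin_al ε T x) + (Gin_al ε Y x - Gin_al ε T x))

theorem Gin_point (l : ℝ) (ε : W → Fin 2) (X Y T : W) (x y : W → ZMod q) :
    Gin_psi l ε X Y T x * Gin_psi l ε X Y T y ≤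
      Gin_G l X Y T (x - y) (x + y + fun v => (((ε v : Fin 2) : ℕ) : ZMod q)) := by
  unfold Gin_psi Gin_G
  refine (Gin_trig l (Gin_al ε X x - Gin_al ε T x) (Gin_al ε Y x - Gin_al ε T x)
    (Gin_al ε X y - Gin_al ε T y) (Gin_al ε Y y - Gin_al ε T y)).trans (le_of_eq ?_)
  rw [Gin_minus ε x y X Y, Gin_minus ε x y X T, Gin_minus ε x y Y T, Gin_plus ε x y X Y,
    Gin_plus ε x y X T, Gin_plus ε x y Y T]
  have e1 : Gin_al ε X x - Gin_al ε T x - (Gin_al ε X y - Gin_al ε T y) -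
      (Gin_al ε Y x - Gin_al ε T x - (Gin_al ε Y y - Gin_al ε T y)) =
      Gin_al ε X x - Gin_al ε X y - (Gin_al ε Y x - Gin_al ε Y y) := by ring
  have e2 : Gin_al ε X x - Gin_al ε T x + (Gin_al ε X y - Gin_al ε T y) -
      (Gin_al ε Y x - Gin_al ε T x + (Gin_al ε Y y - Gin_al ε T y)) =
      Gin_al ε X x + Gin_al ε X y - (Gin_al ε Y x + Gin_al ε Y y) := by ring
  have e3 : Gin_al ε X x - Gin_al ε T x - (Gin_al ε X y - Gin_al ε T y) =
      Gin_al ε X x - Gin_al ε X y - (Gin_al ε T x - Gin_al ε T y) := by ring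
  have e4 : Gin_al ε Y x - Gin_al ε T x + (Gin_al ε Y y - Gin_al ε T y) =
      Gin_al ε Y x + Gin_al ε Y y - (Gin_al ε T x + Gin_al ε T y) := by ring
  have e5 : Gin_al ε X x - Gin_al ε T x + (Gin_al ε X y - Gin_al ε T y) =
      Gin_al ε X x + Gin_al ε X y - (Gin_al ε T x + Gin_al ε T y) := by ring
  have e6 : Gin_al ε Y x - Gin_al ε T x - (Gin_al ε Y y - Gin_al ε T y) =
      Gin_al ε Y x - Gin_al ε Y y - (Gin_al ε T x - Gin_al ε T y) := by ring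
  rw [e1, e2, e3, e4, e5, e6]

/-- Nonnegativity of the double sum. -/
theorem Gin_nonneg (F₁ F₂ : (W → ZMod q) → ℝ) (h₁ : ∀ s, 0 ≤ F₁ s) (h₂ : ∀ s, 0 ≤ F₂ s)
    (hrep : ∀ ε : W → Fin 2, Rep (fun x y : W → ZMod q => F₁ (x - y) *
      F₂ (x + y + fun v => (((ε v : Fin 2) : ℕ) : ZMod q)))) (X Y T : W) (l : ℝ) :
    0 ≤ ∑ s : W → ZMod q, ∑ s' : W → ZMod q, F₁ s * F₂ s' * Gin_G l X Y T s s' := by
  have h3 := sum_pairs (q := q) (W := W) (fun s s' => F₁ s * F₂ s' * Gin_G l X Y T s s')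
  have h4 : 0 ≤ ∑ ε : W → Fin 2, ∑ x : W → ZMod q, ∑ y : W → ZMod q,
      F₁ (x - y) * F₂ (x + y + fun v => (((ε v : Fin 2) : ℕ) : ZMod q)) *
        Gin_G l X Y T (x - y) (x + y + fun v => (((ε v : Fin 2) : ℕ) : ZMod q)) := by
    refine Finset.sum_nonneg fun ε _ => ?_
    have h5 := ((hrep ε).mul (Rep.sq (Gin_psi l ε X Y T))).sum_nonneg
    refine h5.trans ?_
    refine Finset.sum_le_sum fun x _ => Finset.sum_le_sum fun y _ => ?_
    exact mul_le_mul_of_nonneg_left (Gin_point l ε X Y T x y) (mul_nonneg (h₁ _) (h₂ _))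
  rw [h3] at h4
  have h6 : (0 : ℝ) < 2 ^ Fintype.card W := by positivity
  exact nonneg_of_mul_nonneg_right h4 h6

theorem Gin_split (F₁ F₂ : (W → ZMod q) → ℝ) (X Y T : W) (l : ℝ) :
    ∑ s : W → ZMod q, ∑ s' : W → ZMod q, F₁ s * F₂ s' * Gin_G l X Y T s s' =
      1 / 2 * ((∑ s, F₁ s * cs (s X - s Y)) * (∑ s, F₂ s) -
        (∑ s, F₁ s) * (∑ s, F₂ s * cs (s X - s Y))) +
      l * ((∑ s, F₁ s * cs (s X - s T)) * (∑ s, F₂ s * cs (s Y - s T)) -
        (∑ s, F₁ s * cs (s Y - s T)) * (∑ s, F₂ s * cs (s X - s T))) +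
      l ^ 2 * ((∑ s, F₁ s) * (∑ s, F₂ s)) := by
  have h1 : ∀ (f g : (W → ZMod q) → ℝ), (∑ s, f s) * (∑ s, g s) =
      ∑ s : W → ZMod q, ∑ s' : W → ZMod q, f s * g s' := fun f g => Finset.sum_mul_sum _ _ _ _
  rw [h1, h1, h1, h1, h1]
  simp only [Finset.mul_sum, ← Finset.sum_sub_distrib, ← Finset.sum_add_distrib]
  refine Finset.sum_congr rfl fun s _ => Finset.sum_congr rfl fun s' _ => ?_
  unfold Gin_G
  ring

/-- Quadratic inequality. -/
theorem gin (F₁ F₂ : (W → ZMod q) → ℝ) (h₁ : ∀ s, 0 ≤ F₁ s) (h₂ : ∀ s, 0 ≤ F₂ s)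
    (hrep : ∀ ε : W → Fin 2, Rep (fun x y : W → ZMod q => F₁ (x - y) *
      F₂ (x + y + fun v => (((ε v : Fin 2) : ℕ) : ZMod q)))) (X Y T : W) :
    ((∑ s, F₁ s * cs (s X - s T)) * (∑ s, F₂ s * cs (s Y - s T)) -
      (∑ s, F₁ s * cs (s Y - s T)) * (∑ s, F₂ s * cs (s X - s T))) ^ 2 ≤
    2 * ((∑ s, F₁ s) * (∑ s, F₂ s)) *
      ((∑ s, F₁ s * cs (s X - s Y)) * (∑ s, F₂ s) -
        (∑ s, F₁ s) * (∑ s, F₂ s * cs (s X - s Y))) := by
  set M : ℝ := (∑ s, F₁ s) * (∑ s, F₂ s) with hM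
  set N : ℝ := (∑ s, F₁ s * cs (s X - s T)) * (∑ s, F₂ s * cs (s Y - s T)) -
      (∑ s, F₁ s * cs (s Y - s T)) * (∑ s, F₂ s * cs (s X - s T)) with hN
  set L : ℝ := (∑ s, F₁ s * cs (s X - s Y)) * (∑ s, F₂ s) -
        (∑ s, F₁ s) * (∑ s, F₂ s * cs (s X - s Y)) with hL
  have h3 : ∀ l : ℝ, 0 ≤ M * (l * l) + N * l + L / 2 := by
    intro l
    have h4 := Gin_nonneg F₁ F₂ h₁ h₂ hrep X Y T l
    rw [Gin_split] at h4
    calc 0 ≤ 1 / 2 * L + l * N + l ^ 2 * M := h4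
      _ = _ := by ring
  have h5 := discrim_le_zero h3
  unfold discrim at h5
  linarith

end Pool.Agent.Lib.MP_31386d_pr_POTTS
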