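import Pool.Agent.Lib.MP_31386d_pr_POTTS.Rep

/-!
# Parametrisation of pairs of spin configurations

Module A4 of project POTTS.
-/

set_option autoImplicit false

namespace Pool.Agent.Lib.MP_31386d_pr_POTTS

open Finset

variable {q : ℕ} [NeZero q] {W : Type} [Fintype W] [DecidableEq W]

/-- Cosine of the angle `2 π z / q`. -/
noncomputable def cs (z : ZMod q) : ℝ := Real.cos (2 * Real.pi * z.val / q)

theorem cs_intCast (a : ℤ) : cs (a : ZMod q) = Real.cos (2 * Real.pi * a / q) := by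
  have hq : (q : ℝ) ≠ 0 := Nat.cast_ne_zero.2 (NeZero.ne q)
  have h1 : (((a : ZMod q).val : ℤ) : ℝ) = (a : ℝ) - q * ((a / (q : ℤ) : ℤ) : ℝ) := by
    rw [ZMod.val_intCast, Int.emod_def]
    push_cast
    ring
  unfold cs
  have h2 : (2 * Real.pi * ((a : ZMod q).val : ℝ) / q : ℝ) =
      2 * Real.pi * a / q - ((a / (q : ℤ) : ℤ) : ℝ) * (2 * Real.pi) := by
    have h3 : ((a : ZMod q).val : ℝ) = (((a : ZMod q).val : ℤ) : ℝ) := by push_cast; rfl
    rw [h3, h1]
    field_simp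
  rw [h2, Real.cos_sub_int_mul_two_pi]

theorem cs_le_one (z : ZMod q) : cs z ≤ 1 := Real.cos_le_one _

theorem cs_zero : cs (0 : ZMod q) = 1 := by
  simp [cs]

/-- the value of the equivalence of `Fin q` with `ZMod q` -/
theorem GinSum_fin (r : Fin q) : ZMod.finEquiv q r = ((r : ℕ) : ZMod q) := by
  cases q with
  | zero => exact absurd rfl (NeZero.ne 0)
  | succ n => exact (ZMod.natCast_zmod_val (n := n + 1) r).symm

/-- the equivalence `(ε, x) ↦ (_, ε + 2 x)` -/
def GinSum_e (q : ℕ) [NeZero q] : Fin 2 × ZMod q ≃ Fin 2 × ZMod q :=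
  (((((Equiv.prodComm (Fin 2) (ZMod q)).trans
    (Equiv.prodCongr (ZMod.finEquiv q).symm.toEquiv (Equiv.refl (Fin 2)))).trans
      finProdFinEquiv).trans (finCongr (mul_comm q 2))).trans finProdFinEquiv.symm).trans
        (Equiv.prodCongr (Equiv.refl (Fin 2)) (ZMod.finEquiv q).toEquiv)

theorem GinSum_e_snd (ε : Fin 2) (x : ZMod q) :
    (GinSum_e q (ε, x)).2 = ((ε : ℕ) : ZMod q) + 2 * x := by
  set r : Fin q := (ZMod.finEquiv q).symm x with hr
  set k : Fin (2 * q) := finCongr (mul_comm q 2) (finProdFinEquiv (r, ε)) with hk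
  have h1 : (GinSum_e q (ε, x)).2 = ZMod.finEquiv q (finProdFinEquiv.symm k).2 := rfl
  have h2 : (k : ℕ) = ε + 2 * r := by
    rw [hk]
    rfl
  have h3 : (k : ℕ) = (finProdFinEquiv.symm k).2 + q * (finProdFinEquiv.symm k).1 := by
    conv_lhs => rw [← finProdFinEquiv.apply_symm_apply k]
    rfl
  have h4 : x = ((r : ℕ) : ZMod q) := by
    rw [← GinSum_fin, hr, RingEquiv.apply_symm_apply]
  rw [h1, GinSum_fin, h4]
  have h5 : (((finProdFinEquiv.symm k).2 : ℕ) : ZMod q) = ((k : ℕ) : ZMod q) := by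
    rw [h3]
    push_cast
    rw [ZMod.natCast_self, zero_mul, add_zero]
  rw [h5, h2]
  push_cast
  ring

theorem GinSum_core (F : (W → ZMod q) → ℝ) :
    ∑ ε : W → Fin 2, ∑ x : W → ZMod q, F (fun v => ((ε v : ℕ) : ZMod q) + 2 * x v) =
      2 ^ Fintype.card W * ∑ z : W → ZMod q, F z := by
  rw [← Fintype.sum_prod_type' fun (ε : W → Fin 2) (x : W → ZMod q) =>
    F (fun v => ((ε v : ℕ) : ZMod q) + 2 * x v)]
  let E : (W → Fin 2) × (W → ZMod q) ≃ (W → Fin 2) × (W → ZMod q) :=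
    ((Equiv.arrowProdEquivProdArrow W (fun _ => Fin 2) (fun _ => ZMod q)).symm.trans
      (Equiv.arrowCongr (Equiv.refl W) (GinSum_e q))).trans
        (Equiv.arrowProdEquivProdArrow W (fun _ => Fin 2) (fun _ => ZMod q))
  have h1 : ∀ p : (W → Fin 2) × (W → ZMod q),
      F (fun v => ((p.1 v : ℕ) : ZMod q) + 2 * p.2 v) = F (E p).2 := by
    intro p
    congr 1
    funext v
    exact (GinSum_e_snd (p.1 v) (p.2 v)).symm
  rw [Finset.sum_congr rfl fun p _ => h1 p, Equiv.sum_comp E fun p => F p.2,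
    Fintype.sum_prod_type]
  show ∑ _x : W → Fin 2, ∑ y : W → ZMod q, F y = _
  rw [Finset.sum_const, Finset.card_univ, nsmul_eq_mul]
  congr 1
  rw [Fintype.card_fun]
  push_cast
  simp

/-- The map `(ε, x, y) ↦ (x - y, x + y + ε)` is `2 ^ |W|` to one. -/
theorem sum_pairs (G : (W → ZMod q) → (W → ZMod q) → ℝ) :
    ∑ ε : W → Fin 2, ∑ x : W → ZMod q, ∑ y : W → ZMod q,
      G (x - y) (x + y + fun v => (((ε v : Fin 2) : ℕ) : ZMod q)) =
    2 ^ Fintype.card W * ∑ s : W → ZMod q, ∑ s' : W → ZMod q, G s s' := by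
  have h1 : ∀ (ε : W → Fin 2) (x : W → ZMod q), ∑ y : W → ZMod q,
      G (x - y) (x + y + fun v => (((ε v : Fin 2) : ℕ) : ZMod q)) =
      ∑ s : W → ZMod q, G s ((fun v => ((ε v : ℕ) : ZMod q) + 2 * x v) - s) := by
    intro ε x
    refine Fintype.sum_equiv (Equiv.subLeft x) _ _ fun y => ?_
    rw [Equiv.subLeft_apply]
    congr 1
    funext v
    show x v + y v + ((ε v : ℕ) : ZMod q) = ((ε v : ℕ) : ZMod q) + 2 * x v - (x v - y v)
    ring
  simp only [h1]
  have h2 : ∀ ε : W → Fin 2, ∑ x : W → ZMod q, ∑ s : W → ZMod q,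
      G s ((fun v => ((ε v : ℕ) : ZMod q) + 2 * x v) - s) =
      ∑ s : W → ZMod q, ∑ x : W → ZMod q,
        G s ((fun v => ((ε v : ℕ) : ZMod q) + 2 * x v) - s) := fun ε => Finset.sum_comm
  rw [Finset.sum_congr rfl fun ε _ => h2 ε, Finset.sum_comm, Finset.mul_sum]
  refine Finset.sum_congr rfl fun s _ => ?_
  rw [GinSum_core fun z => G s (z - s)]
  congr 1
  exact Equiv.sum_comp (Equiv.subRight s) fun s' => G s s'

end Pool.Agent.Lib.MP_31386d_pr_POTTS
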