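import Pool.Agent.Lib.MP_31386d_pr_POTTS.CondSplit

/-!
# Joint law of the marks and of the configuration: basic facts

Module G4 of project POTTS.
-/

set_option autoImplicit false

namespace Pool.Agent.Lib.MP_31386d_pr_POTTS

open Finset
open Pool.Agent.Lib.MP_31386d_pr

variable {d : ℕ} {o u q : ℝ}

theorem JE_mono (ho : 0 < o) (hu : 0 < u) (hq : 1 ≤ q) {V : Finset (Pt d)}
    {F G : Finset (Ed d) → Finset (Ed d) → ℝ}
    (h : ∀ b ω, b ⊆ ω → ω ⊆ EI V → F b ω ≤ G b ω) : JE o u q V F ≤ JE o u q V G := by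
  unfold JE
  refine Ex_mono ho le_rfl (fun b _ => ?_)
  exact ExB_mono hu hq (fun ω h1 h2 => h b ω h1 h2)

theorem JE_one (ho : 0 < o) (hu : 0 < u) (hq : 1 ≤ q) (V : Finset (Pt d)) :
    JE o u q V (fun _ _ => 1) = 1 := by
  have h1 : Ex o 1 V (EI V) (fun b => ExB u q V (EI V) b (fun _ => 1)) =
      Ex o 1 V (EI V) (fun _ => 1) :=
    Ex_congr (fun b hb => ExB_const hu hq hb 1)
  exact h1.trans (Ex_const ho le_rfl 1)

theorem JP_nonneg (ho : 0 < o) (hu : 0 < u) (hq : 1 ≤ q) (V : Finset (Pt d))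
    (P : Finset (Ed d) → Finset (Ed d) → Prop) : 0 ≤ JP o u q V P := by
  unfold JP JE
  refine Ex_nonneg ho le_rfl (fun b _ => ?_)
  exact PbB_nonneg hu hq (P b)

theorem JP_le_one (ho : 0 < o) (hu : 0 < u) (hq : 1 ≤ q) (V : Finset (Pt d))
    (P : Finset (Ed d) → Finset (Ed d) → Prop) : JP o u q V P ≤ 1 := by
  rw [← JE_one ho hu hq V]
  unfold JP
  exact JE_mono ho hu hq (fun b ω _ _ => ind_le_one _)

/-- For `q = 1` edges on which the function does not depend can be removed. -/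
private theorem JointA_drop (ho : 0 < o) (V : Finset (Pt d)) {E F : Finset (Ed d)}
    (hEF : Disjoint E F) (f : Finset (Ed d) → ℝ)
    (hf : ∀ s t, s ⊆ E → t ⊆ F → f (s ∪ t) = f s) :
    Ex o 1 V (E ∪ F) f = Ex o 1 V E f := by
  have key : ∀ g : Finset (Ed d) → ℝ, (∀ s t, s ⊆ E → t ⊆ F → g (s ∪ t) = g s) →
      Zs o 1 V (E ∪ F) g = (1 + o) ^ F.card * Zs o 1 V E g := by
    intro g hg
    unfold Zs
    rw [sum_powerset_union hEF, mul_sum]
    apply sum_congr rfl
    intro ω₁ hω₁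
    rw [← sum_pow_card F o, sum_mul]
    apply sum_congr rfl
    intro ω₂ hω₂
    rw [mem_powerset] at hω₁ hω₂
    rw [hg _ _ hω₁ hω₂]
    have h3 : (ω₁ ∪ ω₂).card = ω₁.card + ω₂.card :=
      card_union_of_disjoint (disjoint_of_subset_left hω₁ (disjoint_of_subset_right hω₂ hEF))
    unfold wt
    rw [h3, pow_add, one_pow, one_pow]
    ring
  have h1 := key f hf
  have h2 := key (fun _ => 1) (fun _ _ _ _ => rfl)
  rw [Zs_one, Zs_one] at h2
  unfold Ex
  rw [h1, h2]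
  apply mul_div_mul_left
  positivity

/-- For `q = 1` the edges are independent. -/
theorem Ex_one_split (ho : 0 < o) {V W : Finset (Pt d)} (hW : W ⊆ V)
    (f g : Finset (Ed d) → ℝ) :
    Ex o 1 V (EI V) (fun b => f (b ∩ EI W) * g (b ∩ EI (V \ W))) =
      Ex o 1 W (EI W) f * Ex o 1 (V \ W) (EI (V \ W)) g := by
  have hVW : W ∪ V \ W = V := union_sdiff_of_subset hW
  have hE : EI W ∪ EI (V \ W) ⊆ EI V := by
    rw [union_subset_iff]
    exact ⟨EI_mono hW, EI_mono sdiff_subset⟩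
  have hd : ∀ e ∈ EI W, e.1 ∉ V \ W ∧ tgt e ∉ V \ W := by
    intro e he
    rw [mem_EI] at he
    rw [mem_sdiff, mem_sdiff]
    tauto
  have hd' : ∀ e ∈ EI (V \ W), e.1 ∉ W ∧ tgt e ∉ W := by
    intro e he
    rw [mem_EI, mem_sdiff, mem_sdiff] at he
    tauto
  have h2 := Ex_prod (u := o) (q := 1) ho le_rfl (V := W) (W := V \ W) (E := EI W)
    (F := EI (V \ W)) disjoint_sdiff hd hd' (disjoint_EI disjoint_sdiff) f g
  rw [hVW] at h2
  rw [← h2]
  have h3 : (EI W ∪ EI (V \ W)) ∪ (EI V \ (EI W ∪ EI (V \ W))) = EI V :=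
    union_sdiff_of_subset hE
  have h4 := JointA_drop ho V (E := EI W ∪ EI (V \ W))
    (F := EI V \ (EI W ∪ EI (V \ W))) disjoint_sdiff
    (fun b => f (b ∩ EI W) * g (b ∩ EI (V \ W))) (fun s t _ ht => by
      have a1 : (s ∪ t) ∩ EI W = s ∩ EI W := by
        ext e
        have h5 : e ∈ t → e ∉ EI W := fun h6 h7 =>
          (mem_sdiff.1 (ht h6)).2 (mem_union_left _ h7)
        rw [mem_inter, mem_inter, mem_union]
        tauto
      have a2 : (s ∪ t) ∩ EI (V \ W) = s ∩ EI (V \ W) := by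
        ext e
        have h5 : e ∈ t → e ∉ EI (V \ W) := fun h6 h7 =>
          (mem_sdiff.1 (ht h6)).2 (mem_union_right _ h7)
        rw [mem_inter, mem_inter, mem_union]
        tauto
      rw [a1, a2])
  rw [h3] at h4
  exact h4

end Pool.Agent.Lib.MP_31386d_pr_POTTS
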