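import Pool.Agent.Lib.MP_31386d_pr_POTTS.Dict
import Pool.Agent.Lib.MP_31386d_pr.Translate

/-!
# The free and the wired measure in a cube: quadratic inequality

Module L3 of project POTTS.

Notation: `V = cube d N`, `V⁺ = cube d (N + 1)`, edge set `E = EB V` (contained in `EI V⁺`).
Free probability `P⁰ (x ~ y) = Pb u q V⁺ E (Conn · x y)`, wired probability
`P¹ (x ~ y) = Pb u q V E (ConnP V · x y)`.
-/

set_option autoImplicit false

namespace Pool.Agent.Lib.MP_31386d_pr_POTTS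

open Finset
open Pool.Agent.Lib.MP_31386d_pr

variable {d : ℕ} {u q : ℝ}

/-- Free connection probability. -/
noncomputable def P0 (u q : ℝ) (N : ℕ) (x y : Pt d) : ℝ :=
  Pb u q (cube d (N + 1)) (EB (cube d N)) (fun ω => Conn ω x y)

/-- Wired connection probability. -/
noncomputable def P1 (u q : ℝ) (N : ℕ) (x y : Pt d) : ℝ :=
  Pb u q (cube d N) (EB (cube d N)) (fun ω => ConnP (cube d N) ω x y)

/-- Difference of the connection probabilities of the end points of an edge. -/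
noncomputable def LL (u q : ℝ) (N : ℕ) (e : Ed d) : ℝ := P1 u q N e.1 (tgt e) - P0 u q N e.1 (tgt e)

private theorem LatQ_Pb_iff {V : Finset (Pt d)} {E : Finset (Ed d)}
    {P Q : Finset (Ed d) → Prop} (h : ∀ ω, ω ⊆ E → (P ω ↔ Q ω)) :
    Pb u q V E P = Pb u q V E Q := by
  unfold Pb
  refine Ex_congr fun ω hω => ?_
  by_cases h1 : P ω
  · rw [if_pos h1, if_pos ((h ω hω).1 h1)]
  · rw [if_neg h1, if_neg (fun h2 => h1 ((h ω hω).2 h2))]

private theorem LatQ_P0_eq (hq : 1 ≤ q) (hu : 0 < u) (N : ℕ) {x y : Pt d}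
    (hx : x ∈ cube d (N + 1)) (hy : y ∈ cube d (N + 1)) :
    aC u q (enV (cube d (N + 1))) (BW (cube d (N + 1)) (cube d (N + 1))) (EB (cube d N))
      (pV (cube d (N + 1)) x) (pV (cube d (N + 1)) y) = P0 u q N x y := by
  rw [dict_aC hu hq (Finset.Subset.refl _)]
  unfold P0
  exact LatQ_Pb_iff fun ω hω => connP_free (hω.trans (EI_cube_sub N)) hx hy

private theorem LatQ_P1_eq (hq : 1 ≤ q) (hu : 0 < u) (N : ℕ) (x y : Pt d) :
    aC u q (enV (cube d (N + 1))) (BW (cube d (N + 1)) (cube d N)) (EB (cube d N))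
      (pV (cube d (N + 1)) x) (pV (cube d (N + 1)) y) = P1 u q N x y := by
  rw [dict_aC hu hq (cube_mono (Nat.le_succ N))]
  rfl

private theorem LatQ_P0_symm (N : ℕ) (x y : Pt d) : P0 u q N x y = P0 u q N y x :=
  LatQ_Pb_iff fun _ _ => ⟨fun h => h.symm, fun h => h.symm⟩

private theorem LatQ_P1_symm (N : ℕ) (x y : Pt d) : P1 u q N x y = P1 u q N y x :=
  LatQ_Pb_iff fun _ _ => ⟨fun h => h.symm, fun h => h.symm⟩

private theorem LatQ_BW (N : ℕ) (a b : Option {x // x ∈ cube d (N + 1)})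
    (h : BW (cube d (N + 1)) (cube d (N + 1)) a b) : BW (cube d (N + 1)) (cube d N) a b :=
  absurd h (not_BW_self a b)

/-- The first quadratic inequality in the cube. -/
theorem q1_lat {C : ℝ} (hq : 1 ≤ q) (hQ : Q1 q C) (hu : 0 < u) {N : ℕ} {t : Pt d} {e : Ed d}
    (ht : t ∈ cube d N) (he : e ∈ EI (cube d N)) :
    (P1 u q N t e.1 * P0 u q N t (tgt e) - P1 u q N t (tgt e) * P0 u q N t e.1) ^ 2 ≤
      C * LL u q N e := by
  have hsub : cube d N ⊆ cube d (N + 1) := cube_mono (Nat.le_succ N)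
  rw [mem_EI] at he
  have h := hQ (Option {x // x ∈ cube d (N + 1)}) (Ed d) (enV (cube d (N + 1)))
    (BW (cube d (N + 1)) (cube d (N + 1))) (BW (cube d (N + 1)) (cube d N)) (LatQ_BW N)
    (EB (cube d N)) u hu (pV (cube d (N + 1)) t) (pV (cube d (N + 1)) e.1)
    (pV (cube d (N + 1)) (tgt e))
  rw [LatQ_P1_eq hq hu, LatQ_P1_eq hq hu, LatQ_P1_eq hq hu,
    LatQ_P0_eq hq hu N (hsub he.2) (hsub ht), LatQ_P0_eq hq hu N (hsub he.1) (hsub ht),
    LatQ_P0_eq hq hu N (hsub he.1) (hsub he.2)] at h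
  rw [LatQ_P1_symm N t e.1, LatQ_P0_symm N t (tgt e), LatQ_P1_symm N t (tgt e),
    LatQ_P0_symm N t e.1]
  exact h

theorem LL_nonneg (hq : 1 ≤ q) (hu : 0 < u) {N : ℕ} {e : Ed d} (he : e ∈ EB (cube d N)) :
    0 ≤ LL u q N e := by
  have he2 := mem_EI.1 (EI_cube_sub N he)
  have h := aC_dom (u := u) (q := q) (en := enV (cube d (N + 1))) (E := EB (cube d N)) hu hq
    (LatQ_BW N) (pV (cube d (N + 1)) e.1) (pV (cube d (N + 1)) (tgt e))
  rw [LatQ_P1_eq hq hu, LatQ_P0_eq hq hu N he2.1 he2.2] at h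
  unfold LL
  linarith

private theorem LatQ_Pb_true (hq : 1 ≤ q) (hu : 0 < u) {V : Finset (Pt d)} {E : Finset (Ed d)}
    {P : Finset (Ed d) → Prop} (h : ∀ ω, P ω) : Pb u q V E P = 1 := by
  unfold Pb
  refine Eq.trans ?_ (Ex_const (V := V) (E := E) hu hq 1)
  exact Ex_congr fun ω _ => if_pos (h ω)

theorem P0_self (hq : 1 ≤ q) (hu : 0 < u) (N : ℕ) (x : Pt d) : P0 u q N x x = 1 :=
  LatQ_Pb_true hq hu fun ω => Conn.refl ω x

theorem P1_self (hq : 1 ≤ q) (hu : 0 < u) (N : ℕ) (x : Pt d) : P1 u q N x x = 1 :=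
  LatQ_Pb_true hq hu fun ω => ConnP.refl _ ω x

private theorem LatQ_sub (N : ℕ) {x : Pt d} (hx : x ∈ cube d N) :
    cube d N ⊆ shV x (cube d (2 * N)) := by
  intro y hy
  rw [mem_shV_cube]
  intro i
  have h1 := mem_cube.1 hx i
  have h2 := mem_cube.1 hy i
  rw [abs_le]
  push_cast
  constructor <;> linarith [h1.1, h1.2, h2.1, h2.2]

theorem P1_ge {c : ℝ} (hc : 0 ≤ c) (hq : 1 ≤ q) (hu : 0 < u) (hθ : ∀ r : ℕ, c ≤ thw d u q r)
    {N : ℕ} {x y : Pt d} (hx : x ∈ cube d N) (hy : y ∈ cube d N) : c ^ 2 ≤ P1 u q N x y := by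
  have hx1 : c ≤ Pb u q (cube d N) (EB (cube d N)) (fun ω => Out (cube d N) ω x) :=
    (hθ (2 * N)).trans (thw_le_Pb_out hu hq (LatQ_sub N hx))
  have hy1 : c ≤ Pb u q (cube d N) (EB (cube d N)) (fun ω => Out (cube d N) ω y) :=
    (hθ (2 * N)).trans (thw_le_Pb_out hu hq (LatQ_sub N hy))
  calc c ^ 2 = c * c := sq c
    _ ≤ Pb u q (cube d N) (EB (cube d N)) (fun ω => Out (cube d N) ω x) *
        Pb u q (cube d N) (EB (cube d N)) (fun ω => Out (cube d N) ω y) :=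
        mul_le_mul hx1 hy1 hc (hc.trans hx1)
    _ ≤ Pb u q (cube d N) (EB (cube d N)) (fun ω => Out (cube d N) ω x ∧ Out (cube d N) ω y) :=
        Pb_fkg hu hq (fun _ _ hst h => Out.mono hst (Finset.Subset.refl _) h)
          (fun _ _ hst h => Out.mono hst (Finset.Subset.refl _) h)
    _ ≤ P1 u q N x y := Pb_mono hu hq (fun _ _ h => connP_of_out h.1 h.2)

theorem P1_le_one (hq : 1 ≤ q) (hu : 0 < u) (N : ℕ) (x y : Pt d) : P1 u q N x y ≤ 1 :=
  Pb_le_one hu hq _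

end Pool.Agent.Lib.MP_31386d_pr_POTTS
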