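import Pool.Agent.Lib.MP_31386d_pr_POTTS.Deriv

/-!
# Comparison of two bases through the derivative of the partition functions

Module A13 of project POTTS.
-/

set_option autoImplicit false

namespace Pool.Agent.Lib.MP_31386d_pr_POTTS

open Finset

variable {W ι : Type} [Finite W] {q : ℝ} {en : ι → W × W} {B B' : W → W → Prop} {E : Finset ι}

private theorem WiredFree_bounds (hq : 1 < q) (hB : ∀ x y, B x y → B' x y) {K : ℕ}
    (hK : ∀ ω, ω ⊆ E → cc en B ω ≤ cc en B' ω + K) {u : ℝ} (hu : 0 < u) :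
    -(K * Real.log q) ≤ Real.log (aZ u q en B' E (fun _ => 1)) -
      Real.log (aZ u q en B E (fun _ => 1)) ∧
    Real.log (aZ u q en B' E (fun _ => 1)) - Real.log (aZ u q en B E (fun _ => 1)) ≤ 0 := by
  have hq0 : 0 < q := by linarith
  have h1 : 0 < aZ u q en B E (fun _ => 1) := aZ_pos hu hq0 en B E
  have h2 : 0 < aZ u q en B' E (fun _ => 1) := aZ_pos hu hq0 en B' E
  have h3 : aZ u q en B' E (fun _ => 1) ≤ aZ u q en B E (fun _ => 1) := by
    unfold aZ
    refine Finset.sum_le_sum fun ω _ => ?_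
    have h4 : q ^ cc en B' ω ≤ q ^ cc en B ω :=
      pow_le_pow_right₀ hq.le (cc_mono hB (Finset.Subset.refl ω))
    have h5 : 0 ≤ u ^ ω.card := by positivity
    nlinarith [mul_le_mul_of_nonneg_left h4 h5]
  have h6 : aZ u q en B E (fun _ => 1) ≤ q ^ K * aZ u q en B' E (fun _ => 1) := by
    unfold aZ
    rw [Finset.mul_sum]
    refine Finset.sum_le_sum fun ω hω => ?_
    have h4 : q ^ cc en B ω ≤ q ^ K * q ^ cc en B' ω := by
      rw [← pow_add, add_comm]
      exact pow_le_pow_right₀ hq.le (hK ω (Finset.mem_powerset.mp hω))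
    have h5 : 0 ≤ u ^ ω.card := by positivity
    nlinarith [mul_le_mul_of_nonneg_left h4 h5]
  constructor
  · have h7 := Real.log_le_log h1 h6
    rw [Real.log_mul (pow_pos hq0 K).ne' h2.ne', Real.log_pow] at h7
    linarith
  · have h7 := Real.log_le_log h2 h3
    linarith

/-- At some intermediate parameter the sum over the edges of the differences of the connection
probabilities is bounded by the number of lost clusters. -/
theorem wired_free (hq : 1 < q) (hB : ∀ x y, B x y → B' x y) {K : ℕ}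
    (hK : ∀ ω, ω ⊆ E → cc en B ω ≤ cc en B' ω + K) {u₁ u₂ : ℝ} (hu₁ : 0 < u₁) (hu : u₁ < u₂) :
    ∃ u, u₁ < u ∧ u < u₂ ∧
      (u₂ - u₁) * (1 - 1 / q) * ∑ e ∈ E, (aC u q en B' E (en e).1 (en e).2 -
        aC u q en B E (en e).1 (en e).2) ≤ (1 + u₂) * (K * Real.log q) := by
  have hq0 : 0 < q := by linarith
  have hlq : 0 ≤ Real.log q := Real.log_nonneg hq.le
  have hu₂ : 0 < u₂ := hu₁.trans hu
  have hder : ∀ u : ℝ, 0 < u → HasDerivAt
      (fun v : ℝ => Real.log (aZ v q en B' E (fun _ => 1)) -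
        Real.log (aZ v q en B E (fun _ => 1)))
      (1 / (1 + u) * ∑ e ∈ E, (1 / q + (1 - 1 / q) * aC u q en B' E (en e).1 (en e).2) -
        1 / (1 + u) * ∑ e ∈ E, (1 / q + (1 - 1 / q) * aC u q en B E (en e).1 (en e).2)) u :=
    fun u hu => (hasDerivAt_log_aZ hu hq0).sub (hasDerivAt_log_aZ hu hq0)
  obtain ⟨u, hmem, heq⟩ := exists_hasDerivAt_eq_slope
    (fun v : ℝ => Real.log (aZ v q en B' E (fun _ => 1)) -
        Real.log (aZ v q en B E (fun _ => 1))) _ hu
    (fun u hu' => ((hder u (hu₁.trans_le hu'.1)).continuousAt).continuousWithinAt)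
    (fun u hu' => hder u (hu₁.trans hu'.1))
  refine ⟨u, hmem.1, hmem.2, ?_⟩
  have hu0 : 0 < u := hu₁.trans hmem.1
  have hb₁ := WiredFree_bounds hq hB hK hu₁
  have hb₂ := WiredFree_bounds hq hB hK hu₂
  rw [← mul_sub, ← Finset.sum_sub_distrib, eq_div_iff (sub_ne_zero.mpr hu.ne')] at heq
  have hsum : ∑ e ∈ E, ((1 / q + (1 - 1 / q) * aC u q en B' E (en e).1 (en e).2) -
      (1 / q + (1 - 1 / q) * aC u q en B E (en e).1 (en e).2)) =
      (1 - 1 / q) * ∑ e ∈ E, (aC u q en B' E (en e).1 (en e).2 -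
        aC u q en B E (en e).1 (en e).2) := by
    rw [Finset.mul_sum]
    exact Finset.sum_congr rfl fun e _ => by ring
  rw [hsum] at heq
  set S : ℝ := ∑ e ∈ E, (aC u q en B' E (en e).1 (en e).2 -
        aC u q en B E (en e).1 (en e).2) with hS
  have h1 : (u₂ - u₁) * (1 - 1 / q) * S = (1 + u) * (1 / (1 + u) * ((1 - 1 / q) * S) *
      (u₂ - u₁)) := by
    field_simp
  rw [h1, heq]
  have h2 : (Real.log (aZ u₂ q en B' E (fun _ => 1)) - Real.log (aZ u₂ q en B E (fun _ => 1))) -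
      (Real.log (aZ u₁ q en B' E (fun _ => 1)) - Real.log (aZ u₁ q en B E (fun _ => 1))) ≤
      K * Real.log q := by linarith [hb₁.1, hb₂.2]
  have h3 : 0 ≤ (K : ℝ) * Real.log q := mul_nonneg (Nat.cast_nonneg K) hlq
  calc (1 + u) * ((Real.log (aZ u₂ q en B' E (fun _ => 1)) -
        Real.log (aZ u₂ q en B E (fun _ => 1))) -
      (Real.log (aZ u₁ q en B' E (fun _ => 1)) - Real.log (aZ u₁ q en B E (fun _ => 1))))
      ≤ (1 + u) * (K * Real.log q) := mul_le_mul_of_nonneg_left h2 (by linarith)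
    _ ≤ (1 + u₂) * (K * Real.log q) := mul_le_mul_of_nonneg_right (by linarith [hmem.2]) h3

end Pool.Agent.Lib.MP_31386d_pr_POTTS
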