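import Pool.Agent.Lib.MP_31386d_pr_POTTS.LatQ
import Pool.Agent.Lib.MP_31386d_pr_POTTS.WiredFree

/-!
# The free and the wired measure in a cube: sum over the edges

Module L4 of project POTTS.
-/

set_option autoImplicit false

namespace Pool.Agent.Lib.MP_31386d_pr_POTTS

open Finset
open Pool.Agent.Lib.MP_31386d_pr

variable {d : ℕ} {u q : ℝ}

private theorem latSum_card (d N : ℕ) : (cube d N).card = (2 * N + 1) ^ d := by
  unfold cube
  rw [Fintype.card_piFinset]
  simp only [Int.card_Icc, prod_const, card_univ, Fintype.card_fin]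
  congr 1
  omega

private theorem latSum_pow {a b : ℝ} (hb : 0 ≤ b) (hab : b ≤ a) :
    ∀ n : ℕ, a ^ (n + 1) ≤ b ^ (n + 1) + (n + 1) * (a - b) * a ^ n := by
  intro n
  induction n with
  | zero => simp
  | succ n ih =>
    have ha : 0 ≤ a := hb.trans hab
    have h1 : a * a ^ (n + 1) ≤ a * (b ^ (n + 1) + (n + 1) * (a - b) * a ^ n) :=
      mul_le_mul_of_nonneg_left ih ha
    have h2 : (a - b) * b ^ (n + 1) ≤ (a - b) * a ^ (n + 1) :=
      mul_le_mul_of_nonneg_left (pow_le_pow_left₀ hb hab _) (by linarith)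
    have h3 : a ^ (n + 1 + 1) = a * a ^ (n + 1) := by ring
    have h4 : b ^ (n + 1 + 1) = b * b ^ (n + 1) := by ring
    have h5 : a * (b ^ (n + 1) + (n + 1) * (a - b) * a ^ n) =
        b * b ^ (n + 1) + (a - b) * b ^ (n + 1) + (n + 1) * (a - b) * a ^ (n + 1) := by ring
    have h6 : ((n : ℝ) + 1 + 1) * (a - b) * a ^ (n + 1) =
        (n + 1) * (a - b) * a ^ (n + 1) + (a - b) * a ^ (n + 1) := by ring
    push_cast
    rw [h3, h4, h6]
    linarith

theorem card_cube_diff (hd : 1 ≤ d) (N : ℕ) :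
    ((cube d (N + 1)).card : ℝ) ≤ (cube d N).card + 2 * d * (2 * N + 3 : ℝ) ^ (d - 1) := by
  obtain ⟨n, rfl⟩ : ∃ n, d = n + 1 := ⟨d - 1, by omega⟩
  rw [latSum_card, latSum_card]
  have h := latSum_pow (a := 2 * (N : ℝ) + 3) (b := 2 * (N : ℝ) + 1) (by positivity) (by linarith) n
  push_cast
  have h1 : (2 * ((N : ℝ) + 1) + 1) = 2 * (N : ℝ) + 3 := by ring
  rw [h1]
  calc (2 * (N : ℝ) + 3) ^ (n + 1) ≤ _ := h
    _ = _ := by ring

private theorem latSum_cube_mono (N : ℕ) : cube d N ⊆ cube d (N + 1) := by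
  intro x hx
  rw [mem_cube] at *
  intro i
  have := hx i
  push_cast
  constructor <;> omega

private theorem latSum_EB (N : ℕ) : EB (cube d N) ⊆ EI (cube d (N + 1)) := by
  intro e he
  rw [mem_EB, mem_cube, mem_cube] at he
  rw [mem_EI, mem_cube, mem_cube]
  have h1 : ∀ i, tgt e i = e.1 i + (if i = e.2 then 1 else 0) := by
    intro i
    unfold tgt
    rw [Pi.add_apply, Pi.single_apply]
  push_cast
  rcases he with he | he
  · constructor
    · intro i
      have := he i
      constructor <;> omega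
    · intro i
      have := he i
      have h2 := h1 i
      split_ifs at h2 <;> constructor <;> omega
  · constructor
    · intro i
      have := he i
      have h2 := h1 i
      split_ifs at h2 <;> constructor <;> omega
    · intro i
      have := he i
      constructor <;> omega

/-- Adding vertices creates at most as many clusters as there are new vertices. -/
private theorem latSum_kap {V W : Finset (Pt d)} (hVW : V ⊆ W) (ω : Finset (Ed d)) :
    kap W ω ≤ kap V ω + (W.card - V.card) := by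
  classical
  let φ : L W ω →ₗ[ℚ] ({x // x ∈ W \ V} → ℚ) :=
    { toFun := fun g x => g.1 x.1
      map_add' := fun _ _ => rfl
      map_smul' := fun _ _ => rfl }
  have h1 := LinearMap.finrank_range_add_finrank_ker φ
  have h2 : Module.finrank ℚ (LinearMap.range φ) ≤ (W \ V).card := by
    have := Submodule.finrank_le (LinearMap.range φ)
    rw [Module.finrank_fintype_fun_eq_card, Fintype.card_coe] at this
    exact this
  have h3 : Module.finrank ℚ (LinearMap.ker φ) ≤ kap V ω := by
    let ψ : LinearMap.ker φ →ₗ[ℚ] L V ω :=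
      { toFun := fun g => ⟨g.1.1, fun x hx => by
          by_cases hW : x ∈ W
          · have := g.2
            rw [LinearMap.mem_ker] at this
            exact congrFun this ⟨x, mem_sdiff.mpr ⟨hW, hx⟩⟩
          · exact g.1.2.1 x hW, g.1.2.2⟩
        map_add' := fun _ _ => rfl
        map_smul' := fun _ _ => rfl }
    apply LinearMap.finrank_le_finrank_of_injective (f := ψ)
    intro g h hgh
    apply Subtype.ext
    apply Subtype.ext
    exact congrArg (fun k : L V ω => k.1) hgh
  rw [card_sdiff_of_subset hVW] at h2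
  unfold kap at *
  omega

private theorem latSum_P1 (hq : 1 ≤ q) (hu : 0 < u) (N : ℕ) (x y : Pt d) :
    aC u q (enV (cube d (N + 1))) (BW (cube d (N + 1)) (cube d N)) (EB (cube d N))
      (pV (cube d (N + 1)) x) (pV (cube d (N + 1)) y) = P1 u q N x y :=
  dict_aC hu hq (latSum_cube_mono N) _ x y

private theorem latSum_P0 (hq : 1 ≤ q) (hu : 0 < u) {N : ℕ} {x y : Pt d}
    (hx : x ∈ cube d (N + 1)) (hy : y ∈ cube d (N + 1)) :
    aC u q (enV (cube d (N + 1))) (BW (cube d (N + 1)) (cube d (N + 1))) (EB (cube d N))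
      (pV (cube d (N + 1)) x) (pV (cube d (N + 1)) y) = P0 u q N x y := by
  classical
  rw [dict_aC hu hq (subset_refl _)]
  unfold P0 Pb
  refine Ex_congr fun ω hω => ?_
  have h := connP_free (hω.trans (latSum_EB N)) hx hy
  by_cases h1 : Conn ω x y
  · rw [if_pos h1, if_pos (h.2 h1)]
  · rw [if_neg h1, if_neg (fun h2 => h1 (h.1 h2))]

theorem sum_LL (hd : 1 ≤ d) (hq : 1 < q) {u₁ u₂ : ℝ} (hu₁ : 0 < u₁) (hu : u₁ < u₂) (N : ℕ) :
    ∃ u, u₁ < u ∧ u < u₂ ∧ (u₂ - u₁) * (1 - 1 / q) * ∑ e ∈ EB (cube d N), LL u q N e ≤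
      (1 + u₂) * (2 * d * (2 * N + 3 : ℝ) ^ (d - 1) * Real.log q) := by
  have hB : ∀ x y, BW (cube d (N + 1)) (cube d (N + 1)) x y →
      BW (cube d (N + 1)) (cube d N) x y := fun x y h => absurd h (not_BW_self x y)
  have hK : ∀ ω : Finset (Ed d), ω ⊆ EB (cube d N) →
      cc (enV (cube d (N + 1))) (BW (cube d (N + 1)) (cube d (N + 1))) ω ≤
        cc (enV (cube d (N + 1))) (BW (cube d (N + 1)) (cube d N)) ω +
          ((cube d (N + 1)).card - (cube d N).card) := by
    intro ω _
    rw [dict_cc (subset_refl _), dict_cc (latSum_cube_mono N)]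
    have := latSum_kap (latSum_cube_mono (d := d) N) ω
    omega
  obtain ⟨u, h1, h2, h3⟩ := wired_free hq hB hK hu₁ hu
  refine ⟨u, h1, h2, ?_⟩
  have hu0 : 0 < u := hu₁.trans h1
  have h4 : ∑ e ∈ EB (cube d N), LL u q N e = ∑ e ∈ EB (cube d N),
      (aC u q (enV (cube d (N + 1))) (BW (cube d (N + 1)) (cube d N)) (EB (cube d N))
          (enV (cube d (N + 1)) e).1 (enV (cube d (N + 1)) e).2 -
        aC u q (enV (cube d (N + 1))) (BW (cube d (N + 1)) (cube d (N + 1))) (EB (cube d N))
          (enV (cube d (N + 1)) e).1 (enV (cube d (N + 1)) e).2) := by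
    refine sum_congr rfl fun e he => ?_
    have he' := mem_EI.1 (latSum_EB N he)
    show LL u q N e = aC u q _ _ _ (pV (cube d (N + 1)) e.1) (pV (cube d (N + 1)) (tgt e)) -
      aC u q _ _ _ (pV (cube d (N + 1)) e.1) (pV (cube d (N + 1)) (tgt e))
    rw [latSum_P1 hq.le hu0, latSum_P0 hq.le hu0 he'.1 he'.2]
    rfl
  rw [h4]
  refine h3.trans ?_
  have h5 : (((cube d (N + 1)).card - (cube d N).card : ℕ) : ℝ) ≤
      2 * d * (2 * N + 3 : ℝ) ^ (d - 1) := by
    rw [Nat.cast_sub (card_le_card (latSum_cube_mono N))]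
    have := card_cube_diff hd N
    linarith
  have h6 : 0 ≤ Real.log q := (Real.log_pos hq).le
  have h7 : 0 ≤ 1 + u₂ := by linarith
  exact mul_le_mul_of_nonneg_left (mul_le_mul_of_nonneg_right h5 h6) h7

end Pool.Agent.Lib.MP_31386d_pr_POTTS
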