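import Pool.Agent.Lib.MP_31386d_pr_POTTS.CoarseBad

/-!
# Choice of the parameters

Module G13 of project POTTS (real analysis).
-/

set_option autoImplicit false

namespace Pool.Agent.Lib.MP_31386d_pr_POTTS

open Finset
open Pool.Agent.Lib.MP_31386d_pr

private theorem Param_A0 (D : ℕ) {δ : ℝ} (hδ : 0 < δ) : ∃ A₀ : ℕ, ∀ A : ℕ, A₀ ≤ A →
    5 * (A : ℝ) ^ (D + 2) ≤ 2 ^ A ∧ (3 * D + 3) * (A : ℝ) ^ 2 ≤ δ * 2 ^ A ∧ D + 1 ≤ A := by
  have h := tendsto_pow_const_div_const_pow_of_one_lt (D + 2) (r := (2 : ℝ)) (by norm_num)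
  have hc : (0 : ℝ) < min (1 / 5) (δ / (3 * D + 3)) := by
    apply lt_min
    · norm_num
    · positivity
  have h1 := (h.eventually (gt_mem_nhds hc)).and (Filter.eventually_ge_atTop (D + 1))
  obtain ⟨A₀, hA⟩ := Filter.eventually_atTop.mp h1
  refine ⟨A₀, fun A hAA => ?_⟩
  obtain ⟨h2, h3⟩ := hA A hAA
  have hA1 : (1 : ℝ) ≤ (A : ℝ) := by
    have : 1 ≤ A := by omega
    exact_mod_cast this
  have hp : (0 : ℝ) < 2 ^ A := by positivity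
  have h4 : (A : ℝ) ^ (D + 2) / 2 ^ A < 1 / 5 := lt_of_lt_of_le h2 (min_le_left _ _)
  have h5 : (A : ℝ) ^ (D + 2) / 2 ^ A < δ / (3 * D + 3) := lt_of_lt_of_le h2 (min_le_right _ _)
  rw [div_lt_iff₀ hp] at h4 h5
  refine ⟨by linarith, ?_, h3⟩
  have h6 : (A : ℝ) ^ 2 ≤ (A : ℝ) ^ (D + 2) := pow_le_pow_right₀ hA1 (by omega)
  have h7 : (0 : ℝ) < 3 * D + 3 := by positivity
  calc (3 * (D : ℝ) + 3) * (A : ℝ) ^ 2 ≤ (3 * D + 3) * (δ / (3 * D + 3) * 2 ^ A) :=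
        mul_le_mul_of_nonneg_left (h6.trans h5.le) h7.le
    _ = δ * 2 ^ A := by field_simp

private theorem Param_exp_nat (A k : ℕ) (hA : 1 ≤ A) :
    ((2 * A : ℕ) : ℝ) ^ k ≤ Real.exp (2 * k * A) := by
  have h1 : ((2 * A : ℕ) : ℝ) ≤ Real.exp (2 * A) := by
    have := Real.add_one_le_exp (2 * (A : ℝ))
    push_cast
    linarith
  calc ((2 * A : ℕ) : ℝ) ^ k ≤ Real.exp (2 * A) ^ k := pow_le_pow_left₀ (by positivity) h1 k
    _ = Real.exp (2 * k * A) := by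
      rw [← Real.exp_nat_mul]
      congr 1
      ring

private theorem Param_two_pow (A : ℕ) : (2 : ℝ) ^ A ≤ Real.exp A := by
  have h1 : (2 : ℝ) ≤ Real.exp 1 := by
    have := Real.add_one_le_exp (1 : ℝ)
    linarith
  calc (2 : ℝ) ^ A ≤ Real.exp 1 ^ A := pow_le_pow_left₀ (by norm_num) h1 A
    _ = Real.exp A := by
      rw [← Real.exp_nat_mul]
      congr 1
      ring

/-- The factor `(w + 1) ^ D`. -/
private theorem Param_w (D K r A : ℕ) :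
    (((4 * K * (r * 2 ^ A) + 1 : ℕ) : ℝ) + 1) ^ D ≤
      (4 * K * r + 2) ^ D * Real.exp (D * A) := by
  have h1 : ((4 * K * (r * 2 ^ A) + 1 : ℕ) : ℝ) + 1 ≤ (4 * K * r + 2) * Real.exp A := by
    have h2 := Param_two_pow A
    have h3 : (1 : ℝ) ≤ 2 ^ A := one_le_pow₀ (by norm_num)
    have h4 : (4 * (K : ℝ) * r + 2) * 2 ^ A ≤ (4 * K * r + 2) * Real.exp A :=
      mul_le_mul_of_nonneg_left h2 (by positivity)
    push_cast
    nlinarith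
  calc (((4 * K * (r * 2 ^ A) + 1 : ℕ) : ℝ) + 1) ^ D ≤ ((4 * K * r + 2) * Real.exp A) ^ D :=
        pow_le_pow_left₀ (by positivity) h1 D
    _ = (4 * K * r + 2) ^ D * Real.exp (D * A) := by
      rw [mul_pow, ← Real.exp_nat_mul]

/-- For suitable parameters the probability of a bad coarse block is as small as we like. Here
`n = r 2 ^ l 2 ^ k₀`, `g = 4 K n`, `w = g + 1`. -/
theorem exists_param {D : ℕ} (hD : 2 ≤ D) {o q κ : ℝ} (ho : 0 < o) (hq : 1 ≤ q) (hκ : 0 < κ)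
    (K : ℕ) {ε : ℝ} (hε : 0 < ε) :
    ∃ r l k₀ : ℕ, 1 ≤ r ∧ bad D o q κ r l k₀ (4 * K * (r * 2 ^ l * 2 ^ k₀) + 1) ≤ ε := by
  obtain ⟨e, rfl⟩ : ∃ e, D = e + 2 := ⟨D - 2, by omega⟩
  have hq0 : 0 < q := by linarith
  have hlog : 0 ≤ Real.log (2 * q) := Real.log_nonneg (by linarith)
  -- the constant
  obtain ⟨cP, hcP⟩ : ∃ cP : ℝ, cP = 2 ^ (e + 2 + 1) * ((e + 2 + 1 : ℕ) : ℝ) := ⟨_, rfl⟩
  have hcP0 : 0 < cP := by
    rw [hcP]
    positivity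
  obtain ⟨r₀, hr₀⟩ := exists_nat_ge ((Real.log (2 * q) + 1) / κ * (2 ^ (e + 2 + 1 + 1) * (64 * cP)))
  obtain ⟨r, hr⟩ : ∃ r : ℕ, r = r₀ + 1 := ⟨_, rfl⟩
  have hr1 : 1 ≤ r := by omega
  have hrr : (Real.log (2 * q) + 1) ≤ κ * ((r : ℝ) ^ (e + 1) / (2 ^ (e + 2 + 1 + 1) * (64 * cP))) := by
    have h1 : (r₀ : ℝ) ≤ (r : ℝ) ^ (e + 1) := by
      have h2 : (r : ℝ) ≤ (r : ℝ) ^ (e + 1) :=
        le_self_pow₀ (by exact_mod_cast hr1) (by omega)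
      have h3 : (r₀ : ℝ) ≤ r := by
        rw [hr]
        push_cast
        linarith
      linarith
    have h4 : (Real.log (2 * q) + 1) / κ * (2 ^ (e + 2 + 1 + 1) * (64 * cP)) ≤ (r : ℝ) ^ (e + 1) :=
      hr₀.trans h1
    have h5 : 0 < (2 : ℝ) ^ (e + 2 + 1 + 1) * (64 * cP) := by positivity
    rw [← le_div_iff₀ h5, div_le_iff₀ hκ] at h4
    linarith
  obtain ⟨m, hm⟩ : ∃ m : ℕ, m = (EI (Box (e + 2 + 1) r)).card := ⟨_, rfl⟩
  obtain ⟨δ, hδ⟩ : ∃ δ : ℝ, δ = (o / (o + 1)) ^ m := ⟨_, rfl⟩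
  have hδ0 : 0 < δ := by
    rw [hδ]
    positivity
  have hδ1 : δ ≤ 1 := by
    rw [hδ]
    refine pow_le_one₀ (by positivity) ?_
    rw [div_le_one (by linarith)]
    linarith
  obtain ⟨A₀, hA₀⟩ := Param_A0 (e + 2) hδ0
  obtain ⟨c, hc⟩ : ∃ c : ℝ, c = (4 * K * r + 2) ^ (e + 2) * (1 + q) := ⟨_, rfl⟩
  have hc0 : 0 < c := by
    rw [hc]
    positivity
  obtain ⟨A₁, hA₁⟩ := exists_nat_ge (c / ε)
  obtain ⟨k₀, hk₀⟩ : ∃ k₀ : ℕ, k₀ = A₀ + A₁ := ⟨_, rfl⟩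
  obtain ⟨A, hA⟩ : ∃ A : ℕ, A = 2 ^ k₀ := ⟨_, rfl⟩
  have hkA : k₀ < A := by
    rw [hA]
    exact Nat.lt_two_pow_self
  obtain ⟨g1, g2, g3⟩ := hA₀ A (by omega)
  have hA1 : 1 ≤ A := by omega
  have hAr : (1 : ℝ) ≤ A := by exact_mod_cast hA1
  refine ⟨r, A - k₀, k₀, hr1, ?_⟩
  have hl : 2 ^ (A - k₀) * 2 ^ k₀ = 2 ^ A := by
    rw [← pow_add]
    congr 1
    omega
  have hlr : (2 : ℝ) ^ (A - k₀) * A = 2 ^ A := by
    have : ((2 ^ (A - k₀) * 2 ^ k₀ : ℕ) : ℝ) = ((2 ^ A : ℕ) : ℝ) := by rw [hl]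
    rw [← hA] at this
    push_cast at this
    exact this
  have hM : (2 ^ (k₀ + 1)) ^ (e + 2 + 1) = (2 * A) ^ (e + 2 + 1) := by
    rw [pow_succ 2 k₀, ← hA, mul_comm A 2]
  obtain ⟨M, hMd⟩ : ∃ M : ℕ, M = (2 * A) ^ (e + 2 + 1) := ⟨_, rfl⟩
  have hw : 4 * K * (r * 2 ^ (A - k₀) * 2 ^ k₀) + 1 = 4 * K * (r * 2 ^ A) + 1 := by
    rw [mul_assoc r, hl]
  obtain ⟨Y, hY⟩ : ∃ Y : ℝ, Y = 2 ^ (A - k₀) := ⟨_, rfl⟩
  rw [← hY] at hlr
  have hY1 : 1 ≤ Y := by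
    rw [hY]
    exact one_le_pow₀ (by norm_num)
  -- the exponent
  have hexpo : (M : ℝ) / 2 ^ (e + 2 + 1 + 1) * (r : ℝ) ^ (e + 1) / (64 * cP) ≤
      expo (e + 2 + 1) r (A - k₀) k₀ := by
    unfold expo
    have e1 : e + 2 + 1 - 2 = e + 1 := by omega
    rw [e1, hM, ← hMd, ← hcP]
    refine le_min ?_ le_rfl
    have h1 : ((r * 2 ^ (A - k₀) : ℕ) : ℝ) ^ (e + 1) = (r : ℝ) ^ (e + 1) * Y ^ (e + 1) := by
      push_cast
      rw [mul_pow, hY]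
    rw [h1, hMd]
    have h2 : (((2 * A) ^ (e + 2 + 1) : ℕ) : ℝ) / 2 ^ (e + 2 + 1 + 1) = (A : ℝ) ^ (e + 3) / 2 := by
      push_cast
      rw [mul_pow, pow_succ 2 (e + 2 + 1)]
      field_simp
    rw [h2]
    have h3 : Y ≤ Y ^ (e + 1) := le_self_pow₀ hY1 (by omega)
    have h4 : 5 * (A : ℝ) ^ (e + 3) ≤ Y := by
      have h5 : 5 * (A : ℝ) ^ (e + 3) * A ≤ Y * A := by
        rw [hlr]
        calc 5 * (A : ℝ) ^ (e + 3) * A = 5 * (A : ℝ) ^ (e + 2 + 2) := by ring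
          _ ≤ 2 ^ A := g1
      exact le_of_mul_le_mul_right h5 (by linarith)
    have h6 : 0 ≤ (A : ℝ) ^ (e + 3) := by positivity
    have h7 : (A : ℝ) ^ (e + 3) / 2 * 9 ≤ Y ^ (e + 1) := by linarith
    rw [div_le_div_iff₀ (by positivity) (by positivity)]
    have h8 : 0 ≤ (r : ℝ) ^ (e + 1) * (64 * cP) := by positivity
    calc (A : ℝ) ^ (e + 3) / 2 * (r : ℝ) ^ (e + 1) * (576 * cP)
        = (A : ℝ) ^ (e + 3) / 2 * 9 * ((r : ℝ) ^ (e + 1) * (64 * cP)) := by ring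
      _ ≤ Y ^ (e + 1) * ((r : ℝ) ^ (e + 1) * (64 * cP)) := mul_le_mul_of_nonneg_right h7 h8
      _ = (r : ℝ) ^ (e + 1) * Y ^ (e + 1) * (64 * cP) := by ring
  have hM0 : (0 : ℝ) ≤ (M : ℝ) := Nat.cast_nonneg M
  have hkexpo : (M : ℝ) * (Real.log (2 * q) + 1) ≤ κ * expo (e + 2 + 1) r (A - k₀) k₀ := by
    calc (M : ℝ) * (Real.log (2 * q) + 1) ≤
          M * (κ * ((r : ℝ) ^ (e + 1) / (2 ^ (e + 2 + 1 + 1) * (64 * cP)))) :=
          mul_le_mul_of_nonneg_left hrr hM0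
      _ = κ * ((M : ℝ) / 2 ^ (e + 2 + 1 + 1) * (r : ℝ) ^ (e + 1) / (64 * cP)) := by
        field_simp
      _ ≤ _ := mul_le_mul_of_nonneg_left hexpo hκ.le
  -- second term
  have hM1 : (e + 2 + 1 : ℝ) * A ≤ M := by
    have h1 : (e + 2 + 1) * A ≤ M := by
      rw [hMd]
      calc (e + 2 + 1) * A ≤ A * A := Nat.mul_le_mul_right A g3
        _ ≤ (2 * A) * (2 * A) := Nat.mul_le_mul (by omega) (by omega)
        _ = (2 * A) ^ 2 := by ring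
        _ ≤ (2 * A) ^ (e + 2 + 1) := Nat.pow_le_pow_right (by omega) (by omega)
    exact_mod_cast h1
  have ht2 : (2 : ℝ) ^ M * q ^ (M + 1) * Real.exp (-(κ * expo (e + 2 + 1) r (A - k₀) k₀)) ≤
      q * Real.exp (-((e + 3 : ℝ) * A)) := by
    have h1 : (2 : ℝ) ^ M * q ^ (M + 1) = q * Real.exp (M * Real.log (2 * q)) := by
      rw [mul_comm (M : ℝ), Real.exp_mul, Real.exp_log (by linarith), Real.rpow_natCast, mul_pow,
        pow_succ]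
      ring
    rw [h1, mul_assoc, ← Real.exp_add]
    refine mul_le_mul_of_nonneg_left (Real.exp_le_exp.mpr ?_) hq0.le
    have h3 : (M : ℝ) * (Real.log (2 * q) + 1) = M * Real.log (2 * q) + M := by ring
    linarith
  -- first term
  have ht1 : (M : ℝ) * (1 - δ) ^ ((2 ^ (A - k₀)) ^ (e + 2 + 1)) ≤
      Real.exp (-((e + 3 : ℝ) * A)) := by
    have h1 : (1 - δ) ^ ((2 ^ (A - k₀)) ^ (e + 2 + 1)) ≤ Real.exp (-(δ * Y)) := by
      have h2 : 1 - δ ≤ Real.exp (-δ) := Real.one_sub_le_exp_neg δ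
      have h3 : (1 - δ) ^ ((2 ^ (A - k₀)) ^ (e + 2 + 1)) ≤
          (1 - δ) ^ (2 ^ (A - k₀)) := by
        refine pow_le_pow_of_le_one (by linarith) (by linarith) ?_
        exact Nat.le_self_pow (by omega) _
      refine h3.trans ?_
      refine (pow_le_pow_left₀ (by linarith) h2 _).trans (le_of_eq ?_)
      rw [← Real.exp_nat_mul]
      congr 1
      push_cast
      rw [hY]
      ring
    have h4 : (M : ℝ) ≤ Real.exp (2 * (e + 2 + 1 : ℕ) * A) := by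
      rw [hMd]
      have := Param_exp_nat A (e + 2 + 1) hA1
      push_cast at this ⊢
      exact this
    calc (M : ℝ) * (1 - δ) ^ ((2 ^ (A - k₀)) ^ (e + 2 + 1)) ≤
          Real.exp (2 * (e + 2 + 1 : ℕ) * A) * Real.exp (-(δ * Y)) :=
          mul_le_mul h4 h1 (by
            refine pow_nonneg ?_ _
            linarith) (Real.exp_nonneg _)
      _ ≤ _ := by
        rw [← Real.exp_add]
        refine Real.exp_le_exp.mpr ?_
        have h5 : (3 * ((e + 2 : ℕ) : ℝ) + 3) * A ≤ δ * Y := by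
          have h6 : (3 * ((e + 2 : ℕ) : ℝ) + 3) * A * A ≤ δ * Y * A := by
            calc (3 * ((e + 2 : ℕ) : ℝ) + 3) * A * A = (3 * ((e + 2 : ℕ) : ℝ) + 3) * (A : ℝ) ^ 2 := by
                  ring
              _ ≤ δ * 2 ^ A := g2
              _ = δ * Y * A := by rw [← hlr]; ring
          exact le_of_mul_le_mul_right h6 (by linarith)
        push_cast at h5 ⊢
        nlinarith
  -- conclusion
  unfold bad
  rw [hw, ← hm, ← hδ, hM, ← hMd]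
  have hW := Param_w (e + 2) K r A
  have hB0 : 0 ≤ (M : ℝ) * (1 - δ) ^ ((2 ^ (A - k₀)) ^ (e + 2 + 1)) +
      2 ^ M * q ^ (M + 1) * Real.exp (-(κ * expo (e + 2 + 1) r (A - k₀) k₀)) := by
    have h1 : 0 ≤ (1 - δ) ^ ((2 ^ (A - k₀)) ^ (e + 2 + 1)) := pow_nonneg (by linarith) _
    positivity
  have hB : (M : ℝ) * (1 - δ) ^ ((2 ^ (A - k₀)) ^ (e + 2 + 1)) +
      2 ^ M * q ^ (M + 1) * Real.exp (-(κ * expo (e + 2 + 1) r (A - k₀) k₀)) ≤
      (1 + q) * Real.exp (-((e + 3 : ℝ) * A)) := by linarith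
  refine (mul_le_mul hW hB hB0 (by positivity)).trans ?_
  have h1 : (4 * (K : ℝ) * r + 2) ^ (e + 2) * Real.exp ((e + 2 : ℕ) * A) *
      ((1 + q) * Real.exp (-((e + 3 : ℝ) * A))) = c * Real.exp (-A) := by
    have h2 : Real.exp (-(A : ℝ)) = Real.exp ((e + 2 : ℕ) * A) * Real.exp (-((e + 3 : ℝ) * A)) := by
      rw [← Real.exp_add]
      congr 1
      push_cast
      ring
    rw [h2, hc]
    ring
  rw [h1]
  have h3 : Real.exp (-(A : ℝ)) * A ≤ 1 := by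
    have h4 := Real.add_one_le_exp (A : ℝ)
    have h5 : Real.exp (-(A : ℝ)) * Real.exp A = 1 := by
      rw [← Real.exp_add]
      simp
    have h6 : Real.exp (-(A : ℝ)) * A ≤ Real.exp (-(A : ℝ)) * Real.exp A :=
      mul_le_mul_of_nonneg_left (by linarith) (Real.exp_nonneg _)
    linarith
  have h7 : c ≤ ε * A := by
    have h8 : c / ε ≤ A := by
      refine hA₁.trans ?_
      have : A₁ ≤ A := by omega
      exact_mod_cast this
    rw [div_le_iff₀ hε] at h8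
    linarith
  calc c * Real.exp (-A) ≤ ε * A * Real.exp (-A) :=
        mul_le_mul_of_nonneg_right h7 (Real.exp_nonneg _)
    _ = ε * (Real.exp (-A) * A) := by ring
    _ ≤ ε * 1 := mul_le_mul_of_nonneg_left h3 hε.le
    _ = ε := mul_one ε

end Pool.Agent.Lib.MP_31386d_pr_POTTS
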