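import Pool.Agent.Lib.MP_31386d_pr_POTTS.LatSum
import Pool.Agent.Lib.MP_31386d_pr_POTTS.RSet
import Pool.Agent.Lib.MP_31386d_pr_POTTS.Average

/-!
# Connectivity of the free measure in large cubes

Module L7 of project POTTS.
-/

set_option autoImplicit false

namespace Pool.Agent.Lib.MP_31386d_pr_POTTS

open Finset
open Pool.Agent.Lib.MP_31386d_pr

variable {d : ℕ} {q : ℝ}

private theorem ROne_EB_sub (n : ℕ) : EB (cube d n) ⊆ EI (cube d (n + 1)) := by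
  intro e he
  rw [mem_EB] at he
  rw [mem_EI, mem_cube, mem_cube]
  have hc : ((n + 1 : ℕ) : ℤ) = (n : ℤ) + 1 := by push_cast; ring
  have key : ∀ i, tgt e i = e.1 i ∨ tgt e i = e.1 i + 1 := by
    intro i
    unfold tgt
    by_cases h : e.2 = i
    · right
      subst h
      simp
    · left
      have h' : i ≠ e.2 := fun h'' => h h''.symm
      simp [h']
  rcases he with he | he
  · rw [mem_cube] at he
    refine ⟨fun i => ?_, fun i => ?_⟩
    · have := he i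
      rw [hc]
      omega
    · have := he i
      have := key i
      rw [hc]
      omega
  · rw [mem_cube] at he
    refine ⟨fun i => ?_, fun i => ?_⟩
    · have := he i
      have := key i
      rw [hc]
      omega
    · have := he i
      rw [hc]
      omega

/-- Step bound for the quotient. -/
private theorem ROne_step {C c a b a' b' L : ℝ} (hc : 0 < c) (hC : 0 < C)
    (hb : c ^ 2 ≤ b) (hb' : c ^ 2 ≤ b') (h : (b * a' - b' * a) ^ 2 ≤ C * L) :
    |a / b - a' / b'| ≤ Real.sqrt C / c ^ 4 * Real.sqrt L := by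
  have hc2 : 0 < c ^ 2 := by positivity
  have hbp : 0 < b := lt_of_lt_of_le hc2 hb
  have hbp' : 0 < b' := lt_of_lt_of_le hc2 hb'
  have e1 : a / b - a' / b' = (a * b' - a' * b) / (b * b') := by
    field_simp
  rw [e1, abs_div, abs_of_pos (mul_pos hbp hbp')]
  have h1 : |a * b' - a' * b| ≤ Real.sqrt (C * L) := by
    apply Real.abs_le_sqrt
    have : (a * b' - a' * b) ^ 2 = (b * a' - b' * a) ^ 2 := by ring
    rw [this]
    exact h
  rw [Real.sqrt_mul hC.le] at h1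
  have h2 : c ^ 4 ≤ b * b' := by
    have : c ^ 4 = c ^ 2 * c ^ 2 := by ring
    rw [this]
    exact mul_le_mul hb hb' hc2.le hbp.le
  have hc4 : 0 < c ^ 4 := by positivity
  have hnn : 0 ≤ Real.sqrt C * Real.sqrt L := mul_nonneg (Real.sqrt_nonneg _) (Real.sqrt_nonneg _)
  calc |a * b' - a' * b| / (b * b') ≤ (Real.sqrt C * Real.sqrt L) / (b * b') :=
        div_le_div_of_nonneg_right h1 (mul_pos hbp hbp').le
    _ ≤ (Real.sqrt C * Real.sqrt L) / c ^ 4 := div_le_div_of_nonneg_left hnn hc4 h2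
    _ = Real.sqrt C / c ^ 4 * Real.sqrt L := by ring

/-- The choice of constants. -/
private theorem ROne_num {κ A : ℝ} {d n K' : ℕ} (hκ : 0 ≤ κ) (_hA : 0 ≤ A) (hd : 1 ≤ d)
    (hn : 1 ≤ n) (hK' : 2 ≤ K') (hK : 4 * κ ^ 2 * d ^ 2 * A ≤ K') :
    κ * d * n * Real.sqrt (A * ((K' * n ^ 2 : ℕ) : ℝ) ^ (d - 1) / ((K' * n ^ 2 : ℕ) : ℝ) ^ d) ≤
      1 / 2 := by
  have hn0 : (0 : ℝ) < n := by exact_mod_cast hn
  have hK0 : (0 : ℝ) < K' := by
    have : (2 : ℝ) ≤ K' := by exact_mod_cast hK'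
    linarith
  have hN : (0 : ℝ) < ((K' * n ^ 2 : ℕ) : ℝ) := by
    push_cast
    positivity
  have e1 : A * ((K' * n ^ 2 : ℕ) : ℝ) ^ (d - 1) / ((K' * n ^ 2 : ℕ) : ℝ) ^ d =
      A / ((K' * n ^ 2 : ℕ) : ℝ) := by
    have : ((K' * n ^ 2 : ℕ) : ℝ) ^ d = ((K' * n ^ 2 : ℕ) : ℝ) ^ (d - 1) * ((K' * n ^ 2 : ℕ) : ℝ) := by
      rw [← pow_succ]
      congr 1
      omega
    rw [this]
    field_simp
  rw [e1]
  have h0 : 0 ≤ κ * d * n := by positivity
  have e2 : κ * d * n * Real.sqrt (A / ((K' * n ^ 2 : ℕ) : ℝ)) =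
      Real.sqrt ((κ * d * n) ^ 2 * (A / ((K' * n ^ 2 : ℕ) : ℝ))) := by
    rw [Real.sqrt_mul (by positivity), Real.sqrt_sq h0]
  rw [e2]
  have e3 : (1 / 2 : ℝ) = Real.sqrt ((1 / 2) ^ 2) := by
    rw [Real.sqrt_sq (by norm_num)]
  rw [e3]
  apply Real.sqrt_le_sqrt
  rw [← mul_div_assoc, div_le_iff₀ hN]
  push_cast
  nlinarith [mul_le_mul_of_nonneg_right hK (by positivity : (0 : ℝ) ≤ (n : ℝ) ^ 2)]

theorem r_one (hd : 1 ≤ d) {C : ℝ} (hC : 0 < C) (hq : 1 < q) (hQ : Q1 q C) {u₁ u₂ : ℝ}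
    (hu₁ : 0 < u₁) (hu : u₁ < u₂) (hθ : ∃ c : ℝ, 0 < c ∧ ∀ r : ℕ, c ≤ thw d u₁ q r) :
    ∃ c₁ : ℝ, 0 < c₁ ∧ ∃ K : ℕ, 1 ≤ K ∧ ∀ n : ℕ, 1 ≤ n → ∀ x : Pt d, (∀ i, |x i| ≤ n) →
      c₁ ≤ Pb u₂ q (cube d (K * n ^ 2)) (EI (cube d (K * n ^ 2))) (fun ω => Conn ω 0 x) := by
  obtain ⟨c, hc, hcθ⟩ := hθ
  have hq1 : 1 ≤ q := hq.le
  have hq0 : 0 < q := by linarith
  have hinv : 0 < 1 - 1 / q := by
    rw [sub_pos, div_lt_one hq0]
    exact hq
  have hlog : 0 < Real.log q := Real.log_pos hq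
  set κ : ℝ := Real.sqrt C / c ^ 4 with hκdef
  have hκ : 0 ≤ κ := by positivity
  set A : ℝ := (1 + u₂) * (2 * d * (5 : ℝ) ^ (d - 1) * Real.log q) / ((u₂ - u₁) * (1 - 1 / q))
    with hAdef
  have hden : 0 < (u₂ - u₁) * (1 - 1 / q) := mul_pos (by linarith) hinv
  have hA : 0 ≤ A := by
    apply div_nonneg _ hden.le
    have : 0 < u₂ := by linarith
    positivity
  obtain ⟨K', hK'⟩ := exists_nat_ge (max 2 (4 * κ ^ 2 * d ^ 2 * A))
  have hK2 : 2 ≤ K' := by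
    have := le_trans (le_max_left _ _) hK'
    exact_mod_cast this
  have hKA : 4 * κ ^ 2 * d ^ 2 * A ≤ K' := le_trans (le_max_right _ _) hK'
  refine ⟨c ^ 2 / 2, by positivity, 2 * K' + 1, by omega, fun n hn x hx => ?_⟩
  -- the large cube
  obtain ⟨N, hN⟩ : ∃ N, N = K' * n ^ 2 := ⟨_, rfl⟩
  have hn2 : n ≤ n ^ 2 := by nlinarith
  have hN2 : 2 * n ≤ N := by
    rw [hN]
    calc 2 * n ≤ 2 * n ^ 2 := by omega
      _ ≤ K' * n ^ 2 := Nat.mul_le_mul_right _ hK2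
  have hN1 : 1 ≤ N := by omega
  obtain ⟨u, hu1, hu2, hsum⟩ := sum_LL hd hq hu₁ hu N
  have hu0 : 0 < u := by linarith
  have hcu : ∀ r : ℕ, c ≤ thw d u q r := fun r =>
    le_trans (hcθ r) (thw_mono_u hu₁ hu1.le hq1 r)
  have hLnn : ∀ e ∈ EI (cube d N), 0 ≤ LL u q N e := fun e he =>
    LL_nonneg hq1 hu0 (EI_subset_EB _ he)
  have hS : ∑ e ∈ EI (cube d N), LL u q N e ≤ A * (N : ℝ) ^ (d - 1) := by
    have h1 : ∑ e ∈ EI (cube d N), LL u q N e ≤ ∑ e ∈ EB (cube d N), LL u q N e :=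
      Finset.sum_le_sum_of_subset_of_nonneg (EI_subset_EB _)
        (fun e he _ => LL_nonneg hq1 hu0 he)
    have h2 : (2 * N + 3 : ℝ) ^ (d - 1) ≤ (5 : ℝ) ^ (d - 1) * (N : ℝ) ^ (d - 1) := by
      rw [← mul_pow]
      apply pow_le_pow_left₀ (by positivity)
      have : (1 : ℝ) ≤ N := by exact_mod_cast hN1
      linarith
    have h3 : (u₂ - u₁) * (1 - 1 / q) * ∑ e ∈ EB (cube d N), LL u q N e ≤
        (1 + u₂) * (2 * d * (5 : ℝ) ^ (d - 1) * Real.log q) * (N : ℝ) ^ (d - 1) := by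
      refine le_trans hsum ?_
      have hu2' : 0 < u₂ := by linarith
      calc (1 + u₂) * (2 * d * (2 * N + 3 : ℝ) ^ (d - 1) * Real.log q)
          ≤ (1 + u₂) * (2 * d * ((5 : ℝ) ^ (d - 1) * (N : ℝ) ^ (d - 1)) * Real.log q) := by
            gcongr
        _ = (1 + u₂) * (2 * d * (5 : ℝ) ^ (d - 1) * Real.log q) * (N : ℝ) ^ (d - 1) := by ring
    have h4 : ∑ e ∈ EB (cube d N), LL u q N e ≤ A * (N : ℝ) ^ (d - 1) := by
      rw [hAdef, div_mul_eq_mul_div, le_div_iff₀ hden, mul_comm]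
      exact h3
    exact le_trans h1 h4
  have hP1 : ∀ v y : Pt d, v ∈ cube d N → y ∈ cube d N → c ^ 2 ≤ P1 u q N v y :=
    fun v y hv hy => P1_ge hc.le hq1 hu0 hcu hv hy
  have hHself : ∀ v ∈ cube d N, P0 u q N v v / P1 u q N v v = 1 := by
    intro v _
    rw [P0_self hq1 hu0, P1_self hq1 hu0]
    norm_num
  have hstep : ∀ v ∈ cube d N, ∀ e ∈ EI (cube d N),
      |P0 u q N v e.1 / P1 u q N v e.1 - P0 u q N v (tgt e) / P1 u q N v (tgt e)| ≤
        κ * Real.sqrt (LL u q N e) := by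
    intro v hv e he
    have he' := mem_EI.1 he
    exact ROne_step hc hC (hP1 v e.1 hv he'.1) (hP1 v (tgt e) hv he'.2)
      (q1_lat hq1 hQ hu0 hv he)
  obtain ⟨v, hv, hav⟩ := average hN2 (fun v y => P0 u q N v y / P1 u q N v y) (LL u q N) hκ hLnn hS
    hHself hstep x hx
  have hnum := ROne_num hκ hA hd hn hK2 hKA
  rw [← hN] at hnum
  have hH : 1 / 2 ≤ P0 u q N v (v + x) / P1 u q N v (v + x) := by
    have h1 := le_trans hav hnum
    linarith
  have hvN : ∀ i, -((N / 2 : ℕ) : ℤ) ≤ v i ∧ v i ≤ ((N / 2 : ℕ) : ℤ) := mem_cube.1 hv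
  have hvc : v ∈ cube d N := by
    rw [mem_cube]
    intro i
    have := hvN i
    omega
  have hvxc : v + x ∈ cube d N := by
    rw [mem_cube]
    intro i
    have h1 := hvN i
    have h2 := abs_le.1 (hx i)
    rw [Pi.add_apply]
    omega
  have hP1v := hP1 v (v + x) hvc hvxc
  have hc2 : 0 < c ^ 2 := by positivity
  have hP1p : 0 < P1 u q N v (v + x) := lt_of_lt_of_le hc2 hP1v
  have hP0 : c ^ 2 / 2 ≤ P0 u q N v (v + x) := by
    rw [le_div_iff₀ hP1p] at hH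
    linarith
  refine le_trans hP0 ?_
  -- comparison of the domains
  have s1 : P0 u q N v (v + x) ≤
      Pb u q (cube d (N + 1)) (EI (cube d (N + 1))) (fun ω => Conn ω v (v + x)) :=
    Slab.Pb_mono_E hu0 hq1 (ROne_EB_sub N) (fun s t hst h => Conn.mono hst h)
  have s2 := Pb_conn_mono_u (q := q) hu0 hu2.le hq1 (cube d (N + 1)) v (v + x)
  have s3 := Pb_conn_shV (q := q) (u := u₂) (-v) (cube d (N + 1)) v (v + x)
  have e1 : v + -v = 0 := by simp
  have e2 : v + x + -v = x := by abel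
  rw [e1, e2] at s3
  have hsub : shV (-v) (cube d (N + 1)) ⊆ cube d ((2 * K' + 1) * n ^ 2) := by
    intro y hy
    rw [mem_shV, mem_cube] at hy
    rw [mem_cube]
    intro i
    have h1 := hy i
    rw [Pi.sub_apply, Pi.neg_apply] at h1
    have h2 := hvN i
    have h3 : (2 * K' + 1) * n ^ 2 = 2 * N + n ^ 2 := by
      rw [hN]
      ring
    rw [h3]
    omega
  have s4 := Pb_conn_mono (q := q) (lt_trans hu0 hu2) hq1 hsub 0 x
  calc P0 u q N v (v + x) ≤ _ := s1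
    _ ≤ _ := s2
    _ = _ := s3.symm
    _ ≤ _ := s4

end Pool.Agent.Lib.MP_31386d_pr_POTTS
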