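import Pool.Agent.Lib.MP_31386d_pr_POTTS.SeedFacts

/-!
# Geometry of the coarse blocks

Module G7 of project POTTS.
-/

set_option autoImplicit false

namespace Pool.Agent.Lib.MP_31386d_pr_POTTS

open Finset
open Pool.Agent.Lib.MP_31386d_pr

variable {d D : ℕ} {r l k₀ g w : ℕ}

theorem mem_fines {k : Pt D} {j : Pt (D + 1)} : j ∈ fines g w k ↔
    j 0 = g ∧ ∀ i : Fin D, (g : ℤ) + w * k i ≤ j i.succ ∧ j i.succ ≤ g + w * k i + w := by
  rw [fines, Fintype.mem_piFinset, Fin.forall_fin_succ]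
  simp only [Fin.cases_zero, Fin.cases_succ, Finset.mem_Icc]
  constructor
  · rintro ⟨⟨h1, h2⟩, h3⟩
    exact ⟨le_antisymm h2 h1, h3⟩
  · rintro ⟨h1, h3⟩
    exact ⟨⟨h1.ge, h1.le⟩, h3⟩

theorem mem_reg {n : ℕ} {k : Pt D} {x : Pt (D + 1)} : x ∈ reg n g w k ↔
    (0 ≤ x 0 ∧ x 0 < (2 * g + 2) * n) ∧
      ∀ i : Fin D, (n : ℤ) * w * k i ≤ x i.succ ∧ x i.succ < n * w * k i + (w + 2 + 2 * g) * n := by
  rw [reg, Fintype.mem_piFinset, Fin.forall_fin_succ]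
  simp only [Fin.cases_zero, Fin.cases_succ, Finset.mem_Ico]

/-- The fine cubes of a coarse block are inside its region, with a margin `g n`. -/
theorem fine_subset_reg {n : ℕ} {k : Pt D} {j : Pt (D + 1)} (hj : j ∈ fines g w k)
    {x : Pt (D + 1)} (hx : x ∈ bx (fun t => (n : ℤ) * j t) (2 * n)) :
    shV x (cube (D + 1) (g * n)) ⊆ reg n g w k := by
  intro y hy
  rw [mem_shV_cube] at hy
  rw [mem_bx] at hx
  rw [mem_fines] at hj
  obtain ⟨hj0, hj1⟩ := hj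
  have hn : (0 : ℤ) ≤ n := by positivity
  rw [mem_reg]
  constructor
  · have h1 := abs_le.mp (hy 0)
    have h2 := hx 0
    rw [hj0] at h2
    push_cast at h1 h2
    constructor
    · nlinarith [h1.1, h2.1]
    · nlinarith [h1.2, h2.2]
  · intro i
    have h1 := abs_le.mp (hy i.succ)
    have h2 := hx i.succ
    obtain ⟨h3, h4⟩ := hj1 i
    have h5 := mul_le_mul_of_nonneg_left h3 hn
    have h6 := mul_le_mul_of_nonneg_left h4 hn
    push_cast at h1 h2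
    constructor
    · nlinarith [h1.1, h2.1]
    · nlinarith [h1.2, h2.2]

/-- Monotonicity of good blocks in the configuration. -/
theorem GoodC.mono {k : Pt D} {b s t : Finset (Ed (D + 1))} (hst : s ⊆ t)
    (h : GoodC r l k₀ g w k b s) : GoodC r l k₀ g w k b t := by
  classical
  intro j hj
  obtain ⟨h1, x, hx⟩ := h j hj
  refine ⟨h1, x, ?_⟩
  unfold Big at hx ⊢
  refine lt_of_le_of_lt (Nat.mul_le_mul_left _ (card_le_card ?_)) hx
  intro i hi
  rw [mem_filter] at hi ⊢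
  exact ⟨hi.1, fun hc => hi.2 (hc.mono (inter_subset_inter_right hst))⟩

private theorem rcube_subset_fine {j i k' y : Pt d}
    (hi : i ∈ blocks k₀ j) (hk : k' ∈ bx (fun t => 2 ^ l * i t) (2 ^ l))
    (hy : y ∈ bx (fun t => (r : ℤ) * k' t) r) :
    y ∈ bx (fun t => ((r * 2 ^ l * 2 ^ k₀ : ℕ) : ℤ) * j t) (2 * (r * 2 ^ l * 2 ^ k₀)) := by
  unfold blocks at hi
  rw [mem_bx] at hi hk hy ⊢
  intro t
  obtain ⟨i1, i2⟩ := hi t
  obtain ⟨k1, k2⟩ := hk t
  obtain ⟨y1, y2⟩ := hy t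
  push_cast at i2 k2 ⊢
  have hr : (0 : ℤ) ≤ r := by positivity
  have hl : (0 : ℤ) ≤ 2 ^ l := by positivity
  have i3 : i t + 1 ≤ 2 ^ k₀ * j t + 2 ^ (k₀ + 1) := by omega
  have k3 : k' t + 1 ≤ 2 ^ l * i t + 2 ^ l := by omega
  have a1 : (2 : ℤ) ^ l * (2 ^ k₀ * j t) ≤ 2 ^ l * i t := mul_le_mul_of_nonneg_left i1 hl
  have a2 : (r : ℤ) * (2 ^ l * (2 ^ k₀ * j t)) ≤ r * k' t :=
    mul_le_mul_of_nonneg_left (a1.trans k1) hr
  have b1 : (2 : ℤ) ^ l * (i t + 1) ≤ 2 ^ l * (2 ^ k₀ * j t + 2 ^ (k₀ + 1)) :=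
    mul_le_mul_of_nonneg_left i3 hl
  have b2 : (r : ℤ) * (k' t + 1) ≤ r * (2 ^ l * (2 ^ k₀ * j t + 2 ^ (k₀ + 1))) := by
    refine mul_le_mul_of_nonneg_left (k3.trans ?_) hr
    linarith
  constructor
  · calc (r : ℤ) * 2 ^ l * 2 ^ k₀ * j t = r * (2 ^ l * (2 ^ k₀ * j t)) := by ring
      _ ≤ r * k' t := a2
      _ ≤ y t := y1
  · calc y t < r * k' t + r := y2
      _ = r * (k' t + 1) := by ring
      _ ≤ r * (2 ^ l * (2 ^ k₀ * j t + 2 ^ (k₀ + 1))) := b2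
      _ = r * 2 ^ l * 2 ^ k₀ * j t + 2 * (r * 2 ^ l * 2 ^ k₀) := by ring

private theorem seeds_loc {k : Pt D} {j i : Pt (D + 1)} (hj : j ∈ fines g w k)
    (hi : i ∈ blocks k₀ j) (b : Finset (Ed (D + 1))) :
    seeds r l (b ∩ EI (reg (r * 2 ^ l * 2 ^ k₀) g w k)) i = seeds r l b i := by
  classical
  unfold seeds
  refine filter_congr fun k' hk => ?_
  have h : EI (bx (fun t => (r : ℤ) * k' t) r) ⊆ EI (reg (r * 2 ^ l * 2 ^ k₀) g w k) := by
    refine EI_mono fun y hy => ?_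
    have h1 := rcube_subset_fine hi hk hy
    refine fine_subset_reg hj h1 ?_
    rw [mem_shV_cube]
    intro t
    rw [sub_self, abs_zero]
    positivity
  constructor
  · intro h1
    exact h1.trans inter_subset_left
  · intro h1
    exact subset_inter h1 h

/-- Locality of good blocks. -/
theorem GoodC.loc (hr : 1 ≤ r) (k : Pt D) (b ω : Finset (Ed (D + 1))) :
    GoodC r l k₀ g w k (b ∩ EI (reg (r * 2 ^ l * 2 ^ k₀) g w k))
      (ω ∩ EI (reg (r * 2 ^ l * 2 ^ k₀) g w k)) ↔ GoodC r l k₀ g w k b ω := by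
  classical
  unfold GoodC
  refine forall_congr' fun j => forall_congr' fun hj => ?_
  have e1 : FullF r l k₀ j (b ∩ EI (reg (r * 2 ^ l * 2 ^ k₀) g w k)) ↔ FullF r l k₀ j b := by
    unfold FullF
    refine forall_congr' fun i => forall_congr' fun hi => ?_
    rw [seeds_loc hj hi]
  have e2 : ∀ x, Big r l k₀ j (b ∩ EI (reg (r * 2 ^ l * 2 ^ k₀) g w k))
      (ω ∩ EI (reg (r * 2 ^ l * 2 ^ k₀) g w k)) x ↔
      Big r l k₀ j b (ω ∩ EI (reg (r * 2 ^ l * 2 ^ k₀) g w k)) x := by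
    intro x
    have e3 : (blocks k₀ j).filter (fun i => ¬ Conn (ω ∩ EI (reg (r * 2 ^ l * 2 ^ k₀) g w k)) x
        (sd r l (b ∩ EI (reg (r * 2 ^ l * 2 ^ k₀) g w k)) i)) =
        (blocks k₀ j).filter (fun i => ¬ Conn (ω ∩ EI (reg (r * 2 ^ l * 2 ^ k₀) g w k)) x
        (sd r l b i)) := by
      refine filter_congr fun i hi => ?_
      unfold sd
      rw [seeds_loc hj hi]
    unfold Big
    rw [e3]
  rw [e1, inter_assoc, inter_self]
  simp only [e2]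

end Pool.Agent.Lib.MP_31386d_pr_POTTS
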