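import Pool.Agent.Lib.MP_31386d_pr_POTTS.MeetA
import Pool.Agent.Lib.MP_31386d_pr_POTTS.MeetB

/-!
# Paths of good coarse blocks

Module G8 of project POTTS.
-/

set_option autoImplicit false

namespace Pool.Agent.Lib.MP_31386d_pr_POTTS

open Finset
open Pool.Agent.Lib.MP_31386d_pr

variable {d D : ℕ} {r l k₀ g w : ℕ}

/-- lower corner of the box of fine cubes -/
private def meetLo (g w : ℕ) (k : Pt D) : Pt (D + 1) :=
  Fin.cons (g : ℤ) (fun i => (g : ℤ) + w * k i)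

/-- upper corner of the box of fine cubes -/
private def meetHi (g w : ℕ) (k : Pt D) : Pt (D + 1) :=
  Fin.cons (g : ℤ) (fun i => (g : ℤ) + w * k i + w)

private theorem meet_Icc {k : Pt D} {j : Pt (D + 1)} :
    j ∈ Set.Icc (meetLo g w k) (meetHi g w k) ↔ j ∈ fines g w k := by
  rw [Grid.mem_Icc', mem_fines, Fin.forall_fin_succ]
  simp only [meetLo, meetHi, Fin.cons_zero, Fin.cons_succ]
  constructor
  · rintro ⟨⟨h1, h2⟩, h3⟩
    exact ⟨le_antisymm h2 h1, h3⟩
  · rintro ⟨h1, h3⟩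
    exact ⟨⟨h1.ge, h1.le⟩, h3⟩

/-- connections inside one good block -/
private theorem meet_in {b ω : Finset (Ed (D + 1))} {k : Pt D} (hk : GoodC r l k₀ g w k b ω)
    {j j' : Pt (D + 1)} (hj : j ∈ fines g w k) (hj' : j' ∈ fines g w k) {x y : Pt (D + 1)}
    (hx : Big r l k₀ j b (ω ∩ EI (reg (r * 2 ^ l * 2 ^ k₀) g w k)) x)
    (hy : Big r l k₀ j' b (ω ∩ EI (reg (r * 2 ^ l * 2 ^ k₀) g w k)) y) : Conn ω x y := by
  have hpath := Grid.box_conn (meetLo g w k) (meetHi g w k) j j' (meet_Icc.2 hj)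
    (meet_Icc.2 hj')
  have key : ∀ p, Relation.ReflTransGen (fun p q => Lat p q ∧
      p ∈ Set.Icc (meetLo g w k) (meetHi g w k) ∧ q ∈ Set.Icc (meetLo g w k) (meetHi g w k)) j p →
      ∀ z, Big r l k₀ p b (ω ∩ EI (reg (r * 2 ^ l * 2 ^ k₀) g w k)) z → Conn ω x z := by
    intro p hp
    induction hp with
    | refl =>
      intro z hz
      exact big_same inter_subset_left inter_subset_left hx hz
    | tail _ hbc ih =>
      intro z hz
      obtain ⟨hlat, hp1, _⟩ := hbc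
      obtain ⟨_, z', hz'⟩ := hk _ (meet_Icc.1 hp1)
      exact (ih z' hz').trans (big_adj hlat inter_subset_left inter_subset_left hz' hz)
  exact key j' hpath y hy

private theorem meet_common1 (k : Pt D) (i : Fin D) :
    ∃ j : Pt (D + 1), j ∈ fines g w k ∧ j ∈ fines g w (k + Pi.single i 1) := by
  refine ⟨Fin.cons (g : ℤ) (fun t => (g : ℤ) + w * (k + Pi.single i 1 : Pt D) t), ?_, ?_⟩
  · rw [mem_fines]
    refine ⟨rfl, fun t => ?_⟩
    rw [Fin.cons_succ]
    have h1 : (k + Pi.single i 1 : Pt D) t = k t + if t = i then 1 else 0 := by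
      rw [Pi.add_apply, Pi.single_apply]
    rw [h1]
    have hw : (0 : ℤ) ≤ w := Int.natCast_nonneg w
    by_cases h : t = i
    · rw [if_pos h]
      constructor <;> linarith
    · rw [if_neg h]
      constructor <;> linarith
  · rw [mem_fines]
    refine ⟨rfl, fun t => ?_⟩
    rw [Fin.cons_succ]
    have hw : (0 : ℤ) ≤ w := Int.natCast_nonneg w
    constructor <;> linarith

private theorem meet_common {k k' : Pt D} (h : Lat k k') :
    ∃ j : Pt (D + 1), j ∈ fines g w k ∧ j ∈ fines g w k' := by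
  obtain ⟨i, h | h⟩ := h
  · rw [h]
    exact meet_common1 k i
  · rw [h]
    obtain ⟨j, h1, h2⟩ := meet_common1 (g := g) (w := w) k' i
    exact ⟨j, h2, h1⟩

/-- connections along a path of good blocks -/
private theorem meet_path {b ω : Finset (Ed (D + 1))} {k k' : Pt D}
    (hp : Relation.ReflTransGen (fun x y => Lat x y ∧ GoodC r l k₀ g w x b ω ∧
      GoodC r l k₀ g w y b ω) k k') (hk : GoodC r l k₀ g w k b ω)
    {j : Pt (D + 1)} (hj : j ∈ fines g w k) {x : Pt (D + 1)}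
    (hx : Big r l k₀ j b (ω ∩ EI (reg (r * 2 ^ l * 2 ^ k₀) g w k)) x) :
    GoodC r l k₀ g w k' b ω ∧ ∀ j' ∈ fines g w k', ∀ y,
      Big r l k₀ j' b (ω ∩ EI (reg (r * 2 ^ l * 2 ^ k₀) g w k')) y → Conn ω x y := by
  induction hp with
  | refl => exact ⟨hk, fun j' hj' y hy => meet_in hk hj hj' hx hy⟩
  | tail _ hbc ih =>
    obtain ⟨hlat, hgb, hgc⟩ := hbc
    refine ⟨hgc, fun j' hj' y hy => ?_⟩
    obtain ⟨p, hp1, hp2⟩ := meet_common (g := g) (w := w) hlat
    obtain ⟨_, z, hz⟩ := hgb p hp1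
    obtain ⟨_, z', hz'⟩ := hgc p hp2
    have h1 := ih.2 p hp1 z hz
    have h2 : Conn ω z z' := big_same inter_subset_left inter_subset_left hz hz'
    exact (h1.trans h2).trans (meet_in hgc hp2 hj' hz' hy)

/-- a big cluster meets the region of the block -/
private theorem meet_end (hr : 1 ≤ r) {b ω : Finset (Ed (D + 1))} {k : Pt D}
    (hk : GoodC r l k₀ g w k b ω) {j : Pt (D + 1)} (hj : j ∈ fines g w k) {x : Pt (D + 1)}
    (hx : Big r l k₀ j b (ω ∩ EI (reg (r * 2 ^ l * 2 ^ k₀) g w k)) x) :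
    ∃ a ∈ reg (r * 2 ^ l * 2 ^ k₀) g w k, Conn ω x a := by
  obtain ⟨i, hi, hc⟩ := big_seed hx
  refine ⟨sd r l b i, ?_, hc.mono inter_subset_left⟩
  have h1 := sd_mem hr ((hk j hj).1 i hi) hi
  refine fine_subset_reg hj h1 ?_
  rw [mem_shV_cube]
  intro t
  rw [sub_self, abs_zero]
  exact Int.natCast_nonneg _

/-- A path of good coarse blocks gives a connection. -/
theorem conn_of_good (hr : 1 ≤ r) {b ω : Finset (Ed (D + 1))} {k k' : Pt D}
    (hp : Relation.ReflTransGen (fun x y => Lat x y ∧ GoodC r l k₀ g w x b ω ∧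
      GoodC r l k₀ g w y b ω) k k') (hk : GoodC r l k₀ g w k b ω) :
    ∃ a ∈ reg (r * 2 ^ l * 2 ^ k₀) g w k, ∃ a' ∈ reg (r * 2 ^ l * 2 ^ k₀) g w k', Conn ω a a' := by
  have hcorner : ∀ k : Pt D, meetLo g w k ∈ fines g w k := by
    intro k
    rw [← meet_Icc, Grid.mem_Icc', Fin.forall_fin_succ]
    simp only [meetLo, meetHi, Fin.cons_zero, Fin.cons_succ]
    have hw : (0 : ℤ) ≤ w := Int.natCast_nonneg w
    exact ⟨⟨le_rfl, le_rfl⟩, fun i => ⟨le_rfl, by linarith⟩⟩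
  obtain ⟨_, x, hx⟩ := hk _ (hcorner k)
  obtain ⟨hk', hc⟩ := meet_path hp hk (hcorner k) hx
  obtain ⟨_, y, hy⟩ := hk' _ (hcorner k')
  obtain ⟨a, ha, hxa⟩ := meet_end hr hk (hcorner k) hx
  obtain ⟨a', ha', hya'⟩ := meet_end hr hk' (hcorner k') hy
  exact ⟨a, ha, a', ha', (hxa.symm.trans (hc _ (hcorner k') y hy)).trans hya'⟩

end Pool.Agent.Lib.MP_31386d_pr_POTTS
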