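import Pool.Agent.Lib.MP_31386d_pr_POTTS.Cond

/-!
# Sprinkling: marked edges

Module L10 of project POTTS.
-/

set_option autoImplicit false

namespace Pool.Agent.Lib.MP_31386d_pr_POTTS

open Finset
open Pool.Agent.Lib.MP_31386d_pr

variable {d : ℕ}

private lemma sprinkle_ind_mono (b : Finset (Ed d)) :
    ∀ s t : Finset (Ed d), s ⊆ t → ind (b ⊆ s) ≤ ind (b ⊆ t) :=
  fun _ _ hst => ind_mono fun h => h.trans hst

/-- summation over the marks -/
private lemma sprinkle_sum {u₁ u₂ q : ℝ} (hu₁ : 0 < u₁) (V : Finset (Pt d)) (E : Finset (Ed d))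
    (h : Finset (Ed d) → ℝ) :
    ∑ b ∈ E.powerset, ((u₂ - u₁) / u₁) ^ b.card * Zs u₁ q V E (fun ω => ind (b ⊆ ω) * h ω) =
      Zs u₂ q V E h := by
  classical
  unfold Zs
  simp only [mul_sum]
  rw [sum_comm]
  refine sum_congr rfl fun ω hω => ?_
  rw [mem_powerset] at hω
  have h1 : ∑ b ∈ E.powerset, ((u₂ - u₁) / u₁) ^ b.card * ind (b ⊆ ω) =
      (1 + (u₂ - u₁) / u₁) ^ ω.card := by
    rw [← sum_pow_card ω]
    symm
    have h2 : ω.powerset ⊆ E.powerset := powerset_mono.2 hω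
    rw [← sum_subset h2 (f := fun b => ((u₂ - u₁) / u₁) ^ b.card * ind (b ⊆ ω))]
    · refine sum_congr rfl fun b hb => ?_
      rw [ind_of (mem_powerset.1 hb), mul_one]
    · intro b _ hb
      rw [ind_not (fun h3 => hb (mem_powerset.2 h3)), mul_zero]
  have h2 : u₁ * (1 + (u₂ - u₁) / u₁) = u₂ := by
    field_simp
    ring
  have h3 : wt u₂ q V ω = wt u₁ q V ω * (1 + (u₂ - u₁) / u₁) ^ ω.card := by
    unfold wt
    conv_lhs => rw [← h2, mul_pow]
    ring
  rw [h3, ← h1, mul_sum, sum_mul]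
  refine sum_congr rfl fun b _ => ?_
  ring

/-- the conditioned measures increase with the set of marks -/
private lemma sprinkle_mono {u q : ℝ} (hu : 0 < u) (hq : 1 ≤ q) (V : Finset (Pt d))
    {E b b' : Finset (Ed d)} (hb : b ⊆ b') (hb' : b' ⊆ E) {f : Finset (Ed d) → ℝ}
    (hf0 : ∀ ω, 0 ≤ f ω) (hf : ∀ s t, s ⊆ t → f s ≤ f t) :
    ExB u q V E b f ≤ ExB u q V E b' f := by
  unfold ExB
  rw [div_le_div_iff₀ (ZB_pos hu hq (hb.trans hb')) (ZB_pos hu hq hb'), mul_comm (Zs u q V E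
    (fun ω => ind (b' ⊆ ω) * f ω))]
  refine four_fun E
    (fun ω => mul_nonneg (wt_pos hu hq _ _).le (mul_nonneg (ind_nonneg _) (hf0 ω)))
    (fun ω => mul_nonneg (wt_pos hu hq _ _).le (ind_nonneg _))
    (fun ω => mul_nonneg (wt_pos hu hq _ _).le (ind_nonneg _))
    (fun ω => mul_nonneg (wt_pos hu hq _ _).le (mul_nonneg (ind_nonneg _) (hf0 ω)))
    (fun s _ t _ => ?_)
  have h1 := wt_mul_le hu hq V V s t
  rw [union_self, inter_self] at h1
  show wt u q V s * (ind (b ⊆ s) * f s) * (wt u q V t * ind (b' ⊆ t)) ≤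
    wt u q V (s ∩ t) * ind (b ⊆ s ∩ t) * (wt u q V (s ∪ t) * (ind (b' ⊆ s ∪ t) * f (s ∪ t)))
  by_cases hs : b ⊆ s
  · by_cases ht : b' ⊆ t
    · rw [ind_of hs, ind_of ht, ind_of (subset_inter hs (hb.trans ht)),
        ind_of (ht.trans subset_union_right)]
      have h2 : wt u q V s * wt u q V t * f s ≤
          wt u q V (s ∩ t) * wt u q V (s ∪ t) * f (s ∪ t) :=
        mul_le_mul h1 (hf _ _ subset_union_left) (hf0 _)
          (mul_nonneg (wt_pos hu hq _ _).le (wt_pos hu hq _ _).le)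
      calc wt u q V s * (1 * f s) * (wt u q V t * 1) = wt u q V s * wt u q V t * f s := by ring
        _ ≤ wt u q V (s ∩ t) * wt u q V (s ∪ t) * f (s ∪ t) := h2
        _ = wt u q V (s ∩ t) * 1 * (wt u q V (s ∪ t) * (1 * f (s ∪ t))) := by ring
    · rw [ind_not ht, mul_zero, mul_zero]
      exact mul_nonneg (mul_nonneg (wt_pos hu hq _ _).le (ind_nonneg _))
        (mul_nonneg (wt_pos hu hq _ _).le (mul_nonneg (ind_nonneg _) (hf0 _)))
  · rw [ind_not hs, zero_mul, mul_zero, zero_mul]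
    exact mul_nonneg (mul_nonneg (wt_pos hu hq _ _).le (ind_nonneg _))
      (mul_nonneg (wt_pos hu hq _ _).le (mul_nonneg (ind_nonneg _) (hf0 _)))

/-- adding marks costs at most a constant factor -/
private lemma sprinkle_cost {u q : ℝ} (hu : 0 < u) (hq : 1 ≤ q) (V : Finset (Pt d))
    {E s t : Finset (Ed d)} (hs : s ⊆ E) :
    (u / (u + q)) ^ (s \ t).card * Zs u q V E (fun ω => ind (t ⊆ ω)) ≤
      Zs u q V E (fun ω => ind (s ∪ t ⊆ ω)) := by
  classical
  have hZ := Z_pos hu hq V E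
  have h1 := Pb_subset_ge (V := V) hu hq (sdiff_subset.trans hs : s \ t ⊆ E)
  have h2 : Pb u q V E (fun ω => s \ t ⊆ ω) =
      Zs u q V E (fun ω => ind (s \ t ⊆ ω)) / Z u q V E := by
    unfold Pb Ex
    rfl
  rw [h2, le_div_iff₀ hZ] at h1
  have h3 := Zs_fkg hu hq V E (f := fun ω => ind (s \ t ⊆ ω)) (g := fun ω => ind (t ⊆ ω))
    (fun _ => ind_nonneg _) (fun _ => ind_nonneg _) (sprinkle_ind_mono _) (sprinkle_ind_mono _)
  have h4 : Zs u q V E (fun ω => ind (s \ t ⊆ ω) * ind (t ⊆ ω)) =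
      Zs u q V E (fun ω => ind (s ∪ t ⊆ ω)) := by
    refine Zs_congr _ _ fun ω _ => ?_
    by_cases ht : t ⊆ ω
    · by_cases h : s \ t ⊆ ω
      · have h5 : s ∪ t ⊆ ω := by
          rw [← sdiff_union_self_eq_union]
          exact union_subset h ht
        rw [ind_of h, ind_of ht, ind_of h5, mul_one]
      · have h5 : ¬ s ∪ t ⊆ ω := fun h6 =>
          h ((sdiff_subset.trans subset_union_left).trans h6)
        rw [ind_not h, ind_not h5, zero_mul]
    · have h5 : ¬ s ∪ t ⊆ ω := fun h6 => ht (subset_union_right.trans h6)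
      rw [ind_not ht, ind_not h5, mul_zero]
  rw [h4] at h3
  have h5 : 0 ≤ Zs u q V E (fun ω => ind (t ⊆ ω)) := Zs_nonneg hu hq V E fun _ _ => ind_nonneg _
  have h6 := mul_le_mul_of_nonneg_right h1 h5
  have h7 := h6.trans h3
  have h8 : Z u q V E * ((u / (u + q)) ^ (s \ t).card * Zs u q V E (fun ω => ind (t ⊆ ω))) ≤
      Z u q V E * Zs u q V E (fun ω => ind (s ∪ t ⊆ ω)) := by
    linarith [h7]
  exact le_of_mul_le_mul_left h8 hZ

/-- The measure with parameter `u₂` is larger than the mixture of the measures with parameter `u₁`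
conditioned on Bernoulli marks being open. -/
theorem sprinkle {u₁ u₂ q : ℝ} (hu₁ : 0 < u₁) (hu : u₁ < u₂) (hq : 1 ≤ q) (V : Finset (Pt d))
    (E : Finset (Ed d)) {f : Finset (Ed d) → ℝ} (hf0 : ∀ ω, 0 ≤ f ω)
    (hf : ∀ s t, s ⊆ t → f s ≤ f t) :
    Ex ((u₂ - u₁) / (u₁ + q)) 1 V E (fun b => ExB u₁ q V E b f) ≤ Ex u₂ q V E f := by
  classical
  have hu₂ : 0 < u₂ := hu₁.trans hu
  have hq0 : 0 < q := by linarith
  have hth : 0 < (u₂ - u₁) / u₁ := div_pos (sub_pos.2 hu) hu₁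
  have hc : 0 < u₁ / (u₁ + q) := by positivity
  have ho : 0 < (u₂ - u₁) / (u₁ + q) := div_pos (sub_pos.2 hu) (by positivity)
  have hoc : (u₂ - u₁) / (u₁ + q) = (u₂ - u₁) / u₁ * (u₁ / (u₁ + q)) := by
    field_simp
  set o := (u₂ - u₁) / (u₁ + q) with ho'
  set th := (u₂ - u₁) / u₁ with hth'
  set c := u₁ / (u₁ + q) with hc'
  have hz : ∀ b : Finset (Ed d), 0 ≤ Zs u₁ q V E (fun ω => ind (b ⊆ ω)) := fun b =>
    Zs_nonneg hu₁ hq V E fun _ _ => ind_nonneg _
  have hg : ∀ b : Finset (Ed d), 0 ≤ ExB u₁ q V E b f := fun b =>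
    div_nonneg (Zs_nonneg hu₁ hq V E fun ω _ => mul_nonneg (ind_nonneg _) (hf0 ω)) (hz b)
  -- the two sums
  have e1 : ∑ b ∈ E.powerset, th ^ b.card * Zs u₁ q V E (fun ω => ind (b ⊆ ω)) =
      Z u₂ q V E := by
    rw [← Zs_one, ← sprinkle_sum (u₂ := u₂) hu₁ V E]
    refine sum_congr rfl fun b _ => ?_
    congr 1
    exact Zs_congr _ _ fun ω _ => (mul_one _).symm
  have e2 : ∑ b ∈ E.powerset, th ^ b.card * Zs u₁ q V E (fun ω => ind (b ⊆ ω)) *
      ExB u₁ q V E b f = Zs u₂ q V E f := by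
    rw [← sprinkle_sum (u₂ := u₂) hu₁ V E]
    refine sum_congr rfl fun b hb => ?_
    have h1 := ZB_pos (V := V) hu₁ hq (mem_powerset.1 hb)
    rw [mul_assoc]
    congr 1
    unfold ExB
    rw [mul_div_cancel₀ _ h1.ne']
  have e3 : Z o 1 V E = ∑ b ∈ E.powerset, o ^ b.card := by
    unfold Z wt
    refine sum_congr rfl fun b _ => ?_
    rw [one_pow, mul_one]
  have e4 : Zs o 1 V E (fun b => ExB u₁ q V E b f) =
      ∑ b ∈ E.powerset, o ^ b.card * ExB u₁ q V E b f := by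
    unfold Zs wt
    refine sum_congr rfl fun b _ => ?_
    rw [one_pow, mul_one]
  have key := four_fun E (f₁ := fun b => o ^ b.card * ExB u₁ q V E b f)
    (f₂ := fun b => th ^ b.card * Zs u₁ q V E (fun ω => ind (b ⊆ ω)))
    (f₃ := fun b => o ^ b.card)
    (f₄ := fun b => th ^ b.card * Zs u₁ q V E (fun ω => ind (b ⊆ ω)) * ExB u₁ q V E b f)
    (fun b => mul_nonneg (by positivity) (hg b)) (fun b => mul_nonneg (by positivity) (hz b))
    (fun b => by positivity)
    (fun b => mul_nonneg (mul_nonneg (by positivity) (hz b)) (hg b))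
    (fun s hs t ht => by
      have h1 : ExB u₁ q V E s f ≤ ExB u₁ q V E (s ∪ t) f :=
        sprinkle_mono hu₁ hq V subset_union_left (union_subset hs ht) hf0 hf
      have h2 := sprinkle_cost (t := t) hu₁ hq V hs
      have h3 : s.card = (s ∩ t).card + (s \ t).card := (card_inter_add_card_sdiff s t).symm
      have h4 : (s ∪ t).card = t.card + (s \ t).card := by
        rw [union_comm, ← union_sdiff_self_eq_union, card_union_of_disjoint disjoint_sdiff]
      show o ^ s.card * ExB u₁ q V E s f *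
          (th ^ t.card * Zs u₁ q V E (fun ω => ind (t ⊆ ω))) ≤
        o ^ (s ∩ t).card * (th ^ (s ∪ t).card * Zs u₁ q V E (fun ω => ind (s ∪ t ⊆ ω)) *
          ExB u₁ q V E (s ∪ t) f)
      have h5 : o ^ s.card = o ^ (s ∩ t).card * (th ^ (s \ t).card * c ^ (s \ t).card) := by
        rw [h3, pow_add, ← mul_pow, ← hoc]
      rw [h5, h4, pow_add]
      have h6 : c ^ (s \ t).card * Zs u₁ q V E (fun ω => ind (t ⊆ ω)) * ExB u₁ q V E s f ≤
          Zs u₁ q V E (fun ω => ind (s ∪ t ⊆ ω)) * ExB u₁ q V E (s ∪ t) f :=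
        mul_le_mul h2 h1 (hg s) (hz _)
      have h7 : 0 ≤ o ^ (s ∩ t).card * (th ^ t.card * th ^ (s \ t).card) := by positivity
      have h8 := mul_le_mul_of_nonneg_left h6 h7
      calc _ = o ^ (s ∩ t).card * (th ^ t.card * th ^ (s \ t).card) *
            (c ^ (s \ t).card * Zs u₁ q V E (fun ω => ind (t ⊆ ω)) * ExB u₁ q V E s f) := by ring
        _ ≤ _ := h8
        _ = _ := by ring)
  unfold Ex
  rw [div_le_div_iff₀ (Z_pos ho le_rfl V E) (Z_pos hu₂ hq V E), e3, e4, ← e1, ← e2,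
    mul_comm (∑ b ∈ E.powerset, th ^ b.card * Zs u₁ q V E (fun ω => ind (b ⊆ ω)) *
      ExB u₁ q V E b f)]
  exact key

end Pool.Agent.Lib.MP_31386d_pr_POTTS
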