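import Pool.Agent.Lib.MP_31386d_pr_POTTS.GPath
import Pool.Agent.Lib.MP_31386d_pr_POTTS.Meet
import Pool.Agent.Lib.MP_31386d_pr_POTTS.Sprinkle

/-!
# From good coarse blocks to uniform connectivity in slabs

Module G12 of project POTTS.
-/

set_option autoImplicit false

namespace Pool.Agent.Lib.MP_31386d_pr_POTTS

open Finset
open Pool.Agent.Lib.MP_31386d_pr

variable {D : ℕ} {o u₁ q : ℝ}

theorem SlabTwo_conn_slb {L M : ℕ} {x y : Pt (D + 1)} (hx : x ∈ slb D L M)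
    (hy : y ∈ slb D L M) : Conn (EI (slb D L M)) x y := by
  refine Slab.conn_Icc (a := fun _ => 0)
    (b := fun i => if i.val = 0 then (L : ℤ) - 1 else (M : ℤ)) ?_ hx hy
  intro z
  rw [mem_slb, Grid.mem_Icc', Fin.forall_fin_succ]
  simp only [Fin.val_zero, if_true, Fin.val_succ, Nat.add_eq_zero_iff, one_ne_zero, and_false,
    if_false]
  refine and_congr (and_congr Iff.rfl ?_) (forall_congr' fun i => Iff.rfl)
  constructor <;> intro h <;> linarith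

theorem SlabTwo_slb_mono {L M M' : ℕ} (h : M ≤ M') : slb D L M ⊆ slb D L M' := by
  intro x hx
  rw [mem_slb] at hx ⊢
  have h2 : (M : ℤ) ≤ M' := by exact_mod_cast h
  exact ⟨hx.1, fun i => ⟨(hx.2 i).1, (hx.2 i).2.trans h2⟩⟩

/-- The large box around the region of the coarse block `k`, `s = n w`. -/
noncomputable def SlabTwo_BB (L M T s : ℕ) (k : Pt D) : Finset (Pt (D + 1)) := by
  classical
  exact (slb D L M).filter
    (fun z => ∀ i : Fin D, (s : ℤ) * k i ≤ z i.succ ∧ z i.succ < s * k i + T + s)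

theorem SlabTwo_mem_BB {L M T s : ℕ} {k : Pt D} {z : Pt (D + 1)} :
    z ∈ SlabTwo_BB L M T s k ↔ z ∈ slb D L M ∧
      ∀ i : Fin D, (s : ℤ) * k i ≤ z i.succ ∧ z i.succ < s * k i + T + s := by
  unfold SlabTwo_BB
  rw [mem_filter]

theorem SlabTwo_conn_BB {L M T s : ℕ} {k : Pt D} (hk : ∀ i, 0 ≤ k i) {x y : Pt (D + 1)}
    (hx : x ∈ SlabTwo_BB L M T s k) (hy : y ∈ SlabTwo_BB L M T s k) :
    Conn (EI (SlabTwo_BB L M T s k)) x y := by
  refine Slab.conn_Icc (a := Fin.cons 0 (fun i => (s : ℤ) * k i))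
    (b := Fin.cons ((L : ℤ) - 1) (fun i => min (M : ℤ) ((s : ℤ) * k i + T + s - 1))) ?_ hx hy
  intro z
  rw [SlabTwo_mem_BB, mem_slb, Grid.mem_Icc', Fin.forall_fin_succ]
  simp only [Fin.cons_zero, Fin.cons_succ, le_min_iff]
  constructor
  · rintro ⟨⟨h1, h2⟩, h3⟩
    exact ⟨⟨h1.1, by linarith [h1.2]⟩, fun i => ⟨(h3 i).1, (h2 i).2, by linarith [(h3 i).2]⟩⟩
  · rintro ⟨h1, h2⟩
    refine ⟨⟨⟨h1.1, by linarith [h1.2]⟩, fun i => ⟨?_, (h2 i).2.1⟩⟩,
      fun i => ⟨(h2 i).1, by linarith [(h2 i).2.2]⟩⟩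
    have h3 : 0 ≤ (s : ℤ) * k i := mul_nonneg (by positivity) (hk i)
    linarith [(h2 i).1]

theorem SlabTwo_card_BB (L M T s : ℕ) (k : Pt D) :
    (EI (SlabTwo_BB L M T s k)).card ≤ (EI (slb D L (T + s))).card := by
  rw [← card_shE (Fin.cons 0 (fun i => (s : ℤ) * k i)) (EI (slb D L (T + s))), ← EI_shV]
  refine card_le_card (EI_mono ?_)
  intro z hz
  rw [SlabTwo_mem_BB, mem_slb] at hz
  rw [mem_shV, mem_slb]
  obtain ⟨⟨h1, h2⟩, h3⟩ := hz
  simp only [Pi.sub_apply, Fin.cons_zero, Fin.cons_succ, sub_zero]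
  refine ⟨h1, fun i => ?_⟩
  have := h3 i
  push_cast
  constructor <;> linarith [this.1, this.2]

theorem SlabTwo_exists {L M T s : ℕ} (hs : 1 ≤ s) (hT : T ≤ M + 1) {x : Pt (D + 1)}
    (hx : x ∈ slb D L M) :
    ∃ k : Pt D, (∀ i, 0 ≤ k i ∧ k i ≤ ((M + 1 - T) / s : ℕ)) ∧ x ∈ SlabTwo_BB L M T s k := by
  have hs0 : (0 : ℤ) < s := by exact_mod_cast hs
  have h1 := hx
  rw [mem_slb] at h1
  refine ⟨fun i => min (((M + 1 - T) / s : ℕ) : ℤ) (x i.succ / s), fun i => ⟨?_, min_le_left _ _⟩,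
    ?_⟩
  · exact le_min (by positivity) (Int.ediv_nonneg (h1.2 i).1 hs0.le)
  · rw [SlabTwo_mem_BB]
    refine ⟨hx, fun i => ?_⟩
    have e1 := Int.mul_ediv_add_emod (x i.succ) s
    have e2 := Int.emod_nonneg (x i.succ) hs0.ne'
    have e3 := Int.emod_lt_of_pos (x i.succ) hs0
    have h2 := h1.2 i
    set m : ℕ := (M + 1 - T) / s with hm
    set k0 : ℤ := x i.succ / s with hk0
    have f1 := Nat.div_add_mod (M + 1 - T) s
    have f2 := Nat.mod_lt (M + 1 - T) (show s > 0 by omega)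
    rw [← hm] at f1
    have f3 : (M : ℤ) + 1 - T < s * m + s := by
      have : M + 1 - T < s * m + s := by omega
      have h3 : ((M + 1 - T : ℕ) : ℤ) < ((s * m + s : ℕ) : ℤ) := by exact_mod_cast this
      rw [Nat.cast_sub hT] at h3
      push_cast at h3
      exact h3
    have hT0 : (0 : ℤ) ≤ T := by positivity
    constructor
    · have h3 : (s : ℤ) * min (m : ℤ) k0 ≤ s * k0 :=
        mul_le_mul_of_nonneg_left (min_le_right _ _) hs0.le
      linarith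
    · rcases le_total (m : ℤ) k0 with h | h
      · rw [min_eq_left h]
        linarith
      · rw [min_eq_right h]
        linarith

theorem SlabTwo_reg_BB {L M g w n m : ℕ} (hL : (2 * g + 2) * n ≤ L)
    (hM : n * w * m + (w + 2 + 2 * g) * n ≤ M + 1) {k : Pt D} (hk : ∀ i, 0 ≤ k i ∧ k i ≤ m) :
    reg n g w k ⊆ SlabTwo_BB L M ((w + 2 + 2 * g) * n) (n * w) k := by
  intro x hx
  rw [mem_reg] at hx
  rw [SlabTwo_mem_BB, mem_slb]
  have hL' : ((2 : ℤ) * g + 2) * n ≤ L := by exact_mod_cast hL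
  have hM' : (n : ℤ) * w * m + (w + 2 + 2 * g) * n ≤ M + 1 := by exact_mod_cast hM
  have hnw : (0 : ℤ) ≤ (n : ℤ) * w := by positivity
  refine ⟨⟨⟨hx.1.1, by linarith [hx.1.2]⟩, fun i => ?_⟩, fun i => ?_⟩
  · have h1 : (0 : ℤ) ≤ (n : ℤ) * w * k i := mul_nonneg hnw (hk i).1
    have h2 : (n : ℤ) * w * k i ≤ n * w * m := mul_le_mul_of_nonneg_left (hk i).2 hnw
    have h3 := hx.2 i
    constructor <;> linarith [h3.1, h3.2]
  · have h3 := hx.2 i
    push_cast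
    constructor <;> linarith [h3.1, h3.2]

theorem SlabTwo_GPath_mono {r l k₀ g w m : ℕ} {k k' : Pt D} {b s t : Finset (Ed (D + 1))} (hst : s ⊆ t)
    (h : GPath r l k₀ g w m k k' b s) : GPath r l k₀ g w m k k' b t :=
  ⟨Relation.ReflTransGen.mono (fun _ _ h => ⟨h.1, ⟨h.2.1.1.mono hst, h.2.1.2⟩,
    ⟨h.2.2.1.mono hst, h.2.2.2⟩⟩) _ _ h.1, h.2.mono hst⟩

/-- A path of good blocks and two full boxes give a connection. -/
theorem SlabTwo_conn {r l k₀ g w m : ℕ} (hr : 1 ≤ r) {k k' : Pt D} {b ω : Finset (Ed (D + 1))}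
    (h : GPath r l k₀ g w m k k' b ω) {W W' : Finset (Pt (D + 1))}
    (hW : reg (r * 2 ^ l * 2 ^ k₀) g w k ⊆ W) (hW' : reg (r * 2 ^ l * 2 ^ k₀) g w k' ⊆ W')
    (hc : ∀ x ∈ W, ∀ y ∈ W, Conn (EI W) x y) (hc' : ∀ x ∈ W', ∀ y ∈ W', Conn (EI W') x y)
    (hF : EI W ⊆ ω) (hF' : EI W' ⊆ ω) {x y : Pt (D + 1)} (hx : x ∈ W) (hy : y ∈ W') :
    Conn ω x y := by
  obtain ⟨a, ha, a', ha', haa⟩ := conn_of_good (k := k) (k' := k') hr
    (Relation.ReflTransGen.mono (fun _ _ h => ⟨h.1, h.2.1.1, h.2.2.1⟩) _ _ h.1) h.2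
  exact (((hc x hx a (hW ha)).mono hF).trans haa).trans ((hc' a' (hW' ha') y hy).mono hF')

/-- Uniform connectivity of the boxes `[0, L) × [0, M]^D`. -/
theorem slab_final (hD : 2 ≤ D) {u₂ : ℝ} (hu₁ : 0 < u₁) (hu : u₁ < u₂) (hq : 1 ≤ q)
    {r l k₀ g w : ℕ} (hr : 1 ≤ r) (hw : g + 1 ≤ w)
    (hbad : ∀ k : Pt D, JP ((u₂ - u₁) / (u₁ + q)) u₁ q (reg (r * 2 ^ l * 2 ^ k₀) g w k)
      (fun b ω => ¬ GoodC r l k₀ g w k b ω) ≤ (1 / (2 * 25 ^ D * (2 ^ D + 4))) ^ (3 ^ D))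
    {L : ℕ} (hL : (2 * g + 2) * (r * 2 ^ l * 2 ^ k₀) ≤ L) :
    ∃ α : ℝ, 0 < α ∧ ∀ M : ℕ, ∀ x ∈ slb D L M, ∀ y ∈ slb D L M,
      α < Pb u₂ q (slb D L M) (EI (slb D L M)) (fun ω => Conn ω x y) := by
  have hq0 : 0 < q := by linarith
  have hu₂ : 0 < u₂ := hu₁.trans hu
  set n : ℕ := r * 2 ^ l * 2 ^ k₀ with hn
  have hn1 : 1 ≤ n := Nat.one_le_iff_ne_zero.mpr (by positivity)
  have ho : 0 < (u₂ - u₁) / (u₁ + q) := div_pos (by linarith) (by linarith)
  set o : ℝ := (u₂ - u₁) / (u₁ + q) with hodef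
  set c : ℝ := u₁ / (u₁ + q) with hc
  have hc0 : 0 < c := by positivity
  have hc1 : c ≤ 1 := by
    rw [hc, div_le_one (by positivity)]
    linarith
  set c₂ : ℝ := u₂ / (u₂ + q) with hc₂
  have hc20 : 0 < c₂ := by positivity
  have hc21 : c₂ ≤ 1 := by
    rw [hc₂, div_le_one (by positivity)]
    linarith
  set T : ℕ := (w + 2 + 2 * g) * n with hT
  set s : ℕ := n * w with hs
  have hs1 : 1 ≤ s := Nat.one_le_iff_ne_zero.mpr (by
    rw [hs]
    exact Nat.mul_ne_zero (by omega) (by omega))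
  set M₁ : ℕ := (EI (slb D L (T + s))).card with hM₁
  set M₂ : ℕ := (EI (slb D L T)).card with hM₂
  refine ⟨min (c ^ (2 * M₁) / 4) (c₂ ^ M₂ / 2), by positivity, ?_⟩
  intro M x hx y hy
  set V := slb D L M with hV
  by_cases hTM : T ≤ M + 1
  · obtain ⟨k, hk, hkx⟩ := SlabTwo_exists (T := T) hs1 hTM hx
    obtain ⟨k', hk', hky⟩ := SlabTwo_exists (T := T) hs1 hTM hy
    set m : ℕ := (M + 1 - T) / s with hm
    have hmM : s * m + T ≤ M + 1 := by
      have f1 := Nat.div_add_mod (M + 1 - T) s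
      rw [← hm] at f1
      omega
    have hreg : ∀ k : Pt D, (∀ i, 0 ≤ k i ∧ k i ≤ m) →
        reg n g w k ⊆ SlabTwo_BB L M T s k := fun k hk =>
      SlabTwo_reg_BB (m := m) hL (by rw [← hs, ← hT]; exact hmM) hk
    have hBV : ∀ k : Pt D, SlabTwo_BB L M T s k ⊆ V := fun k z hz => (SlabTwo_mem_BB.1 hz).1
    have h1 := gpath_ge (o := o) (u₁ := u₁) (q := q) hD ho hu₁ hq hr hw hbad (V := V)
      (fun k hk => (hreg k hk).trans (hBV k)) hk hk'
    set F : Finset (Ed (D + 1)) := EI (SlabTwo_BB L M T s k) ∪ EI (SlabTwo_BB L M T s k') with hF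
    have hFV : F ⊆ EI V := union_subset (EI_mono (hBV k)) (EI_mono (hBV k'))
    have hFc : F.card ≤ 2 * M₁ := by
      have h2 := card_union_le (EI (SlabTwo_BB L M T s k)) (EI (SlabTwo_BB L M T s k'))
      have h3 := SlabTwo_card_BB L M T s k
      have h4 := SlabTwo_card_BB L M T s k'
      rw [← hF] at h2
      rw [← hM₁] at h3 h4
      omega
    have h2 := Pb_subset_ge (V := V) hu₁ hq hFV
    have h3 : c ^ (2 * M₁) ≤ Pb u₁ q V (EI V) (fun ω => F ⊆ ω) :=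
      (pow_le_pow_of_le_one hc0.le hc1 hFc).trans h2
    have h4 : ∀ b, b ⊆ EI V → c ^ (2 * M₁) * ExB u₁ q V (EI V) b
        (fun ω => ind (GPath r l k₀ g w m k k' b ω)) ≤
        ExB u₁ q V (EI V) b (fun ω => ind (Conn ω x y)) := by
      intro b hb
      have h5 : Pb u₁ q V (EI V) (fun ω => F ⊆ ω) ≤ PbB u₁ q V (EI V) b (fun ω => F ⊆ ω) :=
        Pb_le_PbB hu₁ hq hb (fun s t hst h => h.trans hst)
      have h6 := PbB_fkg (u := u₁) (q := q) (V := V) (E := EI V) (b := b) hu₁ hq hb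
        (P := GPath r l k₀ g w m k k' b) (Q := fun ω => F ⊆ ω)
        (fun s t hst h => SlabTwo_GPath_mono hst h) (fun s t hst h => h.trans hst)
      have h7 : PbB u₁ q V (EI V) b (fun ω => GPath r l k₀ g w m k k' b ω ∧ F ⊆ ω) ≤
          ExB u₁ q V (EI V) b (fun ω => ind (Conn ω x y)) := by
        refine ExB_mono hu₁ hq (fun ω _ _ => ind_mono ?_)
        rintro ⟨h8, h9⟩
        exact SlabTwo_conn hr h8 (hreg k hk) (hreg k' hk')
          (fun x hx y hy => SlabTwo_conn_BB (fun i => (hk i).1) hx hy)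
          (fun x hx y hy => SlabTwo_conn_BB (fun i => (hk' i).1) hx hy)
          (subset_union_left.trans h9) (subset_union_right.trans h9) hkx hky
      have h10 : 0 ≤ PbB u₁ q V (EI V) b (GPath r l k₀ g w m k k' b) := PbB_nonneg hu₁ hq _
      calc c ^ (2 * M₁) * PbB u₁ q V (EI V) b (GPath r l k₀ g w m k k' b)
          ≤ PbB u₁ q V (EI V) b (fun ω => F ⊆ ω) *
            PbB u₁ q V (EI V) b (GPath r l k₀ g w m k k' b) :=
            mul_le_mul_of_nonneg_right (h3.trans h5) h10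
        _ = PbB u₁ q V (EI V) b (GPath r l k₀ g w m k k' b) *
            PbB u₁ q V (EI V) b (fun ω => F ⊆ ω) := mul_comm _ _
        _ ≤ _ := h6.trans h7
    have h5 : c ^ (2 * M₁) * JP o u₁ q V (GPath r l k₀ g w m k k') ≤
        Ex o 1 V (EI V) (fun b => ExB u₁ q V (EI V) b (fun ω => ind (Conn ω x y))) := by
      unfold JP JE
      rw [← Ex_const_mul]
      exact Ex_mono ho le_rfl h4
    have h6 := sprinkle hu₁ hu hq V (EI V) (f := fun ω => ind (Conn ω x y))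
      (fun ω => ind_nonneg _) (fun s t hst => ind_mono (fun h => h.mono hst))
    rw [← hodef] at h6
    have h7 : Ex u₂ q V (EI V) (fun ω => ind (Conn ω x y)) =
        Pb u₂ q V (EI V) (fun ω => Conn ω x y) := rfl
    rw [← h7]
    have h8 : 0 < c ^ (2 * M₁) := by positivity
    calc min (c ^ (2 * M₁) / 4) (c₂ ^ M₂ / 2) ≤ c ^ (2 * M₁) / 4 := min_le_left _ _
      _ < c ^ (2 * M₁) * (1 / 2) := by linarith
      _ ≤ c ^ (2 * M₁) * JP o u₁ q V (GPath r l k₀ g w m k k') :=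
          mul_le_mul_of_nonneg_left h1 h8.le
      _ ≤ _ := h5.trans h6
  · push Not at hTM
    have h1 := Pb_subset_ge (u := u₂) (q := q) (V := V) hu₂ hq (subset_refl (EI V))
    have h2 : (EI V).card ≤ M₂ := card_le_card (EI_mono (SlabTwo_slb_mono (by omega)))
    have h3 : c₂ ^ M₂ ≤ _ := (pow_le_pow_of_le_one hc20.le hc21 h2).trans h1
    have h4 : Pb u₂ q V (EI V) (fun ω => EI V ⊆ ω) ≤ Pb u₂ q V (EI V) (fun ω => Conn ω x y) :=
      Pb_mono hu₂ hq (fun ω _ hp => (SlabTwo_conn_slb hx hy).mono hp)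
    have h7 : 0 < c₂ ^ M₂ := by positivity
    calc min (c ^ (2 * M₁) / 4) (c₂ ^ M₂ / 2) ≤ c₂ ^ M₂ / 2 := min_le_right _ _
      _ < c₂ ^ M₂ := by linarith
      _ ≤ _ := h3.trans h4

end Pool.Agent.Lib.MP_31386d_pr_POTTS
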