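import Pool.Agent.Lib.MP_31386d_pr_POTTS.CoarseBad
import Pool.Agent.Lib.MP_31386d_pr_POTTS.SlabTwo
import Pool.Agent.Lib.MP_31386d_pr_POTTS.Param
import Pool.Agent.Lib.MP_31386d_pr_POTTS.ROne

/-!
# Main theorem: uniform connectivity in slabs from the two quadratic inequalities
-/

set_option autoImplicit false

namespace Pool.Agent.Lib.MP_31386d_pr_POTTS

open Finset
open Pool.Agent.Lib.MP_31386d_pr

/-- Uniform connectivity in thick slabs, from the first stage `R1` and the second inequality. -/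
theorem main_of_R1 {D : ℕ} (hD : 2 ≤ D) {q C : ℝ} (hq : 1 ≤ q) (hC : 0 < C)
    (hQ : Q2 q C) {u₀ u₁ u₂ : ℝ} (hu₀ : 0 < u₀) (h01 : u₀ < u₁) (h12 : u₁ < u₂)
    (hR1 : ∃ c₁ : ℝ, 0 < c₁ ∧ ∃ K : ℕ, 1 ≤ K ∧ ∀ n : ℕ, 1 ≤ n → ∀ x : Pt (D + 1),
      (∀ i, |x i| ≤ n) → c₁ ≤ Pb u₀ q (cube (D + 1) (K * n ^ 2))
        (EI (cube (D + 1) (K * n ^ 2))) (fun ω => Conn ω 0 x)) :
    ∃ L₀ : ℕ, ∀ L : ℕ, L₀ ≤ L → ∃ α : ℝ, 0 < α ∧ ∀ n : ℕ, ∀ x ∈ slab (D + 1) L n,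
      α < Pb u₂ q (slab (D + 1) L n) (EI (slab (D + 1) L n)) (fun ω => Conn ω 0 x) := by
  obtain ⟨c₁, hc₁, K, hK, hR⟩ := hR1
  set o : ℝ := (u₂ - u₁) / (u₁ + q) with ho
  have hu₁ : 0 < u₁ := hu₀.trans h01
  have ho0 : 0 < o := div_pos (by linarith) (by linarith)
  have hκ : 0 < (u₁ - u₀) * (q ^ 2 * c₁ ^ 4 / (C * (1 + u₁))) := by
    have : 0 < q := by linarith
    have : 0 < u₁ - u₀ := by linarith
    positivity
  obtain ⟨r, l, k₀, hr, hb⟩ := exists_param hD ho0 hq hκ K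
    (ε := (1 / (2 * 25 ^ D * (2 ^ D + 4))) ^ (3 ^ D)) (by positivity)
  set n := r * 2 ^ l * 2 ^ k₀ with hn
  have hn1 : 1 ≤ n := Nat.one_le_iff_ne_zero.mpr (by positivity)
  refine ⟨(2 * (4 * K * n) + 2) * n, fun L hL => ?_⟩
  have hg : K * (2 * n) ^ 2 ≤ 4 * K * n * n := le_of_eq (by ring)
  have hbad : ∀ k : Pt D, JP o u₁ q (reg n (4 * K * n) (4 * K * n + 1) k)
      (fun b ω => ¬ GoodC r l k₀ (4 * K * n) (4 * K * n + 1) k b ω) ≤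
      (1 / (2 * 25 ^ D * (2 ^ D + 4))) ^ (3 ^ D) := by
    intro k
    refine (coarse_bad hD hq hC hQ ho0 hu₀ h01.le hc₁ hr ?_ hg k).trans hb
    intro x hx
    exact hR (2 * n) (by omega) x hx
  have h1 := slab_final hD hu₁ h12 hq hr le_rfl hbad hL
  have hL1 : 1 ≤ L := by
    refine le_trans ?_ hL
    exact Nat.one_le_iff_ne_zero.mpr (by positivity)
  exact slab_of_slb hL1 h1

theorem main_slab (d : ℕ) (hd : 3 ≤ d) {q C C' : ℝ} (hq : 1 < q) (hC : 0 < C) (hQ1 : Q1 q C)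
    (hC' : 0 < C') (hQ2 : Q2 q C') :
    ∀ u u' : ℝ, 0 < u → u < u' → (∃ c : ℝ, 0 < c ∧ ∀ r : ℕ, c ≤ thw d u q r) →
      ∃ L₀ : ℕ, ∀ L : ℕ, L₀ ≤ L → ∃ α : ℝ, 0 < α ∧ ∀ n : ℕ, ∀ x ∈ slab d L n,
        α < Pb u' q (slab d L n) (EI (slab d L n)) (fun ω => Conn ω 0 x) := by
  intro u u' hu huu hθ
  obtain ⟨D, rfl⟩ : ∃ D, d = D + 1 := ⟨d - 1, by omega⟩
  obtain ⟨u₀, h1, h2⟩ := exists_between huu
  obtain ⟨u₁, h3, h4⟩ := exists_between h2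
  exact main_of_R1 (by omega) hq.le hC' hQ2 (hu.trans h1) h3 h4
    (r_one (by omega) hC hq hQ1 hu h1 hθ)

end Pool.Agent.Lib.MP_31386d_pr_POTTS
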