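import Pool.Agent.Lib.MP_31386d_pr_POTTS.SeedFacts

/-!
# Big clusters of neighbouring fine cubes meet

Module G6 of project POTTS.
-/

set_option autoImplicit false

namespace Pool.Agent.Lib.MP_31386d_pr_POTTS

open Finset
open Pool.Agent.Lib.MP_31386d_pr

variable {d D : ℕ} {r l k₀ g w : ℕ}

private theorem big_both {j j' : Pt d} {b ω ω' : Finset (Ed d)} {x y : Pt d}
    (hx : Big r l k₀ j b ω x) (hy : Big r l k₀ j' b ω' y) {S : Finset (Pt d)}
    (h1 : S ⊆ blocks k₀ j) (h2 : S ⊆ blocks k₀ j') (hc : (2 ^ (k₀ + 1)) ^ d ≤ 2 ^ d * S.card) :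
    ∃ i ∈ S, Conn ω x (sd r l b i) ∧ Conn ω' y (sd r l b i) := by
  classical
  by_contra hne
  have hne' : ∀ i ∈ S, Conn ω x (sd r l b i) → ¬ Conn ω' y (sd r l b i) := by
    intro i hi hc1 hc2
    exact hne ⟨i, hi, hc1, hc2⟩
  unfold Big at hx hy
  rw [card_blocks] at hx hy
  set F1 := (blocks k₀ j).filter (fun i => ¬ Conn ω x (sd r l b i)) with hF1
  set F2 := (blocks k₀ j').filter (fun i => ¬ Conn ω' y (sd r l b i)) with hF2
  have hsub : S ⊆ F1 ∪ F2 := by
    intro i hi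
    rw [mem_union]
    by_cases hci : Conn ω x (sd r l b i)
    · right
      rw [hF2, mem_filter]
      exact ⟨h2 hi, hne' i hi hci⟩
    · left
      rw [hF1, mem_filter]
      exact ⟨h1 hi, hci⟩
  have hcard : S.card ≤ F1.card + F2.card := (card_le_card hsub).trans (card_union_le _ _)
  have h3 : 2 ^ (d + 1) * S.card ≤ 2 ^ (d + 1) * F1.card + 2 ^ (d + 1) * F2.card := by
    rw [← Nat.mul_add]
    exact Nat.mul_le_mul_left _ hcard
  have h4 : 2 ^ (d + 1) * S.card = 2 * (2 ^ d * S.card) := by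
    rw [pow_succ]
    ring
  omega

/-- Two big clusters in the same fine cube. -/
theorem big_same {j : Pt d} {b ω ω' Ω : Finset (Ed d)} (hω : ω ⊆ Ω) (hω' : ω' ⊆ Ω) {x y : Pt d}
    (hx : Big r l k₀ j b ω x) (hy : Big r l k₀ j b ω' y) : Conn Ω x y := by
  obtain ⟨i, -, h1, h2⟩ := big_both hx hy (Finset.Subset.refl (blocks k₀ j))
    (Finset.Subset.refl (blocks k₀ j)) (by
      rw [card_blocks]
      exact Nat.le_mul_of_pos_left _ (by positivity))
  exact (h1.mono hω).trans (h2.mono hω').symm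

private theorem big_adj_aux {j j' : Pt d} {t : Fin d} (hj : j' = j + Pi.single t 1)
    {b ω ω' Ω : Finset (Ed d)} (hω : ω ⊆ Ω)
    (hω' : ω' ⊆ Ω) {x y : Pt d} (hx : Big r l k₀ j b ω x) (hy : Big r l k₀ j' b ω' y) :
    Conn Ω x y := by
  have hp : (2 : ℤ) ^ (k₀ + 1) = 2 * 2 ^ k₀ := by
    rw [pow_succ]
    ring
  have hpos : (0 : ℤ) < 2 ^ k₀ := by positivity
  have hS2 : bx (fun i => 2 ^ k₀ * j' i) (2 ^ k₀) ⊆ blocks k₀ j' := by
    intro z hz
    unfold blocks
    rw [mem_bx] at hz ⊢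
    intro i
    have h := hz i
    push_cast at h ⊢
    rw [hp]
    constructor
    · exact h.1
    · linarith [h.2]
  have hS1 : bx (fun i => 2 ^ k₀ * j' i) (2 ^ k₀) ⊆ blocks k₀ j := by
    intro z hz
    unfold blocks
    rw [mem_bx] at hz ⊢
    intro i
    have h := hz i
    push_cast at h ⊢
    rw [hp]
    rw [hj] at h
    rw [Pi.add_apply] at h
    by_cases hi : i = t
    · subst hi
      rw [Pi.single_eq_same] at h
      constructor
      · linarith [h.1]
      · linarith [h.2]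
    · rw [Pi.single_eq_of_ne hi] at h
      constructor
      · linarith [h.1]
      · linarith [h.2]
  obtain ⟨i, -, h1, h2⟩ := big_both hx hy hS1 hS2 (by
      rw [card_bx, pow_succ, Nat.mul_pow]
      exact le_of_eq (Nat.mul_comm _ _))
  exact (h1.mono hω).trans (h2.mono hω').symm

/-- Two big clusters in neighbouring fine cubes. -/
theorem big_adj {j j' : Pt d} (hj : Lat j j') {b ω ω' Ω : Finset (Ed d)} (hω : ω ⊆ Ω)
    (hω' : ω' ⊆ Ω) {x y : Pt d} (hx : Big r l k₀ j b ω x) (hy : Big r l k₀ j' b ω' y) :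
    Conn Ω x y := by
  obtain ⟨t, h | h⟩ := hj
  · exact big_adj_aux h hω hω' hx hy
  · exact (big_adj_aux h hω' hω hy hx).symm

/-- A big cluster contains a seed of the fine cube. -/
theorem big_seed {j : Pt d} {b ω : Finset (Ed d)} {x : Pt d} (hx : Big r l k₀ j b ω x) :
    ∃ i ∈ blocks k₀ j, Conn ω x (sd r l b i) := by
  obtain ⟨i, hi, h1, -⟩ := big_both hx hx (Finset.Subset.refl (blocks k₀ j))
    (Finset.Subset.refl (blocks k₀ j)) (by
      rw [card_blocks]
      exact Nat.le_mul_of_pos_left _ (by positivity))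
  exact ⟨i, hi, h1⟩

end Pool.Agent.Lib.MP_31386d_pr_POTTS
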