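import Pool.Agent.Lib.MP_31386d_pr_POTTS.Defs

/-!
# Poincaré inequality in a box

Module E1 of project POTTS (pure analysis on the lattice).
-/

set_option autoImplicit false

namespace Pool.Agent.Lib.MP_31386d_pr_POTTS

open Finset
open Pool.Agent.Lib.MP_31386d_pr

variable {d : ℕ}

theorem mem_bx {c x : Pt d} {l : ℕ} : x ∈ bx c l ↔ ∀ i, c i ≤ x i ∧ x i < c i + l := by
  unfold bx
  rw [mem_shV, mem_Box]
  refine forall_congr' fun i => ?_
  simp only [Pi.sub_apply]
  constructor <;> intro h <;> constructor <;> linarith [h.1, h.2]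

theorem card_bx (c : Pt d) (l : ℕ) : (bx c l).card = l ^ d := by
  unfold bx
  rw [card_shV, card_Box]

theorem En_nonneg (h : Pt d → ℝ) (A : Finset (Pt d)) : 0 ≤ En h A :=
  sum_nonneg fun _ _ => sq_nonneg _

theorem En_mono (h : Pt d → ℝ) {A A' : Finset (Pt d)} (hA : A ⊆ A') : En h A ≤ En h A' :=
  sum_le_sum_of_subset_of_nonneg (EI_mono hA) fun _ _ _ => sq_nonneg _

/-- Energies of disjoint sets. -/
theorem En_sum_le {ι : Type*} (h : Pt d → ℝ) (s : Finset ι) (A : ι → Finset (Pt d))
    {V : Finset (Pt d)} (hA : ∀ i ∈ s, A i ⊆ V)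
    (hd : ∀ i ∈ s, ∀ j ∈ s, i ≠ j → Disjoint (A i) (A j)) :
    ∑ i ∈ s, En h (A i) ≤ En h V := by
  classical
  unfold En
  rw [← Finset.sum_biUnion (s := s) (t := fun i => EI (A i))
    (f := fun e : Ed d => (h e.1 - h (tgt e)) ^ 2)
    (fun i hi j hj hij => disjoint_EI (hd i hi j hj hij))]
  refine sum_le_sum_of_subset_of_nonneg ?_ fun _ _ _ => sq_nonneg _
  rw [biUnion_subset]
  exact fun i hi => EI_mono (hA i hi)

/-! ### One dimension -/

/-- One-dimensional inequality. -/
theorem Poincare_line (φ : ℕ → ℝ) {l i j : ℕ} (hi : i < l) (hj : j < l) :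
    (φ i - φ j) ^ 2 ≤ l * ∑ t ∈ range (l - 1), (φ (t + 1) - φ t) ^ 2 := by
  have key : ∀ {i j : ℕ}, i ≤ j → j < l →
      (φ i - φ j) ^ 2 ≤ l * ∑ t ∈ range (l - 1), (φ (t + 1) - φ t) ^ 2 := by
    intro i j hij hj
    have h1 : (φ i - φ j) ^ 2 = (∑ t ∈ Ico i j, (φ (t + 1) - φ t)) ^ 2 := by
      rw [Finset.sum_Ico_sub φ hij]
      ring
    have h2 := sq_sum_le_card_mul_sum_sq (s := Ico i j) (f := fun t => φ (t + 1) - φ t)
    have h3 : ∑ t ∈ Ico i j, (φ (t + 1) - φ t) ^ 2 ≤
        ∑ t ∈ range (l - 1), (φ (t + 1) - φ t) ^ 2 := by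
      refine sum_le_sum_of_subset_of_nonneg ?_ fun _ _ _ => sq_nonneg _
      intro t ht
      rw [mem_Ico] at ht
      rw [mem_range]
      omega
    have h4 : ((Ico i j).card : ℝ) ≤ l := by
      rw [Nat.card_Ico]
      exact_mod_cast (show j - i ≤ l by omega)
    rw [h1]
    refine h2.trans (mul_le_mul h4 h3 (sum_nonneg fun _ _ => sq_nonneg _) (by positivity))
  rcases le_total i j with h | h
  · exact key h hj
  · have := key h hi
    have e : (φ i - φ j) ^ 2 = (φ j - φ i) ^ 2 := by ring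
    rw [e]
    exact this

/-! ### Exchange of coordinates -/

/-- The first `m` coordinates from `y`, the others from `x`. -/
def Poincare_zz (m : ℕ) (x y : Pt d) : Pt d := fun i => if i.val < m then y i else x i

theorem Poincare_zz_mem {c : Pt d} {l m : ℕ} {x y : Pt d} (hx : x ∈ bx c l) (hy : y ∈ bx c l) :
    Poincare_zz m x y ∈ bx c l := by
  rw [mem_bx] at *
  intro i
  unfold Poincare_zz
  split_ifs
  · exact hy i
  · exact hx i

theorem Poincare_zz_zz (m : ℕ) (x y : Pt d) :
    Poincare_zz m (Poincare_zz m x y) (Poincare_zz m y x) = x := by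
  funext i
  unfold Poincare_zz
  by_cases h : i.val < m <;> simp [h]

theorem Poincare_zz_succ (m : Fin d) (x y : Pt d) :
    Poincare_zz (m.val + 1) x y =
      Function.update (Poincare_zz m.val x y) m (Poincare_zz m.val y x m) := by
  funext i
  by_cases h : i = m
  · subst h
    simp [Poincare_zz]
  · rw [Function.update_of_ne h]
    have h1 : i.val ≠ m.val := fun h' => h (Fin.ext h')
    unfold Poincare_zz
    by_cases h2 : i.val < m.val
    · rw [if_pos h2, if_pos (by omega)]
    · rw [if_neg h2, if_neg (by omega)]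

theorem Poincare_swap (c : Pt d) (l : ℕ) (m : Fin d) (h : Pt d → ℝ) :
    ∑ x ∈ bx c l, ∑ y ∈ bx c l,
      (h (Poincare_zz m.val x y) - h (Poincare_zz (m.val + 1) x y)) ^ 2 =
    ∑ z ∈ bx c l, ∑ z' ∈ bx c l, (h z - h (Function.update z m (z' m))) ^ 2 := by
  rw [← Finset.sum_product', ← Finset.sum_product']
  refine Finset.sum_nbij' (fun p => (Poincare_zz m.val p.1 p.2, Poincare_zz m.val p.2 p.1))
    (fun p => (Poincare_zz m.val p.1 p.2, Poincare_zz m.val p.2 p.1)) ?_ ?_ ?_ ?_ ?_
  · intro p hp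
    rw [mem_product] at hp ⊢
    exact ⟨Poincare_zz_mem hp.1 hp.2, Poincare_zz_mem hp.2 hp.1⟩
  · intro p hp
    rw [mem_product] at hp ⊢
    exact ⟨Poincare_zz_mem hp.1 hp.2, Poincare_zz_mem hp.2 hp.1⟩
  · intro p _
    exact Prod.ext (Poincare_zz_zz _ _ _) (Poincare_zz_zz _ _ _)
  · intro p _
    exact Prod.ext (Poincare_zz_zz _ _ _) (Poincare_zz_zz _ _ _)
  · intro p _
    rw [Poincare_zz_succ]

theorem Poincare_update_mem {c : Pt d} {l : ℕ} {z : Pt d} (hz : z ∈ bx c l) (m : Fin d) {t : ℕ}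
    (ht : t < l) : Function.update z m (c m + t) ∈ bx c l := by
  rw [mem_bx] at *
  intro i
  by_cases h : i = m
  · subst h
    rw [Function.update_self]
    have : (t : ℤ) < l := by exact_mod_cast ht
    have h0 : (0 : ℤ) ≤ t := by positivity
    constructor <;> linarith
  · rw [Function.update_of_ne h]
    exact hz i

theorem Poincare_update_add (z : Pt d) (m : Fin d) (a : ℤ) :
    Function.update z m (a + 1) = Function.update z m a + Pi.single m 1 := by
  funext i
  by_cases h : i = m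
  · subst h
    simp
  · simp [Function.update_of_ne h, Pi.single_eq_of_ne h]

/-- Sum over the lines of direction `m`. -/
theorem Poincare_lines (c : Pt d) (l : ℕ) (m : Fin d) (g : Pt d → ℝ) :
    ∑ z ∈ bx c l, ∑ t ∈ range (l - 1), g (Function.update z m (c m + t)) =
      l * ∑ w ∈ bx c l with w + Pi.single m 1 ∈ bx c l, g w := by
  classical
  have h1 : (l : ℝ) * ∑ w ∈ bx c l with w + Pi.single m 1 ∈ bx c l, g w =
      ∑ w ∈ bx c l with w + Pi.single m 1 ∈ bx c l, ∑ s ∈ range l, g w := by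
    rw [mul_sum]
    refine sum_congr rfl fun w _ => ?_
    rw [sum_const, card_range, nsmul_eq_mul]
  rw [h1, ← Finset.sum_product', ← Finset.sum_product']
  refine Finset.sum_nbij' (fun p => (Function.update p.1 m (c m + p.2), (p.1 m - c m).toNat))
    (fun p => (Function.update p.1 m (c m + p.2), (p.1 m - c m).toNat)) ?_ ?_ ?_ ?_ ?_
  · rintro ⟨z, t⟩ hp
    rw [mem_product, mem_range] at hp
    simp only at hp ⊢
    rw [mem_product, mem_filter, mem_range]
    refine ⟨⟨Poincare_update_mem hp.1 m (by omega), ?_⟩, ?_⟩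
    · rw [← Poincare_update_add]
      have := Poincare_update_mem hp.1 m (t := t + 1) (by omega)
      push_cast at this
      rw [add_assoc]
      exact this
    · have h2 := mem_bx.1 hp.1 m
      omega
  · rintro ⟨w, s⟩ hp
    rw [mem_product, mem_filter, mem_range] at hp
    simp only at hp ⊢
    rw [mem_product, mem_range]
    refine ⟨Poincare_update_mem hp.1.1 m hp.2, ?_⟩
    have h2 := mem_bx.1 hp.1.1 m
    have h3 := mem_bx.1 hp.1.2 m
    simp only [Pi.add_apply, Pi.single_eq_same] at h3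
    omega
  · rintro ⟨z, t⟩ hp
    rw [mem_product, mem_range] at hp
    simp only at hp ⊢
    have h2 := mem_bx.1 hp.1 m
    refine Prod.ext ?_ ?_
    · simp only [Function.update_idem]
      have e : c m + ((z m - c m).toNat : ℤ) = z m := by omega
      rw [e, Function.update_eq_self]
    · simp only [Function.update_self]
      omega
  · rintro ⟨w, s⟩ hp
    rw [mem_product, mem_filter, mem_range] at hp
    simp only at hp ⊢
    have h2 := mem_bx.1 hp.1.1 m
    refine Prod.ext ?_ ?_
    · simp only [Function.update_idem]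
      have e : c m + ((w m - c m).toNat : ℤ) = w m := by omega
      rw [e, Function.update_eq_self]
    · simp only [Function.update_self]
      omega
  · rintro ⟨z, t⟩ _
    rfl

theorem Poincare_aux (c : Pt d) (l : ℕ) (F : Pt d → Pt d → ℝ) (K : Pt d → ℝ)
    (h : ∀ z ∈ bx c l, ∀ z' ∈ bx c l, F z z' ≤ l * K z) :
    ∑ z ∈ bx c l, ∑ z' ∈ bx c l, F z z' ≤ (l : ℝ) ^ d * (l * ∑ z ∈ bx c l, K z) := by
  rw [mul_sum, mul_sum]
  refine sum_le_sum fun z hz => ?_
  have h2 := sum_le_sum fun z' hz' => h z hz z' hz'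
  rw [sum_const, card_bx, nsmul_eq_mul, Nat.cast_pow] at h2
  exact h2

theorem Poincare_pt (c : Pt d) (l : ℕ) (m : Fin d) (h : Pt d → ℝ) (g : Pt d → ℝ)
    (hg : ∀ w, g w = (h w - h (w + Pi.single m 1)) ^ 2) {z z' : Pt d} (hz : z ∈ bx c l)
    (hz' : z' ∈ bx c l) : (h z - h (Function.update z m (z' m))) ^ 2 ≤
      l * ∑ t ∈ range (l - 1), g (Function.update z m (c m + t)) := by
  have a1 := mem_bx.1 hz m
  have a2 := mem_bx.1 hz' m
  have h2 := Poincare_line (fun t : ℕ => h (Function.update z m (c m + t)))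
    (l := l) (i := (z m - c m).toNat) (j := (z' m - c m).toNat) (by omega) (by omega)
  have e1 : c m + ((z m - c m).toNat : ℤ) = z m := by omega
  have e2 : c m + ((z' m - c m).toNat : ℤ) = z' m := by omega
  have e3 : Function.update z m (z m) = z := Function.update_eq_self m z
  simp only [e1, e2, e3] at h2
  refine h2.trans (le_of_eq ?_)
  congr 1
  refine sum_congr rfl fun t _ => ?_
  rw [hg, Nat.cast_add, Nat.cast_one, ← add_assoc, Poincare_update_add]
  ring

theorem Poincare_dir (c : Pt d) (l : ℕ) (m : Fin d) (h : Pt d → ℝ) (g : Pt d → ℝ)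
    (hg : ∀ w, g w = (h w - h (w + Pi.single m 1)) ^ 2) :
    ∑ z ∈ bx c l, ∑ z' ∈ bx c l, (h z - h (Function.update z m (z' m))) ^ 2 ≤
      (l : ℝ) ^ (d + 2) * ∑ w ∈ bx c l with w + Pi.single m 1 ∈ bx c l, g w := by
  have h1 := Poincare_aux c l (fun z z' => (h z - h (Function.update z m (z' m))) ^ 2)
    (fun z => ∑ t ∈ range (l - 1), g (Function.update z m (c m + t)))
    (fun z hz z' hz' => Poincare_pt c l m h g hg hz hz')
  rw [Poincare_lines c l m g] at h1
  refine h1.trans (le_of_eq ?_)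
  ring

theorem Poincare_En (h : Pt d → ℝ) (Q : Finset (Pt d)) :
    En h Q = ∑ m : Fin d, ∑ w ∈ Q with w + Pi.single m 1 ∈ Q,
      (h w - h (w + Pi.single m 1)) ^ 2 := by
  unfold En EI
  rw [sum_filter, sum_product_right]
  refine sum_congr rfl fun m _ => ?_
  rw [sum_filter]
  rfl

/-- Poincaré inequality. -/
theorem poincare (h : Pt d → ℝ) (c : Pt d) (l : ℕ) :
    ∑ x ∈ bx c l, ∑ y ∈ bx c l, (h x - h y) ^ 2 ≤ d * (l : ℝ) ^ (d + 2) * En h (bx c l) := by
  have h1 : ∀ x y : Pt d, (h x - h y) ^ 2 ≤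
      d * ∑ m : Fin d, (h (Poincare_zz m.val x y) - h (Poincare_zz (m.val + 1) x y)) ^ 2 := by
    intro x y
    have e0 : Poincare_zz 0 x y = x := by
      funext i
      simp [Poincare_zz]
    have e1 : Poincare_zz d x y = y := by
      funext i
      simp [Poincare_zz]
    have e2 : h x - h y =
        ∑ m ∈ range d, (h (Poincare_zz m x y) - h (Poincare_zz (m + 1) x y)) := by
      rw [Finset.sum_range_sub' (fun m => h (Poincare_zz m x y)), e0, e1]
    have h2 := sq_sum_le_card_mul_sum_sq (s := range d)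
      (f := fun m => h (Poincare_zz m x y) - h (Poincare_zz (m + 1) x y))
    rw [← e2, card_range] at h2
    refine h2.trans (le_of_eq ?_)
    congr 1
    exact Finset.sum_range (fun m => (h (Poincare_zz m x y) - h (Poincare_zz (m + 1) x y)) ^ 2)
  calc ∑ x ∈ bx c l, ∑ y ∈ bx c l, (h x - h y) ^ 2
      ≤ ∑ x ∈ bx c l, ∑ y ∈ bx c l, d * ∑ m : Fin d,
          (h (Poincare_zz m.val x y) - h (Poincare_zz (m.val + 1) x y)) ^ 2 :=
        sum_le_sum fun x _ => sum_le_sum fun y _ => h1 x y
    _ = d * ∑ m : Fin d, ∑ x ∈ bx c l, ∑ y ∈ bx c l,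
          (h (Poincare_zz m.val x y) - h (Poincare_zz (m.val + 1) x y)) ^ 2 := by
        rw [sum_comm (s := (univ : Finset (Fin d))), mul_sum]
        refine sum_congr rfl fun x _ => ?_
        rw [sum_comm (s := (univ : Finset (Fin d))), mul_sum]
    _ ≤ d * ∑ m : Fin d, (l : ℝ) ^ (d + 2) *
          ∑ w ∈ bx c l with w + Pi.single m 1 ∈ bx c l, (h w - h (w + Pi.single m 1)) ^ 2 := by
        refine mul_le_mul_of_nonneg_left (sum_le_sum fun m _ => ?_) (by positivity)
        rw [Poincare_swap]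
        exact Poincare_dir c l m h _ (fun _ => rfl)
    _ = _ := by
        rw [← mul_sum, ← Poincare_En, mul_assoc]

end Pool.Agent.Lib.MP_31386d_pr_POTTS
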