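import Pool.Agent.Lib.MP_31386d_pr_POTTS.CharSum

/-!
# Random-cluster representation of the Potts model

Module A7 of project POTTS.
-/

set_option autoImplicit false

namespace Pool.Agent.Lib.MP_31386d_pr_POTTS

open Finset

private theorem Potts_ind_of {P : Prop} (h : P) : ind P = 1 := by
  unfold ind
  rw [if_pos h]

private theorem Potts_ind_not {P : Prop} (h : ¬ P) : ind P = 0 := by
  unfold ind
  rw [if_neg h]

private theorem Potts_ind_nonneg (P : Prop) : 0 ≤ ind P := by
  by_cases h : P
  · rw [Potts_ind_of h]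
    exact zero_le_one
  · rw [Potts_ind_not h]

private theorem Potts_ind_mul (P Q : Prop) : ind P * ind Q = ind (P ∧ Q) := by
  by_cases h : P
  · by_cases h' : Q
    · rw [Potts_ind_of h, Potts_ind_of h', Potts_ind_of ⟨h, h'⟩, one_mul]
    · rw [Potts_ind_not h', Potts_ind_not (fun hh : P ∧ Q => h' hh.2), mul_zero]
  · rw [Potts_ind_not h, Potts_ind_not (fun hh : P ∧ Q => h hh.1), zero_mul]

private theorem Potts_ind_congr {P Q : Prop} (h : P ↔ Q) : ind P = ind Q := by
  rw [propext h]

private theorem Potts_prod_ind {ι : Type} (ω : Finset ι) (P : ι → Prop) :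
    ∏ e ∈ ω, ind (P e) = ind (∀ e ∈ ω, P e) := by
  induction ω using Finset.cons_induction with
  | empty =>
    rw [Finset.prod_empty, Potts_ind_of]
    intro e he
    exact absurd he (Finset.notMem_empty e)
  | cons a s ha ih =>
    rw [Finset.prod_cons, ih, Potts_ind_mul]
    refine Potts_ind_congr ?_
    rw [Finset.forall_mem_cons]

private theorem Potts_sum_ind {α : Type} [Fintype α] (P : α → Prop) :
    ∑ s : α, ind (P s) = (Nat.card {s : α // P s} : ℝ) := by
  classical
  have h1 : ∀ s : α, ind (P s) = if P s then (1 : ℝ) else 0 := by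
    intro s
    by_cases h : P s
    · rw [Potts_ind_of h, if_pos h]
    · rw [Potts_ind_not h, if_neg h]
  rw [Finset.sum_congr rfl fun s _ => h1 s, Finset.sum_boole, Nat.card_eq_fintype_card,
    Fintype.card_subtype]

variable {q : ℕ} [NeZero q] {W ι : Type} [Fintype W] [DecidableEq W]

/-- Potts weight with the constraints of the base `B`. -/
noncomputable def PW (u : ℝ) (en : ι → W × W) (B : W → W → Prop) (E : Finset ι)
    (s : W → ZMod q) : ℝ :=
  (∏ e ∈ E, (1 + u * ind (s (en e).1 = s (en e).2))) * ind (∀ x y, B x y → s x = s y)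

theorem PW_nonneg {u : ℝ} (hu : 0 ≤ u) (en : ι → W × W) (B : W → W → Prop) (E : Finset ι)
    (s : W → ZMod q) : 0 ≤ PW u en B E s := by
  unfold PW
  refine mul_nonneg (Finset.prod_nonneg fun e _ => ?_) (Potts_ind_nonneg _)
  exact add_nonneg zero_le_one (mul_nonneg hu (Potts_ind_nonneg _))

/-- Expansion of the Potts weight. -/
theorem PW_expand (u : ℝ) (en : ι → W × W) (B : W → W → Prop) (E : Finset ι)
    (Φ : (W → ZMod q) → ℝ) :
    ∑ s, PW u en B E s * Φ s =
      ∑ ω ∈ E.powerset, u ^ ω.card *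
        ∑ s : W → ZMod q, ind (∀ x y, Rel en B ω x y → s x = s y) * Φ s := by
  classical
  have h1 : ∀ s : W → ZMod q, PW u en B E s * Φ s =
      ∑ ω ∈ E.powerset, u ^ ω.card * (ind (∀ x y, Rel en B ω x y → s x = s y) * Φ s) := by
    intro s
    unfold PW
    rw [Finset.prod_one_add, Finset.sum_mul, Finset.sum_mul]
    refine Finset.sum_congr rfl fun ω _ => ?_
    rw [Finset.prod_mul_distrib, Finset.prod_const, Potts_prod_ind, mul_assoc (u ^ ω.card),
      Potts_ind_mul]
    have h2 : ind ((∀ e ∈ ω, s (en e).1 = s (en e).2) ∧ ∀ x y, B x y → s x = s y) =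
        ind (∀ x y, Rel en B ω x y → s x = s y) := by
      refine Potts_ind_congr ⟨?_, ?_⟩
      · rintro ⟨ha, hb⟩ x y hxy
        rcases hxy with hxy | ⟨e, he, hen⟩
        · exact hb x y hxy
        · have := ha e he
          rw [hen] at this
          exact this
      · intro h
        refine ⟨fun e he => h _ _ (Or.inr ⟨e, he, rfl⟩), fun x y hxy => h x y (Or.inl hxy)⟩
    rw [h2, mul_assoc]
  rw [Finset.sum_congr rfl fun s _ => h1 s, Finset.sum_comm]
  refine Finset.sum_congr rfl fun ω _ => ?_
  rw [Finset.mul_sum]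

theorem PW_one (hq : 2 ≤ q) (u : ℝ) (en : ι → W × W) (B : W → W → Prop) (E : Finset ι) :
    ∑ s : W → ZMod q, PW u en B E s = aZ u q en B E (fun _ => 1) := by
  have h1 := PW_expand (q := q) u en B E (fun _ => 1)
  simp only [mul_one] at h1
  rw [h1]
  unfold aZ
  refine Finset.sum_congr rfl fun ω _ => ?_
  rw [mul_one, Potts_sum_ind, card_const_fun, Nat.card_zmod]
  unfold cc
  push_cast
  rfl

theorem PW_cs (hq : 2 ≤ q) (u : ℝ) (en : ι → W × W) (B : W → W → Prop) (E : Finset ι)
    (x y : W) : ∑ s : W → ZMod q, PW u en B E s * cs (s x - s y) =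
      aZ u q en B E (fun ω => ind (Cn en B ω x y)) := by
  rw [PW_expand]
  unfold aZ
  refine Finset.sum_congr rfl fun ω _ => ?_
  rw [char_sum hq, mul_assoc]
  rfl

end Pool.Agent.Lib.MP_31386d_pr_POTTS
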