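import Pool.Agent.Lib.MP_31386d_pr_POTTS.Potts
import Pool.Agent.Lib.MP_31386d_pr_POTTS.Gin

/-!
# The first quadratic inequality for integer `q`

Module A8 of project POTTS.
-/

set_option autoImplicit false

namespace Pool.Agent.Lib.MP_31386d_pr_POTTS

private theorem QOne_ind_forall {A : Type} [Fintype A] (P : A → Prop) :
    ind (∀ a, P a) = ∏ a, ind (P a) := by
  by_cases h : ∀ a, P a
  · rw [ind_of h, Finset.prod_eq_one fun a _ => ind_of (h a)]
  · rw [ind_not h]
    obtain ⟨a, ha⟩ := not_forall.1 h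
    exact (Finset.prod_eq_zero (Finset.mem_univ a) (ind_not ha)).symm

private theorem QOne_ind_pairs {A : Type} [Fintype A] (P : A → A → Prop) :
    ind (∀ a b, P a b) = ∏ p : A × A, ind (P p.1 p.2) := by
  rw [← QOne_ind_forall]
  have h : (∀ a b, P a b) ↔ ∀ p : A × A, P p.1 p.2 := ⟨fun h p => h p.1 p.2, fun h a b => h (a, b)⟩
  rw [propext h]

private theorem QOne_imp {P Q : Prop} (h : P) : ind (P → Q) = ind Q := by
  rw [propext (imp_iff_right h)]

private theorem QOne_rep {q : ℕ} [NeZero q] {W ι : Type} [Fintype W] [DecidableEq W]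
    (en : ι → W × W) (B B' : W → W → Prop) (hB : ∀ x y, B x y → B' x y) (E : Finset ι) {u : ℝ}
    (hu : 0 ≤ u) (ε : W → ZMod q) :
    Rep (fun x y : W → ZMod q => PW u en B' E (x - y) * PW u en B E (x + y + ε)) := by
  have h1 : Rep (fun x y : W → ZMod q => ∏ e ∈ E,
      ((1 + u * ind ((x - y) (en e).1 = (x - y) (en e).2)) *
        (1 + u * ind ((x + y + ε) (en e).1 = (x + y + ε) (en e).2)))) :=
    Rep.prod E (fun e (x y : W → ZMod q) =>
      (1 + u * ind ((x - y) (en e).1 = (x - y) (en e).2)) *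
        (1 + u * ind ((x + y + ε) (en e).1 = (x + y + ε) (en e).2)))
      fun e _ => rep_edge ε (en e).1 (en e).2 hu le_rfl
  have h2 : Rep (fun x y : W → ZMod q => ∏ p : W × W,
      (ind (B' p.1 p.2 → (x - y) p.1 = (x - y) p.2) *
        ind (B p.1 p.2 → (x + y + ε) p.1 = (x + y + ε) p.2))) := by
    refine Rep.prod Finset.univ (fun (p : W × W) (x y : W → ZMod q) =>
      (ind (B' p.1 p.2 → (x - y) p.1 = (x - y) p.2) *
        ind (B p.1 p.2 → (x + y + ε) p.1 = (x + y + ε) p.2))) fun p _ => ?_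
    by_cases hb : B p.1 p.2
    · refine Rep.congr (rep_bothc ε p.1 p.2) fun x y => ?_
      rw [QOne_imp (hB _ _ hb), QOne_imp hb]
    · by_cases hb' : B' p.1 p.2
      · refine Rep.congr (rep_first ε p.1 p.2) fun x y => ?_
        rw [QOne_imp hb', ind_of (fun h => absurd h hb), mul_one]
      · refine Rep.congr Rep.one fun x y => ?_
        rw [ind_of (fun h => absurd h hb'), ind_of (fun h => absurd h hb), mul_one]
  refine Rep.congr (h1.mul h2) fun x y => ?_
  unfold PW
  rw [Finset.prod_mul_distrib, Finset.prod_mul_distrib,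
    QOne_ind_pairs (fun a b => B' a b → (x - y) a = (x - y) b),
    QOne_ind_pairs (fun a b => B a b → (x + y + ε) a = (x + y + ε) b)]
  ring

theorem q1_int (q : ℕ) (hq : 2 ≤ q) : Q1 (q : ℝ) 2 := by
  intro W ι _ en B B' hB E u hu t x y
  classical
  have : NeZero q := ⟨by omega⟩
  have : Fintype W := Fintype.ofFinite W
  have hq0 : (0 : ℝ) < q := by exact_mod_cast (by omega : 0 < q)
  have hg := gin (PW (q := q) u en B' E) (PW (q := q) u en B E) (PW_nonneg hu.le en B' E)
    (PW_nonneg hu.le en B E)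
    (fun ε => QOne_rep en B B' hB E hu.le fun v => (((ε v : Fin 2) : ℕ) : ZMod q)) x y t
  rw [PW_cs hq, PW_cs hq, PW_cs hq, PW_cs hq, PW_cs hq, PW_cs hq, PW_one hq, PW_one hq] at hg
  have hZ1 := aZ_pos hu hq0 en B' E
  have hZ2 := aZ_pos hu hq0 en B E
  have key : ∀ (A : W → W → Prop) (a b : W), 0 < aZ u q en A E (fun _ => 1) →
      aZ u q en A E (fun ω => ind (Cn en A ω a b)) =
        aC u q en A E a b * aZ u q en A E (fun _ => 1) := by
    intro A a b h
    unfold aC aEx
    rw [div_mul_cancel₀ _ h.ne']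
  rw [key B' x t hZ1, key B' y t hZ1, key B' x y hZ1, key B x t hZ2, key B y t hZ2,
    key B x y hZ2] at hg
  set Z1 := aZ u q en B' E (fun _ => 1) with hZ1d
  set Z2 := aZ u q en B E (fun _ => 1) with hZ2d
  have hpos : 0 < (Z1 * Z2) ^ 2 := by positivity
  have h3 : (Z1 * Z2) ^ 2 *
      (aC u q en B' E x t * aC u q en B E y t - aC u q en B' E y t * aC u q en B E x t) ^ 2 ≤
      (Z1 * Z2) ^ 2 * (2 * (aC u q en B' E x y - aC u q en B E x y)) := by
    refine le_trans (le_of_eq ?_) (hg.trans (le_of_eq ?_))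
    · ring
    · ring
  exact le_of_mul_le_mul_left h3 hpos

end Pool.Agent.Lib.MP_31386d_pr_POTTS
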