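import Pool.Agent.Lib.MP_31386d_pr_POTTS.Potts
import Pool.Agent.Lib.MP_31386d_pr_POTTS.Gin

/-!
# The second quadratic inequality for integer `q`

Module A9 of project POTTS.
-/

set_option autoImplicit false

namespace Pool.Agent.Lib.MP_31386d_pr_POTTS

open Finset

section aux

variable {W ι : Type}

/-- the wired pairs -/
noncomputable def QTwo_S [Fintype W] (B : W → W → Prop) : Finset (W × W) := by
  classical
  exact univ.filter (fun p => B p.1 p.2)

theorem QTwo_mem [Fintype W] (B : W → W → Prop) (p : W × W) : p ∈ QTwo_S B ↔ B p.1 p.2 := by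
  classical
  unfold QTwo_S
  simp

theorem QTwo_ind_prod [Fintype W] (B P : W → W → Prop) :
    ind (∀ p r, B p r → P p r) = ∏ a ∈ QTwo_S B, ind (P a.1 a.2) := by
  by_cases h : ∀ p r, B p r → P p r
  · rw [ind_of h, prod_eq_one]
    intro a ha
    exact ind_of (h _ _ ((QTwo_mem B a).mp ha))
  · rw [ind_not h]
    push Not at h
    obtain ⟨p, r, hB, hP⟩ := h
    symm
    exact prod_eq_zero ((QTwo_mem B (p, r)).mpr hB) (ind_not hP)

variable {q : ℕ} [NeZero q] [Fintype W] [DecidableEq W]

theorem QTwo_PW_mrg (u : ℝ) (en : ι → W × W) (B : W → W → Prop) (E : Finset ι) (t b : W)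
    (s : W → ZMod q) : PW u en (Mrg B t b) E s = PW u en B E s * ind (s t = s b) := by
  unfold PW
  rw [mul_assoc]
  congr 1
  by_cases h1 : ∀ x y, B x y → s x = s y
  · by_cases h2 : s t = s b
    · rw [ind_of h1, ind_of h2, ind_of, mul_one]
      rintro x y (h | ⟨rfl, rfl⟩)
      · exact h1 x y h
      · exact h2
    · rw [ind_not h2, ind_not, mul_zero]
      intro h
      exact h2 (h t b (Or.inr ⟨rfl, rfl⟩))
  · rw [ind_not h1, ind_not, zero_mul]
    intro h
    exact h1 fun x y hxy => h x y (Or.inl hxy)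

theorem QTwo_rep (u : ℝ) (hu : 0 < u) (en : ι → W × W) (B : W → W → Prop) (E : Finset ι)
    (t b : W) (ee : W → ZMod q) :
    Rep (fun x y : W → ZMod q => PW u en (Mrg B t b) E (x - y) *
      (PW u en B E (x + y + ee) * ind (¬ (x + y + ee) t = (x + y + ee) b))) := by
  have h1 := Rep.prod E (fun e (x y : W → ZMod q) =>
    (1 + u * ind ((x - y) (en e).1 = (x - y) (en e).2)) *
      (1 + u * ind ((x + y + ee) (en e).1 = (x + y + ee) (en e).2)))
    (fun e _ => rep_edge ee _ _ hu.le le_rfl)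
  have h2 := Rep.prod (QTwo_S B) (fun a (x y : W → ZMod q) => ind ((x - y) a.1 = (x - y) a.2) *
      ind ((x + y + ee) a.1 = (x + y + ee) a.2)) (fun a _ => rep_bothc ee _ _)
  have h3 := rep_diff ee t b
  refine ((h1.mul h2).mul h3).congr ?_
  intro x y
  rw [QTwo_PW_mrg]
  unfold PW
  rw [QTwo_ind_prod B (fun p r => (x - y) p = (x - y) r),
    QTwo_ind_prod B (fun p r => (x + y + ee) p = (x + y + ee) r), prod_mul_distrib,
    prod_mul_distrib]
  ring

end aux

section termwise

variable {W ι : Type} [Finite W] {u q : ℝ} {en : ι → W × W} {B : W → W → Prop} {E : Finset ι}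
  {t b : W}

theorem QTwo_diff (hq : 0 < q) (f g o : Finset ι → ℝ)
    (h1 : ∀ ω, Cn en B ω t b → g ω = f ω)
    (h2 : ∀ ω, ¬ Cn en B ω t b → g ω = f ω + o ω) :
    aZ u q en B E f - aZ u q en (Mrg B t b) E g =
      (1 - 1 / q) * aZD u q en B E t b f - (1 / q) * aZD u q en B E t b o := by
  unfold aZD aZ
  rw [mul_sum, mul_sum, ← sum_sub_distrib, ← sum_sub_distrib]
  refine sum_congr rfl fun ω _ => ?_
  beta_reduce
  by_cases h : Cn en B ω t b
  · rw [cc_mrg_of h, h1 ω h, ind_not (not_not.mpr h)]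
    ring
  · have e1 := cc_mrg_not h
    rw [h2 ω h, ind_of h, ← e1, pow_succ]
    field_simp
    ring

theorem QTwo_pos (hu : 0 < u) (hq : 0 < q) (htb : ¬ Cn en B ∅ t b) :
    0 < aZD u q en B E t b (fun _ => 1) := by
  unfold aZD aZ
  refine sum_pos' (fun ω _ => ?_) ⟨∅, empty_mem_powerset _, ?_⟩
  · have := ind_nonneg (¬ Cn en B ω t b)
    positivity
  · beta_reduce
    rw [ind_of htb]
    positivity

theorem QTwo_aZD_congr (f g : Finset ι → ℝ) (h : ∀ ω, ¬ Cn en B ω t b → f ω = g ω) :
    aZD u q en B E t b f = aZD u q en B E t b g := by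
  unfold aZD aZ
  refine sum_congr rfl fun ω _ => ?_
  beta_reduce
  by_cases hc : Cn en B ω t b
  · rw [ind_not (not_not.mpr hc)]
    ring
  · rw [h ω hc]

end termwise

theorem q2_int (q : ℕ) (hq : 2 ≤ q) : Q2 (q : ℝ) (2 * q * (q - 1)) := by
  intro W ι _ en B E u hu t b htb x y
  classical
  have hne : NeZero q := ⟨by omega⟩
  have : Fintype W := Fintype.ofFinite W
  have hq0 : (0 : ℝ) < q := by
    have : 0 < q := by omega
    exact_mod_cast this
  set F1 : (W → ZMod q) → ℝ := fun s => PW u en (Mrg B t b) E s with hF1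
  set F2 : (W → ZMod q) → ℝ := fun s => PW u en B E s * ind (¬ s t = s b) with hF2
  have hgin := gin F1 F2 (fun s => PW_nonneg hu.le _ _ _ s)
    (fun s => mul_nonneg (PW_nonneg hu.le _ _ _ s) (ind_nonneg _))
    (fun ε => QTwo_rep u hu en B E t b _) x y t
  -- the sums of the first copy
  have hZo : 0 < aZ u q en (Mrg B t b) E (fun _ => 1) := aZ_pos hu hq0 _ _ _
  have hZD : 0 < aZD u q en B E t b (fun _ => 1) := QTwo_pos hu hq0 htb
  set Zo := aZ u (q : ℝ) en (Mrg B t b) E (fun _ => 1) with hZo'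
  set ZD := aZD u (q : ℝ) en B E t b (fun _ => 1) with hZD'
  have s1 : ∑ s, F1 s = Zo := PW_one hq u en (Mrg B t b) E
  have s2 : ∀ v w, ∑ s, F1 s * cs (s v - s w) = Zo * aC u q en (Mrg B t b) E v w := by
    intro v w
    have h := PW_cs (q := q) hq u en (Mrg B t b) E v w
    have h' : ∑ s, F1 s * cs (s v - s w) = _ := h
    rw [h']
    unfold aC aEx
    rw [← hZo', mul_div_cancel₀ _ hZo.ne']
  -- the sums of the second copy
  have hsplit : ∀ Φ : (W → ZMod q) → ℝ, ∑ s, F2 s * Φ s =
      ∑ s, PW u en B E s * Φ s - ∑ s, PW u en (Mrg B t b) E s * Φ s := by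
    intro Φ
    rw [← sum_sub_distrib]
    refine sum_congr rfl fun s _ => ?_
    rw [QTwo_PW_mrg, hF2]
    by_cases h : s t = s b
    · simp only [ind_of h, ind_not (not_not.mpr h)]
      ring
    · simp only [ind_not h, ind_of h]
      ring
  have s3 : ∑ s, F2 s = (1 - 1 / (q : ℝ)) * ZD := by
    have h := hsplit (fun _ => 1)
    simp only [mul_one] at h
    rw [h, PW_one hq u en B E, PW_one hq u en (Mrg B t b) E,
      QTwo_diff (t := t) (b := b) hq0 (fun _ => 1) (fun _ => 1) (fun _ => 0) (fun _ _ => rfl)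
        (fun _ _ => by ring)]
    have h0 : aZD u (q : ℝ) en B E t b (fun _ => 0) = 0 := by
      unfold aZD aZ
      simp
    rw [h0, mul_zero, sub_zero]
  have hED : ∀ f : Finset ι → ℝ, aZD u (q : ℝ) en B E t b f = ZD * aED u q en B E t b f := by
    intro f
    unfold aED
    rw [← hZD', mul_div_cancel₀ _ hZD.ne']
  have s4 : ∀ v w, ∑ s, F2 s * cs (s v - s w) =
      ZD * ((1 - 1 / (q : ℝ)) * aCD u q en B E t b v w -
        (1 / (q : ℝ)) * aED u q en B E t b (fun ω => ind (Opp en B t b ω v w))) := by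
    intro v w
    rw [hsplit (fun s => cs (s v - s w)), PW_cs hq u en B E v w,
      PW_cs hq u en (Mrg B t b) E v w,
      QTwo_diff (t := t) (b := b) hq0 (fun ω => ind (Cn en B ω v w))
        (fun ω => ind (Cn en (Mrg B t b) ω v w)) (fun ω => ind (Opp en B t b ω v w)) ?_ ?_]
    · rw [hED, hED]
      unfold aCD
      ring
    · intro ω hω
      by_cases h : Cn en B ω v w
      · rw [ind_of h, ind_of ((cn_mrg t b).mpr (Or.inl h))]
      · rw [ind_not h, ind_not]
        intro hm
        rcases (cn_mrg t b).mp hm with h1 | ⟨h1, h2⟩ | ⟨h1, h2⟩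
        · exact h h1
        · exact h (h1.trans (hω.trans h2))
        · exact h (h1.trans (hω.symm.trans h2))
    · intro ω hω
      by_cases h : Cn en B ω v w
      · have hO : ¬ Opp en B t b ω v w := by
          rintro (⟨h1, h2⟩ | ⟨h1, h2⟩)
          · exact hω (h1.symm.trans (h.trans h2))
          · exact hω (h2.symm.trans (h.symm.trans h1))
        rw [ind_of h, ind_not hO, ind_of ((cn_mrg t b).mpr (Or.inl h)), add_zero]
      · rw [ind_not h, zero_add]
        by_cases hO : Opp en B t b ω v w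
        · rw [ind_of hO, ind_of]
          rw [cn_mrg]
          rcases hO with ⟨h1, h2⟩ | ⟨h1, h2⟩
          · exact Or.inr (Or.inl ⟨h1, h2.symm⟩)
          · exact Or.inr (Or.inr ⟨h1, h2.symm⟩)
        · rw [ind_not hO, ind_not]
          intro hm
          rcases (cn_mrg t b).mp hm with h1 | ⟨h1, h2⟩ | ⟨h1, h2⟩
          · exact h h1
          · exact hO (Or.inl ⟨h1, h2.symm⟩)
          · exact hO (Or.inr ⟨h1, h2.symm⟩)
  have s5 : ∀ v, ∑ s, F2 s * cs (s v - s t) = ZD / q * nn u q en B E t b v := by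
    intro v
    rw [s4 v t]
    have h1 : aED u (q : ℝ) en B E t b (fun ω => ind (Opp en B t b ω v t)) =
        aCD u q en B E t b v b := by
      unfold aCD aED
      congr 1
      apply QTwo_aZD_congr
      intro ω hω
      by_cases h : Cn en B ω v b
      · rw [ind_of h, ind_of]
        exact Or.inr ⟨h, Cn.refl t⟩
      · rw [ind_not h, ind_not]
        rintro (⟨_, h2⟩ | ⟨h1, _⟩)
        · exact hω h2
        · exact h h1
    rw [h1]
    unfold nn
    field_simp
  rw [s1, s3, s2 x t, s2 y t, s2 x y, s5 x, s5 y, s4 x y] at hgin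
  have e1 : (Zo * aC u q en (Mrg B t b) E x t * (ZD / q * nn u q en B E t b y) -
      Zo * aC u q en (Mrg B t b) E y t * (ZD / q * nn u q en B E t b x)) ^ 2 =
      (Zo * ZD / q) ^ 2 * (mm u q en B E t b x * nn u q en B E t b y -
        mm u q en B E t b y * nn u q en B E t b x) ^ 2 := by
    unfold mm
    ring
  have e2 : 2 * (Zo * ((1 - 1 / (q : ℝ)) * ZD)) * (Zo * aC u q en (Mrg B t b) E x y *
      ((1 - 1 / (q : ℝ)) * ZD) - Zo * (ZD * ((1 - 1 / (q : ℝ)) * aCD u q en B E t b x y -
        (1 / (q : ℝ)) * aED u q en B E t b (fun ω => ind (Opp en B t b ω x y))))) =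
      (Zo * ZD / q) ^ 2 * (2 * q * (q - 1) * XX u q en B E t b x y) := by
    unfold XX
    field_simp
    ring
  rw [e1, e2] at hgin
  exact le_of_mul_le_mul_left hgin (by positivity)

end Pool.Agent.Lib.MP_31386d_pr_POTTS
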