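import Pool.Agent.Lib.MP_31386d_pr_POTTS.Dom

/-!
# Kernels which are sums of squares

Module A3 of project POTTS.
-/

set_option autoImplicit false

namespace Pool.Agent.Lib.MP_31386d_pr_POTTS

open Finset

/-- Kernels which are sums of squares. -/
def Rep {X : Type} (K : X → X → ℝ) : Prop :=
  ∃ (J : Type) (_ : Fintype J) (h : J → X → ℝ), ∀ x y, K x y = ∑ j, h j x * h j y

variable {X Y : Type} {K K' : X → X → ℝ}

theorem Rep.sum_nonneg [Fintype X] (h : Rep K) : 0 ≤ ∑ x, ∑ y, K x y := by
  obtain ⟨J, hJ, f, hf⟩ := h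
  have h1 : ∑ x, ∑ y, K x y = ∑ j, (∑ x, f j x) ^ 2 := by
    calc ∑ x, ∑ y, K x y = ∑ x, ∑ y, ∑ j, f j x * f j y :=
          Finset.sum_congr rfl fun x _ => Finset.sum_congr rfl fun y _ => hf x y
      _ = ∑ x, ∑ j, ∑ y, f j x * f j y :=
          Finset.sum_congr rfl fun x _ => Finset.sum_comm
      _ = ∑ j, ∑ x, ∑ y, f j x * f j y := Finset.sum_comm
      _ = ∑ j, (∑ x, f j x) ^ 2 := by
          refine Finset.sum_congr rfl fun j _ => ?_
          rw [sq, Finset.sum_mul_sum]
  rw [h1]
  exact Finset.sum_nonneg fun j _ => sq_nonneg _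

theorem Rep.congr (h : Rep K) (h' : ∀ x y, K' x y = K x y) : Rep K' := by
  obtain ⟨J, hJ, f, hf⟩ := h
  exact ⟨J, hJ, f, fun x y => (h' x y).trans (hf x y)⟩

theorem Rep.add (h : Rep K) (h' : Rep K') : Rep (fun x y => K x y + K' x y) := by
  obtain ⟨J, hJ, f, hf⟩ := h
  obtain ⟨J', hJ', f', hf'⟩ := h'
  refine ⟨J ⊕ J', inferInstance, Sum.elim f f', fun x y => ?_⟩
  rw [Fintype.sum_sum_type]
  show K x y + K' x y = _
  rw [hf, hf']
  rfl

theorem Rep.smul {c : ℝ} (hc : 0 ≤ c) (h : Rep K) : Rep (fun x y => c * K x y) := by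
  obtain ⟨J, hJ, f, hf⟩ := h
  refine ⟨J, hJ, fun j x => Real.sqrt c * f j x, fun x y => ?_⟩
  show c * K x y = _
  rw [hf, Finset.mul_sum]
  refine Finset.sum_congr rfl fun j _ => ?_
  have h1 := Real.mul_self_sqrt hc
  calc c * (f j x * f j y) = Real.sqrt c * Real.sqrt c * (f j x * f j y) := by rw [h1]
    _ = _ := by ring

theorem Rep.mul (h : Rep K) (h' : Rep K') : Rep (fun x y => K x y * K' x y) := by
  obtain ⟨J, hJ, f, hf⟩ := h
  obtain ⟨J', hJ', f', hf'⟩ := h'
  refine ⟨J × J', inferInstance, fun j x => f j.1 x * f' j.2 x, fun x y => ?_⟩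
  show K x y * K' x y = _
  rw [hf, hf', Finset.sum_mul_sum, Fintype.sum_prod_type]
  refine Finset.sum_congr rfl fun j _ => Finset.sum_congr rfl fun j' _ => ?_
  ring

theorem Rep.sq (f : X → ℝ) : Rep (fun x y => f x * f y) :=
  ⟨Unit, inferInstance, fun _ => f, fun x y => by simp⟩

theorem Rep.one : Rep (fun _ _ : X => (1 : ℝ)) :=
  ⟨Unit, inferInstance, fun _ _ => 1, fun x y => by simp⟩

theorem Rep.prod {α : Type} (s : Finset α) (F : α → X → X → ℝ) (h : ∀ a ∈ s, Rep (F a)) :
    Rep (fun x y => ∏ a ∈ s, F a x y) := by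
  classical
  induction s using Finset.induction_on with
  | empty => exact Rep.one.congr fun x y => by simp
  | insert a s ha ih =>
    have h1 := (h a (mem_insert_self a s)).mul (ih fun b hb => h b (mem_insert_of_mem hb))
    exact h1.congr fun x y => by rw [Finset.prod_insert ha]

theorem Rep.comp {L : Y → Y → ℝ} (h : Rep L) (φ : X → Y) : Rep (fun x y => L (φ x) (φ y)) := by
  obtain ⟨J, hJ, f, hf⟩ := h
  exact ⟨J, hJ, fun j x => f j (φ x), fun x y => hf _ _⟩

/-! ### Kernels on `ZMod q` -/

private theorem rep_ind_congr {P Q : Prop} (h : P ↔ Q) : ind P = ind Q := by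
  rw [propext h]

private theorem rep_sum_ind {Z : Type} [Fintype Z] (a : Z) (g : Z → ℝ) :
    ∑ z, ind (a = z) * g z = g a := by
  rw [Finset.sum_eq_single a]
  · rw [ind_of rfl, one_mul]
  · intro b _ hb
    rw [ind_not (fun h => hb h.symm), zero_mul]
  · intro h
    exact absurd (Finset.mem_univ a) h

variable {q : ℕ} [NeZero q]

private theorem rep_aux (e : ZMod q) (s : ℝ) (hs : s * s = 1) :
    Rep (fun a c : ZMod q => ind (a = c) + s * ind (a + c + e = 0)) := by
  have h2 : Real.sqrt (1 / 2) * Real.sqrt (1 / 2) = 1 / 2 := Real.mul_self_sqrt (by norm_num)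
  refine ⟨ZMod q, inferInstance,
    fun z a => (ind (a = z) + s * ind (-a - e = z)) * Real.sqrt (1 / 2), fun a c => ?_⟩
  have h3 : ∀ z, (ind (a = z) + s * ind (-a - e = z)) * Real.sqrt (1 / 2) *
      ((ind (c = z) + s * ind (-c - e = z)) * Real.sqrt (1 / 2)) =
      (1 / 2) * (ind (a = z) * (ind (c = z) + s * ind (-c - e = z))) +
      (1 / 2 * s) * (ind (-a - e = z) * (ind (c = z) + s * ind (-c - e = z))) := by
    intro z
    linear_combination ((ind (a = z) + s * ind (-a - e = z)) *
      (ind (c = z) + s * ind (-c - e = z))) * h2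
  rw [Finset.sum_congr rfl fun z _ => h3 z, Finset.sum_add_distrib, ← Finset.mul_sum,
    ← Finset.mul_sum, rep_sum_ind a (fun z => ind (c = z) + s * ind (-c - e = z)),
    rep_sum_ind (-a - e) (fun z => ind (c = z) + s * ind (-c - e = z))]
  have e1 : ind (c = a) = ind (a = c) := rep_ind_congr eq_comm
  have e2 : ind (-c - e = a) = ind (a + c + e = 0) := by
    refine rep_ind_congr ⟨fun h => ?_, fun h => ?_⟩
    · rw [← h]; ring
    · linear_combination (-1 : ZMod q) * h
  have e3 : ind (c = -a - e) = ind (a + c + e = 0) := by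
    refine rep_ind_congr ⟨fun h => ?_, fun h => ?_⟩
    · rw [h]; ring
    · linear_combination h
  have e4 : ind (-c - e = -a - e) = ind (a = c) := by
    refine rep_ind_congr ⟨fun h => ?_, fun h => ?_⟩
    · exact (neg_injective (sub_left_injective h)).symm
    · rw [h]
  show ind (a = c) + s * ind (a + c + e = 0) = _
  rw [e1, e2, e3, e4]
  linear_combination (-1 / 2 * ind (a = c)) * hs

theorem rep_plus (e : ZMod q) : Rep (fun a c : ZMod q => ind (a = c) + ind (a + c + e = 0)) :=
  (rep_aux e 1 (by norm_num)).congr fun a c => by rw [one_mul]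

theorem rep_minus (e : ZMod q) : Rep (fun a c : ZMod q => ind (a = c) - ind (a + c + e = 0)) :=
  (rep_aux e (-1) (by norm_num)).congr fun a c => by ring

theorem rep_both (e : ZMod q) : Rep (fun a c : ZMod q => ind (a = c) * ind (a + c + e = 0)) := by
  refine ⟨ZMod q, inferInstance, fun z a => ind (a = z) * ind (z + z + e = 0), fun a c => ?_⟩
  have h3 : ∀ z, ind (a = z) * ind (z + z + e = 0) * (ind (c = z) * ind (z + z + e = 0)) =
      ind (a = z) * (ind (z + z + e = 0) * (ind (c = z) * ind (z + z + e = 0))) := fun z => by ring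
  rw [Finset.sum_congr rfl fun z _ => h3 z,
    rep_sum_ind a (fun z => ind (z + z + e = 0) * (ind (c = z) * ind (z + z + e = 0)))]
  show ind (a = c) * ind (a + c + e = 0) =
    ind (a + a + e = 0) * (ind (c = a) * ind (a + a + e = 0))
  by_cases h : a = c
  · subst h
    rw [ind_of rfl]
    by_cases h2 : a + a + e = 0
    · rw [ind_of h2]; ring
    · rw [ind_not h2]; ring
  · rw [ind_not h, ind_not (fun h' : c = a => h h'.symm)]
    ring

variable {W : Type}

omit [NeZero q] in
private theorem rep_first_iff (v w : W) (x y : W → ZMod q) :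
    ind ((x - y) v = (x - y) w) = ind (x v - x w = y v - y w) := by
  refine rep_ind_congr ⟨fun h => ?_, fun h => ?_⟩
  · simp only [Pi.sub_apply] at h
    linear_combination h
  · simp only [Pi.sub_apply]
    linear_combination h

omit [NeZero q] in
private theorem rep_second_iff (ε : W → ZMod q) (v w : W) (x y : W → ZMod q) :
    ind ((x + y + ε) v = (x + y + ε) w) =
      ind (x v - x w + (y v - y w) + (ε v - ε w) = 0) := by
  refine rep_ind_congr ⟨fun h => ?_, fun h => ?_⟩
  · simp only [Pi.add_apply] at h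
    linear_combination h
  · simp only [Pi.add_apply]
    linear_combination h

/-- Edge weights, the coupling `α` of the first copy being larger than the coupling `β` of the
second copy. -/
theorem rep_edge (ε : W → ZMod q) (v w : W) {α β : ℝ} (hβ : 0 ≤ β) (hαβ : β ≤ α) :
    Rep (fun x y : W → ZMod q => (1 + α * ind ((x - y) v = (x - y) w)) *
      (1 + β * ind ((x + y + ε) v = (x + y + ε) w))) := by
  have hα : 0 ≤ α := hβ.trans hαβ
  have h1 := (rep_plus (ε v - ε w)).comp (fun x : W → ZMod q => x v - x w)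
  have h2 := (rep_minus (ε v - ε w)).comp (fun x : W → ZMod q => x v - x w)
  have h3 := (rep_both (ε v - ε w)).comp (fun x : W → ZMod q => x v - x w)
  have h4 := ((Rep.one.add (h1.smul (c := (α + β) / 2) (by linarith))).add
    (h2.smul (c := (α - β) / 2) (by linarith))).add (h3.smul (c := α * β) (mul_nonneg hα hβ))
  refine h4.congr fun x y => ?_
  rw [rep_first_iff, rep_second_iff]
  ring

/-- Constraint in the first copy. -/
theorem rep_first (ε : W → ZMod q) (v w : W) :
    Rep (fun x y : W → ZMod q => ind ((x - y) v = (x - y) w)) := by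
  have h1 := (rep_plus (ε v - ε w)).comp (fun x : W → ZMod q => x v - x w)
  have h2 := (rep_minus (ε v - ε w)).comp (fun x : W → ZMod q => x v - x w)
  refine ((h1.smul (c := 1 / 2) (by norm_num)).add
    (h2.smul (c := 1 / 2) (by norm_num))).congr fun x y => ?_
  rw [rep_first_iff]
  ring

/-- Constraint in both copies. -/
theorem rep_bothc (ε : W → ZMod q) (v w : W) :
    Rep (fun x y : W → ZMod q => ind ((x - y) v = (x - y) w) *
      ind ((x + y + ε) v = (x + y + ε) w)) := by
  refine ((rep_both (ε v - ε w)).comp (fun x : W → ZMod q => x v - x w)).congr fun x y => ?_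
  rw [rep_first_iff, rep_second_iff]

/-- Equality in the first copy, difference in the second copy. -/
theorem rep_diff (ε : W → ZMod q) (v w : W) :
    Rep (fun x y : W → ZMod q => ind ((x - y) v = (x - y) w) *
      ind (¬ (x + y + ε) v = (x + y + ε) w)) := by
  have h2 := (rep_minus (ε v - ε w)).comp (fun x : W → ZMod q => x v - x w)
  refine ((h2.smul (c := 1 / 2) (by norm_num)).add
    ((h2.mul h2).smul (c := 1 / 2) (by norm_num))).congr fun x y => ?_
  have hn : ind (¬ (x + y + ε) v = (x + y + ε) w) =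
      1 - ind ((x + y + ε) v = (x + y + ε) w) := by
    by_cases h : (x + y + ε) v = (x + y + ε) w
    · rw [ind_of h, ind_not (not_not.mpr h)]; ring
    · rw [ind_not h, ind_of h]; ring
  rw [hn, rep_first_iff, rep_second_iff]
  have hA : ind (x v - x w = y v - y w) * ind (x v - x w = y v - y w) =
      ind (x v - x w = y v - y w) := by
    by_cases h : x v - x w = y v - y w
    · rw [ind_of h]; ring
    · rw [ind_not h]; ring
  have hB : ind (x v - x w + (y v - y w) + (ε v - ε w) = 0) *
      ind (x v - x w + (y v - y w) + (ε v - ε w) = 0) =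
      ind (x v - x w + (y v - y w) + (ε v - ε w) = 0) := by
    by_cases h : x v - x w + (y v - y w) + (ε v - ε w) = 0
    · rw [ind_of h]; ring
    · rw [ind_not h]; ring
  linear_combination (-1 / 2 : ℝ) * hA - (1 / 2 : ℝ) * hB

end Pool.Agent.Lib.MP_31386d_pr_POTTS
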