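import Pool.Agent.Lib.MP_31386d_pr_POTTS.MeetB
import Pool.Agent.Lib.MP_31386d_pr_POTTS.RSet

/-!
# Slabs: geometry

Module G10 of project POTTS.
-/

set_option autoImplicit false

namespace Pool.Agent.Lib.MP_31386d_pr_POTTS

open Finset
open Pool.Agent.Lib.MP_31386d_pr

variable {D : ℕ} {o u₁ q : ℝ}

theorem mem_slb {L M : ℕ} {x : Pt (D + 1)} : x ∈ slb D L M ↔
    (0 ≤ x 0 ∧ x 0 < L) ∧ ∀ i : Fin D, 0 ≤ x i.succ ∧ x i.succ ≤ M := by
  rw [slb, Fintype.mem_piFinset, Fin.forall_fin_succ]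
  simp

private theorem SlabA_aux {n g w : ℕ} (hn : 1 ≤ n) (hw : g + 1 ≤ w) {a b t : ℤ}
    (hab : a + 3 ≤ b) (h1 : (n : ℤ) * w * b ≤ t) (h2 : t < n * w * a + (w + 2 + 2 * g) * n) :
    False := by
  have hn' : (1 : ℤ) ≤ n := by exact_mod_cast hn
  have hw' : (g : ℤ) + 1 ≤ w := by exact_mod_cast hw
  have hw0 : (0 : ℤ) ≤ w := by positivity
  have h3 : (n : ℤ) * w * (a + 3) ≤ n * w * b := mul_le_mul_of_nonneg_left hab (by positivity)
  have h4 : ((w : ℤ) + 2 + 2 * g) * n ≤ (3 * w) * n :=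
    mul_le_mul_of_nonneg_right (by linarith) (by linarith)
  nlinarith

private theorem SlabA_reg {n g w : ℕ} (hn : 1 ≤ n) (hw : g + 1 ≤ w) {k k' : Pt D}
    {i : Fin D} (hi : k i + 3 ≤ k' i) {x : Pt (D + 1)} (hx : x ∈ reg n g w k)
    (hx' : x ∈ reg n g w k') : False := by
  rw [mem_reg] at hx hx'
  exact SlabA_aux hn hw hi (hx'.2 i).1 (hx.2 i).2

/-- Regions of coarse blocks in the same class modulo three are disjoint. -/
theorem reg_disjoint {n g w : ℕ} (hn : 1 ≤ n) (hw : g + 1 ≤ w) {k k' : Pt D} (hk : k ≠ k')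
    (hmod : ∀ i, k i % 3 = k' i % 3) : Disjoint (reg n g w k) (reg n g w k') := by
  obtain ⟨i, hi⟩ : ∃ i, k i ≠ k' i := by
    by_contra h
    push Not at h
    exact hk (funext h)
  rw [Finset.disjoint_left]
  intro x hx hx'
  have hm := hmod i
  rcases lt_or_gt_of_ne hi with h | h
  · exact SlabA_reg hn hw (i := i) (by omega) hx hx'
  · exact SlabA_reg hn hw (i := i) (by omega) hx' hx

private theorem SlabA_eq (L n : ℕ) : slab (D + 1) L n =
    shV (Fin.cons 0 (fun _ => -(n : ℤ)) : Pt (D + 1)) (slb D L (2 * n)) := by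
  ext x
  rw [Slab.mem_slab', mem_shV, mem_slb]
  simp only [Pi.sub_apply, Fin.cons_zero, Fin.cons_succ, sub_zero, sub_neg_eq_add]
  push_cast
  constructor
  · rintro ⟨h1, h2⟩
    refine ⟨⟨h1.1, by linarith [h1.2]⟩, fun i => ?_⟩
    have := h2 i
    constructor <;> linarith
  · rintro ⟨h1, h2⟩
    refine ⟨⟨h1.1, by linarith [h1.2]⟩, fun i => ?_⟩
    have := h2 i
    constructor <;> linarith

/-- The same for the slabs of the problem. -/
theorem slab_of_slb {u₂ : ℝ} {L : ℕ} (hL : 1 ≤ L)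
    (h : ∃ α : ℝ, 0 < α ∧ ∀ M : ℕ, ∀ x ∈ slb D L M, ∀ y ∈ slb D L M,
      α < Pb u₂ q (slb D L M) (EI (slb D L M)) (fun ω => Conn ω x y)) :
    ∃ α : ℝ, 0 < α ∧ ∀ n : ℕ, ∀ x ∈ slab (D + 1) L n,
      α < Pb u₂ q (slab (D + 1) L n) (EI (slab (D + 1) L n)) (fun ω => Conn ω 0 x) := by
  obtain ⟨α, hα, h⟩ := h
  refine ⟨α, hα, fun n x hx => ?_⟩
  have h0 : (0 : Pt (D + 1)) ∈ slab (D + 1) L n := Slab.zero_mem_slab hL
  rw [SlabA_eq] at hx h0 ⊢
  rw [mem_shV] at hx h0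
  have h1 := h (2 * n) _ h0 _ hx
  rw [← Pb_conn_shV (Fin.cons 0 (fun _ => -(n : ℤ)) : Pt (D + 1))] at h1
  simpa using h1

end Pool.Agent.Lib.MP_31386d_pr_POTTS
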