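import Pool.Agent.Lib.MP_31386d_pr_POTTS.Deriv

/-!
# Exponential bound for the disconnection of two contracted sets

Module A12 of project POTTS.
-/

set_option autoImplicit false

namespace Pool.Agent.Lib.MP_31386d_pr_POTTS

open Finset

variable {W ι : Type} [Finite W] {q : ℝ} {en : ι → W × W} {B : W → W → Prop} {E : Finset ι}

theorem ratio_le_q {u : ℝ} (hu : 0 < u) (hq : 1 ≤ q) (t b : W) :
    aZD u q en B E t b (fun _ => 1) ≤ q * aZ u q en (Mrg B t b) E (fun _ => 1) := by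
  have hq0 : 0 < q := lt_of_lt_of_le one_pos hq
  unfold aZD aZ
  rw [Finset.mul_sum]
  refine Finset.sum_le_sum fun w _ => ?_
  beta_reduce
  by_cases h : Cn en B w t b
  · have h1 : ind (¬ Cn en B w t b) = 0 := ind_not (fun h2 => h2 h)
    rw [h1]
    have h2 : 0 ≤ q * (u ^ w.card * q ^ cc en (Mrg B t b) w * 1) := by positivity
    simpa using h2
  · have h1 : ind (¬ Cn en B w t b) = 1 := ind_of h
    rw [h1, ← cc_mrg_not h, pow_succ]
    apply le_of_eq
    ring

omit [Finite W] in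
private theorem SplitAbs_posD {u : ℝ} (hu : 0 < u) (hq : 0 < q) {t b : W}
    (htb : ¬ Cn en B ∅ t b) : 0 < aZD u q en B E t b (fun _ => 1) := by
  unfold aZD aZ
  refine Finset.sum_pos' (fun w _ => ?_) ⟨∅, Finset.empty_mem_powerset E, ?_⟩
  · have h := ind_nonneg (¬ Cn en B w t b)
    positivity
  · beta_reduce
    rw [ind_of htb]
    positivity

omit [Finite W] in
/-- `m = 1` on the classes of `t` and `b`. -/
private theorem SplitAbs_mm {u : ℝ} (hu : 0 < u) (hq : 0 < q) {t b z : W}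
    (h : ∀ ω : Finset ι, Cn en (Mrg B t b) ω z t) : mm u q en B E t b z = 1 := by
  unfold mm aC aEx
  rw [aZ_congr (g := fun _ => 1) (fun ω _ => ind_of (h ω))]
  exact div_self (aZ_pos hu hq en (Mrg B t b) E).ne'

omit [Finite W] in
private theorem SplitAbs_aCD_one {u : ℝ} (hu : 0 < u) (hq : 0 < q) {t b : W}
    (htb : ¬ Cn en B ∅ t b) {x y : W} (h : ∀ ω : Finset ι, Cn en B ω x y) :
    aCD u q en B E t b x y = 1 := by
  unfold aCD aED
  have h1 : aZD u q en B E t b (fun ω => ind (Cn en B ω x y)) =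
      aZD u q en B E t b (fun _ => 1) := by
    unfold aZD
    exact aZ_congr fun ω _ => by beta_reduce; rw [ind_of (h ω)]
  rw [h1]
  exact div_self (SplitAbs_posD hu hq htb).ne'

omit [Finite W] in
private theorem SplitAbs_aCD_zero {u : ℝ} {t b x y : W}
    (h : ∀ ω : Finset ι, ¬ Cn en B ω t b → ¬ Cn en B ω x y) :
    aCD u q en B E t b x y = 0 := by
  unfold aCD aED
  have h1 : aZD u q en B E t b (fun ω => ind (Cn en B ω x y)) = 0 := by
    unfold aZD aZ
    refine Finset.sum_eq_zero fun ω _ => ?_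
    beta_reduce
    by_cases h2 : Cn en B ω t b
    · have h3 : ind (¬ Cn en B ω t b) = 0 := ind_not (fun h4 => h4 h2)
      rw [h3]; ring
    · have h3 : ind (Cn en B ω x y) = 0 := ind_not (h ω h2)
      rw [h3]; ring
  rw [h1, zero_div]

theorem split_abs {C : ℝ} (hq : 1 ≤ q) (hC : 0 < C) (hQ : Q2 q C) {t b : W}
    (htb : ¬ Cn en B ∅ t b) {u₀ u₁ : ℝ} (hu₀ : 0 < u₀) (hu : u₀ ≤ u₁) {c₁ : ℝ} (hc₁ : 0 < c₁)
    {EA : Finset ι} (hEA : EA ⊆ E)
    (hm : ∀ u ∈ Set.Icc u₀ u₁, ∀ e ∈ EA, c₁ ≤ mm u q en B E t b (en e).1 ∧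
      c₁ ≤ mm u q en B E t b (en e).2) {ε : ℝ} (hε : 0 ≤ ε)
    (hen : ∀ h : W → ℝ, (∀ x, Cn en B ∅ x t → h x = 1) → (∀ x, Cn en B ∅ x b → h x = 0) →
      ε ≤ ∑ e ∈ EA, (h (en e).1 - h (en e).2) ^ 2) :
    aZD u₁ q en B E t b (fun _ => 1) ≤
      q * Real.exp (-((u₁ - u₀) * (q ^ 2 * c₁ ^ 4 / (C * (1 + u₁))) * ε)) *
        aZ u₁ q en (Mrg B t b) E (fun _ => 1) := by
  have hq0 : 0 < q := lt_of_lt_of_le one_pos hq
  have hu₁ : 0 < u₁ := lt_of_lt_of_le hu₀ hu
  have hmono : ∀ (ω : Finset ι) {x y : W}, Cn en B ∅ x y → Cn en B ω x y := fun ω x y h =>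
    Cn.mono (fun _ _ h => h) (Finset.empty_subset ω) h
  have hB : ∀ (ω : Finset ι) {x y : W}, Cn en B ∅ x y → Cn en (Mrg B t b) ω x y := fun ω x y h =>
    Cn.mono (fun _ _ h => Or.inl h) (Finset.empty_subset ω) h
  -- the main estimate
  have key : ∀ u ∈ Set.Icc u₀ u₁, q ^ 2 * c₁ ^ 4 / C * ε ≤
      ∑ e ∈ E, XX u q en B E t b (en e).1 (en e).2 := by
    intro u huu
    have hu0 : 0 < u := lt_of_lt_of_le hu₀ huu.1
    have hX : ∀ x y : W, 0 ≤ XX u q en B E t b x y := by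
      intro x y
      have h1 := hQ W ι en B E u hu0 t b htb x y
      have h2 : 0 ≤ C * XX u q en B E t b x y := le_trans (sq_nonneg _) h1
      exact nonneg_of_mul_nonneg_right h2 hC
    let h : W → ℝ := fun z => (nn u q en B E t b z / mm u q en B E t b z + 1) / q
    have ht : ∀ x, Cn en B ∅ x t → h x = 1 := by
      intro x hx
      have h1 : mm u q en B E t b x = 1 := SplitAbs_mm hu0 hq0 fun ω => hB ω hx
      have h2 : aCD u q en B E t b x t = 1 := SplitAbs_aCD_one hu0 hq0 htb fun ω => hmono ω hx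
      have h3 : aCD u q en B E t b x b = 0 := SplitAbs_aCD_zero fun ω h4 h5 =>
        h4 ((hmono ω hx).symm.trans h5)
      show (nn u q en B E t b x / mm u q en B E t b x + 1) / q = 1
      unfold nn
      rw [h1, h2, h3]
      field_simp
      ring
    have hb : ∀ x, Cn en B ∅ x b → h x = 0 := by
      intro x hx
      have h1 : mm u q en B E t b x = 1 := SplitAbs_mm hu0 hq0 fun ω =>
        (hB ω hx).trans (Cn.symm (Cn.of_base (Or.inr ⟨rfl, rfl⟩)))
      have h2 : aCD u q en B E t b x b = 1 := SplitAbs_aCD_one hu0 hq0 htb fun ω => hmono ω hx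
      have h3 : aCD u q en B E t b x t = 0 := SplitAbs_aCD_zero fun ω h4 h5 =>
        h4 (h5.symm.trans (hmono ω hx))
      show (nn u q en B E t b x / mm u q en B E t b x + 1) / q = 0
      unfold nn
      rw [h1, h2, h3]
      simp
    have h1 := hen h ht hb
    have h2 : ∑ e ∈ EA, (h (en e).1 - h (en e).2) ^ 2 ≤
        ∑ e ∈ EA, C / (q ^ 2 * c₁ ^ 4) * XX u q en B E t b (en e).1 (en e).2 := by
      refine Finset.sum_le_sum fun e he => ?_
      obtain ⟨hx, hy⟩ := hm u huu e he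
      set x := (en e).1
      set y := (en e).2
      have hmx : 0 < mm u q en B E t b x := lt_of_lt_of_le hc₁ hx
      have hmy : 0 < mm u q en B E t b y := lt_of_lt_of_le hc₁ hy
      have h3 := hQ W ι en B E u hu0 t b htb x y
      have h4 : h x - h y = -(mm u q en B E t b x * nn u q en B E t b y -
          mm u q en B E t b y * nn u q en B E t b x) /
          (q * (mm u q en B E t b x * mm u q en B E t b y)) := by
        show (nn u q en B E t b x / mm u q en B E t b x + 1) / q -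
          (nn u q en B E t b y / mm u q en B E t b y + 1) / q = _
        field_simp
        ring
      rw [h4, div_pow, neg_sq]
      have h5 : c₁ ^ 2 ≤ mm u q en B E t b x * mm u q en B E t b y := by
        rw [sq]
        exact mul_le_mul hx hy hc₁.le hmx.le
      have h6 : q ^ 2 * c₁ ^ 4 ≤ (q * (mm u q en B E t b x * mm u q en B E t b y)) ^ 2 := by
        rw [mul_pow]
        refine mul_le_mul_of_nonneg_left ?_ (sq_nonneg q)
        calc c₁ ^ 4 = (c₁ ^ 2) ^ 2 := by ring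
          _ ≤ _ := pow_le_pow_left₀ (sq_nonneg _) h5 2
      have h7 : 0 < q ^ 2 * c₁ ^ 4 := by positivity
      calc _ ≤ (C * XX u q en B E t b x y) / (q ^ 2 * c₁ ^ 4) := by
            exact div_le_div₀ (mul_nonneg hC.le (hX x y)) h3 h7 h6
        _ = _ := by ring
    have h3 : ∑ e ∈ EA, XX u q en B E t b (en e).1 (en e).2 ≤
        ∑ e ∈ E, XX u q en B E t b (en e).1 (en e).2 :=
      Finset.sum_le_sum_of_subset_of_nonneg hEA fun e _ _ => hX _ _
    rw [← Finset.mul_sum] at h2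
    have h4 := le_trans h1 h2
    have h7 : 0 < q ^ 2 * c₁ ^ 4 := by positivity
    have h5 : q ^ 2 * c₁ ^ 4 / C * ε ≤ q ^ 2 * c₁ ^ 4 / C * (C / (q ^ 2 * c₁ ^ 4) *
        ∑ e ∈ EA, XX u q en B E t b (en e).1 (en e).2) :=
      mul_le_mul_of_nonneg_left h4 (by positivity)
    refine le_trans h5 (le_trans (le_of_eq ?_) h3)
    field_simp
  set k : ℝ := q ^ 2 * c₁ ^ 4 / (C * (1 + u₁)) * ε with hk
  have hk0 : 0 ≤ k := by positivity
  let R : ℝ → ℝ := fun v => aZD v q en B E t b (fun _ => 1) /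
    aZ v q en (Mrg B t b) E (fun _ => 1)
  let S : ℝ → ℝ := fun u => 1 / (1 + u) * ∑ e ∈ E, XX u q en B E t b (en e).1 (en e).2
  have hR : ∀ u, 0 < u → HasDerivAt R (-(R u) * S u) u := fun u hu0 =>
    hasDerivAt_ratio hu0 hq0 htb
  have hR0 : ∀ u, 0 < u → 0 ≤ R u := fun u hu0 =>
    div_nonneg (SplitAbs_posD hu0 hq0 htb).le (aZ_pos hu0 hq0 en (Mrg B t b) E).le
  have hS : ∀ u ∈ Set.Icc u₀ u₁, k ≤ S u := by
    intro u huu
    have hu0 : 0 < u := lt_of_lt_of_le hu₀ huu.1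
    have h1 := key u huu
    have h2 : 0 ≤ q ^ 2 * c₁ ^ 4 / C * ε := by positivity
    calc k = 1 / (1 + u₁) * (q ^ 2 * c₁ ^ 4 / C * ε) := by
            rw [hk]; field_simp
      _ ≤ 1 / (1 + u) * (q ^ 2 * c₁ ^ 4 / C * ε) := by
            refine mul_le_mul_of_nonneg_right ?_ h2
            exact one_div_le_one_div_of_le (by linarith) (by linarith [huu.2])
      _ ≤ _ := mul_le_mul_of_nonneg_left h1 (by positivity)
  let G : ℝ → ℝ := fun v => R v * Real.exp (k * (v - u₀))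
  have hG : ∀ u, 0 < u → HasDerivAt G
      ((-(R u) * S u) * Real.exp (k * (u - u₀)) + R u * (Real.exp (k * (u - u₀)) * (k * 1))) u := by
    intro u hu0
    exact (hR u hu0).mul ((((hasDerivAt_id u).sub_const u₀).const_mul k).exp)
  have hanti : AntitoneOn G (Set.Icc u₀ u₁) := by
    refine antitoneOn_of_deriv_nonpos (convex_Icc _ _) ?_ ?_ ?_
    · intro u huu
      exact (hG u (lt_of_lt_of_le hu₀ huu.1)).continuousAt.continuousWithinAt
    · intro u huu
      rw [interior_Icc] at huu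
      exact (hG u (lt_trans hu₀ huu.1)).differentiableAt.differentiableWithinAt
    · intro u huu
      rw [interior_Icc] at huu
      have hu0 : 0 < u := lt_trans hu₀ huu.1
      rw [(hG u hu0).deriv]
      have h1 := hS u ⟨huu.1.le, huu.2.le⟩
      have h2 : (-(R u) * S u) * Real.exp (k * (u - u₀)) +
          R u * (Real.exp (k * (u - u₀)) * (k * 1)) =
          -(R u * Real.exp (k * (u - u₀)) * (S u - k)) := by ring
      rw [h2]
      have h3 : 0 ≤ R u * Real.exp (k * (u - u₀)) * (S u - k) :=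
        mul_nonneg (mul_nonneg (hR0 u hu0) (Real.exp_pos _).le) (sub_nonneg.2 h1)
      linarith
  have h1 : G u₁ ≤ G u₀ := hanti ⟨le_refl _, hu⟩ ⟨hu, le_refl _⟩ hu
  have h2 : G u₀ = R u₀ := by
    show R u₀ * Real.exp (k * (u₀ - u₀)) = R u₀
    rw [sub_self, mul_zero, Real.exp_zero, mul_one]
  have h3 : R u₀ ≤ q := by
    show _ / _ ≤ q
    rw [div_le_iff₀ (aZ_pos hu₀ hq0 en (Mrg B t b) E)]
    exact ratio_le_q hu₀ hq t b
  have h4 : R u₁ * Real.exp (k * (u₁ - u₀)) ≤ q := by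
    have h5 : G u₁ = R u₁ * Real.exp (k * (u₁ - u₀)) := rfl
    rw [← h5]
    exact le_trans h1 (by rw [h2]; exact h3)
  have h5 : R u₁ ≤ q * Real.exp (-(k * (u₁ - u₀))) := by
    rw [Real.exp_neg, ← div_eq_mul_inv, le_div_iff₀ (Real.exp_pos _)]
    exact h4
  have h6 : aZD u₁ q en B E t b (fun _ => 1) = R u₁ * aZ u₁ q en (Mrg B t b) E (fun _ => 1) := by
    show _ = _ / _ * _
    rw [div_mul_cancel₀ _ (aZ_pos hu₁ hq0 en (Mrg B t b) E).ne']
  have h7 : (u₁ - u₀) * (q ^ 2 * c₁ ^ 4 / (C * (1 + u₁))) * ε = k * (u₁ - u₀) := by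
    rw [hk]; ring
  rw [h6, h7]
  exact mul_le_mul_of_nonneg_right h5 (aZ_pos hu₁ hq0 en (Mrg B t b) E).le

end Pool.Agent.Lib.MP_31386d_pr_POTTS
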