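import Pool.Agent.Lib.MP_31386d_pr_POTTS.Dict
import Pool.Agent.Lib.MP_31386d_pr_POTTS.SplitAbs
import Pool.Agent.Lib.MP_31386d_pr_POTTS.CondBase
import Pool.Agent.Lib.MP_31386d_pr_POTTS.RSet

/-!
# Exponential bound for the disconnection of two families of seeds

Module L12 of project POTTS.
-/

set_option autoImplicit false

namespace Pool.Agent.Lib.MP_31386d_pr_POTTS

open Finset
open Pool.Agent.Lib.MP_31386d_pr

variable {d : ℕ} {u q : ℝ}

private theorem SplitLat_pV {V : Finset (Pt d)} {x : Pt d} (h : x ∈ V) :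
    pV V x = some ⟨x, h⟩ := by
  unfold pV
  rw [dif_pos h]

/-- the base with the families `S` and `T` wired to `t` and `s` -/
private def SplitLat_B (V : Finset (Pt d)) (b : Finset (Ed d)) (S T : Finset (Pt d))
    (t s : Option {x // x ∈ V}) (x y : Option {x // x ∈ V}) : Prop :=
  (BE V b x y ∨ ∃ v ∈ S, x = pV V v ∧ y = t) ∨ ∃ w ∈ T, x = pV V w ∧ y = s

/-- adding the pairs of a finite family -/
private theorem SplitLat_add {W ι : Type} [Finite W] (en : ι → W × W) (B : W → W → Prop)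
    (ω : Finset ι) (f : Pt d → W) (t : W) (S : Finset (Pt d)) :
    cc en B ω ≤ cc en (fun x y => B x y ∨ ∃ v ∈ S, x = f v ∧ y = t) ω + S.card := by
  classical
  induction S using Finset.induction_on with
  | empty =>
    have h : (fun x y => B x y ∨ ∃ v ∈ (∅ : Finset (Pt d)), x = f v ∧ y = t) = B := by
      funext x y
      apply propext
      constructor
      · rintro (h | ⟨v, hv, -⟩)
        · exact h
        · exact absurd hv (notMem_empty v)
      · exact Or.inl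
    rw [h]
    exact Nat.le_add_right _ _
  | insert a S ha ih =>
    have h : (fun x y => B x y ∨ ∃ v ∈ insert a S, x = f v ∧ y = t) =
        Mrg (fun x y => B x y ∨ ∃ v ∈ S, x = f v ∧ y = t) (f a) t := by
      funext x y
      apply propext
      unfold Mrg
      constructor
      · rintro (h | ⟨v, hv, h1⟩)
        · exact Or.inl (Or.inl h)
        · rcases mem_insert.mp hv with rfl | hv
          · exact Or.inr h1
          · exact Or.inl (Or.inr ⟨v, hv, h1⟩)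
      · rintro ((h | ⟨v, hv, h1⟩) | h1)
        · exact Or.inl h
        · exact Or.inr ⟨v, mem_insert_of_mem hv, h1⟩
        · exact Or.inr ⟨a, mem_insert_self a S, h1⟩
    rw [h, card_insert_of_notMem ha]
    by_cases hc : Cn en (fun x y => B x y ∨ ∃ v ∈ S, x = f v ∧ y = t) ω (f a) t
    · rw [cc_mrg_of hc]
      omega
    · have := cc_mrg_not hc
      omega

/-- the number of clusters of the two bases -/
private theorem SplitLat_cc (V : Finset (Pt d)) (b : Finset (Ed d)) (S T : Finset (Pt d))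
    (t s : Option {x // x ∈ V}) (ω : Finset (Ed d)) :
    cc (enV V) (BE V b) ω ≤ cc (enV V) (SplitLat_B V b S T t s) ω + (S.card + T.card) := by
  have h1 := SplitLat_add (enV V) (BE V b) ω (pV V) t S
  have h2 := SplitLat_add (enV V) (fun x y => BE V b x y ∨ ∃ v ∈ S, x = pV V v ∧ y = t) ω
    (pV V) s T
  have h3 : cc (enV V) (SplitLat_B V b S T t s) ω =
      cc (enV V) (fun x y => (BE V b x y ∨ ∃ v ∈ S, x = pV V v ∧ y = t) ∨
        ∃ v ∈ T, x = pV V v ∧ y = s) ω := rfl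
  rw [h3]
  omega

private theorem SplitLat_kap (V : Finset (Pt d)) (b ω : Finset (Ed d)) :
    kap V (ω ∪ b) + 1 = cc (enV V) (BE V b) ω := by
  rw [← dict_cc (subset_refl V), ← cc_base]
  have h : (fun x y => BW V V x y ∨ BE V b x y) = BE V b := by
    funext x y
    apply propext
    constructor
    · rintro (h | h)
      · exact absurd h (not_BW_self x y)
      · exact h
    · exact Or.inr
  rw [h]

/-- an event without connections -/
private theorem SplitLat_cut {V : Finset (Pt d)} {b : Finset (Ed d)} (hb : b ⊆ EI V)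
    {I J : Finset (Pt d)} (hI : I ⊆ V) (hJ : J ⊆ V) {v₀ w₀ : Pt d} (hv₀ : v₀ ∈ I) (hw₀ : w₀ ∈ J)
    {ω : Finset (Ed d)} (hω : ω ⊆ EI V)
    (h : ∀ v ∈ I, ∀ w ∈ J, ¬ Conn (ω ∪ b) v w) :
    ¬ Cn (enV V) (SplitLat_B V b I J (pV V v₀) (pV V w₀)) ω (pV V v₀) (pV V w₀) := by
  intro hc
  let g : Option {x // x ∈ V} → Prop := fun o => ∃ x : {x // x ∈ V}, o = some x ∧
    ∃ v ∈ I, Conn (ω ∪ b) v x.1
  have hg : ∀ x ∈ V, (g (pV V x) ↔ ∃ v ∈ I, Conn (ω ∪ b) v x) := by
    intro x hx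
    rw [SplitLat_pV hx]
    constructor
    · rintro ⟨y, hy, hv⟩
      have h1 := Option.some.inj hy
      rw [← h1] at hv
      exact hv
    · intro hv
      exact ⟨⟨x, hx⟩, rfl, hv⟩
  have hedge : ∀ e ∈ ω ∪ b, g (pV V e.1) = g (pV V (tgt e)) := by
    intro e he
    have heV : e ∈ EI V := by
      rcases mem_union.mp he with h1 | h1
      · exact hω h1
      · exact hb h1
    rw [mem_EI] at heV
    apply propext
    rw [hg _ heV.1, hg _ heV.2]
    have hadj : Adj (ω ∪ b) e.1 (tgt e) := ⟨e, he, Or.inl ⟨rfl, rfl⟩⟩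
    constructor
    · rintro ⟨v, hv, hc⟩
      exact ⟨v, hv, hc.trans hadj.conn⟩
    · rintro ⟨v, hv, hc⟩
      exact ⟨v, hv, hc.trans hadj.symm.conn⟩
  have hgI : ∀ v ∈ I, g (pV V v) := fun v hv => (hg v (hI hv)).mpr ⟨v, hv, Conn.refl _ _⟩
  have hgJ : ∀ w ∈ J, ¬ g (pV V w) := by
    intro w hw hgw
    obtain ⟨v, hv, hc⟩ := (hg w (hJ hw)).mp hgw
    exact h v hv w hw hc
  have key : g (pV V v₀) = g (pV V w₀) := by
    refine Cn.const hc (g := g) ?_ ?_
    · rintro x y ((⟨e, he, hxy⟩ | ⟨v, hv, rfl, rfl⟩) | ⟨w, hw, rfl, rfl⟩)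
      · have h1 : x = pV V e.1 := (congrArg Prod.fst hxy).symm
        have h2 : y = pV V (tgt e) := (congrArg Prod.snd hxy).symm
        rw [h1, h2]
        exact hedge e (mem_union_right _ he)
      · exact propext ⟨fun _ => hgI v₀ hv₀, fun _ => hgI v hv⟩
      · exact propext ⟨fun h' => absurd h' (hgJ w hw), fun h' => absurd h' (hgJ w₀ hw₀)⟩
    · intro e he
      exact hedge e (mem_union_left _ he)
  have h1 := hgI v₀ hv₀
  rw [key] at h1
  exact hgJ w₀ hw₀ h1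

theorem split_lat {C : ℝ} (hq : 1 ≤ q) (hC : 0 < C) (hQ : Q2 q C) (V : Finset (Pt d))
    {b : Finset (Ed d)} (hb : b ⊆ EI V) {A : Finset (Pt d)} (hA : A ⊆ V) {u₀ u₁ : ℝ}
    (hu₀ : 0 < u₀) (hu : u₀ ≤ u₁) {c₁ : ℝ} (hc₁ : 0 < c₁)
    (hc : ∀ x ∈ A, ∀ y ∈ A, c₁ ≤ Pb u₀ q V (EI V) (fun ω => Conn ω x y))
    {I J : Finset (Pt d)} (hI : I ⊆ A) (hJ : J ⊆ A) (hIne : I.Nonempty) (hJne : J.Nonempty)
    {ε : ℝ} (hε : 0 ≤ ε)
    (hen : ∀ h : Pt d → ℝ, (∀ x, (∃ v ∈ I, Conn b v x) → h x = 1) →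
      (∀ x, (∃ v ∈ J, Conn b v x) → h x = 0) → ε ≤ En h A) :
    PbB u₁ q V (EI V) b (fun ω => ∀ v ∈ I, ∀ w ∈ J, ¬ Conn ω v w) ≤
      q ^ (I.card + J.card + 1) *
        Real.exp (-((u₁ - u₀) * (q ^ 2 * c₁ ^ 4 / (C * (1 + u₁))) * ε)) := by
  classical
  have hu₁ : 0 < u₁ := lt_of_lt_of_le hu₀ hu
  have hq0 : 0 < q := lt_of_lt_of_le one_pos hq
  have hIV : I ⊆ V := hI.trans hA
  have hJV : J ⊆ V := hJ.trans hA
  by_cases hcase : ∃ v ∈ I, ∃ w ∈ J, Conn b v w
  · obtain ⟨v, hv, w, hw, hvw⟩ := hcase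
    have h1 : PbB u₁ q V (EI V) b (fun ω => ∀ v ∈ I, ∀ w ∈ J, ¬ Conn ω v w) = 0 := by
      unfold PbB
      rw [← ExB_const (V := V) hu₁ hq hb 0]
      apply ExB_congr
      intro ω hbω _
      apply ind_not
      intro h
      exact h v hv w hw (hvw.mono hbω)
    rw [h1]
    positivity
  push Not at hcase
  obtain ⟨v₀, hv₀⟩ := hIne
  obtain ⟨w₀, hw₀⟩ := hJne
  obtain ⟨B, hB⟩ : ∃ B, B = SplitLat_B V b I J (pV V v₀) (pV V w₀) := ⟨_, rfl⟩
  -- the two bases
  have hBE : ∀ x y, BE V b x y → B x y := by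
    intro x y h
    rw [hB]
    exact Or.inl (Or.inl h)
  have hBM : ∀ x y, BE V b x y → Mrg B (pV V v₀) (pV V w₀) x y := fun x y h =>
    Or.inl (hBE x y h)
  have hcut : ∀ ω, ω ⊆ EI V → (∀ v ∈ I, ∀ w ∈ J, ¬ Conn (ω ∪ b) v w) →
      ¬ Cn (enV V) B ω (pV V v₀) (pV V w₀) := by
    intro ω hω h
    rw [hB]
    exact SplitLat_cut hb hIV hJV hv₀ hw₀ hω h
  have htb : ¬ Cn (enV V) B ∅ (pV V v₀) (pV V w₀) := by
    apply hcut ∅ (empty_subset _)
    intro v hv w hw h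
    rw [empty_union] at h
    exact hcase v hv w hw h
  -- the abstract inequality
  have hsplit : aZD u₁ q (enV V) B (EI V) (pV V v₀) (pV V w₀) (fun _ => 1) ≤
      q * Real.exp (-((u₁ - u₀) * (q ^ 2 * c₁ ^ 4 / (C * (1 + u₁))) * ε)) *
        aZ u₁ q (enV V) (Mrg B (pV V v₀) (pV V w₀)) (EI V) (fun _ => 1) := by
    refine split_abs hq hC hQ htb hu₀ hu hc₁ (EI_mono hA) ?_ hε ?_
    · have hmx : ∀ u ∈ Set.Icc u₀ u₁, ∀ x ∈ A,
          c₁ ≤ mm u q (enV V) B (EI V) (pV V v₀) (pV V w₀) (pV V x) := by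
        intro u hu' x hx
        have hu0 : 0 < u := lt_of_lt_of_le hu₀ hu'.1
        have h1 := hc x hx v₀ (hI hv₀)
        have h2 := Pb_conn_mono_u hu₀ hu'.1 hq V x v₀
        have h3 : Pb u q V (EI V) (fun ω => Conn ω x v₀) ≤
            Pb u q V (EI V) (fun ω => ConnP V ω x v₀) :=
          Pb_mono hu0 hq (fun ω _ h => h.connP)
        have h4 := dict_aC hu0 hq (subset_refl V) (EI V) x v₀
        have h5 : aC u q (enV V) (BW V V) (EI V) (pV V x) (pV V v₀) ≤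
            aC u q (enV V) (Mrg B (pV V v₀) (pV V w₀)) (EI V) (pV V x) (pV V v₀) :=
          aC_dom hu0 hq (fun a b' h => absurd h (not_BW_self a b')) _ _
        unfold mm
        linarith
      intro u hu' e he
      rw [mem_EI] at he
      exact ⟨hmx u hu' _ he.1, hmx u hu' _ he.2⟩
    · intro h ht hs
      have hcn : ∀ v x, Conn b v x → Cn (enV V) B ∅ (pV V v) (pV V x) := by
        intro v x hvx
        have h1 : Cn (enV V) (BW V V) (∅ ∪ b) (pV V v) (pV V x) := by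
          rw [empty_union, dict_cn (subset_refl V)]
          exact hvx.connP
        rw [← cn_base] at h1
        refine Cn.mono ?_ (subset_refl ∅) h1
        rintro x y (h2 | h2)
        · exact absurd h2 (not_BW_self x y)
        · exact hBE x y h2
      have h1 := hen (fun x => h (pV V x)) (by
        rintro x ⟨v, hv, hvx⟩
        apply ht
        have h2 : Cn (enV V) B ∅ (pV V v) (pV V v₀) := by
          apply Cn.of_base
          rw [hB]
          exact Or.inl (Or.inr ⟨v, hv, rfl, rfl⟩)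
        exact (hcn v x hvx).symm.trans h2) (by
        rintro x ⟨w, hw, hwx⟩
        apply hs
        have h2 : Cn (enV V) B ∅ (pV V w) (pV V w₀) := by
          apply Cn.of_base
          rw [hB]
          exact Or.inr ⟨w, hw, rfl, rfl⟩
        exact (hcn w x hwx).symm.trans h2)
      exact h1
  -- conditioning
  obtain ⟨Nf, hNf⟩ : ∃ Nf, Nf = ∑ ω ∈ (EI V).powerset, u₁ ^ ω.card * q ^ kap V (ω ∪ b) *
      ind (∀ v ∈ I, ∀ w ∈ J, ¬ Conn (ω ∪ b) v w) := ⟨_, rfl⟩
  obtain ⟨D, hD⟩ : ∃ D, D = ∑ ω ∈ (EI V).powerset, u₁ ^ ω.card * q ^ kap V (ω ∪ b) * (1 : ℝ) :=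
    ⟨_, rfl⟩
  have hβ : 0 < ((1 + u₁) / u₁) ^ b.card := by positivity
  have c1 := cond_base (q := q) hu₁ V hb (fun ω => ind (∀ v ∈ I, ∀ w ∈ J, ¬ Conn ω v w))
  have c2 := cond_base (q := q) hu₁ V hb (fun _ => (1 : ℝ))
  rw [← hNf] at c1
  rw [← hD] at c2
  have hDpos : 0 < D := by
    rw [hD]
    apply Finset.sum_pos
    · intro ω _
      positivity
    · exact ⟨∅, by simp⟩
  have hP : PbB u₁ q V (EI V) b (fun ω => ∀ v ∈ I, ∀ w ∈ J, ¬ Conn ω v w) = Nf / D := by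
    unfold PbB ExB
    have h1 : Zs u₁ q V (EI V) (fun ω => ind (b ⊆ ω)) =
        Zs u₁ q V (EI V) (fun ω => ind (b ⊆ ω) * 1) := by
      congr 1
      funext ω
      rw [mul_one]
    rw [h1, ← c1, ← c2, mul_div_mul_right _ _ hβ.ne']
  have hkap : ∀ ω, q * q ^ kap V (ω ∪ b) = q ^ cc (enV V) (BE V b) ω := by
    intro ω
    rw [← SplitLat_kap, pow_succ, mul_comm]
  have hN1 : q * Nf ≤ q ^ (I.card + J.card) *
      aZD u₁ q (enV V) B (EI V) (pV V v₀) (pV V w₀) (fun _ => 1) := by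
    unfold aZD aZ
    rw [hNf, mul_sum, mul_sum]
    apply sum_le_sum
    intro ω hω
    rw [mem_powerset] at hω
    have h1 : q * q ^ kap V (ω ∪ b) ≤ q ^ (I.card + J.card) * q ^ cc (enV V) B ω := by
      rw [hkap, ← pow_add]
      apply pow_le_pow_right₀ hq
      rw [hB]
      have := SplitLat_cc V b I J (pV V v₀) (pV V w₀) ω
      omega
    have h2 : ind (∀ v ∈ I, ∀ w ∈ J, ¬ Conn (ω ∪ b) v w) ≤
        ind (¬ Cn (enV V) B ω (pV V v₀) (pV V w₀)) := ind_mono (hcut ω hω)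
    calc q * (u₁ ^ ω.card * q ^ kap V (ω ∪ b) *
          ind (∀ v ∈ I, ∀ w ∈ J, ¬ Conn (ω ∪ b) v w))
        = u₁ ^ ω.card * (q * q ^ kap V (ω ∪ b)) *
          ind (∀ v ∈ I, ∀ w ∈ J, ¬ Conn (ω ∪ b) v w) := by ring
      _ ≤ u₁ ^ ω.card * (q ^ (I.card + J.card) * q ^ cc (enV V) B ω) *
          ind (¬ Cn (enV V) B ω (pV V v₀) (pV V w₀)) := by
        apply mul_le_mul _ h2 (ind_nonneg _) (by positivity)
        exact mul_le_mul_of_nonneg_left h1 (by positivity)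
      _ = _ := by ring
  have hD1 : aZ u₁ q (enV V) (Mrg B (pV V v₀) (pV V w₀)) (EI V) (fun _ => 1) ≤ q * D := by
    unfold aZ
    rw [hD, mul_sum]
    apply sum_le_sum
    intro ω _
    have h1 : q ^ cc (enV V) (Mrg B (pV V v₀) (pV V w₀)) ω ≤ q * q ^ kap V (ω ∪ b) := by
      rw [hkap]
      exact pow_le_pow_right₀ hq (cc_mono hBM (subset_refl ω))
    calc u₁ ^ ω.card * q ^ cc (enV V) (Mrg B (pV V v₀) (pV V w₀)) ω * 1
        = u₁ ^ ω.card * q ^ cc (enV V) (Mrg B (pV V v₀) (pV V w₀)) ω := by ring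
      _ ≤ u₁ ^ ω.card * (q * q ^ kap V (ω ∪ b)) :=
        mul_le_mul_of_nonneg_left h1 (by positivity)
      _ = _ := by ring
  obtain ⟨X, hX⟩ : ∃ X, X = Real.exp (-((u₁ - u₀) * (q ^ 2 * c₁ ^ 4 / (C * (1 + u₁))) * ε)) :=
    ⟨_, rfl⟩
  rw [← hX] at hsplit ⊢
  have hX0 : 0 < X := by
    rw [hX]
    exact Real.exp_pos _
  rw [hP, div_le_iff₀ hDpos]
  have h1 : q * Nf ≤ q * (q ^ (I.card + J.card + 1) * X * D) := by
    calc q * Nf ≤ q ^ (I.card + J.card) *
          aZD u₁ q (enV V) B (EI V) (pV V v₀) (pV V w₀) (fun _ => 1) := hN1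
      _ ≤ q ^ (I.card + J.card) * (q * X *
          aZ u₁ q (enV V) (Mrg B (pV V v₀) (pV V w₀)) (EI V) (fun _ => 1)) :=
        mul_le_mul_of_nonneg_left hsplit (by positivity)
      _ ≤ q ^ (I.card + J.card) * (q * X * (q * D)) := by
        apply mul_le_mul_of_nonneg_left _ (by positivity)
        exact mul_le_mul_of_nonneg_left hD1 (by positivity)
      _ = _ := by
        rw [pow_succ]
        ring
  exact le_of_mul_le_mul_left h1 hq0

end Pool.Agent.Lib.MP_31386d_pr_POTTS
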