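import Pool.Agent.Lib.MP_31386d_pr_POTTS.AvgStep

/-!
# Telescoping along nested boxes

Module E3 of project POTTS (pure analysis on the lattice).
-/

set_option autoImplicit false

namespace Pool.Agent.Lib.MP_31386d_pr_POTTS

open Finset
open Pool.Agent.Lib.MP_31386d_pr

variable {d : ℕ}

private lemma Telescope_geom (a : ℕ → ℝ) (R : ℝ) (L : ℕ)
    (h : ∀ m < L, |a m - a (m + 1)| ≤ R * (3 / 4) ^ (m + 1)) :
    |a 0 - a L| ≤ 3 * (1 - (3 / 4) ^ L) * R := by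
  induction L with
  | zero => simp
  | succ L ih =>
    have h1 := ih fun m hm => h m (by omega)
    have h2 := h L (by omega)
    have h3 : |a 0 - a (L + 1)| ≤ |a 0 - a L| + |a L - a (L + 1)| := abs_sub_le _ _ _
    have h4 : 3 * (1 - (3 / 4 : ℝ) ^ (L + 1)) * R =
        3 * (1 - (3 / 4 : ℝ) ^ L) * R + R * (3 / 4) ^ (L + 1) := by
      rw [pow_succ]
      ring
    rw [h4]
    linarith

private lemma Telescope_sq (m : ℕ) : (1 / 2 : ℝ) ^ m ≤ ((3 / 4) ^ m) ^ 2 := by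
  rw [← pow_mul, mul_comm, pow_mul]
  exact pow_le_pow_left₀ (by norm_num) (by norm_num) m

/-- Telescoping along an increasing sequence of boxes with sides `s, 2 s, …, 2 ^ L s`. -/
theorem telescope (hd : 3 ≤ d) (h : Pt d → ℝ) {s : ℕ} (hs : 1 ≤ s) (c : ℕ → Pt d) (L : ℕ)
    (hc : ∀ m < L, bx (c m) (s * 2 ^ m) ⊆ bx (c (m + 1)) (s * 2 ^ (m + 1))) :
    (avg h (c 0) s - avg h (c L) (s * 2 ^ L)) ^ 2 * (s : ℝ) ^ (d - 2) ≤
      9 * (2 ^ d * d) * En h (bx (c L) (s * 2 ^ L)) := by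
  set E := En h (bx (c L) (s * 2 ^ L)) with hE
  have hE0 : 0 ≤ E := by
    rw [hE]
    unfold En
    exact sum_nonneg fun e _ => sq_nonneg _
  have hmono : ∀ k m, m + k = L → bx (c m) (s * 2 ^ m) ⊆ bx (c L) (s * 2 ^ L) := by
    intro k
    induction k with
    | zero =>
      intro m hm
      rw [add_zero] at hm
      rw [hm]
    | succ k ih =>
      intro m hm
      exact (hc m (by omega)).trans (ih (m + 1) (by omega))
  have hs0 : (0 : ℝ) < (s : ℝ) ^ (d - 2) := by positivity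
  set a : ℕ → ℝ := fun m => avg h (c m) (s * 2 ^ m) with ha
  set R : ℝ := Real.sqrt (2 ^ d * d * E) with hR
  have hR2 : R ^ 2 = 2 ^ d * d * E := Real.sq_sqrt (by positivity)
  have hR0 : 0 ≤ R := Real.sqrt_nonneg _
  set Q : ℝ := Real.sqrt ((s : ℝ) ^ (d - 2)) with hQ
  have hQ2 : Q ^ 2 = (s : ℝ) ^ (d - 2) := Real.sq_sqrt hs0.le
  have hQ0 : 0 ≤ Q := Real.sqrt_nonneg _
  have hstep : ∀ m < L, |Q * a m - Q * a (m + 1)| ≤ R * (3 / 4) ^ (m + 1) := by
    intro m hm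
    have h1 : bx (c m) (s * 2 ^ m) ⊆ bx (c (m + 1)) (2 * (s * 2 ^ m)) := by
      have h2 : 2 * (s * 2 ^ m) = s * 2 ^ (m + 1) := by
        rw [pow_succ]
        ring
      rw [h2]
      exact hc m hm
    have h3 := avg_step (by omega : 2 ≤ d) h (l := s * 2 ^ m)
      (Nat.one_le_iff_ne_zero.2 (by positivity)) h1
    have h2 : 2 * (s * 2 ^ m) = s * 2 ^ (m + 1) := by
      rw [pow_succ]
      ring
    rw [h2] at h3
    have h4 : En h (bx (c (m + 1)) (s * 2 ^ (m + 1))) ≤ E :=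
      En_mono h (hmono (L - (m + 1)) (m + 1) (by omega))
    have h5 : (a m - a (m + 1)) ^ 2 * ((s * 2 ^ (m + 1) : ℕ) : ℝ) ^ (d - 2) ≤ R ^ 2 := by
      rw [hR2]
      refine h3.trans ?_
      exact mul_le_mul_of_nonneg_left h4 (by positivity)
    have h6 : (s : ℝ) ^ (d - 2) * 2 ^ (m + 1) ≤ ((s * 2 ^ (m + 1) : ℕ) : ℝ) ^ (d - 2) := by
      push_cast
      rw [mul_pow]
      refine mul_le_mul_of_nonneg_left ?_ hs0.le
      have h7 : (1 : ℝ) ≤ 2 ^ (m + 1) := one_le_pow₀ (by norm_num)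
      calc (2 : ℝ) ^ (m + 1) = (2 ^ (m + 1)) ^ 1 := (pow_one _).symm
        _ ≤ (2 ^ (m + 1)) ^ (d - 2) := pow_le_pow_right₀ h7 (by omega)
    have h8 : (a m - a (m + 1)) ^ 2 * ((s : ℝ) ^ (d - 2) * 2 ^ (m + 1)) ≤ R ^ 2 :=
      (mul_le_mul_of_nonneg_left h6 (sq_nonneg _)).trans h5
    have h9 : (Q * a m - Q * a (m + 1)) ^ 2 ≤ (R * (3 / 4) ^ (m + 1)) ^ 2 := by
      have h10 : (Q * a m - Q * a (m + 1)) ^ 2 = (a m - a (m + 1)) ^ 2 * (s : ℝ) ^ (d - 2) := by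
        rw [← hQ2]
        ring
      have h11 : (a m - a (m + 1)) ^ 2 * (s : ℝ) ^ (d - 2) ≤ R ^ 2 * (1 / 2) ^ (m + 1) := by
        have h12 : (a m - a (m + 1)) ^ 2 * (s : ℝ) ^ (d - 2) =
            (a m - a (m + 1)) ^ 2 * ((s : ℝ) ^ (d - 2) * 2 ^ (m + 1)) * (1 / 2) ^ (m + 1) := by
          have : (2 : ℝ) ^ (m + 1) * (1 / 2) ^ (m + 1) = 1 := by
            rw [← mul_pow]
            norm_num
          calc _ = (a m - a (m + 1)) ^ 2 * (s : ℝ) ^ (d - 2) *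
              ((2 : ℝ) ^ (m + 1) * (1 / 2) ^ (m + 1)) := by rw [this, mul_one]
            _ = _ := by ring
        rw [h12]
        exact mul_le_mul_of_nonneg_right h8 (by positivity)
      rw [h10, mul_pow]
      exact h11.trans (mul_le_mul_of_nonneg_left (Telescope_sq _) (sq_nonneg _))
    exact abs_le_of_sq_le_sq h9 (by positivity)
  have hfin := Telescope_geom (fun m => Q * a m) R L hstep
  have hfin2 : |Q * a 0 - Q * a L| ≤ 3 * R := by
    refine hfin.trans ?_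
    have h1 : 3 * (1 - (3 / 4 : ℝ) ^ L) ≤ 3 := by
      have : (0 : ℝ) ≤ (3 / 4) ^ L := by positivity
      linarith
    exact mul_le_mul_of_nonneg_right h1 hR0
  have hfin3 : (Q * a 0 - Q * a L) ^ 2 ≤ (3 * R) ^ 2 := by
    rw [← sq_abs (Q * a 0 - Q * a L)]
    exact pow_le_pow_left₀ (abs_nonneg _) hfin2 2
  have ha0 : a 0 = avg h (c 0) s := by
    show avg h (c 0) (s * 2 ^ 0) = _
    rw [pow_zero, mul_one]
  calc (avg h (c 0) s - avg h (c L) (s * 2 ^ L)) ^ 2 * (s : ℝ) ^ (d - 2)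
      = (Q * a 0 - Q * a L) ^ 2 := by
        rw [← hQ2, ha0]
        show _ = (Q * avg h (c 0) s - Q * avg h (c L) (s * 2 ^ L)) ^ 2
        ring
    _ ≤ (3 * R) ^ 2 := hfin3
    _ = 9 * (2 ^ d * d) * E := by
        rw [mul_pow, hR2]
        ring

end Pool.Agent.Lib.MP_31386d_pr_POTTS
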